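import Pool.Agent.LibBE37F.N1a

/-! The scale of the block is less than every power of `2 ^ k`. -/

open MeasureTheory Set Filter Topology
open scoped ContDiff unitInterval

namespace F37

variable [Sq]

open BGS BR B35

/-- the logarithm of the scale -/
private noncomputable def lk (k : ℕ) : ℝ := Real.log ((bk k : ℝ) + 1)

private theorem log2_pos (k : ℕ) : 0 < Real.log ((k : ℝ) + 2) :=
  Real.log_pos (by have : (0 : ℝ) ≤ k := Nat.cast_nonneg k; linarith)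

private theorem bk1_pos (k : ℕ) : (0 : ℝ) < (bk k : ℝ) + 1 := by positivity

private theorem lk_ge (k : ℕ) : Sq.g k ≤ lk k := by
  unfold lk
  rw [Real.le_log_iff_exp_le (bk1_pos k)]
  have h : Real.exp (Sq.g k) ≤ (⌈Real.exp (Sq.g k)⌉₊ : ℝ) := Nat.le_ceil _
  have hk : (0 : ℝ) ≤ k := Nat.cast_nonneg k
  unfold bk
  push_cast
  linarith

private theorem lk_le (k : ℕ) : lk k ≤ Sq.g k + (Real.log ((k : ℝ) + 2) + 1) := by
  have hk : (0 : ℝ) ≤ k := Nat.cast_nonneg k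
  have h1 : (⌈Real.exp (Sq.g k)⌉₊ : ℝ) < Real.exp (Sq.g k) + 1 :=
    Nat.ceil_lt_add_one (Real.exp_pos _).le
  have h2 : 1 ≤ Real.exp (Sq.g k) := Real.one_le_exp (Sq.nonneg k)
  have h3 : (2 : ℝ) ≤ Real.exp 1 := by
    have := Real.add_one_le_exp (1 : ℝ)
    linarith
  have h4 : (0 : ℝ) < (k : ℝ) + 2 := by linarith
  unfold lk
  rw [Real.log_le_iff_le_exp (bk1_pos k), Real.exp_add, Real.exp_add, Real.exp_log h4]
  have h5 : (bk k : ℝ) + 1 ≤ Real.exp (Sq.g k) * ((k : ℝ) + 2 + 1) := by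
    unfold bk
    push_cast
    nlinarith
  refine h5.trans (mul_le_mul_of_nonneg_left ?_ (Real.exp_pos _).le)
  nlinarith

private theorem lk_nonneg (k : ℕ) : 0 ≤ lk k := (Sq.nonneg k).trans (lk_ge k)

private theorem Lm_eq (κ : ℝ) (k : ℕ) : Lm κ k = Real.exp (κ * lk k) := by
  unfold Lm lk
  rw [Real.rpow_def_of_pos (bk1_pos k), mul_comm]

private theorem E4' (A : ℝ) : ∀ᶠ k : ℕ in atTop, A * Real.log ((k : ℝ) + 2) + A ≤ lk k := by
  filter_upwards [Sq.big (3 * |A|)] with k h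
  have h1 := log2_pos k
  have h2 : Real.log 2 ≤ Real.log ((k : ℝ) + 2) :=
    Real.log_le_log (by norm_num) (by have : (0 : ℝ) ≤ k := Nat.cast_nonneg k; linarith)
  have h3 := Real.log_two_gt_d9
  have h4 := le_abs_self A
  have h5 := abs_nonneg A
  refine le_trans ?_ (h.trans (lk_ge k))
  have h6 : A * Real.log ((k : ℝ) + 2) ≤ |A| * Real.log ((k : ℝ) + 2) :=
    mul_le_mul_of_nonneg_right h4 h1.le
  have h7 : A ≤ 2 * |A| * Real.log ((k : ℝ) + 2) := by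
    have h8 : |A| * 1 ≤ |A| * (2 * Real.log ((k : ℝ) + 2)) :=
      mul_le_mul_of_nonneg_left (by linarith) h5
    linarith
  linarith

private theorem E1' (A : ℝ) : ∀ᶠ k : ℕ in atTop, A ≤ lk k := by
  filter_upwards [E4' |A|] with k hk
  have h1 := mul_nonneg (abs_nonneg A) (log2_pos k).le
  linarith [le_abs_self A]

private theorem E2' (A : ℝ) {d : ℝ} (hd : 0 < d) : ∀ᶠ k : ℕ in atTop,
    A * lk k + A ≤ d * k := by
  filter_upwards [Sq.sub (d / (6 * (|A| + 1))) (by positivity), Sq.big 3] with k h1 h2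
  have h3 := log2_pos k
  have h4 : Real.log 2 ≤ Real.log ((k : ℝ) + 2) :=
    Real.log_le_log (by norm_num) (by have : (0 : ℝ) ≤ k := Nat.cast_nonneg k; linarith)
  have h5 := Real.log_two_gt_d9
  have h6 := abs_nonneg A
  have h7 : A * lk k ≤ |A| * lk k := mul_le_mul_of_nonneg_right (le_abs_self A) (lk_nonneg k)
  have h8 : |A| * lk k ≤ |A| * (Sq.g k + (Real.log ((k : ℝ) + 2) + 1)) :=
    mul_le_mul_of_nonneg_left (lk_le k) h6
  have h9 : Sq.g k + (Real.log ((k : ℝ) + 2) + 1) + 1 ≤ 6 * Sq.g k := by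
    have : (0 : ℝ) ≤ Sq.g k := Sq.nonneg k
    linarith
  have h10 : A * lk k + A ≤ (|A| + 1) * (6 * Sq.g k) := by
    have h11 : |A| * (Sq.g k + (Real.log ((k : ℝ) + 2) + 1) + 1) ≤ |A| * (6 * Sq.g k) :=
      mul_le_mul_of_nonneg_left h9 h6
    have h12 : (0 : ℝ) ≤ Sq.g k := Sq.nonneg k
    linarith [le_abs_self A]
  refine h10.trans ?_
  have h13 : (|A| + 1) * (6 * Sq.g k) ≤ (|A| + 1) * (6 * (d / (6 * (|A| + 1)) * k)) :=
    mul_le_mul_of_nonneg_left (by linarith) (by positivity)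
  refine h13.trans (le_of_eq ?_)
  field_simp

private theorem le_exp_abs (A x : ℝ) : A * Real.exp x ≤ Real.exp (|A| + x) := by
  rw [Real.exp_add]
  refine mul_le_mul_of_nonneg_right ?_ (Real.exp_pos x).le
  have := Real.add_one_le_exp |A|
  linarith [le_abs_self A]

theorem bk_tendsto : Tendsto bk atTop atTop := by
  refine tendsto_atTop.2 fun n => ?_
  filter_upwards [E1' (Real.log ((n : ℝ) + 1))] with k hk
  unfold lk at hk
  have h1 := (Real.log_le_log_iff (by positivity) (bk1_pos k)).1 hk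
  have h2 : (n : ℝ) ≤ bk k := by linarith
  exact_mod_cast h2

theorem Lm_one (κ : ℝ) (hκ : 0 ≤ κ) (k : ℕ) : 1 ≤ Lm κ k := by
  exact Real.one_le_rpow (by have : (0 : ℝ) ≤ bk k := Nat.cast_nonneg _; linarith) hκ

theorem Lm_add (κ κ' : ℝ) (k : ℕ) : Lm (κ + κ') k = Lm κ k * Lm κ' k := by
  exact Real.rpow_add (bk1_pos k) κ κ'

theorem Lm_pow (κ : ℝ) (n : ℝ) (k : ℕ) : Lm κ k ^ n = Lm (κ * n) k := by
  exact (Real.rpow_mul (bk1_pos k).le κ n).symm

/-- less than every power of `2^k` -/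
theorem Lm_sub (κ : ℝ) {A d : ℝ} (hd : 0 < d) : ∀ᶠ k : ℕ in atTop,
    A * Lm κ k ≤ (2 : ℝ) ^ (d * k) := by
  filter_upwards [E2' (|A| + |κ|) (d := Real.log 2 * d) (mul_pos (Real.log_pos one_lt_two) hd)]
    with k hk
  rw [Lm_eq, Real.rpow_def_of_pos two_pos]
  refine (le_exp_abs A _).trans (Real.exp_le_exp.2 ?_)
  have h1 := lk_nonneg k
  have h2 : κ * lk k ≤ |κ| * lk k := mul_le_mul_of_nonneg_right (le_abs_self κ) h1
  have h3 : 0 ≤ |A| * lk k := mul_nonneg (abs_nonneg A) h1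
  have h4 := abs_nonneg κ
  nlinarith

theorem Lm_lt {κ κ' : ℝ} (h : κ < κ') (A : ℝ) : ∀ᶠ k : ℕ in atTop, A * Lm κ k ≤ Lm κ' k := by
  filter_upwards [E1' (|A| / (κ' - κ))] with k hk
  rw [Lm_eq, Lm_eq]
  refine (le_exp_abs A _).trans (Real.exp_le_exp.2 ?_)
  have h1 := (div_le_iff₀ (sub_pos.2 h)).1 hk
  nlinarith

theorem k_Lm {κ : ℝ} (hκ : 0 < κ) (A : ℝ) : ∀ᶠ k : ℕ in atTop, A * ((k : ℝ) + 1) ≤ Lm κ k := by
  filter_upwards [E4' ((|A| + 1) / κ)] with k hk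
  rw [Lm_eq]
  have h1 : (0 : ℝ) < (k : ℝ) + 2 := by positivity
  have h2 : A * ((k : ℝ) + 1) ≤ |A| * ((k : ℝ) + 2) := by
    have h3 : A * ((k : ℝ) + 1) ≤ |A| * ((k : ℝ) + 1) :=
      mul_le_mul_of_nonneg_right (le_abs_self A) (by positivity)
    have h4 := abs_nonneg A
    linarith
  have h5 : |A| * ((k : ℝ) + 2) ≤ Real.exp (|A| + Real.log ((k : ℝ) + 2)) := by
    have := le_exp_abs |A| (Real.log ((k : ℝ) + 2))
    rw [Real.exp_log h1, abs_abs] at this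
    exact this
  refine (h2.trans h5).trans (Real.exp_le_exp.2 ?_)
  have h6 := log2_pos k
  have h7 : ((|A| + 1) / κ * Real.log ((k : ℝ) + 2) + (|A| + 1) / κ) * κ ≤ lk k * κ :=
    mul_le_mul_of_nonneg_right hk hκ.le
  have h8 : ((|A| + 1) / κ * Real.log ((k : ℝ) + 2) + (|A| + 1) / κ) * κ =
      (|A| + 1) * Real.log ((k : ℝ) + 2) + (|A| + 1) := by
    field_simp
  rw [h8] at h7
  have h9 : 0 ≤ |A| * Real.log ((k : ℝ) + 2) := mul_nonneg (abs_nonneg A) h6.le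
  linarith

theorem t_beats (p : Pr) (hp : 0 < p.δ) (κ C B : ℝ) : ∀ᶠ k : ℕ in atTop,
    Real.exp (C * Lm κ k + C * k) * p.t k ≤ (2 : ℝ) ^ (-(B * k)) := by
  filter_upwards [Lm_sub κ (A := 2 * C) hp, Lm_sub 1 (A := 2) hp,
    k_Lm one_pos |C + B * Real.log 2|] with k h1 h2 h3
  rw [Pr.t, ← Real.exp_add, Real.rpow_def_of_pos two_pos (-(B * k))]
  refine Real.exp_le_exp.2 ?_
  have hk0 : (0 : ℝ) ≤ k := Nat.cast_nonneg k
  have h4 : (C + B * Real.log 2) * k ≤ |C + B * Real.log 2| * ((k : ℝ) + 1) := by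
    have h5 : (C + B * Real.log 2) * k ≤ |C + B * Real.log 2| * k :=
      mul_le_mul_of_nonneg_right (le_abs_self _) hk0
    have h6 := abs_nonneg (C + B * Real.log 2)
    linarith
  linarith

theorem sum_bk {c : ℝ} (hc : 0 < c) : Summable fun k : ℕ => Lm (-c) k := by
  have h0 : Summable fun k : ℕ => 1 / (((k : ℕ) : ℝ) + 2) ^ 2 := by
    have h1 : Summable fun n : ℕ => 1 / ((n : ℝ)) ^ 2 :=
      Real.summable_one_div_nat_pow.2 (by norm_num)
    refine ((summable_nat_add_iff 2).2 h1).congr fun m => ?_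
    push_cast
    rfl
  refine Summable.of_norm_bounded_eventually_nat h0 ?_
  filter_upwards [E4' (2 / c)] with k hk
  have h1 : (0 : ℝ) < (k : ℝ) + 2 := by positivity
  rw [Lm_eq, Real.norm_of_nonneg (Real.exp_pos _).le]
  have h2 : 1 / ((k : ℝ) + 2) ^ 2 = Real.exp (-(2 * Real.log ((k : ℝ) + 2))) := by
    rw [Real.exp_neg, two_mul, Real.exp_add, Real.exp_log h1, one_div, sq]
  rw [h2]
  refine Real.exp_le_exp.2 ?_
  have h3 := log2_pos k
  have h4 : (2 / c * Real.log ((k : ℝ) + 2) + 2 / c) * c ≤ lk k * c :=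
    mul_le_mul_of_nonneg_right hk hc.le
  have h5 : (2 / c * Real.log ((k : ℝ) + 2) + 2 / c) * c =
      2 * Real.log ((k : ℝ) + 2) + 2 := by
    field_simp
  rw [h5] at h4
  linarith

theorem Nk_le {κ : ℝ} (hκ : 0 ≤ κ) (k : ℕ) : Lm (2 * κ) k ≤ Nk κ k ∧
    (Nk κ k : ℝ) ≤ Lm (2 * κ) k + 1 ∧ (Nk κ k : ℝ) ≤ 2 * Lm (2 * κ) k := by
  have h1 : 1 ≤ Lm (2 * κ) k := Lm_one _ (by linarith) k
  have h2 : Lm (2 * κ) k ≤ Nk κ k := Nat.le_ceil _
  have h3 : (Nk κ k : ℝ) < Lm (2 * κ) k + 1 := Nat.ceil_lt_add_one (by linarith)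
  exact ⟨h2, h3.le, by linarith⟩

theorem e_pos (p : Pr) (k : ℕ) : 0 < p.e k := Real.rpow_pos_of_pos two_pos _

theorem e_le (p : Pr) (hp : 0 < p.δ) (k : ℕ) : p.e k ≤ 1 := by
  refine Real.rpow_le_one_of_one_le_of_nonpos one_le_two ?_
  have : 0 ≤ p.δ * k := by positivity
  linarith

theorem e_small (p : Pr) (hp : 0 < p.δ) : ∀ᶠ k : ℕ in atTop, 2 ^ p.n * p.e k ≤ 1 := by
  filter_upwards [tendsto_natCast_atTop_atTop.eventually_ge_atTop ((p.n : ℝ) / p.δ)] with k hk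
  have h1 : (p.n : ℝ) ≤ k * p.δ := (div_le_iff₀ hp).1 hk
  rw [Pr.e, ← Real.rpow_natCast, ← Real.rpow_add two_pos]
  refine Real.rpow_le_one_of_one_le_of_nonpos one_le_two ?_
  linarith

/-- the error of the mollification -/
theorem e_err (p : Pr) (hp : p.Ok) (k : ℕ) : p.e k ^ (2 * p.n) ≤ (2 : ℝ) ^ (-(100 * k : ℝ)) := by
  have hk0 : (0 : ℝ) ≤ k := Nat.cast_nonneg k
  rw [Pr.e, ← Real.rpow_natCast, ← Real.rpow_mul two_pos.le]
  refine Real.rpow_le_rpow_of_exponent_le one_le_two ?_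
  have h1 := mul_le_mul_of_nonneg_right hp.big hk0
  push_cast
  linarith

end F37
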