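import Pool.Agent.LibBE37F.Defs
import Pool.Agent.LibBE37F.N1c
import Pool.Agent.LibBE36T.T13a

/-! ROW A2 : the mollified amplitude is close to the amplitude. MEDIUM. PLAN. `mla P e a t - a t = ∑ i, rc P i (∫ a s * gs (2^i e) (t - s) ds - a t)` (`rc_sum`). `∫ a s gs e' (t - s) ds = ∫ a (t - e' x) φ(x) dx` with `φ` the
standard Gaussian density (substitution `s = t - e' x`; `gs` is real at real points). Taylor: `|a (t - y) - ∑_{j < 2P} a^(j)(t) (-y)^j / j!| ≤ M |y|^(2P) / (2P)!` (`taylor_mean_remainder_bound`-like for functions with values in `ℂ`: real and imaginary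
parts, or the norm version; `iteratedDeriv`). Odd moments of `φ` vanish, the even ones `m_j` are constants: `∫ a (t - e' x) φ = ∑_{j < P} c_j (e')^(2j) + O (M m_{2P} (e')^(2P))` with `c_0 = a t`; apply `rc_taylor` (T13a) to the real and the imaginary
part with `g e' = Re ∫ ..`, `B = M * const`. -/

open MeasureTheory Set Filter Topology
open scoped ContDiff unitInterval

namespace F37

variable [Sq]

open BGS BR B35 B36

/-- Taylor's formula -/
private theorem A2_taylor (M : ℝ) (n : ℕ) : ∀ f : ℝ → ℂ, ContDiff ℝ ∞ f →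
    (∀ x, ‖iteratedDeriv n f x‖ ≤ M) → ∀ t y : ℝ,
    ‖f (t + y) - ∑ j ∈ Finset.range n, ((y ^ j / (j.factorial : ℝ) : ℝ) : ℂ) * iteratedDeriv j f t‖ ≤
      M * |y| ^ n := by
  induction n with
  | zero =>
    intro f _ hM t y
    have h := hM (t + y)
    rw [iteratedDeriv_zero] at h
    simpa using h
  | succ n ih =>
    intro f hf hM t y
    have hf' : ContDiff ℝ ∞ (deriv f) := by
      have h := (contDiff_infty_iff_deriv (f := f)).1 hf
      exact h.2
    have hd : Differentiable ℝ f := hf.differentiable (by simp)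
    have hM' : ∀ x, ‖iteratedDeriv n (deriv f) x‖ ≤ M := fun x => by
      have h := hM x
      rwa [iteratedDeriv_succ'] at h
    have hM0 : 0 ≤ M := (norm_nonneg _).trans (hM 0)
    have ih' := ih (deriv f) hf' hM' t
    let R : ℝ → ℂ := fun u => f (t + u) -
      ∑ j ∈ Finset.range (n + 1), ((u ^ j / (j.factorial : ℝ) : ℝ) : ℂ) * iteratedDeriv j f t
    have hR : ∀ u, HasDerivAt R (deriv f (t + u) - ∑ j ∈ Finset.range n,
        ((u ^ j / (j.factorial : ℝ) : ℝ) : ℂ) * iteratedDeriv j (deriv f) t) u := by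
      intro u
      have h1 : HasDerivAt (fun u : ℝ => f (t + u)) (deriv f (t + u)) u := by
        have h2 := (hd (t + u)).hasDerivAt
        have h3 : HasDerivAt (fun u : ℝ => t + u) 1 u := (hasDerivAt_id u).const_add t
        have h4 := HasDerivAt.scomp u h2 h3
        rw [one_smul] at h4
        exact h4
      have h5 : HasDerivAt (fun u : ℝ => ∑ j ∈ Finset.range (n + 1),
          ((u ^ j / (j.factorial : ℝ) : ℝ) : ℂ) * iteratedDeriv j f t)
          (∑ j ∈ Finset.range n,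
            ((u ^ j / (j.factorial : ℝ) : ℝ) : ℂ) * iteratedDeriv j (deriv f) t) u := by
        have h6 : ∀ j ∈ Finset.range (n + 1), HasDerivAt
            (fun u : ℝ => ((u ^ j / (j.factorial : ℝ) : ℝ) : ℂ) * iteratedDeriv j f t)
            ((((j : ℝ) * u ^ (j - 1) / (j.factorial : ℝ) : ℝ) : ℂ) * iteratedDeriv j f t) u := by
          intro j _
          have h7 : HasDerivAt (fun u : ℝ => u ^ j / (j.factorial : ℝ))
              ((j : ℝ) * u ^ (j - 1) / (j.factorial : ℝ)) u := (hasDerivAt_pow j u).div_const _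
          exact (h7.ofReal_comp).mul_const _
        have h8 := HasDerivAt.fun_sum h6
        rw [Finset.sum_range_succ'] at h8
        simp only [Nat.cast_zero, zero_mul, zero_div, Complex.ofReal_zero, add_zero] at h8
        refine h8.congr_deriv ?_
        refine Finset.sum_congr rfl fun j _ => ?_
        rw [iteratedDeriv_succ', Nat.add_sub_cancel, Nat.factorial_succ]
        congr 2
        have h9 : ((j : ℝ) + 1) ≠ 0 := by positivity
        have h10 : (j.factorial : ℝ) ≠ 0 := by positivity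
        push_cast
        field_simp
      exact h1.sub h5
    have h0 : R 0 = 0 := by
      change f (t + 0) - _ = 0
      rw [Finset.sum_range_succ']
      simp
    have hmv := Convex.norm_image_sub_le_of_norm_deriv_le (𝕜 := ℝ) (f := R) (C := M * |y| ^ n)
      (s := Metric.closedBall (0 : ℝ) |y|) (x := 0) (y := y)
      (fun u _ => (hR u).differentiableAt)
      (fun u hu => by
        rw [(hR u).deriv]
        refine (ih' u).trans ?_
        refine mul_le_mul_of_nonneg_left ?_ hM0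
        refine pow_le_pow_left₀ (abs_nonneg _) ?_ _
        simpa using hu)
      (convex_closedBall _ _) (by simp) (by simp)
    rw [h0, sub_zero, sub_zero, Real.norm_eq_abs] at hmv
    rw [pow_succ, ← mul_assoc]
    exact hmv

/-- the standard Gaussian -/
private noncomputable def A2_ph (x : ℝ) : ℝ := (1 / √(2 * Real.pi)) * Real.exp (-(1 / 2) * x ^ 2)

private theorem A2_ph_nonneg (x : ℝ) : 0 ≤ A2_ph x := by
  unfold A2_ph
  positivity

private theorem A2_ph_neg (x : ℝ) : A2_ph (-x) = A2_ph x := by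
  unfold A2_ph
  rw [neg_sq]

private theorem A2_ph_cont : Continuous A2_ph := by
  unfold A2_ph
  fun_prop

private theorem A2_ph_int : ∫ x, A2_ph x = 1 := by
  unfold A2_ph
  rw [integral_const_mul, integral_gaussian]
  have h : Real.pi / (1 / 2) = 2 * Real.pi := by ring
  rw [h, one_div]
  exact inv_mul_cancel₀ (by have := Real.pi_pos; positivity)

private theorem A2_pow_int (j : ℕ) : Integrable fun x : ℝ => x ^ j * A2_ph x := by
  have h := integrable_rpow_mul_exp_neg_mul_sq (b := 1 / 2) (by norm_num) (s := (j : ℝ))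
    (by have : (0 : ℝ) ≤ j := Nat.cast_nonneg j
        linarith)
  have h2 := h.const_mul (1 / √(2 * Real.pi))
  refine h2.congr (ae_of_all _ fun x => ?_)
  simp only [Real.rpow_natCast]
  unfold A2_ph
  ring

/-- the moments -/
private noncomputable def A2_m (j : ℕ) : ℝ := ∫ x : ℝ, x ^ j * A2_ph x

private theorem A2_m_zero : A2_m 0 = 1 := by
  unfold A2_m
  simp only [pow_zero, one_mul]
  exact A2_ph_int

private theorem A2_m_odd {j : ℕ} (hj : Odd j) : A2_m j = 0 := by
  have h : A2_m j = -A2_m j := by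
    conv_lhs => unfold A2_m; rw [← integral_neg_eq_self]
    unfold A2_m
    rw [← integral_neg]
    refine integral_congr_ae (ae_of_all _ fun x => ?_)
    change (-x) ^ j * A2_ph (-x) = -(x ^ j * A2_ph x)
    rw [A2_ph_neg, hj.neg_pow]
    ring
  linarith

private theorem A2_subst (a : ℝ → ℂ) {h : ℝ} (hh : 0 < h) (t : ℝ) :
    ∫ s : ℝ, a s * gs h ((t : ℂ) - s) = ∫ x : ℝ, (A2_ph x : ℂ) * a (t + -(h * x)) := by
  have h1 : ∫ s : ℝ, a s * gs h ((t : ℂ) - s) =
      ∫ u : ℝ, a (t - u) * gs h (u : ℂ) := by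
    rw [← integral_sub_left_eq_self (fun s : ℝ => a s * gs h ((t : ℂ) - s)) volume t]
    refine integral_congr_ae (ae_of_all _ fun u => ?_)
    change a (t - u) * gs h ((t : ℂ) - ((t - u : ℝ) : ℂ)) = _
    congr 2
    push_cast
    ring
  have h2 := Measure.integral_comp_mul_left (fun u : ℝ => a (t - u) * gs h (u : ℂ)) h
  have h3 : ∫ u : ℝ, a (t - u) * gs h (u : ℂ) =
      (h : ℂ) * ∫ x : ℝ, a (t - h * x) * gs h ((h * x : ℝ) : ℂ) := by
    rw [h2, abs_of_pos (inv_pos.2 hh), Complex.real_smul, ← mul_assoc, ← Complex.ofReal_mul,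
      mul_inv_cancel₀ hh.ne', Complex.ofReal_one, one_mul]
  rw [h1, h3, ← integral_const_mul]
  refine integral_congr_ae (ae_of_all _ fun x => ?_)
  change (h : ℂ) * (a (t - h * x) * gs h ((h * x : ℝ) : ℂ)) = (A2_ph x : ℂ) * a (t + -(h * x))
  have e : (h : ℂ) * gs h ((h * x : ℝ) : ℂ) = (A2_ph x : ℂ) := by
    unfold gs A2_ph
    have e1 : -((((h * x : ℝ) : ℂ)) ^ 2 / (2 * (h : ℂ) ^ 2)) = ((-(1 / 2) * x ^ 2 : ℝ) : ℂ) := by
      have : (h : ℂ) ≠ 0 := by exact_mod_cast hh.ne'
      push_cast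
      field_simp
    rw [e1, ← Complex.ofReal_exp, ← Complex.ofReal_mul, ← Complex.ofReal_mul]
    congr 1
    have : √(2 * Real.pi) ≠ 0 := by have := Real.pi_pos; positivity
    field_simp
  rw [← sub_eq_add_neg]
  linear_combination a (t - h * x) * e

private theorem A2_even (F : ℕ → ℂ) (hF : ∀ j, Odd j → F j = 0) (P : ℕ) :
    ∑ j ∈ Finset.range (2 * P), F j = ∑ j ∈ Finset.range P, F (2 * j) := by
  induction P with
  | zero => simp
  | succ P ih =>
    rw [show 2 * (P + 1) = 2 * P + 1 + 1 by ring, Finset.sum_range_succ, Finset.sum_range_succ,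
      Finset.sum_range_succ, ih, hF (2 * P + 1) (odd_two_mul_add_one P), add_zero]

/-- expansion in the width -/
private theorem A2_exp (a : ℝ → ℂ) (M : ℝ) (P : ℕ) (ha : ContDiff ℝ ∞ a)
    (hM0 : ∀ t, ‖a t‖ ≤ M) (hM : ∀ t, ‖iteratedDeriv (2 * P) a t‖ ≤ M) {h : ℝ} (hh : 0 < h) (t : ℝ) :
    ‖(∫ s : ℝ, a s * gs h ((t : ℂ) - s)) - ∑ j ∈ Finset.range P,
      ((A2_m (2 * j) / ((2 * j).factorial : ℝ) : ℝ) : ℂ) * iteratedDeriv (2 * j) a t *
        ((h ^ (2 * j) : ℝ) : ℂ)‖ ≤ A2_m (2 * P) * M * h ^ (2 * P) := by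
  rw [A2_subst a hh t]
  let F : ℕ → ℂ := fun j => (((-h) ^ j / (j.factorial : ℝ) : ℝ) : ℂ) * iteratedDeriv j a t *
    (A2_m j : ℂ)
  have e1 : ∑ j ∈ Finset.range P,
      ((A2_m (2 * j) / ((2 * j).factorial : ℝ) : ℝ) : ℂ) * iteratedDeriv (2 * j) a t *
        ((h ^ (2 * j) : ℝ) : ℂ) = ∑ j ∈ Finset.range (2 * P), F j := by
    rw [A2_even F (fun j hj => by
      change _ * _ * (A2_m j : ℂ) = 0
      rw [A2_m_odd hj]
      simp) P]
    refine Finset.sum_congr rfl fun j _ => ?_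
    change _ = (((-h) ^ (2 * j) / ((2 * j).factorial : ℝ) : ℝ) : ℂ) * iteratedDeriv (2 * j) a t *
      (A2_m (2 * j) : ℂ)
    have e2 : (-h) ^ (2 * j) = h ^ (2 * j) := by rw [pow_mul, neg_sq, ← pow_mul]
    rw [e2]
    push_cast
    ring
  have hint : ∀ j, Integrable fun x : ℝ => (A2_ph x : ℂ) *
      ((((-(h * x)) ^ j / (j.factorial : ℝ) : ℝ) : ℂ) * iteratedDeriv j a t) := by
    intro j
    have h1 := ((A2_pow_int j).ofReal (𝕜 := ℂ)).const_mul
      ((((-h) ^ j / (j.factorial : ℝ) : ℝ) : ℂ) * iteratedDeriv j a t)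
    refine h1.congr (ae_of_all _ fun x => ?_)
    change (((-h) ^ j / (j.factorial : ℝ) : ℝ) : ℂ) * iteratedDeriv j a t *
      ((x ^ j * A2_ph x : ℝ) : ℂ) = (A2_ph x : ℂ) *
      ((((-(h * x)) ^ j / (j.factorial : ℝ) : ℝ) : ℂ) * iteratedDeriv j a t)
    have e3 : (-(h * x)) ^ j = (-h) ^ j * x ^ j := by rw [← mul_pow]; ring
    rw [e3]
    push_cast
    ring
  have e4 : ∑ j ∈ Finset.range (2 * P), F j = ∫ x : ℝ, (A2_ph x : ℂ) *
      ∑ j ∈ Finset.range (2 * P),
        (((-(h * x)) ^ j / (j.factorial : ℝ) : ℝ) : ℂ) * iteratedDeriv j a t := by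
    simp only [Finset.mul_sum]
    rw [integral_finsetSum _ fun j _ => hint j]
    refine Finset.sum_congr rfl fun j _ => ?_
    change (((-h) ^ j / (j.factorial : ℝ) : ℝ) : ℂ) * iteratedDeriv j a t * (A2_m j : ℂ) = _
    unfold A2_m
    rw [← integral_complex_ofReal, ← integral_const_mul]
    refine integral_congr_ae (ae_of_all _ fun x => ?_)
    change (((-h) ^ j / (j.factorial : ℝ) : ℝ) : ℂ) * iteratedDeriv j a t *
      ((x ^ j * A2_ph x : ℝ) : ℂ) = (A2_ph x : ℂ) *
      ((((-(h * x)) ^ j / (j.factorial : ℝ) : ℝ) : ℂ) * iteratedDeriv j a t)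
    have e3 : (-(h * x)) ^ j = (-h) ^ j * x ^ j := by rw [← mul_pow]; ring
    rw [e3]
    push_cast
    ring
  have hint1 : Integrable fun x : ℝ => (A2_ph x : ℂ) * a (t + -(h * x)) := by
    have h0 := A2_pow_int 0
    simp only [pow_zero, one_mul] at h0
    refine Integrable.mono' (h0.const_mul M) ?_ (ae_of_all _ fun x => ?_)
    · have c1 : Continuous a := ha.continuous
      have c2 := A2_ph_cont
      exact (by fun_prop : Continuous fun x : ℝ => (A2_ph x : ℂ) * a (t + -(h * x))).aestronglyMeasurable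
    · rw [norm_mul, Complex.norm_real, Real.norm_of_nonneg (A2_ph_nonneg x), mul_comm]
      exact mul_le_mul_of_nonneg_right (hM0 _) (A2_ph_nonneg x)
  have hint2 : Integrable fun x : ℝ => (A2_ph x : ℂ) * ∑ j ∈ Finset.range (2 * P),
        (((-(h * x)) ^ j / (j.factorial : ℝ) : ℝ) : ℂ) * iteratedDeriv j a t := by
    simp only [Finset.mul_sum]
    exact integrable_finsetSum _ fun j _ => hint j
  rw [e1, e4, ← integral_sub hint1 hint2]
  have hb : Integrable fun x : ℝ => M * h ^ (2 * P) * (x ^ (2 * P) * A2_ph x) :=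
    (A2_pow_int (2 * P)).const_mul _
  refine (norm_integral_le_of_norm_le hb (ae_of_all _ fun x => ?_)).trans ?_
  · rw [← mul_sub, norm_mul, Complex.norm_real, Real.norm_of_nonneg (A2_ph_nonneg x)]
    have ht := A2_taylor M (2 * P) a ha hM t (-(h * x))
    have e5 : |-(h * x)| ^ (2 * P) = h ^ (2 * P) * x ^ (2 * P) := by
      rw [abs_neg, pow_mul, sq_abs, ← mul_pow, ← pow_mul]
    rw [e5] at ht
    calc _ ≤ A2_ph x * (M * (h ^ (2 * P) * x ^ (2 * P))) :=
          mul_le_mul_of_nonneg_left ht (A2_ph_nonneg x)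
      _ = _ := by ring
  · rw [integral_const_mul]
    change M * h ^ (2 * P) * A2_m (2 * P) ≤ _
    exact le_of_eq (by ring)

theorem mla_close (P : ℕ) (hP : 1 ≤ P) : ∃ C : ℝ, 0 ≤ C ∧ ∀ (e : ℝ), 0 < e → 2 ^ P * e ≤ 1 →
    ∀ (a : ℝ → ℂ) (M : ℝ), ContDiff ℝ ∞ a → (∀ j ≤ 2 * P, ∀ t, ‖iteratedDeriv j a t‖ ≤ M) →
    ∀ t : ℝ, ‖rst (mla P e a) t - a t‖ ≤ C * M * e ^ (2 * P) := by
  have hm : 0 ≤ A2_m (2 * P) := by
    unfold A2_m
    refine integral_nonneg fun x => ?_
    exact mul_nonneg (by rw [pow_mul]; positivity) (A2_ph_nonneg x)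
  refine ⟨6 * 4 ^ (P ^ 2) * A2_m (2 * P), by positivity, ?_⟩
  intro e he _ a M ha hM t
  let c : ℕ → ℂ := fun j => ((A2_m (2 * j) / ((2 * j).factorial : ℝ) : ℝ) : ℂ) *
    iteratedDeriv (2 * j) a t
  let J : ℝ → ℂ := fun h => ∫ s : ℝ, a s * gs h ((t : ℂ) - s)
  have hc0 : c 0 = a t := by
    change ((A2_m (2 * 0) / ((2 * 0).factorial : ℝ) : ℝ) : ℂ) * iteratedDeriv (2 * 0) a t = a t
    rw [mul_zero, A2_m_zero, iteratedDeriv_zero]
    simp
  have key : ∀ i < P, ‖J (2 ^ i * e) - ∑ j ∈ Finset.range P,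
      c j * (((2 ^ i * e) ^ (2 * j) : ℝ) : ℂ)‖ ≤ A2_m (2 * P) * M * (2 ^ i * e) ^ (2 * P) := by
    intro i _
    exact A2_exp a M P ha (fun s => by simpa using hM 0 (by omega) s) (hM (2 * P) le_rfl)
      (by positivity) t
  have hre : ∀ i < P, |(J (2 ^ i * e)).re - ∑ j ∈ Finset.range P,
      (c j).re * (2 ^ i * e) ^ (2 * j)| ≤ A2_m (2 * P) * M * (2 ^ i * e) ^ (2 * P) := by
    intro i hi
    have h1 := (Complex.abs_re_le_norm _).trans (key i hi)
    rw [Complex.sub_re, Complex.re_sum] at h1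
    simpa only [Complex.re_mul_ofReal] using h1
  have him : ∀ i < P, |(J (2 ^ i * e)).im - ∑ j ∈ Finset.range P,
      (c j).im * (2 ^ i * e) ^ (2 * j)| ≤ A2_m (2 * P) * M * (2 ^ i * e) ^ (2 * P) := by
    intro i hi
    have h1 := (Complex.abs_im_le_norm _).trans (key i hi)
    rw [Complex.sub_im, Complex.im_sum] at h1
    simpa only [Complex.im_mul_ofReal] using h1
  have h1 := rc_taylor hP (g := fun h => (J h).re) (c := fun j => (c j).re) hre he.le
  have h2 := rc_taylor hP (g := fun h => (J h).im) (c := fun j => (c j).im) him he.le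
  have e1 : rst (mla P e a) t = ∑ i ∈ Finset.range P, (rc P i : ℂ) * J (2 ^ i * e) := rfl
  have e2 : (rst (mla P e a) t - a t).re =
      ∑ i ∈ Finset.range P, rc P i * (J (2 ^ i * e)).re - (c 0).re := by
    rw [e1, Complex.sub_re, Complex.re_sum, hc0]
    simp only [Complex.re_ofReal_mul]
  have e3 : (rst (mla P e a) t - a t).im =
      ∑ i ∈ Finset.range P, rc P i * (J (2 ^ i * e)).im - (c 0).im := by
    rw [e1, Complex.sub_im, Complex.im_sum, hc0]
    simp only [Complex.im_ofReal_mul]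
  refine (Complex.norm_le_abs_re_add_abs_im _).trans ?_
  rw [e2, e3]
  linarith

theorem Ra_close {p : Pr} (hp : p.Ok) (M : ℕ → ℝ) : ∃ C : ℝ, 0 ≤ C ∧ ∀ k : ℕ,
    2 ^ p.n * p.e k ≤ 1 → ∀ (ρ : ℝ) (a : ℝ → ℂ), Am M ρ a → ∀ t : ℝ,
      ‖Ra p k a t - a t‖ ≤ C * (2 : ℝ) ^ (-(100 * k : ℝ)) := by
  have hn : 1 ≤ p.n := by
    rcases Nat.eq_zero_or_pos p.n with h | h
    · exfalso
      have := hp.big
      rw [h] at this
      norm_num at this
    · exact h
  obtain ⟨C, hC, h⟩ := mla_close p.n hn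
  have hS : 0 ≤ ∑ j ∈ Finset.range (2 * p.n + 1), |M j| :=
    Finset.sum_nonneg fun j _ => abs_nonneg _
  refine ⟨C * ∑ j ∈ Finset.range (2 * p.n + 1), |M j|, mul_nonneg hC hS, ?_⟩
  intro k hk ρ a ha t
  have h1 := h (p.e k) (e_pos p k) hk a (∑ j ∈ Finset.range (2 * p.n + 1), |M j|) ha.smooth
    (fun j hj s => by
      refine (ha.bound j s).trans ((le_abs_self _).trans ?_)
      exact Finset.single_le_sum (f := fun j => |M j|) (fun i _ => abs_nonneg _)
        (Finset.mem_range.2 (by omega))) t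
  refine h1.trans ?_
  exact mul_le_mul_of_nonneg_left (e_err p hp k) (mul_nonneg hC hS)

end F37
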