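import Pool.Agent.LibBE37F.FA1

/-! ROW FA3 : the values of the families. SHORT. MODEL: LibB35/FA3.lean. `thd 0 = 0`, `thd t = t` for `|t| ≤ 4`, `0 < c n ≤ 1`. -/

open MeasureTheory Set Filter Topology
open scoped ContDiff unitInterval

namespace F37

variable [Sq]

open BGS BR BE B35
open Pool.BGR (upI)

variable {Γ : Type} [Group Γ] [MulAction Γ Pl] {D : Set Pl} {P : Dt} {κ : ℝ}

private theorem FA3_thd {t : ℝ} (ht : |t| ≤ 4) : thd t = t := by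
  have h1 : cut (t / 4) = 1 := by
    refine cut.one_of_mem_closedBall ?_
    rw [mem_closedBall_zero_iff, Real.norm_eq_abs, abs_div, abs_of_pos (by norm_num : (0 : ℝ) < 4)]
    show |t| / 4 ≤ 1
    linarith
  rw [thd, h1, mul_one]

private theorem FA3_thd0 : thd 0 = 0 := by
  rw [thd, zero_mul]

theorem c_pos (hP : Ok Γ D P) (R : ℕ) : 0 < P.c R ∧ P.c R ≤ 1 := by
  obtain ⟨s, hs0, hs1, hs⟩ := hP.c
  rw [hs]
  refine ⟨mul_pos hs0 (Real.exp_pos _), mul_le_one₀ hs1 (Real.exp_pos _).le ?_⟩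
  exact cn_le R

theorem path_zero (hP : Ok Γ D P) (p : Pr) (k : ℕ) (ξ η : Dir → I) :
    mm P.m (sP P p Γ D k ξ η) 0 = Y0 P p Γ D k ξ := by
  have h : (fun z => BGM.ex Γ P.ψ P.L P.c (zer (bk k) ξ) z +
      thd 0 / √(P.c (bk k)) * (BGM.ex Γ P.ψ P.L P.c (mix (bk k) ξ η) z -
        BGM.ex Γ P.ψ P.L P.c (zer (bk k) ξ) z)) =
      BGM.ex Γ P.ψ P.L P.c (zer (bk k) ξ) := by
    funext z
    rw [FA3_thd0, zero_div, zero_mul, add_zero]
  funext z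
  show Real.exp (nx D P.m (B36.Mo p.n (p.e k) fun z => BGM.ex Γ P.ψ P.L P.c (zer (bk k) ξ) z +
      thd 0 / √(P.c (bk k)) * (BGM.ex Γ P.ψ P.L P.c (mix (bk k) ξ η) z -
        BGM.ex Γ P.ψ P.L P.c (zer (bk k) ξ) z)) z) • P.m z = _
  rw [h]
  rfl

theorem path_one (hP : Ok Γ D P) (p : Pr) (k : ℕ) (ξ η : Dir → I) :
    mm P.m (sP P p Γ D k ξ η) (√(P.c (bk k))) = Y P p Γ D k (mix (bk k) ξ η) := by
  obtain ⟨hc0, hc1⟩ := c_pos hP (bk k)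
  have hr0 : 0 < √(P.c (bk k)) := Real.sqrt_pos.2 hc0
  have hr1 : √(P.c (bk k)) ≤ 1 := Real.sqrt_le_one.2 hc1
  have h : (fun z => BGM.ex Γ P.ψ P.L P.c (zer (bk k) ξ) z +
      thd (√(P.c (bk k))) / √(P.c (bk k)) *
        (BGM.ex Γ P.ψ P.L P.c (mix (bk k) ξ η) z -
        BGM.ex Γ P.ψ P.L P.c (zer (bk k) ξ) z)) =
      BGM.ex Γ P.ψ P.L P.c (mix (bk k) ξ η) := by
    funext z
    rw [FA3_thd (by rw [abs_of_pos hr0]; linarith), div_self hr0.ne']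
    ring
  funext z
  show Real.exp (nx D P.m (B36.Mo p.n (p.e k) fun z => BGM.ex Γ P.ψ P.L P.c (zer (bk k) ξ) z +
      thd (√(P.c (bk k))) / √(P.c (bk k)) *
        (BGM.ex Γ P.ψ P.L P.c (mix (bk k) ξ η) z -
        BGM.ex Γ P.ψ P.L P.c (zer (bk k) ξ) z)) z) • P.m z = _
  rw [h]
  rfl

theorem cell_val (hP : Ok Γ D P) (p : Pr) (k : ℕ) (ξ η : Dir → I) {c : ℤ × ℤ}
    (hc : c ∈ grid P.L (bk k + 1)) {w x : ℝ} (t : I) (hx : |x| ≤ 4)
    (h : x * w = P.c (bk k) * t) :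
    mm P.m (sC P p Γ D k ξ η c w) x = Y P p Γ D k (upI (mix (bk k) ξ η) (bk k, c) t) := by
  have h' : (fun z => BGM.ex Γ P.ψ P.L P.c (upI (mix (bk k) ξ η)
      (bk k, c) 0) z + thd x * w * per Γ (BGM.bmq (bk k + 1) c) z) =
      BGM.ex Γ P.ψ P.L P.c (upI (mix (bk k) ξ η) (bk k, c) t) := by
    funext z
    unfold BGM.ex
    rw [BGM.ps_up hP.cx.hX P.L hP.cx.cs _ _ hc, BGM.ps_up hP.cx.hX P.L hP.cx.cs _ _ hc,
      FA3_thd hx, h]
    simp only [Set.Icc.coe_zero]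
    ring
  funext z
  show Real.exp (nx D P.m (B36.Mo p.n (p.e k) fun z => BGM.ex Γ P.ψ P.L P.c
      (upI (mix (bk k) ξ η) (bk k, c) 0) z + thd x * w * per Γ (BGM.bmq (bk k + 1) c) z) z) •
        P.m z = _
  rw [h']
  rfl

end F37
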