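import Pool.Agent.LibBE37F.FA1
import Pool.Agent.LibBE37F.FA3

/-! ROW FA5 : the metrics of the blocks. MEDIUM. MODEL: LibB35/FA5.lean (`X_hm`). PLAN. `Y_hm`: `Y = exp (nx (Mo ex)) • m`, `Mo ex ∈ Test Γ` (`Mo_test`, `ex_test`, `e_pos`), conformal change of an invariant metric (`BGM.D1_rp`, `BGM.D1_iv`), curvature
from the hypothesis. `Y_mt`: area one by the normalisation (look at `Mt` in LibBGS/LibBE73 and at `X_of` / `hm_of_Mt` in LibB35/Fin1 for the fields). `block_neg`: `CF_path` (field `neg`) and `path_one`.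
`in_block`: the curvature of `X ξ` is continuous and Γ-invariant, so `≤ -κ1²` with `κ1 > 0` (compact `closure D`); `g = Mo n e (ex (zer ξ)) - ex ξ` is in `Test Γ` and tends to 0 in `C²(closure D)`:
`Mo_err n 2` with `FA0_ex`, `e_err`; `ex (zer ξ) - ex ξ` by `ex_agree`, `FA0_sum`, `c_half`; `FA0_neg` with `f = ex ξ`, `κ := κ1 / 2` (which does not depend on `p`); `e_small`. -/

open MeasureTheory Set Filter Topology
open scoped ContDiff unitInterval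

namespace F37

variable [Sq]

open BGS BR BE B35
open Pool.BGR (upI)

variable {Γ : Type} [Group Γ] [MulAction Γ Pl] {D : Set Pl} {P : Dt} {κ : ℝ}

private theorem FA5_mo (hP : Ok Γ D P) (p : Pr) (k : ℕ) (ξ : Dir → I) :
    B36.Mo p.n (p.e k) (BGM.ex Γ P.ψ P.L P.c ξ) ∈ Test Γ :=
  Mo_test hP.cx.hX hP.hyp p.n (e_pos p k) (ex_test hP ξ)

private theorem FA5_rp (hP : Ok Γ D P) {f : Pl → ℝ} (hf : f ∈ Test Γ) :
    BGM.Rp (fun w => Real.exp (nx D P.m f w) • P.m w) := by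
  have hs : ContDiff ℝ ∞ (nx D P.m f) := hf.1.sub contDiff_const
  exact BGM.D1_rp hP.cx.rp hs

private theorem FA5_iv (hP : Ok Γ D P) {f : Pl → ℝ} (hf : f ∈ Test Γ) :
    BGM.Iv Γ (fun w => Real.exp (nx D P.m f w) • P.m w) := by
  have hi : ∀ (γ : Γ) z, nx D P.m f (γ • z) = nx D P.m f z := fun γ z => by
    rw [nx_eq, nx_eq, hf.2 γ z]
  exact BGM.D1_iv hP.cx.iv hi

theorem Y_hm (hP : Ok Γ D P) (p : Pr) (k : ℕ) {ξ : Dir → I}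
    (h : ∀ z, curv (Y P p Γ D k ξ) z < 0) : HM Γ (Y P p Γ D k ξ) := by
  have hrp : BGM.Rp (Y P p Γ D k ξ) := FA5_rp hP (FA5_mo hP p k ξ)
  have hiv : BGM.Iv Γ (Y P p Γ D k ξ) := FA5_iv hP (FA5_mo hP p k ξ)
  exact ⟨hrp.smooth, hrp.pos, hiv, h⟩

private theorem FA5_dt (f : Pl → ℝ) (m : Pl → Co) (z : Pl) :
    √(dt (Real.exp (f z) • m z)) = Real.exp (f z) * √(dt (m z)) := by
  have h1 : dt (Real.exp (f z) • m z) = Real.exp (f z) ^ 2 * dt (m z) := by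
    unfold dt
    simp only [Prod.smul_fst, Prod.smul_snd, smul_eq_mul]
    ring
  rw [h1, Real.sqrt_mul (sq_nonneg _), Real.sqrt_sq (Real.exp_pos _).le]

theorem Y_mt (hP : Ok Γ D P) (p : Pr) (k : ℕ) {ξ : Dir → I}
    (h : ∀ z, curv (Y P p Γ D k ξ) z < 0) : ∃ m' : Mt Γ D, m'.1.1 = Y P p Γ D k ξ := by
  have ht := FA5_mo hP p k ξ
  have hrp : BGM.Rp (Y P p Γ D k ξ) := FA5_rp hP ht
  have hiv : BGM.Iv Γ (Y P p Γ D k ξ) := FA5_iv hP ht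
  have h0 : 0 < AR D P.m (B36.Mo p.n (p.e k) (BGM.ex Γ P.ψ P.L P.c ξ)) :=
    AR_pos hP.cx.hX hP.cx.rp ht.1.continuous
  refine ⟨⟨⟨Y P p Γ D k ξ, hrp.smooth⟩, hrp.pos, hiv, h, ?_⟩, rfl⟩
  have e1 : ∀ z, √(dt (Y P p Γ D k ξ z)) =
      (AR D P.m (B36.Mo p.n (p.e k) (BGM.ex Γ P.ψ P.L P.c ξ)))⁻¹ *
        (Real.exp (B36.Mo p.n (p.e k) (BGM.ex Γ P.ψ P.L P.c ξ) z) * √(dt (P.m z))) := by
    intro z
    have h1 : √(dt (Y P p Γ D k ξ z)) = Real.exp (hY P p Γ D k ξ z) * √(dt (P.m z)) :=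
      FA5_dt _ _ _
    have h2 : Real.exp (hY P p Γ D k ξ z) =
        (AR D P.m (B36.Mo p.n (p.e k) (BGM.ex Γ P.ψ P.L P.c ξ)))⁻¹ *
          Real.exp (B36.Mo p.n (p.e k) (BGM.ex Γ P.ψ P.L P.c ξ) z) := by
      show Real.exp (B36.Mo p.n (p.e k) (BGM.ex Γ P.ψ P.L P.c ξ) z -
        Real.log (AR D P.m (B36.Mo p.n (p.e k) (BGM.ex Γ P.ψ P.L P.c ξ)))) = _
      rw [sub_eq_add_neg, Real.exp_add, Real.exp_neg, Real.exp_log h0, mul_comm]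
    rw [← mul_assoc, ← h2]
    exact h1
  show ∫ z in D, √(dt (Y P p Γ D k ξ z)) = 1
  simp only [e1]
  rw [integral_const_mul]
  exact inv_mul_cancel₀ h0.ne'

theorem block_neg (hP : Ok Γ D P) (hκ : 0 < κ) : ∃ k0 : ℕ, ∀ p : Pr, p.Ok → ∀ k ≥ k0,
    ∀ ξ ∈ Bs P p Γ D κ k, ∀ (η : Dir → I) (z : Pl),
      curv (Y P p Γ D k (mix (bk k) ξ η)) z ≤ -(κ / 2) ^ 2 := by
  obtain ⟨k0, b, hCF⟩ := CF_path hP hκ
  refine ⟨k0, fun p hp k hk ξ hξ η z => ?_⟩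
  have h1 := (hCF.neg ⟨p, k, ξ, η, hp, hk, hξ⟩ (√(P.c (bk k))) z).2
  rw [path_one hP p k ξ η] at h1
  exact h1

private theorem FA5_two : Tendsto (fun k : ℕ => (2 : ℝ) ^ (-(100 * k : ℝ))) atTop (𝓝 0) := by
  have h1 : Tendsto (fun k : ℕ => -(100 * k : ℝ)) atTop atBot :=
    tendsto_neg_atTop_atBot.comp
      (tendsto_natCast_atTop_atTop.const_mul_atTop (by norm_num : (0 : ℝ) < 100))
  exact (tendsto_rpow_atBot_of_base_gt_one 2 (by norm_num)).comp h1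

theorem in_block (hP : Ok Γ D P) {ξ : Dir → I} (h : ∀ z, curv (P.X Γ D ξ) z < 0) :
    ∃ κ : ℝ, 0 < κ ∧ ∀ p : Pr, p.Ok → ∃ k0 : ℕ, ∀ k ≥ k0, ξ ∈ Bs P p Γ D κ k := by
  have hX := hP.cx.hX
  have ht := ex_test hP ξ
  have hK : IsCompact (closure D) := Cmp_compact hX
  have hrp : BGM.Rp (P.X Γ D ξ) := FA5_rp hP ht
  have hiv : BGM.Iv Γ (P.X Γ D ξ) := FA5_iv hP ht
  have hne : (closure D).Nonempty := by
    obtain ⟨γ, hγ, _⟩ := hX.orbit (0, 0)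
    exact ⟨_, subset_closure hγ⟩
  obtain ⟨z0, hz0, hmax⟩ := hK.exists_isMaxOn hne (BGM.E2_cont hrp).continuousOn
  obtain ⟨κ1, hκ1, hκe⟩ : ∃ κ1 : ℝ, 0 < κ1 ∧ κ1 ^ 2 = -curv (P.X Γ D ξ) z0 :=
    ⟨√(-curv (P.X Γ D ξ) z0), Real.sqrt_pos.2 (by linarith [h z0]),
      Real.sq_sqrt (by linarith [h z0])⟩
  have hneg : ∀ z, curv (P.X Γ D ξ) z ≤ -κ1 ^ 2 := by
    refine F0_all hX (fun z hz => ?_) (fun γ z h1 => ?_)
    · have h1 : curv (P.X Γ D ξ) z ≤ curv (P.X Γ D ξ) z0 := hmax hz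
      linarith
    · rwa [BGM.E2_inv hX hrp hiv γ z] at h1
  obtain ⟨M, hM0, hM⟩ := FA0_ex hP.cx 2
  obtain ⟨ε, b, hε, hstab⟩ := FA0_neg hX hP.hm hκ1 hM0
  refine ⟨κ1 / 2, by positivity, fun p hp => ?_⟩
  obtain ⟨C1, hC1, h1⟩ := Mo_err hX hP.hyp p.n 2
  obtain ⟨B, hB0, hB⟩ := FA0_ex hP.cx (2 + 2 * p.n)
  obtain ⟨C2, hC2, h2⟩ := FA0_sum hX P.L 2
  have e1 : Tendsto (fun k : ℕ => C1 * B * (2 : ℝ) ^ (-(100 * k : ℝ))) atTop (𝓝 0) := by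
    have := FA5_two.const_mul (C1 * B)
    rwa [mul_zero] at this
  have e2 : Tendsto (fun k : ℕ => C2 * (((bk k : ℝ) + 1) ^ 4 * √(P.c (bk k)))) atTop
      (𝓝 0) := by
    have := (c_half hP 4).const_mul C2
    rwa [mul_zero] at this
  have ev := (e1.eventually (Iio_mem_nhds (half_pos hε))).and
    ((e2.eventually (Iio_mem_nhds (half_pos hε))).and (e_small p hp.pos))
  obtain ⟨k0, hk0⟩ := eventually_atTop.1 ev
  refine ⟨k0, fun k hk => ?_⟩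
  obtain ⟨k1, k2, k3⟩ := hk0 k hk
  refine ⟨k3, ?_⟩
  have hz := ex_test hP (zer (bk k) ξ)
  have hm := FA5_mo hP p k (zer (bk k) ξ)
  have hag : ∀ z, BGM.ex Γ P.ψ P.L P.c (zer (bk k) ξ) z = BGM.ex Γ P.ψ P.L P.c ξ z +
      Sg0 Γ P.L (bk k) (fun q => P.c (bk k) *
        ((((zer (bk k) ξ) (bk k, q) : I) : ℝ) - ξ (bk k, q))) z :=
    fun z => ex_agree hP (fun d hd => by rw [zer, if_neg hd]) z
  obtain ⟨S, hS⟩ : ∃ S : Pl → ℝ, S = Sg0 Γ P.L (bk k) (fun q => P.c (bk k) *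
        ((((zer (bk k) ξ) (bk k, q) : I) : ℝ) - ξ (bk k, q))) := ⟨_, rfl⟩
  have hSt : S ∈ Test Γ := by
    rw [hS]
    exact Sg0_test hX P.L (bk k) _
  rw [← hS] at hag
  have hd : (fun z => B36.Mo p.n (p.e k) (BGM.ex Γ P.ψ P.L P.c (zer (bk k) ξ)) z -
      BGM.ex Γ P.ψ P.L P.c (zer (bk k) ξ) z) ∈ Test Γ := by
    refine ⟨hm.1.sub hz.1, fun γ z => ?_⟩
    show B36.Mo p.n (p.e k) (BGM.ex Γ P.ψ P.L P.c (zer (bk k) ξ)) (γ • z) -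
      BGM.ex Γ P.ψ P.L P.c (zer (bk k) ξ) (γ • z) = _
    rw [hm.2 γ z, hz.2 γ z]
  have hg : (fun z => (B36.Mo p.n (p.e k) (BGM.ex Γ P.ψ P.L P.c (zer (bk k) ξ)) z -
      BGM.ex Γ P.ψ P.L P.c (zer (bk k) ξ) z) + S z) ∈ Test Γ := by
    refine ⟨hd.1.add hSt.1, fun γ z => ?_⟩
    show B36.Mo p.n (p.e k) (BGM.ex Γ P.ψ P.L P.c (zer (bk k) ξ)) (γ • z) -
      BGM.ex Γ P.ψ P.L P.c (zer (bk k) ξ) (γ • z) + S (γ • z) = _
    rw [hm.2 γ z, hz.2 γ z, hSt.2 γ z]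
  obtain ⟨c0, c1⟩ := c_pos hP (bk k)
  have hcs : P.c (bk k) ≤ √(P.c (bk k)) := by
    apply Real.le_sqrt_of_sq_le
    nlinarith
  have ht1 : ∀ q : ℤ × ℤ, |P.c (bk k) * ((((zer (bk k) ξ) (bk k, q) : I) : ℝ) - ξ (bk k, q))| ≤
      P.c (bk k) := by
    intro q
    rw [abs_mul, abs_of_pos c0]
    have h3 := ((zer (bk k) ξ) (bk k, q)).2
    have h4 := (ξ (bk k, q)).2
    have h5 : |(((zer (bk k) ξ) (bk k, q) : I) : ℝ) - ξ (bk k, q)| ≤ 1 := by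
      rw [abs_le]
      constructor <;> linarith [h3.1, h3.2, h4.1, h4.2]
    calc P.c (bk k) * |(((zer (bk k) ξ) (bk k, q) : I) : ℝ) - ξ (bk k, q)| ≤
        P.c (bk k) * 1 := mul_le_mul_of_nonneg_left h5 c0.le
      _ = P.c (bk k) := mul_one _
  have bg : ∀ j ≤ 2, ∀ z ∈ closure D, ‖iteratedFDeriv ℝ j (fun z =>
      (B36.Mo p.n (p.e k) (BGM.ex Γ P.ψ P.L P.c (zer (bk k) ξ)) z -
        BGM.ex Γ P.ψ P.L P.c (zer (bk k) ξ) z) + S z) z‖ ≤ ε := by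
    intro j hj z hz1
    have e : iteratedFDeriv ℝ j (fun z =>
        (B36.Mo p.n (p.e k) (BGM.ex Γ P.ψ P.L P.c (zer (bk k) ξ)) z -
          BGM.ex Γ P.ψ P.L P.c (zer (bk k) ξ) z) + S z) z =
        iteratedFDeriv ℝ j (fun z =>
          (B36.Mo p.n (p.e k) (BGM.ex Γ P.ψ P.L P.c (zer (bk k) ξ)) z -
            BGM.ex Γ P.ψ P.L P.c (zer (bk k) ξ) z)) z + iteratedFDeriv ℝ j S z :=
      fun_iteratedFDeriv_add_apply ((hd.1.of_le (by exact_mod_cast le_top)).contDiffAt)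
        ((hSt.1.of_le (by exact_mod_cast le_top)).contDiffAt)
    rw [e]
    have b1 := h1 (p.e k) (e_pos p k) k3 _ hz B
      (fun i hi w hw => hB i hi (zer (bk k) ξ) w hw) j hj z hz1
    have b2 : ‖iteratedFDeriv ℝ j S z‖ ≤ C2 * ((bk k : ℝ) + 1) ^ (2 + 2) * P.c (bk k) := by
      rw [hS]
      exact h2 (bk k) _ _ ht1 j hj z hz1
    have b3 : C1 * B * p.e k ^ (2 * p.n) ≤ C1 * B * (2 : ℝ) ^ (-(100 * k : ℝ)) :=
      mul_le_mul_of_nonneg_left (e_err p hp k) (mul_nonneg hC1 hB0)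
    have b4 : C2 * ((bk k : ℝ) + 1) ^ (2 + 2) * P.c (bk k) ≤
        C2 * (((bk k : ℝ) + 1) ^ 4 * √(P.c (bk k))) := by
      rw [mul_assoc]
      refine mul_le_mul_of_nonneg_left ?_ hC2.le
      exact mul_le_mul_of_nonneg_left hcs (by positivity)
    have b5 := norm_add_le (iteratedFDeriv ℝ j (fun z =>
          (B36.Mo p.n (p.e k) (BGM.ex Γ P.ψ P.L P.c (zer (bk k) ξ)) z -
            BGM.ex Γ P.ψ P.L P.c (zer (bk k) ξ) z)) z) (iteratedFDeriv ℝ j S z)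
    linarith
  have key := hstab (BGM.ex Γ P.ψ P.L P.c ξ) _ ht hg (fun j hj z hz => hM j hj ξ z hz) bg hneg
  have ef : (fun w => BGM.ex Γ P.ψ P.L P.c ξ w +
      ((B36.Mo p.n (p.e k) (BGM.ex Γ P.ψ P.L P.c (zer (bk k) ξ)) w -
        BGM.ex Γ P.ψ P.L P.c (zer (bk k) ξ) w) + S w)) =
      B36.Mo p.n (p.e k) (BGM.ex Γ P.ψ P.L P.c (zer (bk k) ξ)) := by
    funext w
    linarith [hag w]
  rw [ef] at key
  exact fun z => (key z).2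

end F37
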