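import Pool.Agent.LibBE37F.A1
import Pool.Agent.LibBE37F.FA5
import Pool.Agent.LibB35.MR

/-! ROW MY : measurability. MEDIUM. MODEL: LibB35/MR.lean, LibBF73/F2.lean (adapt them). PLAN. `cf_Y`: structure `BM73.CF` (LibBM73/M6): `rp, iv, base` from `hP.cx`; `test`: `Mo_test`, constants; `cont`: `BM73.CF_ex hP.cx` (sup-norm continuity of `ex`), `Mo_add`, `Mo_sup`
(`|Mo f - Mo g| ≤ 3 sup |f - g|`), then `.norm` (area normalisation) as in `B35.cf_X`. `meas_ZT`: copy of `B35.meas_ZL` with the weight `θ` measurable and the interval integral over `y`. `meas_zt`: `Ra_smooth`. `meas_Sb`: `BM73.meas_geo`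
with `Ga_amp`. `meas_Mom`: copy of `B35.meas_M`. `meas_Bs`: as in `meas_neg` (the condition `2^n e ≤ 1` does not depend on `ξ`: `Set.setOf_and`, `MeasurableSet.const`). -/

open MeasureTheory Set Filter Topology
open scoped ContDiff unitInterval

namespace F37

variable [Sq]

open BGS BR B35
open Pool.BGR (upI)

section

variable {Ω : Type} [MeasurableSpace Ω] {Γ : Type} [Group Γ] [MulAction Γ Pl] {D : Set Pl}
  {M : Ω → Pl → Co}

theorem meas_ZT (hX : Surface Γ D) (h : BM73.MF Γ M) {m0 : Pl → Co} (h0 : HM Γ m0) {θ : ℝ → ℝ}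
    (hθ : Measurable θ) (w : ℝ) (N : ℕ) {b : ℝ → ℂ} (hb : ContDiff ℝ ∞ b) (g : Γ) (x0 v0 : Pl)
    (l0 : ℝ) : Measurable fun e : Ω × ℝ => ZT m0 (M e.1) θ w N b e.2 g x0 v0 l0 := by
  have hF := Fm_smooth hX h0 x0 v0
  have hFc : Measurable (Fm m0 x0 v0) := hF.continuous.measurable
  have hdet : Measurable fun p : Pl => |(fderiv ℝ (Fm m0 x0 v0) p).det| := by
    have h1 : Continuous (fderiv ℝ (Fm m0 x0 v0)) := hF.continuous_fderiv (by simp)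
    exact (ContinuousLinearMap.continuous_det.comp h1).abs.measurable
  have hcut : Measurable fun y : ℝ => ((θ y : ℝ) : ℂ) := Complex.measurable_ofReal.comp hθ
  have hJ : Measurable fun q : ((Ω × ℝ) × ℝ) × ℝ => ((θ q.2 : ℝ) : ℂ) *
      KE (M q.1.1.1) N b q.1.1.2 g (Fm m0 x0 v0 (q.1.2, q.2)) *
      ((√(dt (M q.1.1.1 (Fm m0 x0 v0 (q.1.2, q.2)))) *
        |(fderiv ℝ (Fm m0 x0 v0) (q.1.2, q.2)).det| : ℝ) : ℂ) := by
    have e1 : Measurable fun q : ((Ω × ℝ) × ℝ) × ℝ => q.1.1.1 := by fun_prop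
    have e2 : Measurable fun q : ((Ω × ℝ) × ℝ) × ℝ => q.1.1.2 := by fun_prop
    have e3 : Measurable fun q : ((Ω × ℝ) × ℝ) × ℝ => ((q.1.2, q.2) : Pl) := by fun_prop
    have e4 := hFc.comp e3
    have e5 : Measurable fun q : ((Ω × ℝ) × ℝ) × ℝ =>
        ((q.1.1.1, Fm m0 x0 v0 (q.1.2, q.2)) : Ω × Pl) := e1.prodMk e4
    exact ((hcut.comp measurable_snd).mul (meas_KE hX h N hb g e1 e4 e2)).mul
      (Complex.measurable_ofReal.comp (((BM73.meas_rho h).comp e5).mul (hdet.comp e3)))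
  have key : ∀ S : Set ℝ, StronglyMeasurable fun p : (Ω × ℝ) × ℝ => ∫ y in S, ((θ y : ℝ) : ℂ) *
      KE (M p.1.1) N b p.1.2 g (Fm m0 x0 v0 (p.2, y)) *
      ((√(dt (M p.1.1 (Fm m0 x0 v0 (p.2, y)))) *
        |(fderiv ℝ (Fm m0 x0 v0) (p.2, y)).det| : ℝ) : ℂ) := fun S =>
    StronglyMeasurable.integral_prod_right' (ν := volume.restrict S)
      (f := fun q : ((Ω × ℝ) × ℝ) × ℝ => ((θ q.2 : ℝ) : ℂ) *
      KE (M q.1.1.1) N b q.1.1.2 g (Fm m0 x0 v0 (q.1.2, q.2)) *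
      ((√(dt (M q.1.1.1 (Fm m0 x0 v0 (q.1.2, q.2)))) *
        |(fderiv ℝ (Fm m0 x0 v0) (q.1.2, q.2)).det| : ℝ) : ℂ)) hJ.stronglyMeasurable
  have h2 := (key (Ioc (-(2 * w)) (2 * w))).sub (key (Ioc (2 * w) (-(2 * w))))
  have h3 := StronglyMeasurable.integral_prod_right' (ν := volume.restrict (Ioc 0 l0)) h2
  have h4 := StronglyMeasurable.integral_prod_right' (ν := volume.restrict (Ioc l0 0)) h2
  have h5 := (h3.sub h4).measurable
  exact h5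

theorem thR_cont {h e : ℝ} (he : 0 < e) : Continuous (BE36C.thR h e) := by
  have e1 : BE36C.thR h e = fun x : ℝ => (BE36C.thE h e (x : ℂ)).re := by
    funext x
    rw [BE36C.thE_ofReal, Complex.ofReal_re]
  rw [e1]
  exact Complex.continuous_re.comp ((BE36C.thE_diff he).continuous.comp Complex.continuous_ofReal)

end

variable {Γ : Type} [Group Γ] [MulAction Γ Pl] {D : Set Pl} {P : Dt} {κ : ℝ}

private theorem MY_mo (hP : Ok Γ D P) (p : Pr) (k : ℕ) :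
    BM73.CF Γ P.m fun ξ => B36.Mo p.n (p.e k) (BGM.ex Γ P.ψ P.L P.c ξ) := by
  have he : 0 < p.e k := Real.rpow_pos_of_pos two_pos _
  have ht : ∀ ξ, BGM.ex Γ P.ψ P.L P.c ξ ∈ Test Γ := fun ξ => BGM.D2_smooth hP.cx ξ
  refine ⟨hP.cx.rp, hP.cx.iv, hP.cx.base,
    fun ξ => Mo_test hP.cx.hX hP.hyp p.n he (ht ξ), fun ξ₀ ε hε => ?_⟩
  filter_upwards [(BM73.CF_ex hP.cx).cont ξ₀ (ε / 3) (by positivity)] with ξ h1 z
  have hd : (fun z => BGM.ex Γ P.ψ P.L P.c ξ z + (-1) * BGM.ex Γ P.ψ P.L P.c ξ₀ z) ∈ Test Γ := by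
    refine ⟨(ht ξ).1.add (contDiff_const.mul (ht ξ₀).1), fun γ z => ?_⟩
    simp only [(ht ξ).2 γ z, (ht ξ₀).2 γ z]
  have h2 := Mo_add hP.cx.hX hP.hyp p.n he (ht ξ) (ht ξ₀) (-1) z
  have h3 := Mo_sup hP.cx.hX hP.hyp p.n he hd (B := ε / 3) (fun z => by
    have h4 := h1 z
    have h5 : BGM.ex Γ P.ψ P.L P.c ξ z + (-1) * BGM.ex Γ P.ψ P.L P.c ξ₀ z =
        BGM.ex Γ P.ψ P.L P.c ξ z - BGM.ex Γ P.ψ P.L P.c ξ₀ z := by ring
    rw [h5]
    exact h4) z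
  rw [h2] at h3
  have h6 : B36.Mo p.n (p.e k) (BGM.ex Γ P.ψ P.L P.c ξ) z -
      B36.Mo p.n (p.e k) (BGM.ex Γ P.ψ P.L P.c ξ₀) z =
      B36.Mo p.n (p.e k) (BGM.ex Γ P.ψ P.L P.c ξ) z +
        (-1) * B36.Mo p.n (p.e k) (BGM.ex Γ P.ψ P.L P.c ξ₀) z := by ring
  rw [h6]
  linarith

theorem cf_Y (hP : Ok Γ D P) (p : Pr) (k : ℕ) : BM73.CF Γ P.m (hY P p Γ D k) := by
  have h1 := MY_mo hP p k
  have h2 := h1.norm hP.cx.hX (BM73.area_pos hP.cx.hX hP.cx.rp)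
  have e : hY P p Γ D k = fun ξ z => B36.Mo p.n (p.e k) (BGM.ex Γ P.ψ P.L P.c ξ) z -
      Real.log (∫ w in D, √(dt (BGM.cf (B36.Mo p.n (p.e k) (BGM.ex Γ P.ψ P.L P.c ξ)) P.m w))) := by
    funext ξ z
    unfold hY nx
    simp only [BM73.dt_cf]
  rw [e]
  exact h2

theorem mf_Y (hP : Ok Γ D P) (p : Pr) (k : ℕ) :
    BM73.MF Γ (fun w : {ξ : Dir → I // ∀ z, curv (Y P p Γ D k ξ) z < 0} => Y P p Γ D k w.1) :=
  (cf_Y hP p k).mf hP.cx.hX

theorem meas_Sb (hP : Ok Γ D P) {p : Pr} (hp : p.Ok) (hκ : 0 ≤ κ) {M : ℕ → ℝ} (k : ℕ)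
    {a : ℝ → ℂ} (ha : Am M (Lm κ k) a) :
    Measurable fun q : {ξ : Dir → I // ∀ z, curv (Y P p Γ D k ξ) z < 0} × ℝ =>
      Sb P p Γ D κ k a q.2 q.1.1 := by
  obtain ⟨C, hC⟩ := Ga_amp hp hκ k ha
  exact BM73.meas_geo hP.cx.hX hP.ori (mf_Y hP p k) (Nk κ k) hC {γ : Γ | γ ≠ 1}

theorem meas_zt (hP : Ok Γ D P) {p : Pr} (hp : p.Ok) (hκ : 0 ≤ κ) {M : ℕ → ℝ} (k N : ℕ)
    {a : ℝ → ℂ} (ha : Am M (Lm κ k) a) {m0 : Pl → Co} (h0 : HM Γ m0) (q : Cg Γ) :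
    Measurable fun e : {ξ : Dir → I // ∀ z, curv (Y P p Γ D k ξ) z < 0} × ℝ =>
      zt m0 (Y P p Γ D k e.1.1) k N (Ra p k a) e.2 q := by
  have hde : 0 < de k := Real.rpow_pos_of_pos two_pos _
  exact meas_ZT hP.cx.hX (mf_Y hP p k) h0 (thR_cont hde).measurable (dw k) N
    (Ra_smooth hp hκ k ha) (gel q) (ax m0 (gpr q)).1 (ax m0 (gpr q)).2 (lp m0 q.1)

theorem meas_neg (hP : Ok Γ D P) (p : Pr) (k : ℕ) :
    MeasurableSet {ξ : Dir → I | ∀ z, curv (Y P p Γ D k ξ) z < 0} :=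
  (cf_Y hP p k).meas_neg hP.cx.hX

theorem meas_Bs (hP : Ok Γ D P) (p : Pr) (κ : ℝ) (k : ℕ) : MeasurableSet (Bs P p Γ D κ k) := by
  have h1 : Measurable fun ξ : Dir → I => zer (bk k) ξ := by
    rw [measurable_pi_iff]
    intro d
    unfold zer
    by_cases hd : d.1 = bk k
    · simp only [if_pos hd]
      exact measurable_const
    · simp only [if_neg hd]
      exact measurable_pi_apply d
  exact (MeasurableSet.const _).inter (h1 ((cf_Y hP p k).meas_low (-κ ^ 2)))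

theorem meas_Mom (hP : Ok Γ D P) {p : Pr} (hp : p.Ok) (hκ : 0 ≤ κ) {M : ℕ → ℝ} (k : ℕ)
    {a : ℝ → ℂ} (ha : Am M (Lm κ k) a) (u v : ℝ) (r : ℕ) :
    Measurable fun ξ : Dir → I => Mom P p Γ D κ a r u v k ξ := by
  classical
  have h1 := (meas_Sb hP hp hκ k ha).pow_const r
  set A : Set (Dir → I) := {ξ : Dir → I | ∀ z, curv (Y P p Γ D k ξ) z < 0} with hA
  have hAm : MeasurableSet A := meas_neg hP p k
  have h2 : StronglyMeasurable fun q : A × ℝ => Sb P p Γ D κ k a q.2 q.1.1 ^ r :=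
    h1.stronglyMeasurable
  have h3 := h2.integral_prod_right' (ν := volume.restrict (Ioc (u * 2 ^ k) (v * 2 ^ k)))
  have h4 := h2.integral_prod_right' (ν := volume.restrict (Ioc (v * 2 ^ k) (u * 2 ^ k)))
  have h5 : Measurable fun w : A => 1 / ((v - u) * 2 ^ k) *
      ∫ τ in (u * 2 ^ k)..(v * 2 ^ k), Sb P p Γ D κ k a τ w.1 ^ r :=
    (h3.sub h4).measurable.const_mul _
  refine measurable_of_restrict_of_restrict_compl hAm ?_ ?_
  · have e : A.domRestrict (fun ξ : Dir → I => Mom P p Γ D κ a r u v k ξ) = fun w : A =>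
        1 / ((v - u) * 2 ^ k) *
        ∫ τ in (u * 2 ^ k)..(v * 2 ^ k), Sb P p Γ D κ k a τ w.1 ^ r := by
      funext w
      exact if_pos w.2
    rw [e]
    exact h5
  · have e : Aᶜ.domRestrict (fun ξ : Dir → I => Mom P p Γ D κ a r u v k ξ) = fun _ => 0 := by
      funext w
      exact if_neg w.2
    rw [e]
    exact measurable_const

end F37
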