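import Pool.Agent.LibBE37F.N3
import Pool.Agent.LibBE37F.MY
import Pool.Agent.LibBF73.F4

/-! ROW BF4 : Chebyshev's inequality for one scale. SHORT. MODEL: LibBF73/F4.lean (`cheb`; copy the proof, `Pm_prob`, `map_mix` from N3). `Bs_mix`: `zer n (mix n ξ η) = zer n ξ`. `meas_ind`: on `Bs` the curvature of `Y ξ = Y (mix ξ ξ)` is negative (`block_neg`), so the indicator is the
indicator of a measurable set times a function measurable on `{curv (Y ξ) < 0}` (`meas_Sb` at a fixed `τ`, `meas_neg`, `meas_Bs`; `measurable_of_restrict_of_restrict_compl` as in LibBF73/F2). -/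

open MeasureTheory Set Filter Topology
open scoped ContDiff unitInterval

namespace F37

variable [Sq]

open BGS BR BE B35

variable {Γ : Type} [Group Γ] [MulAction Γ Pl] {D : Set Pl} {P : Dt} {κ : ℝ}
  {ν : ℕ → Measure I}

theorem Bs_mix (p : Pr) (κ : ℝ) (k : ℕ) (ξ η : Dir → I) :
    mix (bk k) ξ η ∈ Bs P p Γ D κ k ↔ ξ ∈ Bs P p Γ D κ k := by
  have h1 : zer (bk k) (mix (bk k) ξ η) = zer (bk k) ξ := by
    funext d
    unfold zer mix
    split_ifs <;> rfl
  unfold Bs Y0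
  rw [mem_ofPred_eq, mem_ofPred_eq, h1]

theorem mix_self (n : ℕ) (ξ : Dir → I) : mix n ξ ξ = ξ := by
  funext d
  unfold mix
  split_ifs <;> rfl

private theorem BF4_mm (n : ℕ) (ξ η η' : Dir → I) : mix n (mix n ξ η) η' = mix n ξ η' := by
  funext d
  unfold mix
  split_ifs <;> rfl

theorem cheb (hν : ∀ R, IsProbabilityMeasure (ν R)) (n : ℕ) {B : Set (Dir → I)}
    (hB : MeasurableSet B) (hmix : ∀ ξ η, mix n ξ η ∈ B ↔ ξ ∈ B) {f : (Dir → I) → ℝ}
    (hf : Measurable f) (hb : ∀ ξ ∈ B, ∃ C : ℝ, ∀ η, |f (mix n ξ η)| ≤ C) {V : ℝ}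
    (hV : ∀ ξ ∈ B, |(∫ η, f (mix n ξ η) ^ 2 ∂Pm ν) - (∫ η, f (mix n ξ η) ∂Pm ν) ^ 2| ≤ V)
    {t : ℝ} (ht : 0 < t) :
    Pm ν {ξ | ξ ∈ B ∧ t ≤ |f ξ - ∫ η, f (mix n ξ η) ∂Pm ν|} ≤ ENNReal.ofReal (V / t ^ 2) := by
  have hP : IsProbabilityMeasure (F37.Pm ν) := Pm_prob hν
  obtain ⟨F, hF⟩ : ∃ F : (Dir → I) → ℝ, F = fun ξ => ∫ η, f (mix n ξ η) ∂F37.Pm ν := ⟨_, rfl⟩
  have hFe : ∀ ξ, ∫ η, f (mix n ξ η) ∂F37.Pm ν = F ξ := fun ξ => by rw [hF]
  simp only [hFe]
  have hFm : Measurable F := by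
    have h1 : Measurable fun p : (Dir → I) × (Dir → I) => f (mix n p.1 p.2) :=
      hf.comp (meas_mix n)
    rw [hF]
    exact (h1.stronglyMeasurable.integral_prod_right').measurable
  have hFx : ∀ ξ η, F (mix n ξ η) = F ξ := by
    intro ξ η
    rw [hF]
    simp only [BF4_mm]
  have hSm : MeasurableSet {ξ | ξ ∈ B ∧ t ≤ |f ξ - F ξ|} :=
    hB.inter (measurableSet_le measurable_const (continuous_abs.measurable.comp (hf.sub hFm)))
  obtain ⟨S, hS⟩ : ∃ S : Set (Dir → I), S = {ξ | ξ ∈ B ∧ t ≤ |f ξ - F ξ|} := ⟨_, rfl⟩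
  rw [← hS] at hSm ⊢
  have h2 : F37.Pm ν S = ((F37.Pm ν).prod (F37.Pm ν))
      ((fun p : (Dir → I) × (Dir → I) => mix n p.1 p.2) ⁻¹' S) := by
    rw [← Measure.map_apply (meas_mix n) hSm, map_mix hν]
  rw [h2, Measure.prod_apply ((meas_mix n) hSm)]
  have h3 : ∀ ξ, F37.Pm ν (Prod.mk ξ ⁻¹'
      ((fun p : (Dir → I) × (Dir → I) => mix n p.1 p.2) ⁻¹' S)) ≤ ENNReal.ofReal (V / t ^ 2) := by
    intro ξ
    by_cases hξ : ξ ∈ B
    · obtain ⟨C, hC⟩ := hb ξ hξ
      have hm1 : Measurable fun η => f (mix n ξ η) :=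
        hf.comp ((meas_mix n).comp (measurable_const.prodMk measurable_id))
      have hX : MemLp (fun η => f (mix n ξ η)) 2 (F37.Pm ν) :=
        MemLp.of_bound hm1.aestronglyMeasurable C (Eventually.of_forall fun η => hC η)
      have h4 := ProbabilityTheory.meas_ge_le_variance_div_sq hX ht
      have h5 : Prod.mk ξ ⁻¹' ((fun p : (Dir → I) × (Dir → I) => mix n p.1 p.2) ⁻¹' S) ⊆
          {η | t ≤ |f (mix n ξ η) - ∫ η, f (mix n ξ η) ∂F37.Pm ν|} := by
        intro η hη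
        simp only [mem_preimage, hS, mem_ofPred_eq] at hη
        rw [mem_ofPred_eq, hFe ξ, ← hFx ξ η]
        exact hη.2
      refine (measure_mono h5).trans (h4.trans (ENNReal.ofReal_le_ofReal ?_))
      refine div_le_div_of_nonneg_right ?_ (by positivity)
      rw [ProbabilityTheory.variance_eq_sub hX]
      exact (le_abs_self _).trans (hV ξ hξ)
    · have h5 : Prod.mk ξ ⁻¹' ((fun p : (Dir → I) × (Dir → I) => mix n p.1 p.2) ⁻¹' S) = ∅ := by
        ext η
        simp only [mem_preimage, hS, mem_ofPred_eq, mem_empty_iff_false, iff_false]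
        exact fun h => hξ ((hmix ξ η).1 h.1)
      rw [h5, measure_empty]
      exact zero_le
  calc _ ≤ ∫⁻ _, ENNReal.ofReal (V / t ^ 2) ∂F37.Pm ν := lintegral_mono h3
    _ = _ := by rw [lintegral_const, measure_univ, mul_one]

/-- The integral over one scale first. -/
theorem lint_mix (hν : ∀ R, IsProbabilityMeasure (ν R)) (n : ℕ) {B : Set (Dir → I)}
    (hB : MeasurableSet B) (hmix : ∀ ξ η, mix n ξ η ∈ B ↔ ξ ∈ B) {f : (Dir → I) → ℝ}
    (hf : Measurable f) (hf0 : ∀ ξ, 0 ≤ f ξ) (hb : ∀ ξ ∈ B, ∃ C : ℝ, ∀ η, f (mix n ξ η) ≤ C)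
    {V : ℝ} (hV : ∀ ξ ∈ B, ∫ η, f (mix n ξ η) ∂Pm ν ≤ V) :
    ∫⁻ ξ, ENNReal.ofReal (B.indicator f ξ) ∂(Pm ν) ≤ ENNReal.ofReal V := by
  have hP : IsProbabilityMeasure (F37.Pm ν) := Pm_prob hν
  have hm0 : Measurable fun ξ : Dir → I => ENNReal.ofReal (B.indicator f ξ) :=
    (hf.indicator hB).ennreal_ofReal
  have h1 : ∫⁻ ξ, ENNReal.ofReal (B.indicator f ξ) ∂(F37.Pm ν) =
      ∫⁻ ξ, ∫⁻ η, ENNReal.ofReal (B.indicator f (mix n ξ η)) ∂(F37.Pm ν) ∂(F37.Pm ν) := by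
    conv_lhs => rw [← map_mix hν n]
    rw [lintegral_map hm0 (meas_mix n)]
    exact lintegral_prod _ (hm0.comp (meas_mix n)).aemeasurable
  rw [h1]
  have h3 : ∀ ξ, ∫⁻ η, ENNReal.ofReal (B.indicator f (mix n ξ η)) ∂(F37.Pm ν) ≤
      ENNReal.ofReal V := by
    intro ξ
    by_cases hξ : ξ ∈ B
    · obtain ⟨C, hC⟩ := hb ξ hξ
      have hm1 : Measurable fun η => f (mix n ξ η) :=
        hf.comp ((meas_mix n).comp (measurable_const.prodMk measurable_id))
      have e : ∀ η, B.indicator f (mix n ξ η) = f (mix n ξ η) := fun η =>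
        indicator_of_mem ((hmix ξ η).2 hξ) f
      simp only [e]
      have hint : Integrable (fun η => f (mix n ξ η)) (F37.Pm ν) := by
        refine Integrable.of_bound hm1.aestronglyMeasurable C (Eventually.of_forall fun η => ?_)
        rw [Real.norm_eq_abs, abs_of_nonneg (hf0 _)]
        exact hC η
      rw [← ofReal_integral_eq_lintegral_ofReal hint (Eventually.of_forall fun η => hf0 _)]
      exact ENNReal.ofReal_le_ofReal (hV ξ hξ)
    · have e : ∀ η, B.indicator f (mix n ξ η) = 0 := fun η =>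
        indicator_of_notMem (fun h => hξ ((hmix ξ η).1 h)) f
      simp only [e, ENNReal.ofReal_zero, lintegral_zero]
      exact zero_le
  calc _ ≤ ∫⁻ _, ENNReal.ofReal V ∂F37.Pm ν := lintegral_mono h3
    _ = _ := by rw [lintegral_const, measure_univ, mul_one]

private theorem BF4_ind {Ω : Type} [MeasurableSpace Ω] {A B : Set Ω} (hA : MeasurableSet A)
    (hB : MeasurableSet B) (hBA : B ⊆ A) (f : Ω → ℝ) (hf : Measurable fun w : A => f w.1) :
    Measurable (B.indicator f) := by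
  refine measurable_of_restrict_of_restrict_compl hA ?_ ?_
  · have e : A.domRestrict (B.indicator f) =
        (Subtype.val ⁻¹' B).indicator (fun w : A => f w.1) := by
      funext w
      by_cases hw : w.1 ∈ B
      · rw [indicator_of_mem (show w ∈ Subtype.val ⁻¹' B from hw)]
        exact indicator_of_mem hw _
      · rw [indicator_of_notMem (show w ∉ Subtype.val ⁻¹' B from hw)]
        exact indicator_of_notMem hw _
    rw [e]
    exact hf.indicator (measurable_subtype_coe hB)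
  · have e : Aᶜ.domRestrict (B.indicator f) = fun _ => 0 := by
      funext w
      exact indicator_of_notMem (fun h => w.2 (hBA h)) _
    rw [e]
    exact measurable_const

theorem meas_ind (hP : Ok Γ D P) (hκ : 0 < κ) {p : Pr} (hp : p.Ok) {κ1 : ℝ} (hκ1 : 0 < κ1) :
    ∃ k0 : ℕ, ∀ k ≥ k0, ∀ (M : ℕ → ℝ) (a : ℝ → ℂ), Am M (Lm κ1 k) a → ∀ τ : ℝ,
      Measurable ((Bs P p Γ D κ k).indicator fun ξ => Sb P p Γ D κ1 k a τ ξ) := by
  obtain ⟨k0, hk0⟩ := block_neg hP hκ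
  refine ⟨k0, fun k hk M a ha τ => ?_⟩
  have hsub : Bs P p Γ D κ k ⊆ {ξ : Dir → I | ∀ z, curv (Y P p Γ D k ξ) z < 0} := by
    intro ξ hξ z
    have h1 := hk0 p hp k hk ξ hξ ξ z
    rw [mix_self] at h1
    have h2 : 0 < (κ / 2) ^ 2 := by positivity
    exact lt_of_le_of_lt h1 (neg_lt_zero.2 h2)
  have h1 := (meas_Sb hP hp hκ1.le k ha).comp
    ((measurable_id (α := {ξ : Dir → I // ∀ z, curv (Y P p Γ D k ξ) z < 0})).prodMk
      (measurable_const (a := τ)))
  exact BF4_ind (meas_neg hP p k) (meas_Bs hP p κ k) hsub _ h1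

end F37
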