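import Pool.Agent.LibBE37F.N1a

/-! The size of the coefficients in the block. -/

open MeasureTheory Set Filter Topology
open scoped ContDiff unitInterval

namespace F37

variable [Sq]

open BGS BR B35

private theorem N1b_lin (c A : ℝ) (hc : 0 < c) :
    ∀ᶠ k : ℕ in atTop, Real.log ((k : ℝ) + 2) + A ≤ c * k := by
  have ht : Tendsto (fun k : ℕ => (k : ℝ) + 2) atTop atTop :=
    tendsto_atTop_add_const_right _ _ tendsto_natCast_atTop_atTop
  have h1 := ht.eventually (Real.isLittleO_log_id_atTop.bound (half_pos hc))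
  have h2 : ∀ᶠ k : ℕ in atTop, (2 * (A + c)) / c ≤ (k : ℝ) :=
    tendsto_natCast_atTop_atTop.eventually (eventually_ge_atTop _)
  filter_upwards [h1, h2] with k hk1 hk2
  have hk0 : (0 : ℝ) ≤ (k : ℝ) := Nat.cast_nonneg k
  rw [id_eq, Real.norm_eq_abs, Real.norm_eq_abs, abs_of_nonneg (by linarith : (0:ℝ) ≤ (k : ℝ) + 2)] at hk1
  have h3 := (le_abs_self _).trans hk1
  rw [div_le_iff₀ hc] at hk2
  nlinarith

/-- the exponent -/
private noncomputable def N1b_z (R : ℕ) : ℝ := 7 / 20 * (Kc R : ℝ)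

private theorem N1b_main : ∀ᶠ k : ℕ in atTop,
    63 / 200 * (k : ℝ) ≤ N1b_z (bk k) ∧
      N1b_z (bk k) ≤ 7 / 20 * (k : ℝ) + Real.log ((k : ℝ) + 2) := by
  refine Eventually.of_forall fun k => ?_
  have hk : (0 : ℝ) ≤ k := Nat.cast_nonneg k
  have h1 : Real.log 2 ≤ Real.log ((k : ℝ) + 2) := Real.log_le_log (by norm_num) (by linarith)
  have h2 := Real.log_two_gt_d9
  unfold N1b_z
  rw [Kc_bk]
  push_cast
  constructor <;> linarith

private theorem N1b_cn (R : ℕ) : cn R = Real.exp (-N1b_z R) := rfl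

private theorem N1b_two (c : ℝ) : (2 : ℝ) ^ c = Real.exp (c * Real.log 2) := by
  rw [Real.rpow_def_of_pos (by norm_num), mul_comm]

theorem cn_bk {s : ℝ} (hs : 0 < s) (hs1 : s ≤ 1) : ∀ᶠ k : ℕ in atTop,
    (2 : ℝ) ^ (-(13 / 25 * k : ℝ)) ≤ s * cn (bk k) ∧
      s * cn (bk k) ≤ (2 : ℝ) ^ (-(2 / 5 * k : ℝ)) := by
  filter_upwards [N1b_main, N1b_lin (1 / 100) (-Real.log s) (by norm_num)] with k hk hlin
  obtain ⟨hk1, hk2⟩ := hk
  have hk0 : (0 : ℝ) ≤ (k : ℝ) := Nat.cast_nonneg k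
  have hl1 := Real.log_two_gt_d9
  have hl2 := Real.log_two_lt_d9
  rw [N1b_cn, N1b_two, N1b_two]
  constructor
  · have e : s * Real.exp (-N1b_z (bk k)) = Real.exp (Real.log s + -N1b_z (bk k)) := by
      rw [Real.exp_add, Real.exp_log hs]
    rw [e]
    refine Real.exp_le_exp.2 ?_
    nlinarith
  · calc s * Real.exp (-N1b_z (bk k)) ≤ 1 * Real.exp (-N1b_z (bk k)) :=
          mul_le_mul_of_nonneg_right hs1 (Real.exp_pos _).le
      _ = Real.exp (-N1b_z (bk k)) := one_mul _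
      _ ≤ _ := by
        refine Real.exp_le_exp.2 ?_
        nlinarith

theorem Mx_bk : ∀ᶠ k : ℕ in atTop,
    (2 : ℝ) ^ (2 / 25 * k : ℝ) ≤ Mx (bk k) ∧ (Mx (bk k) : ℝ) ≤ (2 : ℝ) ^ (11 / 100 * k : ℝ) := by
  filter_upwards [N1b_main, N1b_lin (3 / 100) (5 * Real.log 2) (by norm_num)] with k hk hlin
  obtain ⟨hk1, hk2⟩ := hk
  have hk0 : (0 : ℝ) ≤ (k : ℝ) := Nat.cast_nonneg k
  have hl1 := Real.log_two_gt_d9
  have hl2 := Real.log_two_lt_d9
  have e : cn (bk k) ^ (-(1 / 5) : ℝ) = Real.exp (N1b_z (bk k) / 5) := by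
    rw [N1b_cn, ← Real.exp_mul]
    congr 1
    ring
  unfold Mx
  rw [e, N1b_two, N1b_two]
  constructor
  · refine le_trans (Real.exp_le_exp.2 ?_) (Nat.le_ceil _)
    nlinarith
  · have h1 : (1 : ℝ) ≤ Real.exp (N1b_z (bk k) / 5) := by
      refine Real.one_le_exp ?_
      linarith
    have h2 : ((⌈Real.exp (N1b_z (bk k) / 5)⌉₊ : ℕ) : ℝ) ≤
        Real.exp (Real.log 2 + N1b_z (bk k) / 5) := by
      rw [Real.exp_add, Real.exp_log (by norm_num)]
      have := (Nat.ceil_lt_add_one (Real.exp_pos (N1b_z (bk k) / 5)).le).le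
      linarith
    refine h2.trans (Real.exp_le_exp.2 ?_)
    nlinarith

end F37
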