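import Pool.Agent.LibBE37F.FA1
import Pool.Agent.LibBE37F.FA3
import Pool.Agent.LibBE37F.N1b

/-! ROW FA6 : comparison of the metric `X ξ` itself with the metrics of the blocks. MEDIUM. PLAN. `Y_near`: `Mo_err n 0` with `FA0_ex` (order `2 n`), `e_err`; the norm on `closure D` extends to the plane by invariance (`F0_all`); the two areas differ by the factor
`exp (± sup)`, so `|nx f - nx g| ≤ 2 sup |f - g|` (`AR_mono`). `CF_X`: `CF_gen4` with `B = ex ξ`, `δ = (Mo n e (ex (zer (bk k) ξ)) - ex ξ)/√c`, `c = P.c (bk k) ≥ 2^(-13k/25)` (`cn_bk`): all derivatives are bounded because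
`Mo_err` gives `C 2^(-100k)` and `ex (zer) - ex ξ = - Sg0 (c ξ)` (`ex_agree`, `FA0_sum`, `c_half`). Curvature: `FA0_neg` with `f = ex ξ` (the curvature of `X ξ` is `≤ -κ1²` by compactness), `g = thd t * δ → 0` in `C²` uniformly in `t`. -/

open MeasureTheory Set Filter Topology
open scoped ContDiff unitInterval

namespace F37

variable [Sq]

open BGS BR BE B35
open Pool.BGR (upI)

variable {Γ : Type} [Group Γ] [MulAction Γ Pl] {D : Set Pl} {P : Dt} {κ : ℝ}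

private theorem FA6_log (hX : Surface Γ D) {m : Pl → Co} (hm : BGM.Rp m) {f g : Pl → ℝ}
    (hf : Continuous f) (hg : Continuous g) {ε : ℝ} (h : ∀ z ∈ D, g z ≤ f z + ε) :
    Real.log (AR D m g) ≤ ε + Real.log (AR D m f) := by
  have h1 := AR_mono hX hm hf hg h
  have hA := AR_pos hX hm hf
  have h2 := Real.log_le_log (AR_pos hX hm hg) h1
  rwa [Real.log_mul (Real.exp_pos _).ne' hA.ne', Real.log_exp] at h2

private theorem FA6_nx (hX : Surface Γ D) {m : Pl → Co} (hm : BGM.Rp m) {f g : Pl → ℝ}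
    (hf : Continuous f) (hg : Continuous g) {ε : ℝ} (h : ∀ z, |f z - g z| ≤ ε) (z : Pl) :
    |nx D m f z - nx D m g z| ≤ 2 * ε := by
  have h1 := FA6_log hX hm hf hg (ε := ε) fun z _ => by linarith [(abs_le.1 (h z)).1]
  have h2 := FA6_log hX hm hg hf (ε := ε) fun z _ => by linarith [(abs_le.1 (h z)).2]
  have h3 := abs_le.1 (h z)
  rw [nx_eq, nx_eq, abs_le]
  constructor <;> linarith [h3.1, h3.2]

theorem Y_near (hP : Ok Γ D P) {p : Pr} (hp : p.Ok) : ∃ C : ℝ, 0 ≤ C ∧ ∀ k : ℕ,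
    2 ^ p.n * p.e k ≤ 1 → ∀ (ξ : Dir → I) (z : Pl),
      |hY P p Γ D k ξ z - P.h Γ D ξ z| ≤ C * (2 : ℝ) ^ (-(100 * k : ℝ)) := by
  have hX := hP.cx.hX
  have hrp : BGM.Rp P.m := ⟨hP.hm.smooth, hP.hm.pos⟩
  obtain ⟨C1, hC10, hC1⟩ := Mo_err (Γ := Γ) hX hP.hyp p.n 0
  obtain ⟨B, hB0, hB⟩ := FA0_ex hP.cx (0 + 2 * p.n)
  refine ⟨2 * (C1 * B), by positivity, fun k hk ξ z => ?_⟩
  have hf := ex_test hP ξ
  have hMo := Mo_test hX hP.hyp p.n (e_pos p k) hf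
  have herr : ∀ z ∈ closure D, |B36.Mo p.n (p.e k) (BGM.ex Γ P.ψ P.L P.c ξ) z -
      BGM.ex Γ P.ψ P.L P.c ξ z| ≤ C1 * B * p.e k ^ (2 * p.n) := by
    intro z hz
    have h1 := hC1 (p.e k) (e_pos p k) hk _ hf B (fun j hj z hz => hB j hj ξ z hz) 0 le_rfl z hz
    rw [norm_iteratedFDeriv_zero] at h1
    exact h1
  have hall : ∀ z, |B36.Mo p.n (p.e k) (BGM.ex Γ P.ψ P.L P.c ξ) z -
      BGM.ex Γ P.ψ P.L P.c ξ z| ≤ C1 * B * p.e k ^ (2 * p.n) := by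
    refine F0_all hX herr fun γ z h => ?_
    rw [hMo.2 γ z, hf.2 γ z] at h
    exact h
  have h2 := FA6_nx hX hrp hMo.1.continuous hf.1.continuous hall z
  have h3 := e_err p hp k
  have h4 : C1 * B * p.e k ^ (2 * p.n) ≤ C1 * B * (2 : ℝ) ^ (-(100 * k : ℝ)) :=
    mul_le_mul_of_nonneg_left h3 (by positivity)
  refine h2.trans ?_
  linarith

/-- The path from `X ξ` to the base metric of the block. -/
noncomputable def sX (P : Dt) (p : Pr) (Γ : Type) [Group Γ] [MulAction Γ Pl] (D : Set Pl)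
    (ξ : Dir → I) (k : ℕ) (e : ℝ × Pl) : ℝ :=
  nx D P.m (fun z => BGM.ex Γ P.ψ P.L P.c ξ z + thd e.1 * (1 / √(P.c (bk k)) *
    (B36.Mo p.n (p.e k) (BGM.ex Γ P.ψ P.L P.c (zer (bk k) ξ)) z - BGM.ex Γ P.ψ P.L P.c ξ z))) e.2

/-- The direction of the path. -/
private noncomputable def FA6_d (P : Dt) (p : Pr) (Γ : Type) [Group Γ] [MulAction Γ Pl]
    (ξ : Dir → I) (k : ℕ) (z : Pl) : ℝ :=
  1 / √(P.c (bk k)) * (B36.Mo p.n (p.e k) (BGM.ex Γ P.ψ P.L P.c (zer (bk k) ξ)) z -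
    BGM.ex Γ P.ψ P.L P.c ξ z)

private theorem FA6_test (hP : Ok Γ D P) (p : Pr) (ξ : Dir → I) (k : ℕ) :
    FA6_d P p Γ ξ k ∈ Test Γ := by
  have h1 := Mo_test hP.cx.hX hP.hyp p.n (e_pos p k) (ex_test hP (zer (bk k) ξ))
  have h2 := ex_test hP ξ
  refine ⟨contDiff_const.mul (h1.1.sub h2.1), fun γ z => ?_⟩
  unfold FA6_d
  rw [h1.2 γ z, h2.2 γ z]

private theorem FA6_split (hP : Ok Γ D P) (p : Pr) (ξ : Dir → I) (k : ℕ) :
    FA6_d P p Γ ξ k = fun z => (1 / √(P.c (bk k))) •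
      (B36.Mo p.n (p.e k) (BGM.ex Γ P.ψ P.L P.c (zer (bk k) ξ)) z -
        BGM.ex Γ P.ψ P.L P.c (zer (bk k) ξ) z) +
      Sg0 Γ P.L (bk k) (fun c => √(P.c (bk k)) * -((ξ (bk k, c) : I) : ℝ)) z := by
  funext z
  have hagr : ∀ d : Dir, d.1 ≠ bk k → ξ d = zer (bk k) ξ d := fun d hd => by simp [zer, hd]
  have h1 := ex_agree hP hagr z
  have hc := (c_pos hP (bk k)).1
  have hs : 0 < √(P.c (bk k)) := Real.sqrt_pos.2 hc
  have hss : √(P.c (bk k)) * √(P.c (bk k)) = P.c (bk k) := Real.mul_self_sqrt hc.le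
  have e : Sg0 Γ P.L (bk k) (fun q => P.c (bk k) *
      (((zer (bk k) ξ (bk k, q) : I) : ℝ) - ξ (bk k, q))) z =
      √(P.c (bk k)) * Sg0 Γ P.L (bk k) (fun q => √(P.c (bk k)) * -((ξ (bk k, q) : I) : ℝ)) z := by
    unfold Sg0
    rw [Finset.mul_sum]
    refine Finset.sum_congr rfl fun q _ => ?_
    beta_reduce
    have hz : ((zer (bk k) ξ (bk k, q) : I) : ℝ) = 0 := by simp [zer]
    rw [hz, zero_sub, ← mul_assoc, ← mul_assoc, hss]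
  rw [e] at h1
  unfold FA6_d
  rw [smul_eq_mul]
  have h2 : BGM.ex Γ P.ψ P.L P.c ξ z = BGM.ex Γ P.ψ P.L P.c (zer (bk k) ξ) z -
      √(P.c (bk k)) * Sg0 Γ P.L (bk k) (fun q => √(P.c (bk k)) * -((ξ (bk k, q) : I) : ℝ)) z := by
    rw [h1]
    ring
  have h3 : 1 / √(P.c (bk k)) * (√(P.c (bk k)) *
      Sg0 Γ P.L (bk k) (fun q => √(P.c (bk k)) * -((ξ (bk k, q) : I) : ℝ)) z) =
      Sg0 Γ P.L (bk k) (fun q => √(P.c (bk k)) * -((ξ (bk k, q) : I) : ℝ)) z := by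
    rw [← mul_assoc, one_div_mul_cancel hs.ne', one_mul]
  rw [h2]
  linear_combination h3

private theorem FA6_bd (hP : Ok Γ D P) {p : Pr} (hp : p.Ok) (ξ : Dir → I) (r : ℕ) :
    ∃ C : ℝ, 0 ≤ C ∧ ∀ k : ℕ, 2 ^ p.n * p.e k ≤ 1 →
      (2 : ℝ) ^ (-(13 / 25 * k : ℝ)) ≤ P.c (bk k) → ∀ j ≤ r, ∀ z ∈ closure D,
      ‖iteratedFDeriv ℝ j (FA6_d P p Γ ξ k) z‖ ≤
        C * ((1 / 2 : ℝ) ^ k + ((bk k : ℝ) + 1) ^ (r + 2) * √(P.c (bk k))) := by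
  have hX := hP.cx.hX
  obtain ⟨C1, hC10, hC1⟩ := Mo_err (Γ := Γ) hX hP.hyp p.n r
  obtain ⟨B, hB0, hB⟩ := FA0_ex hP.cx (r + 2 * p.n)
  obtain ⟨C2, hC20, hC2⟩ := FA0_sum hX P.L r
  refine ⟨C1 * B + C2, by positivity, fun k hk hck j hj z hz => ?_⟩
  have hc := (c_pos hP (bk k))
  have hs : 0 < √(P.c (bk k)) := Real.sqrt_pos.2 hc.1
  have hf := ex_test hP (zer (bk k) ξ)
  have hMo := Mo_test hX hP.hyp p.n (e_pos p k) hf
  have hsub : ContDiff ℝ ∞ fun z => B36.Mo p.n (p.e k) (BGM.ex Γ P.ψ P.L P.c (zer (bk k) ξ)) z -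
      BGM.ex Γ P.ψ P.L P.c (zer (bk k) ξ) z := hMo.1.sub hf.1
  have hSg := (Sg0_test hX P.L (bk k) (fun c => √(P.c (bk k)) * -((ξ (bk k, c) : I) : ℝ))).1
  have hjt : ((j : ℕ∞) : WithTop ℕ∞) ≤ (∞ : WithTop ℕ∞) := by exact_mod_cast le_top
  have hsm : ContDiff ℝ ∞ fun z => (1 / √(P.c (bk k))) •
      (B36.Mo p.n (p.e k) (BGM.ex Γ P.ψ P.L P.c (zer (bk k) ξ)) z -
        BGM.ex Γ P.ψ P.L P.c (zer (bk k) ξ) z) := contDiff_const.mul hsub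
  rw [FA6_split hP p ξ k, fun_iteratedFDeriv_add_apply
    (hsm.of_le hjt).contDiffAt (hSg.of_le hjt).contDiffAt]
  have e1 : iteratedFDeriv ℝ j (fun z => (1 / √(P.c (bk k))) •
      (B36.Mo p.n (p.e k) (BGM.ex Γ P.ψ P.L P.c (zer (bk k) ξ)) z -
        BGM.ex Γ P.ψ P.L P.c (zer (bk k) ξ) z)) z = (1 / √(P.c (bk k))) •
      iteratedFDeriv ℝ j (fun z => B36.Mo p.n (p.e k) (BGM.ex Γ P.ψ P.L P.c (zer (bk k) ξ)) z -
        BGM.ex Γ P.ψ P.L P.c (zer (bk k) ξ) z) z :=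
    iteratedFDeriv_const_smul_apply (a := 1 / √(P.c (bk k)))
      (f := fun z => B36.Mo p.n (p.e k) (BGM.ex Γ P.ψ P.L P.c (zer (bk k) ξ)) z -
        BGM.ex Γ P.ψ P.L P.c (zer (bk k) ξ) z) (hsub.of_le hjt).contDiffAt
  rw [e1]
  have b1 := hC1 (p.e k) (e_pos p k) hk _ hf B (fun j hj z hz => hB j hj _ z hz) j hj z hz
  have b2 := hC2 (bk k) (fun c => √(P.c (bk k)) * -((ξ (bk k, c) : I) : ℝ)) (√(P.c (bk k)))
    (fun q => by
      have h3 := (ξ (bk k, q)).2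
      rw [abs_mul, abs_of_nonneg (Real.sqrt_nonneg _), abs_neg, abs_of_nonneg h3.1]
      exact mul_le_of_le_one_right (Real.sqrt_nonneg _) h3.2) j hj z hz
  have h5 : P.c (bk k) ≤ √(P.c (bk k)) := by
    apply Real.le_sqrt_of_sq_le
    nlinarith [hc.1, hc.2]
  have h6 : p.e k ^ (2 * p.n) ≤ (1 / 2 : ℝ) ^ k * √(P.c (bk k)) := by
    refine (e_err p hp k).trans ?_
    have h7 : (2 : ℝ) ^ (-(100 * k : ℝ)) ≤ (1 / 2 : ℝ) ^ k * (2 : ℝ) ^ (-(13 / 25 * k : ℝ)) := by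
      have h8 : (1 / 2 : ℝ) ^ k = (2 : ℝ) ^ (-(k : ℝ)) := by
        rw [Real.rpow_neg two_pos.le, Real.rpow_natCast, one_div, inv_pow]
      rw [h8, ← Real.rpow_add two_pos]
      have hk0 : (0 : ℝ) ≤ k := Nat.cast_nonneg k
      exact Real.rpow_le_rpow_of_exponent_le one_le_two (by linarith)
    exact h7.trans (mul_le_mul_of_nonneg_left (hck.trans h5) (by positivity))
  have h9 : 1 / √(P.c (bk k)) * (C1 * B * p.e k ^ (2 * p.n)) ≤ C1 * B * (1 / 2 : ℝ) ^ k := by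
    rw [one_div, inv_mul_le_iff₀ hs]
    calc C1 * B * p.e k ^ (2 * p.n) ≤ C1 * B * ((1 / 2 : ℝ) ^ k * √(P.c (bk k))) :=
          mul_le_mul_of_nonneg_left h6 (by positivity)
      _ = √(P.c (bk k)) * (C1 * B * (1 / 2 : ℝ) ^ k) := by ring
  have h10 : ‖(1 / √(P.c (bk k)) : ℝ)‖ = 1 / √(P.c (bk k)) :=
    Real.norm_of_nonneg (by positivity)
  have h11 : 0 ≤ ((bk k : ℝ) + 1) ^ (r + 2) * √(P.c (bk k)) := by positivity
  have h12 : (0 : ℝ) ≤ (1 / 2 : ℝ) ^ k := by positivity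
  calc _ ≤ ‖(1 / √(P.c (bk k)) : ℝ)‖ * (C1 * B * p.e k ^ (2 * p.n)) +
        C2 * ((bk k : ℝ) + 1) ^ (r + 2) * √(P.c (bk k)) := by
        refine (norm_add_le _ _).trans (add_le_add ?_ b2)
        rw [norm_smul]
        exact mul_le_mul_of_nonneg_left b1 (norm_nonneg _)
    _ ≤ C1 * B * (1 / 2 : ℝ) ^ k + C2 * (((bk k : ℝ) + 1) ^ (r + 2) * √(P.c (bk k))) := by
        rw [h10, mul_assoc C2]
        exact add_le_add h9 le_rfl
    _ ≤ (C1 * B + C2) * ((1 / 2 : ℝ) ^ k + ((bk k : ℝ) + 1) ^ (r + 2) * √(P.c (bk k))) := by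
        have := mul_nonneg (mul_nonneg hC10 hB0) h11
        have := mul_nonneg hC20.le h12
        nlinarith

private theorem FA6_lim (hP : Ok Γ D P) (r : ℕ) : Tendsto (fun k : ℕ => (1 / 2 : ℝ) ^ k +
    ((bk k : ℝ) + 1) ^ r * √(P.c (bk k))) atTop (𝓝 0) := by
  have h1 := (tendsto_pow_atTop_nhds_zero_of_lt_one (r := (1 / 2 : ℝ)) (by norm_num)
    (by norm_num)).add (c_half hP r)
  rwa [add_zero] at h1

private theorem FA6_neg (hP : Ok Γ D P) {ξ : Dir → I} (h : ∀ z, curv (P.X Γ D ξ) z < 0) :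
    ∃ κ : ℝ, 0 < κ ∧ ∀ z, curv (fun w => Real.exp (nx D P.m (BGM.ex Γ P.ψ P.L P.c ξ) w) •
      P.m w) z ≤ -κ ^ 2 := by
  have hX := hP.cx.hX
  have hrp : BGM.Rp P.m := ⟨hP.hm.smooth, hP.hm.pos⟩
  have hf := ex_test hP ξ
  have hK : IsCompact (closure D) := Cmp_compact hX
  have hA := AR_pos hX hrp hf.1.continuous
  have hneg : ∀ z, curv (fun w => Real.exp (nx D P.m (BGM.ex Γ P.ψ P.L P.c ξ) w) •
      P.m w) z < 0 := h
  have hrp2 := BGM.D1_rp hrp hf.1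
  have hcont : Continuous (curv (BGM.cf (BGM.ex Γ P.ψ P.L P.c ξ) P.m)) := BGM.E2_cont hrp2
  have hne : (closure D).Nonempty := by
    obtain ⟨γ, hγ, -⟩ := hX.orbit (0 : Pl)
    exact ⟨γ • (0 : Pl), subset_closure hγ⟩
  obtain ⟨z0, hz0, hmax⟩ := hK.exists_isMaxOn hne hcont.continuousOn
  have h0 : curv (BGM.cf (BGM.ex Γ P.ψ P.L P.c ξ) P.m) z0 < 0 := by
    have h1 := hneg z0
    rw [curv_nx hX hrp hf.1] at h1
    by_contra hc
    exact absurd h1 (not_lt.2 (mul_nonneg hA.le (not_lt.1 hc)))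
  have hall : ∀ z, curv (BGM.cf (BGM.ex Γ P.ψ P.L P.c ξ) P.m) z ≤
      curv (BGM.cf (BGM.ex Γ P.ψ P.L P.c ξ) P.m) z0 := by
    refine F0_all hX (fun z hz => hmax hz) fun γ z h => ?_
    rw [BGM.E2_inv hX hrp2 (BGM.D1_iv hP.hm.inv hf.2) γ z] at h
    exact h
  refine ⟨√(-(AR D P.m (BGM.ex Γ P.ψ P.L P.c ξ) *
    curv (BGM.cf (BGM.ex Γ P.ψ P.L P.c ξ) P.m) z0)), Real.sqrt_pos.2 ?_, fun z => ?_⟩
  · have := mul_neg_of_pos_of_neg hA h0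
    linarith
  · have h1 := mul_neg_of_pos_of_neg hA h0
    rw [curv_nx hX hrp hf.1, Real.sq_sqrt (by linarith), neg_neg]
    exact mul_le_mul_of_nonneg_left (hall z) hA.le

theorem CF_X (hP : Ok Γ D P) {p : Pr} (hp : p.Ok) {ξ : Dir → I}
    (h : ∀ z, curv (P.X Γ D ξ) z < 0) : ∃ (k0 : ℕ) (a b : ℝ),
      CF Γ D P.m a b (fun k : {k : ℕ // k0 ≤ k} => sX P p Γ D ξ k) := by
  have hX := hP.cx.hX
  have hf := ex_test hP ξ
  obtain ⟨s, hs0, hs1, hc⟩ := hP.c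
  obtain ⟨κ, hκ, hneg⟩ := FA6_neg hP h
  obtain ⟨M, hM0, hM⟩ := FA0_ex hP.cx 2
  obtain ⟨ε, b, hε, hstab⟩ := FA0_neg (Γ := Γ) (D := D) hX hP.hm hκ hM0
  obtain ⟨C, hC0, hC⟩ := FA6_bd hP hp ξ 2
  have hlim : Tendsto (fun k : ℕ => 8 * (C * ((1 / 2 : ℝ) ^ k +
      ((bk k : ℝ) + 1) ^ (2 + 2) * √(P.c (bk k))))) atTop (𝓝 0) := by
    have h1 := ((FA6_lim hP (2 + 2)).const_mul C).const_mul 8
    rwa [mul_zero, mul_zero] at h1
  obtain ⟨k0, hk0⟩ := eventually_atTop.1 ((hlim.eventually (Iio_mem_nhds hε)).and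
    ((e_small p hp.pos).and (cn_bk hs0 hs1)))
  have hcb : ∀ k, k0 ≤ k → (2 : ℝ) ^ (-(13 / 25 * k : ℝ)) ≤ P.c (bk k) := by
    intro k hk
    rw [hc (bk k)]
    exact (hk0 k hk).2.2.1
  refine ⟨k0, κ / 2, b, ?_⟩
  refine CF_gen4 (Γ := Γ) (D := D) (B := fun _ => BGM.ex Γ P.ψ P.L P.c ξ)
    (δ := fun k : {k : ℕ // k0 ≤ k} => FA6_d P p Γ ξ k) hX hP.ori hP.hm (by positivity)
    (fun _ => hf) (fun k => FA6_test hP p ξ k) (fun j => ?_) (fun j => ?_) fun k t z => ?_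
  · obtain ⟨C', -, hC'⟩ := FA0_ex hP.cx j
    exact ⟨C', fun _ z hz => hC' j le_rfl _ z hz⟩
  · obtain ⟨C', hC'0, hC'⟩ := FA6_bd hP hp ξ j
    obtain ⟨T, hT⟩ := (FA6_lim hP (j + 2)).bddAbove_range
    refine ⟨C' * T, fun k z hz => ?_⟩
    refine (hC' k (hk0 k k.2).2.1 (hcb k k.2) j le_rfl z hz).trans ?_
    exact mul_le_mul_of_nonneg_left (hT ⟨(k : ℕ), rfl⟩) hC'0
  · have hd := FA6_test hP p ξ k
    have hg : (fun w => thd t * FA6_d P p Γ ξ k w) ∈ Test Γ :=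
      ⟨contDiff_const.mul hd.1, fun γ z => by
        change thd t * FA6_d P p Γ ξ k (γ • z) = thd t * FA6_d P p Γ ξ k z
        rw [hd.2 γ z]⟩
    refine hstab _ _ hf hg (fun j hj z hz => hM j hj _ z hz) (fun j hj z hz => ?_) hneg z
    have hjt : ((j : ℕ∞) : WithTop ℕ∞) ≤ (∞ : WithTop ℕ∞) := by exact_mod_cast le_top
    have e1 : iteratedFDeriv ℝ j (fun w => thd t * FA6_d P p Γ ξ k w) z =
        thd t • iteratedFDeriv ℝ j (FA6_d P p Γ ξ k) z :=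
      iteratedFDeriv_const_smul_apply (a := thd t) (f := FA6_d P p Γ ξ k)
        (hd.1.of_le hjt).contDiffAt
    rw [e1, norm_smul, Real.norm_eq_abs]
    have h2 := hC k (hk0 k k.2).2.1 (hcb k k.2) j hj z hz
    refine (mul_le_mul (thd_le t) h2 (norm_nonneg _) (by norm_num)).trans ?_
    exact (hk0 k k.2).1.le

theorem sX_zero (hP : Ok Γ D P) (p : Pr) (ξ : Dir → I) (k : ℕ) :
    mm P.m (sX P p Γ D ξ k) 0 = P.X Γ D ξ := by
  funext z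
  unfold mm sX Dt.X Dt.h
  have h0 : thd 0 = 0 := thd_id (by norm_num)
  simp only [h0, zero_mul, add_zero]

theorem sX_one (hP : Ok Γ D P) (p : Pr) (ξ : Dir → I) (k : ℕ) :
    mm P.m (sX P p Γ D ξ k) (√(P.c (bk k))) = Y0 P p Γ D k ξ := by
  funext z
  have hc := c_pos hP (bk k)
  have hs : 0 < √(P.c (bk k)) := Real.sqrt_pos.2 hc.1
  have hs1 : √(P.c (bk k)) ≤ 1 := Real.sqrt_le_one.2 hc.2
  have h0 : thd (√(P.c (bk k))) = √(P.c (bk k)) :=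
    thd_id (by rw [abs_of_pos hs]; linarith)
  have e : (fun z => BGM.ex Γ P.ψ P.L P.c ξ z + thd (√(P.c (bk k))) * (1 / √(P.c (bk k)) *
      (B36.Mo p.n (p.e k) (BGM.ex Γ P.ψ P.L P.c (zer (bk k) ξ)) z -
        BGM.ex Γ P.ψ P.L P.c ξ z))) =
      B36.Mo p.n (p.e k) (BGM.ex Γ P.ψ P.L P.c (zer (bk k) ξ)) := by
    funext z
    rw [h0, ← mul_assoc, mul_one_div_cancel hs.ne', one_mul]
    ring
  unfold mm sX Y0 Y hY
  dsimp only
  rw [e]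

end F37
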