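import Pool.Agent.LibBE37F.FA5
import Pool.Agent.LibUC88.Z2

/-! Part E for the base metrics of the blocks: the uniform constants, the weights. -/

open MeasureTheory Set Filter Topology
open scoped ContDiff unitInterval

namespace F37

variable [Sq]

open BGS BR HG20 B35
open E35 (Cl tv pt xi)

variable {Γ : Type} [Group Γ] [MulAction Γ Pl] {D : Set Pl} {P : Dt} {κ : ℝ}

/-- The uniform constants of the base metrics of the blocks (also uniform in the parameters `p`). -/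
theorem block_UC (hP : Ok Γ D P) (hκ : 0 < κ) : ∃ (a b r : ℝ) (Λ k0 : ℕ), ∀ (p : Pr), p.Ok →
    ∀ k ≥ k0, ∀ ξ ∈ Bs P p Γ D κ k, ∃ LK : ℝ,
      Ctx D (Y0 P p Γ D k ξ) a b LK (dat Γ (Y0 P p Γ D k ξ) a b LK) ∧
      E35.UC D a b r Λ (dat Γ (Y0 P p Γ D k ξ) a b LK) := by
  obtain ⟨k0, b0, hCF⟩ := CF_path hP hκ
  obtain ⟨b, r, Λ, h⟩ := BE.UC_CF hCF
  refine ⟨κ / 2, b, r, Λ, k0, fun p hp k hk ξ hξ => ?_⟩
  have h1 := h ⟨p, k, ξ, ξ, hp, hk, hξ⟩ 0 (by simp)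
  have h2 : BE.mm P.m (sP P p Γ D k ξ ξ) 0 = Y0 P p Γ D k ξ := path_zero hP p k ξ ξ
  simp only [h2] at h1
  refine h1 ?_
  have h3 : ∀ z, curv (Y P p Γ D k (zer (bk k) ξ)) z < 0 := by
    intro z
    have h4 : curv (Y0 P p Γ D k ξ) z ≤ -κ ^ 2 := hξ.2 z
    have h5 : 0 < κ ^ 2 := by positivity
    have h6 : curv (Y P p Γ D k (zer (bk k) ξ)) z ≤ -κ ^ 2 := h4
    linarith
  obtain ⟨m', hm'⟩ := Y_mt hP p k h3
  have h7 := m'.2.area
  rw [hm'] at h7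
  exact h7

/-- Part E': the weights. -/
theorem wts (hP : Ok Γ D P) (hκ : 0 < κ) {p : Pr} (hp : p.Ok) : ∃ (C : ℝ) (k0 : ℕ), 1 ≤ C ∧
    ∀ k ≥ k0, ∀ ξ ∈ Bs P p Γ D κ k,
      (∀ q : Cg Γ, 0 ≤ wg (Y0 P p Γ D k ξ) q ∧ wg (Y0 P p Γ D k ξ) q ≤ C) ∧
      (∀ g : GH.PG Γ, C⁻¹ ≤ lp (Y0 P p Γ D k ξ) g) ∧
      ∀ t : ℝ, 1 ≤ t → {q : Cg Γ | ln (Y0 P p Γ D k ξ) q ≤ t}.Finite ∧
        ((Cs (Γ := Γ) (Y0 P p Γ D k ξ) t).card : ℝ) ≤ Real.exp (C * t) ∧
        ∑ q ∈ Cs (Γ := Γ) (Y0 P p Γ D k ξ) t, wg (Y0 P p Γ D k ξ) q ^ 2 ≤ C * t ^ C := by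
  classical
  obtain ⟨a, b, r, Λ, k1, hUC⟩ := block_UC hP hκ
  obtain ⟨C1, hC1, hfin⟩ := E35.cl_fin (Γ := Γ) D a b r Λ
  obtain ⟨N, hN⟩ := E35.wt_sum (Γ := Γ) D a b r Λ
  set C : ℝ := 1 + |1 / a| + |r⁻¹| + 2 * C1 + N * 2 ^ N + N with hCd
  have k1' := abs_nonneg (1 / a)
  have k2' := abs_nonneg r⁻¹
  have k3' : (0 : ℝ) ≤ N * 2 ^ N := by positivity
  have k4' : (0 : ℝ) ≤ N := Nat.cast_nonneg N
  refine ⟨C, k1, by linarith, fun k hk ξ hξ => ?_⟩
  obtain ⟨LK, hc, hU⟩ := hUC p hp k hk ξ hξ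
  obtain ⟨M, Φ, hD⟩ := UC88.cl_of hc
  refine ⟨fun q => ?_, fun g => ?_, fun t ht => ?_⟩
  · rw [← UC88.wt_wg hc hD]
    refine ⟨E35.wt_nonneg M (hD.ne q), ?_⟩
    have h1 := E35.wt_le hU M (hD.ne q)
    have h2 := le_abs_self (1 / a)
    linarith
  · have h1 := E35.l0_sys hU M (hD.ne (g, 0, true))
    rw [hD.l0] at h1
    refine le_trans ?_ h1
    have h2 := hU.r_pos
    have h3 : r⁻¹ ≤ C := by
      have := le_abs_self r⁻¹
      linarith
    rw [inv_le_comm₀ (by linarith) h2]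
    exact h3
  · have h0 : (0 : ℝ) ≤ t := by linarith
    have hmap : ∀ q : Cg Γ, ln (Y0 P p Γ D k ξ) q ≤ t →
        Φ q ∈ {c : ConjClasses Γ | c ≠ 1 ∧ M.l c ≤ t} := fun q hq =>
      ⟨hD.ne q, by rw [hD.l]; exact hq⟩
    obtain ⟨hf1, hf2⟩ := hfin _ hU M t h0
    have hset : {q : Cg Γ | ln (Y0 P p Γ D k ξ) q ≤ t} =
        Φ ⁻¹' {c : ConjClasses Γ | c ≠ 1 ∧ M.l c ≤ t} := by
      ext q
      constructor
      · exact fun hq => hmap q hq
      · rintro ⟨-, hq⟩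
        rw [hD.l] at hq
        exact hq
    have hfq : {q : Cg Γ | ln (Y0 P p Γ D k ξ) q ≤ t}.Finite := by
      rw [hset]
      exact hf1.preimage hD.inj.injOn
    have hCs : Cs (Γ := Γ) (Y0 P p Γ D k ξ) t = hfq.toFinset := by
      unfold B35.Cs
      rw [dif_pos hfq]
    refine ⟨hfq, ?_, ?_⟩
    · have h1 : ((Cs (Γ := Γ) (Y0 P p Γ D k ξ) t).image Φ) ⊆ hf1.toFinset := by
        intro c hc'
        rw [Finset.mem_image] at hc'
        obtain ⟨q, hq, rfl⟩ := hc'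
        rw [hCs, Set.Finite.mem_toFinset] at hq
        rw [Set.Finite.mem_toFinset]
        exact hmap q hq
      have h2 := Finset.card_le_card h1
      rw [Finset.card_image_of_injective _ hD.inj, ← Set.ncard_eq_toFinset_card _ hf1] at h2
      have h3 : ((Cs (Γ := Γ) (Y0 P p Γ D k ξ) t).card : ℝ) ≤ C1 * Real.exp (C1 * t) :=
        le_trans (by exact_mod_cast h2) hf2
      refine h3.trans ?_
      have h4 : C1 ≤ Real.exp (C1 * t) := by
        have h5 := Real.add_one_le_exp (C1 * t)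
        nlinarith
      calc C1 * Real.exp (C1 * t) ≤ Real.exp (C1 * t) * Real.exp (C1 * t) :=
            mul_le_mul_of_nonneg_right h4 (Real.exp_pos _).le
        _ = Real.exp (2 * C1 * t) := by
            rw [← Real.exp_add]
            ring_nf
        _ ≤ Real.exp (C * t) := by
            refine Real.exp_le_exp.2 (mul_le_mul_of_nonneg_right ?_ h0)
            linarith
    · have h1 := hN _ hU M t h0 ((Cs (Γ := Γ) (Y0 P p Γ D k ξ) t).image Φ) (by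
        intro c hc'
        rw [Finset.mem_image] at hc'
        obtain ⟨q, hq, rfl⟩ := hc'
        rw [hCs, Set.Finite.mem_toFinset] at hq
        exact hmap q hq)
      rw [Finset.sum_image (fun q1 _ q2 _ h => hD.inj h)] at h1
      have h2 : ∑ q ∈ Cs (Γ := Γ) (Y0 P p Γ D k ξ) t, wg (Y0 P p Γ D k ξ) q ^ 2 ≤
          N * (1 + t) ^ N := by
        refine le_trans (le_of_eq ?_) h1
        exact Finset.sum_congr rfl fun q _ => by rw [UC88.wt_wg hc hD]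
      refine h2.trans ?_
      have h3 : (1 + t) ^ N ≤ 2 ^ N * t ^ N := by
        rw [← mul_pow]
        exact pow_le_pow_left₀ (by linarith) (by linarith) N
      have h4 : t ^ N ≤ t ^ C := by
        rw [← Real.rpow_natCast]
        exact Real.rpow_le_rpow_of_exponent_le ht (by linarith)
      have h5 : (0 : ℝ) ≤ t ^ N := by positivity
      have h6 : (0 : ℝ) ≤ t ^ C := by positivity
      calc (N : ℝ) * (1 + t) ^ N ≤ N * (2 ^ N * t ^ N) := mul_le_mul_of_nonneg_left h3 k4'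
        _ = (N * 2 ^ N) * t ^ N := by ring
        _ ≤ C * t ^ C := mul_le_mul (by linarith) h4 h5 (by linarith)


end F37
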