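import Pool.Agent.LibBE37F.GQ2a
import Pool.Agent.LibBE37F.A1
import Pool.Agent.LibBE37F.A2
import Pool.Agent.LibBE37F.FA6
import Pool.Agent.LibBE37F.IFE
import Pool.Agent.LibB35.GL1

/-! ROW GL1 : the diagonal moments of the base metric and of the metric `X ξ`. MEDIUM. MODEL: LibB35/GL1.lean, LibB35/GQ2a.lean. PLAN. `cmp_X`: `BE.wt_close` for the family `CF_X` (index `k`), `p0 = √c` (value `Y0`), `p1 = 0` (value `X ξ`), `√c ≤ 2^(-k/5)` (`cn_bk`); the factor 2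
as in `ln_cmp` (FA of LibB35/GQ2a). `HM` of both metrics: `mm` of a CF family (`hm_mm` in LibBE88) and the values. `DD_close`: `‖mt Y0 Ra q - mt X a q‖ ≤ C (2^k)^(-1/8) wg Y0 q` (`Ra_close`, `M 1` is a Lipschitz constant of `a`), then the tuples as in the model
(`deg_pair`, `pair_sum`, `prod_close`, `prod_num`; copy `GL1_tm`, `GL1_mem` from the model), `V = C Lm (C' κ1) k` from `wts`; the powers of `Lm` are absorbed (`Lm_sub`). -/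

open MeasureTheory Set Filter Topology
open scoped ContDiff unitInterval

namespace F37

variable [Sq]

open BGS BR BE B35

variable {Γ : Type} [Group Γ] [MulAction Γ Pl] {D : Set Pl} {P : Dt} {κ : ℝ}

private theorem GL1_lip {ι : Type} {m : Pl → Co} {a b : ℝ} {s : ι → ℝ × Pl → ℝ}
    (h : CF Γ D m a b s) : ∃ C : ℝ, 0 ≤ C ∧ ∀ (i : ι) (p : ℝ), |p| ≤ 1 → ∀ z : Pl,
      |s i (p, z) - s i (0, z)| ≤ C * |p| := by
  obtain ⟨C, hC⟩ := h.bd 1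
  refine ⟨|C|, abs_nonneg _, fun i p hp z => ?_⟩
  obtain ⟨γ, hγ, -⟩ := h.hX.orbit z
  rw [← h.inv i p γ z, ← h.inv i 0 γ z]
  generalize γ • z = w at hγ
  have hw := subset_closure hγ
  have hd : ∀ t ∈ Metric.closedBall (0 : ℝ) 1, HasDerivWithinAt (fun t => s i (t, w))
      (fderiv ℝ (s i) (t, w) (1, 0)) (Metric.closedBall 0 1) t := by
    intro t _
    have h1 : HasFDerivAt (s i) (fderiv ℝ (s i) (t, w)) (t, w) :=
      ((h.smooth i).differentiable (by simp) _).hasFDerivAt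
    have h2 : HasDerivAt (fun t : ℝ => (t, w)) ((1 : ℝ), (0 : Pl)) t :=
      (hasDerivAt_id t).prodMk (hasDerivAt_const t w)
    exact (h1.comp_hasDerivAt t h2).hasDerivWithinAt
  have hb : ∀ t ∈ Metric.closedBall (0 : ℝ) 1, ‖fderiv ℝ (s i) (t, w) (1, 0)‖ ≤ |C| := by
    intro t ht
    have ht' : ‖t‖ ≤ 1 := by simpa using ht
    have h1 := hC i t ht' w hw
    rw [norm_iteratedFDeriv_one] at h1
    calc ‖fderiv ℝ (s i) (t, w) (1, 0)‖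
        ≤ ‖fderiv ℝ (s i) (t, w)‖ * ‖((1 : ℝ), (0 : Pl))‖ := ContinuousLinearMap.le_opNorm _ _
      _ = ‖fderiv ℝ (s i) (t, w)‖ := by simp [Prod.norm_def]
      _ ≤ |C| := h1.trans (le_abs_self C)
  have h3 := (convex_closedBall (0 : ℝ) 1).norm_image_sub_le_of_norm_hasDerivWithin_le hd hb
    (x := 0) (y := p) (by simp) (by simpa using hp)
  simpa [Real.norm_eq_abs] using h3

private theorem GL1_two {x : ℝ} (hx : x ≤ 1) : Real.exp (x / 2) ≤ 2 := by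
  have h1 : Real.exp (1 / 2) ^ 2 ≤ 4 := by
    rw [← Real.exp_nat_mul]
    have := Real.exp_one_lt_d9
    norm_num
    linarith
  have h2 : Real.exp (1 / 2) ≤ 2 := by
    nlinarith [Real.exp_pos (1 / 2 : ℝ)]
  exact (Real.exp_le_exp.2 (by linarith)).trans h2

private theorem GL1_ln {m : Pl → Co} (hm : HM Γ m) {f f' : Pl → ℝ} (hf : ContDiff ℝ ∞ f)
    (hf' : ContDiff ℝ ∞ f') (h : ∀ z, f z ≤ f' z + 1) (q : Cg Γ)
    (h0 : 0 < lp (BGM.cf f' m) q.1) : ln (BGM.cf f m) q ≤ 2 * ln (BGM.cf f' m) q := by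
  have h1 := BGM.D1_tl ⟨hm.smooth, hm.pos⟩ hf hf' h (GH.rep q.1)
  have h2 : lp (BGM.cf f m) q.1 ≤ 2 * lp (BGM.cf f' m) q.1 :=
    h1.trans (mul_le_mul_of_nonneg_right (GL1_two le_rfl) h0.le)
  unfold ln
  have h3 : (0 : ℝ) ≤ (q.2.1 : ℝ) + 1 := by positivity
  nlinarith


private theorem GL1_pw (k : ℕ) (c : ℝ) : (2 ^ k : ℝ) ^ (-c) = (2 : ℝ) ^ (-(c * k)) := by
  rw [← Real.rpow_natCast, ← Real.rpow_mul two_pos.le]
  congr 1
  ring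

/-- the size of the parameter -/
private theorem GL1_par (hP : Ok Γ D P) : ∀ᶠ k : ℕ in atTop, 0 < √(P.c (bk k)) ∧
    √(P.c (bk k)) ≤ (2 : ℝ) ^ (-(1 / 5 * k : ℝ)) := by
  obtain ⟨s, hs, hs1, hc⟩ := hP.c
  filter_upwards [cn_bk hs hs1] with k hk
  refine ⟨Real.sqrt_pos.2 (c_pos hP _).1, ?_⟩
  rw [hc]
  refine Real.sqrt_le_iff.2 ⟨by positivity, hk.2.trans (le_of_eq ?_)⟩
  rw [← Real.rpow_natCast, ← Real.rpow_mul two_pos.le]
  congr 1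
  push_cast
  ring

theorem cmp_X (hP : Ok Γ D P) {p : Pr} (hp : p.Ok) {ξ : Dir → I}
    (h : ∀ z, curv (P.X Γ D ξ) z < 0) {κ1 : ℝ} (hκ1 : 0 < κ1) : ∃ k0 : ℕ, ∀ k ≥ k0, ∀ q : Cg Γ,
      ln (Y0 P p Γ D k ξ) q ≤ 2 * ln (P.X Γ D ξ) q ∧ ln (P.X Γ D ξ) q ≤ 2 * ln (Y0 P p Γ D k ξ) q ∧
      (ln (Y0 P p Γ D k ξ) q ≤ Lm (2 * κ1) k →
        |ln (P.X Γ D ξ) q - ln (Y0 P p Γ D k ξ) q| ≤ (2 ^ k : ℝ) ^ (-(1 / 8) : ℝ) ∧
        |wg (P.X Γ D ξ) q - wg (Y0 P p Γ D k ξ) q| ≤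
          (2 ^ k : ℝ) ^ (-(1 / 8) : ℝ) * wg (Y0 P p Γ D k ξ) q) := by
  obtain ⟨k1, a, b, hcf⟩ := CF_X hP hp h
  obtain ⟨n, hn⟩ := wt_close hcf
  obtain ⟨C', hC0', hlip⟩ := GL1_lip hcf
  obtain ⟨k2, hk2⟩ := eventually_atTop.1 (GL1_par hP)
  obtain ⟨k3, hk3⟩ := eventually_atTop.1 (Lm_sub 0 (A := C') (d := 1 / 5) (by norm_num))
  obtain ⟨k4, hk4⟩ := eventually_atTop.1 (Lm_sub (2 * κ1 * n) (A := n * 2 ^ n) (d := 3 / 40)
    (by norm_num))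
  refine ⟨max (max k1 k2) (max k3 k4), fun k hk q => ?_⟩
  have hkk1 : k1 ≤ k := ((le_max_left _ _).trans (le_max_left _ _)).trans hk
  have hkk2 : k2 ≤ k := ((le_max_right _ _).trans (le_max_left _ _)).trans hk
  have hkk3 : k3 ≤ k := ((le_max_left _ _).trans (le_max_right _ _)).trans hk
  have hkk4 : k4 ≤ k := ((le_max_right _ _).trans (le_max_right _ _)).trans hk
  obtain ⟨hp0, hp1⟩ := hk2 k hkk2
  have f3 := hk3 k hkk3
  have f4 := hk4 k hkk4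
  have hk0 : (0 : ℝ) ≤ k := Nat.cast_nonneg _
  obtain ⟨x, hx⟩ : ∃ x : ℝ, x = √(P.c (bk k)) := ⟨_, rfl⟩
  rw [← hx] at hp0 hp1
  have hxa : |x| = x := abs_of_pos hp0
  have hx1 : x ≤ 1 := hp1.trans (Real.rpow_le_one_of_one_le_of_nonpos one_le_two (by
    have : 0 ≤ 1 / 5 * (k : ℝ) := by positivity
    linarith))
  have hxle : |x| ≤ 1 := by
    rw [hxa]
    exact hx1
  have hC'x : C' * x ≤ 1 := by
    have h1 : Lm 0 k = 1 := by
      unfold Lm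
      rw [Real.rpow_zero]
    rw [h1, mul_one] at f3
    calc C' * x ≤ (2 : ℝ) ^ ((1 / 5 : ℝ) * k) * (2 : ℝ) ^ (-(1 / 5 * k : ℝ)) :=
          mul_le_mul f3 hp1 hp0.le (by positivity)
      _ = 1 := by
          rw [← Real.rpow_add two_pos, add_neg_cancel, Real.rpow_zero]
  let i : {k : ℕ // k1 ≤ k} := ⟨k, hkk1⟩
  have e0 : mm P.m (sX P p Γ D ξ k) 0 = P.X Γ D ξ := sX_zero hP p ξ k
  have e1 : mm P.m (sX P p Γ D ξ k) x = Y0 P p Γ D k ξ := by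
    rw [hx]
    exact sX_one hP p ξ k
  rw [← e0, ← e1]
  have hm0 : HM Γ (mm P.m (sX P p Γ D ξ k) 0) := hm_mm hcf i 0
  have hm1 : HM Γ (mm P.m (sX P p Γ D ξ k) x) := hm_mm hcf i x
  have hsm : ContDiff ℝ ∞ (sX P p Γ D ξ k) := hcf.smooth i
  obtain ⟨c0, t0, p0, -, -, g0⟩ := cls_q hcf.hX hcf.hO hm0 q
  obtain ⟨c1, t1, p1, -, -, g1⟩ := cls_q hcf.hX hcf.hO hm1 q
  obtain ⟨r1, r2⟩ := hn i x 0 (by rwa [Real.norm_eq_abs]) (by simp) (gel q) (gpr q) _ _ _ _ _ _ _ _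
    c1 c0
  have hl : ∀ z, |sX P p Γ D ξ k (x, z) - sX P p Γ D ξ k (0, z)| ≤ 1 := by
    intro z
    refine (hlip i x hxle z).trans ?_
    rw [hxa]
    exact hC'x
  have hsl : ∀ t : ℝ, ContDiff ℝ ∞ (fun z : Pl => sX P p Γ D ξ k (t, z)) := fun t =>
    hsm.comp (contDiff_const.prodMk contDiff_id)
  refine ⟨?_, ?_, fun hK => ?_⟩
  · exact GL1_ln hP.hm (hsl x) (hsl 0) (fun z => by linarith [(abs_le.1 (hl z)).2]) q p0
  · exact GL1_ln hP.hm (hsl 0) (hsl x) (fun z => by linarith [(abs_le.1 (hl z)).1]) q p1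
  · have hln1 : 0 ≤ ln (mm P.m (sX P p Γ D ξ k) x) q := by
      unfold ln
      positivity
    have hn0 : (0 : ℝ) ≤ n := Nat.cast_nonneg n
    have hL1 : 1 ≤ Lm (2 * κ1) k := Lm_one _ (by positivity) k
    have hnx : ‖(0 : ℝ) - x‖ = x := by
      rw [zero_sub, norm_neg, Real.norm_eq_abs, hxa]
    rw [hnx] at r1 r2
    have key : n * (1 + ln (mm P.m (sX P p Γ D ξ k) x) q) ^ n * x ≤
        (2 ^ k : ℝ) ^ (-(1 / 8) : ℝ) := by
      have h1 : (1 + ln (mm P.m (sX P p Γ D ξ k) x) q) ^ n ≤ (2 * Lm (2 * κ1) k) ^ n :=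
        pow_le_pow_left₀ (by linarith) (by linarith) n
      have h2 : (2 * Lm (2 * κ1) k) ^ n = 2 ^ n * Lm (2 * κ1 * n) k := by
        rw [mul_pow, ← Real.rpow_natCast (Lm (2 * κ1) k), Lm_pow]
      calc n * (1 + ln (mm P.m (sX P p Γ D ξ k) x) q) ^ n * x
          ≤ n * (2 * Lm (2 * κ1) k) ^ n * x := by
            refine mul_le_mul_of_nonneg_right ?_ hp0.le
            exact mul_le_mul_of_nonneg_left h1 hn0
        _ = (n * 2 ^ n * Lm (2 * κ1 * n) k) * x := by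
            rw [h2]
            ring
        _ ≤ (2 : ℝ) ^ ((3 / 40 : ℝ) * k) * (2 : ℝ) ^ (-(1 / 5 * k : ℝ)) :=
            mul_le_mul f4 hp1 hp0.le (by positivity)
        _ = (2 ^ k : ℝ) ^ (-(1 / 8) : ℝ) := by
            rw [GL1_pw, ← Real.rpow_add two_pos]
            congr 1
            ring
    have hle1 : (2 ^ k : ℝ) ^ (-(1 / 8) : ℝ) ≤ 1 := by
      rw [GL1_pw]
      refine Real.rpow_le_one_of_one_le_of_nonpos one_le_two ?_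
      have : 0 ≤ 1 / 8 * (k : ℝ) := by positivity
      linarith
    refine ⟨r1.trans key, ?_⟩
    have r3 := r2 (key.trans hle1)
    have w0 : lp (mm P.m (sX P p Γ D ξ k) 0) q.1 /
        √(trM (mm P.m (sX P p Γ D ξ k) 0) (ax (mm P.m (sX P p Γ D ξ k) 0) (gpr q)).1
          (ax (mm P.m (sX P p Γ D ξ k) 0) (gpr q)).2
          (ln (mm P.m (sX P p Γ D ξ k) 0) q) - 2) = wg (mm P.m (sX P p Γ D ξ k) 0) q := by
      rw [t0]
      rfl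
    have w1 : lp (mm P.m (sX P p Γ D ξ k) x) q.1 /
        √(trM (mm P.m (sX P p Γ D ξ k) x) (ax (mm P.m (sX P p Γ D ξ k) x) (gpr q)).1
          (ax (mm P.m (sX P p Γ D ξ k) x) (gpr q)).2
          (ln (mm P.m (sX P p Γ D ξ k) x) q) - 2) = wg (mm P.m (sX P p Γ D ξ k) x) q := by
      rw [t1]
      rfl
    rw [← w0, ← w1]
    refine r3.trans ?_
    refine mul_le_mul_of_nonneg_right key ?_
    positivity

private theorem GL1_mem {P0 J : Type} [Fintype J] {Q : Finset (Ag P0)} {F : J → Ag P0 × Bool}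
    (hF : F ∈ Tu J Q) (i : J) : (F i).1 ∈ Q := by
  classical
  unfold Tu at hF
  have h1 := Fintype.mem_piFinset.1 hF i
  exact (Finset.mem_product.1 h1).1

/-- Two families of terms that are close. -/
private theorem GL1_tm {P0 : Type} (r : ℕ) : ∃ C : ℝ, 1 ≤ C ∧ ∀ (V ε : ℝ) (w : Ag P0 → ℝ)
    (Q : Finset (Ag P0)) (M M' : Ag P0 → ℂ), 1 ≤ V → 0 ≤ ε → ε ≤ 1 → (∀ q, 0 ≤ w q ∧ w q ≤ V) →
    (∀ q ∈ Q, ‖M' q‖ ≤ V * w q) → (∀ q ∈ Q, ‖M q - M' q‖ ≤ ε * w q) → ∀ F ∈ Tu (Fin r) Q,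
    ‖tm (fun _ => M) F - tm (fun _ => M') F‖ ≤ C * V ^ C * (ε * wF w F) := by
  obtain ⟨C, hC, hpn⟩ := prod_num (Fin r)
  refine ⟨C, hC, fun V ε w Q M M' hV hε hε1 hw hM' hMM F hF => ?_⟩
  have hFQ : ∀ i, (F i).1 ∈ Q := GL1_mem hF
  have h1 := (hpn V ε 0 (fun i => w (F i).1) hV hε hε1 le_rfl zero_le_one
    (fun i => hw (F i).1)).1
  have h2 := prod_close (Finset.univ : Finset (Fin r))
    (fun i => (1 / 2 : ℂ) * cj (F i).2 (M (F i).1))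
    (fun i => (1 / 2 : ℂ) * cj (F i).2 (M' (F i).1))
    (fun i => V * w (F i).1) (fun i => 2 * ε * w (F i).1 + 0) (fun i _ => ?_) (fun i _ => ?_)
  · unfold tm wF
    refine h2.trans (h1.trans ?_)
    rw [add_zero]
  · have h3 := hM' _ (hFQ i)
    have h4 : ‖(1 / 2 : ℂ)‖ = 1 / 2 := by norm_num
    rw [norm_mul, cj_norm, h4]
    have h5 := norm_nonneg (M' (F i).1)
    linarith
  · have h3 := hMM _ (hFQ i)
    have h4 : ‖(1 / 2 : ℂ)‖ = 1 / 2 := by norm_num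
    rw [← mul_sub, ← cj_sub, norm_mul, cj_norm, h4]
    have h5 := norm_nonneg (M (F i).1 - M' (F i).1)
    have h6 := mul_nonneg hε (hw (F i).1).1
    linarith


private theorem GL1_lipa {M : ℕ → ℝ} {ρ : ℝ} {a : ℝ → ℂ} (ha : Am M ρ a) (s t : ℝ) :
    ‖a s - a t‖ ≤ M 1 * |s - t| := by
  have h1 : ∀ x ∈ (univ : Set ℝ), DifferentiableAt ℝ a x := fun x _ =>
    (ha.smooth.differentiable (by simp)) x
  have h2 : ∀ x ∈ (univ : Set ℝ), ‖deriv a x‖ ≤ M 1 := by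
    intro x _
    have := ha.bound 1 x
    rwa [iteratedDeriv_one] at this
  have h3 := convex_univ.norm_image_sub_le_of_norm_deriv_le h1 h2 (mem_univ t) (mem_univ s)
  rwa [Real.norm_eq_abs] at h3

theorem DD_close (hP : Ok Γ D P) (hκ : 0 < κ) {p : Pr} (hp : p.Ok) {ξ : Dir → I}
    (h : ∀ z, curv (P.X Γ D ξ) z < 0) {κ1 : ℝ} (hκ1 : 0 < κ1) (M : ℕ → ℝ) (r : ℕ) :
    ∃ k0 : ℕ, ∀ k ≥ k0, ξ ∈ Bs P p Γ D κ k → ∀ a : ℝ → ℂ, Am M (Lm κ1 k) a →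
      ‖DD (Cs (Γ := Γ) (Y0 P p Γ D k ξ) (Lm (2 * κ1) k)) (mt (Y0 P p Γ D k ξ) (Ra p k a)) r -
        DD (Cs (Γ := Γ) (Y0 P p Γ D k ξ) (Lm (2 * κ1) k)) (mt (P.X Γ D ξ) a) r‖ ≤
        (2 ^ k : ℝ) ^ (-(1 / 20) : ℝ) := by
  classical
  obtain ⟨k1, hf⟩ := cmp_X hP hp h hκ1
  obtain ⟨C3, hC3, hRa⟩ := Ra_close hp M
  obtain ⟨C0, k2, hC0, hw⟩ := wts hP hκ hp
  obtain ⟨C1, hC1, hps'⟩ := pair_sum (Fin r)
  have hps := hps' (GH.PG Γ)
  obtain ⟨C2, hC2, htm⟩ := GL1_tm (P0 := GH.PG Γ) r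
  set A : ℝ := C0 + 5 * |M 0| + 1 with hA
  have hM0 : 0 ≤ |M 0| := abs_nonneg _
  have hA1 : 1 ≤ A := by linarith
  have hA0 : 0 < A := by linarith
  set A0 : ℝ := C3 + |M 1| + |M 0| with hA0d
  have hM1 : 0 ≤ |M 1| := abs_nonneg _
  have hA00 : 0 ≤ A0 := by positivity
  obtain ⟨k3, hk3⟩ := eventually_atTop.1 (Lm_sub (2 * κ1 * (C0 * (C1 + C2)))
    (A := C2 * C1 * A ^ (C1 + C2) * A0) (d := 3 / 40) (by norm_num))
  obtain ⟨k4, hk4⟩ := eventually_atTop.1 (Lm_sub 0 (A := A0) (d := 1 / 8) (by norm_num))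
  refine ⟨max (max k1 k2) (max k3 k4), fun k hk hξ a ha => ?_⟩
  have hkk1 : k1 ≤ k := ((le_max_left _ _).trans (le_max_left _ _)).trans hk
  have hkk2 : k2 ≤ k := ((le_max_right _ _).trans (le_max_left _ _)).trans hk
  have hkk3 : k3 ≤ k := ((le_max_left _ _).trans (le_max_right _ _)).trans hk
  have hkk4 : k4 ≤ k := ((le_max_right _ _).trans (le_max_right _ _)).trans hk
  have f3 := hk3 k hkk3
  have f4 := hk4 k hkk4
  have hk0 : (0 : ℝ) ≤ k := Nat.cast_nonneg k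
  obtain ⟨hw1, hw2, hw3⟩ := hw k hkk2 ξ hξ
  have hF := hf k hkk1
  set t : ℝ := Lm (2 * κ1) k with ht
  have ht1 : 1 ≤ t := Lm_one _ (by positivity) k
  have ht0 : 0 ≤ t := by linarith
  set Q : Finset (Cg Γ) := Cs (Γ := Γ) (Y0 P p Γ D k ξ) t with hQ
  set w : Cg Γ → ℝ := wg (Y0 P p Γ D k ξ) with hwd
  set V : ℝ := A * t ^ C0 with hV
  have htC : t ≤ t ^ C0 := by
    have h1 := Real.rpow_le_rpow_of_exponent_le ht1 hC0
    rwa [Real.rpow_one] at h1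
  have htC1 : 1 ≤ t ^ C0 := ht1.trans htC
  have q0 : A ≤ V := le_mul_of_one_le_right hA0.le htC1
  have hV1 : 1 ≤ V := hA1.trans q0
  have hV0 : 0 < V := by linarith
  have q1 : C0 ≤ V := le_trans (by linarith) q0
  have q2 : 5 * |M 0| ≤ V := le_trans (by linarith) q0
  have q4 : C0 * t ^ C0 ≤ V := mul_le_mul_of_nonneg_right (by linarith) (by linarith)
  have q3 : C0 * t ≤ V := (mul_le_mul_of_nonneg_left htC (by linarith)).trans q4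
  obtain ⟨hfin, -, hsq⟩ := hw3 t ht1
  have hmQ : ∀ q, q ∈ Q ↔ ln (Y0 P p Γ D k ξ) q ≤ t := by
    intro q
    rw [hQ, B35.Cs, dif_pos hfin, Set.Finite.mem_toFinset]
    rfl
  have hWt : Wt Q w V := by
    refine ⟨hV1, fun q => (hw1 q).1, fun q => (hw1 q).2.trans q1, hsq.trans q4, fun q hq => ?_⟩
    have h1 : ((q.2.1 : ℝ) + 1) * lp (Y0 P p Γ D k ξ) q.1 ≤ t := (hmQ q).1 hq
    have h2 := hw2 q.1
    have h3 : ((q.2.1 : ℝ) + 1) * C0⁻¹ ≤ t :=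
      (mul_le_mul_of_nonneg_left h2 (by positivity)).trans h1
    have h4 : (q.2.1 : ℝ) + 1 ≤ C0 * t := by
      have hC0' : 0 < C0 := by linarith
      rw [← div_eq_mul_inv, div_le_iff₀ hC0'] at h3
      linarith
    exact h4.trans q3
  set ε : ℝ := A0 * (2 ^ k : ℝ) ^ (-(1 / 8) : ℝ) with hε
  have hε0 : 0 ≤ ε := by positivity
  have hε1 : ε ≤ 1 := by
    have h1 : Lm 0 k = 1 := by
      unfold Lm
      rw [Real.rpow_zero]
    rw [h1, mul_one] at f4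
    calc ε = A0 * (2 : ℝ) ^ (-(1 / 8 * k : ℝ)) := by rw [hε, GL1_pw]
      _ ≤ (2 : ℝ) ^ ((1 / 8 : ℝ) * k) * (2 : ℝ) ^ (-(1 / 8 * k : ℝ)) :=
          mul_le_mul_of_nonneg_right f4 (by positivity)
      _ = 1 := by
          rw [← Real.rpow_add two_pos, add_neg_cancel, Real.rpow_zero]
  have hd8 : (2 : ℝ) ^ (-(100 * k : ℝ)) ≤ (2 ^ k : ℝ) ^ (-(1 / 8) : ℝ) := by
    rw [GL1_pw]
    exact Real.rpow_le_rpow_of_exponent_le one_le_two (by linarith)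
  have hd0 : 0 ≤ (2 ^ k : ℝ) ^ (-(1 / 8) : ℝ) := by positivity
  have hclose : ∀ q ∈ Q, ‖mt (P.X Γ D ξ) a q - mt (Y0 P p Γ D k ξ) (Ra p k a) q‖ ≤ ε * w q := by
    intro q hq
    obtain ⟨-, -, h3⟩ := hF q
    obtain ⟨h4, h5⟩ := h3 ((hmQ q).1 hq)
    have hwq := (hw1 q).1
    have g1 := hRa k hξ.1 (Lm κ1 k) a ha (ln (Y0 P p Γ D k ξ) q)
    have g2 := GL1_lipa ha (ln (P.X Γ D ξ) q) (ln (Y0 P p Γ D k ξ) q)
    have g3 : ‖a (ln (P.X Γ D ξ) q)‖ ≤ |M 0| := by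
      have := ha.bound 0 (ln (P.X Γ D ξ) q)
      rw [iteratedDeriv_zero] at this
      exact this.trans (le_abs_self _)
    have e : mt (P.X Γ D ξ) a q - mt (Y0 P p Γ D k ξ) (Ra p k a) q =
        ((wg (P.X Γ D ξ) q - wg (Y0 P p Γ D k ξ) q : ℝ) : ℂ) * a (ln (P.X Γ D ξ) q) +
        ((wg (Y0 P p Γ D k ξ) q : ℝ) : ℂ) *
          ((a (ln (P.X Γ D ξ) q) - a (ln (Y0 P p Γ D k ξ) q)) -
            (Ra p k a (ln (Y0 P p Γ D k ξ) q) - a (ln (Y0 P p Γ D k ξ) q))) := by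
      unfold B35.mt
      push_cast
      ring
    rw [e]
    refine (norm_add_le _ _).trans ?_
    rw [norm_mul, norm_mul, Complex.norm_real, Complex.norm_real, Real.norm_eq_abs,
      Real.norm_eq_abs, abs_of_nonneg hwq]
    have g4 : ‖(a (ln (P.X Γ D ξ) q) - a (ln (Y0 P p Γ D k ξ) q)) -
        (Ra p k a (ln (Y0 P p Γ D k ξ) q) - a (ln (Y0 P p Γ D k ξ) q))‖ ≤
        (|M 1| + C3) * (2 ^ k : ℝ) ^ (-(1 / 8) : ℝ) := by
      refine (norm_sub_le _ _).trans ?_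
      have g5 : M 1 * |ln (P.X Γ D ξ) q - ln (Y0 P p Γ D k ξ) q| ≤
          |M 1| * (2 ^ k : ℝ) ^ (-(1 / 8) : ℝ) :=
        mul_le_mul (le_abs_self _) h4 (abs_nonneg _) hM1
      have g6 : C3 * (2 : ℝ) ^ (-(100 * k : ℝ)) ≤ C3 * (2 ^ k : ℝ) ^ (-(1 / 8) : ℝ) :=
        mul_le_mul_of_nonneg_left hd8 hC3
      have g7 := g2.trans g5
      have g8 := g1.trans g6
      linarith
    have g9 : |wg (P.X Γ D ξ) q - wg (Y0 P p Γ D k ξ) q| * ‖a (ln (P.X Γ D ξ) q)‖ ≤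
        ((2 ^ k : ℝ) ^ (-(1 / 8) : ℝ) * wg (Y0 P p Γ D k ξ) q) * |M 0| :=
      mul_le_mul h5 g3 (norm_nonneg _) (mul_nonneg hd0 hwq)
    have g10 := mul_le_mul_of_nonneg_left g4 hwq
    refine (add_le_add g9 g10).trans (le_of_eq ?_)
    rw [hε, hA0d, hwd]
    ring
  have hterm : ∀ F ∈ Tu (Fin r) Q,
      ‖tm (fun _ => mt (Y0 P p Γ D k ξ) (Ra p k a)) F -
        tm (fun _ => mt (P.X Γ D ξ) a) F‖ ≤ C2 * V ^ C2 * (ε * wF w F) := by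
    intro F hF'
    rw [norm_sub_rev]
    refine htm V ε w Q _ _ hV1 hε0 hε1 (fun q => ⟨(hw1 q).1, (hw1 q).2.trans q1⟩) (fun q hq => ?_)
      hclose F hF'
    have h1 := Ra_bd hp hκ1.le k ha (ln (Y0 P p Γ D k ξ) q)
    have h2 : ‖Ra p k a (ln (Y0 P p Γ D k ξ) q)‖ ≤ V :=
      h1.trans ((mul_le_mul_of_nonneg_left (le_abs_self (M 0)) (by norm_num)).trans q2)
    unfold B35.mt
    rw [norm_mul, Complex.norm_real, Real.norm_of_nonneg (hw1 q).1, mul_comm]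
    exact mul_le_mul_of_nonneg_right h2 (hw1 q).1
  have hwF : ∀ F : Fin r → Ag (GH.PG Γ) × Bool, 0 ≤ wF w F := fun F =>
    Finset.prod_nonneg fun i _ => (hw1 _).1
  have hC2V : 0 ≤ C2 * V ^ C2 := by positivity
  have hmain : ‖DD Q (mt (Y0 P p Γ D k ξ) (Ra p k a)) r - DD Q (mt (P.X Γ D ξ) a) r‖ ≤
      C2 * V ^ C2 * (ε * (C1 * V ^ C1)) := by
    unfold DD
    rw [← Finset.sum_sub_distrib]
    refine (norm_sum_le _ _).trans ?_
    calc ∑ F ∈ (Tu (Fin r) Q).filter Deg,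
          ‖tm (fun _ => mt (Y0 P p Γ D k ξ) (Ra p k a)) F -
            tm (fun _ => mt (P.X Γ D ξ) a) F‖
        ≤ ∑ F ∈ (Tu (Fin r) Q).filter Deg, C2 * V ^ C2 * (ε * wF w F) :=
          Finset.sum_le_sum fun F hF' => hterm F (Finset.mem_filter.1 hF').1
      _ ≤ ∑ F ∈ (Tu (Fin r) Q).filter Pair, C2 * V ^ C2 * (ε * wF w F) := by
          refine Finset.sum_le_sum_of_subset_of_nonneg ?_ fun F _ _ =>
            mul_nonneg hC2V (mul_nonneg hε0 (hwF F))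
          intro F hF'
          rw [Finset.mem_filter] at hF' ⊢
          exact ⟨hF'.1, deg_pair hF'.2⟩
      _ = C2 * V ^ C2 * (ε * ∑ F ∈ (Tu (Fin r) Q).filter Pair, wF w F) := by
          rw [Finset.mul_sum, Finset.mul_sum]
      _ ≤ C2 * V ^ C2 * (ε * (C1 * V ^ C1)) :=
          mul_le_mul_of_nonneg_left (mul_le_mul_of_nonneg_left (hps Q w V hWt) hε0) hC2V
  refine hmain.trans ?_
  have hVV : V ^ C2 * V ^ C1 = A ^ (C1 + C2) * Lm (2 * κ1 * (C0 * (C1 + C2))) k := by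
    rw [← Real.rpow_add hV0, hV, Real.mul_rpow hA0.le (by positivity), ← Real.rpow_mul ht0,
      add_comm C2 C1, ht, Lm_pow]
  have h9 : C2 * V ^ C2 * (ε * (C1 * V ^ C1)) =
      (C2 * C1 * A ^ (C1 + C2) * A0 * Lm (2 * κ1 * (C0 * (C1 + C2))) k) *
        (2 ^ k : ℝ) ^ (-(1 / 8) : ℝ) := by
    calc C2 * V ^ C2 * (ε * (C1 * V ^ C1)) = C2 * C1 * (V ^ C2 * V ^ C1) * ε := by ring
      _ = _ := by
        rw [hVV, hε]
        ring
  rw [h9]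
  calc (C2 * C1 * A ^ (C1 + C2) * A0 * Lm (2 * κ1 * (C0 * (C1 + C2))) k) *
        (2 ^ k : ℝ) ^ (-(1 / 8) : ℝ)
      ≤ (2 : ℝ) ^ ((3 / 40 : ℝ) * k) * (2 ^ k : ℝ) ^ (-(1 / 8) : ℝ) :=
        mul_le_mul_of_nonneg_right f3 hd0
    _ = (2 ^ k : ℝ) ^ (-(1 / 20) : ℝ) := by
        rw [GL1_pw, GL1_pw, ← Real.rpow_add two_pos]
        congr 1
        ring

end F37
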