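import Pool.Agent.LibBE37F.GB4
import Pool.Agent.LibBE37F.GL1
import Pool.Agent.LibB35.GL3
import Pool.Agent.LibB35.GL2

/-! ROW GL4 : the mean over a block, for one `ξ`. SHORT/MEDIUM. MODEL: LibB35/GL4.lean. PLAN. `sc_Am`: `GWin.sc a L t = 2/L a(t/L)`, the derivative of order `n` is `2 L^(-1-n) a^(n)(t/L)`, bounded by `2 sup ‖a^(n)‖` (compact support, `iteratedDeriv_comp_mul_left`-like lemmas; see `amp_sc` in LibB35/GQ1b).
`exists_Pr`: `δ = min δ0 (1/40)`, `n = ⌈50/δ⌉`. `mean_block`: `block` with `(r, 0)`, `DD_close`, `DD_lim` (LibB35/GL3) for `m'` with `m'.1.1 = X ξ` (here `m'` is given), `Q = Cs Y0 (Lm (2 κ1) k)`: `ln X q ≤ R L ≤ Lm κ1 k` implies `ln Y0 q ≤ 2 Lm κ1 k ≤ Lm (2 κ1) k`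
(`cmp_X`, `Lm_add`, `Lm_lt`). -/

open MeasureTheory Set Filter Topology Mes
open scoped ContDiff unitInterval

namespace F37

variable [Sq]

open BGS BR BE B35

variable {Γ : Type} [Group Γ] [MulAction Γ Pl] {D : Set Pl} {P : Dt} {κ : ℝ}
  {ν : ℕ → Measure I}

private theorem GL4_two {c : ℝ} (hc : 0 < c) : Tendsto (fun k : ℕ => (2 : ℝ) ^ (-(c * k))) atTop
    (𝓝 0) := by
  have h1 : Tendsto (fun k : ℕ => Real.log 2 * (c * (k : ℝ))) atTop atTop :=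
    (tendsto_natCast_atTop_atTop.const_mul_atTop hc).const_mul_atTop (Real.log_pos one_lt_two)
  refine (Real.tendsto_exp_neg_atTop_nhds_zero.comp h1).congr fun k => ?_
  rw [Real.rpow_def_of_pos two_pos]
  show Real.exp (-(Real.log 2 * (c * k))) = _
  congr 1
  ring

private theorem GL4_supp {a : ℝ → ℂ} (ha : FG33.IsAmp a) :
    ∃ R : ℝ, 1 ≤ R ∧ ∀ s, R < |s| → a s = 0 := by
  obtain ⟨R, hR⟩ := ha.supp.isCompact.isBounded.subset_closedBall 0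
  refine ⟨max R 1, le_max_right _ _, fun s hs => ?_⟩
  by_contra h
  have h1 : s ∈ tsupport a := subset_tsupport a h
  have h2 := hR h1
  rw [Metric.mem_closedBall, dist_zero_right, Real.norm_eq_abs] at h2
  have h3 := le_max_left R 1
  linarith

private theorem GL4_Am {a : ℝ → ℂ} (ha : FG33.IsAmp a) : ∃ M : ℕ → ℝ, ∀ R : ℝ,
    (∀ s, R < |s| → a s = 0) → ∀ L ρ : ℝ, 1 ≤ L → R * L ≤ ρ → Am M ρ (GWin.sc a L) := by
  have h1 : ∀ j : ℕ, ∃ B : ℝ, ∀ t, ‖iteratedDeriv j a t‖ ≤ B := by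
    intro j
    have hc : Continuous (iteratedDeriv j a) :=
      ha.smooth.continuous_iteratedDeriv j (by exact_mod_cast le_top)
    have hs : HasCompactSupport (iteratedDeriv j a) := by
      have h2 := ha.supp.iteratedFDeriv (𝕜 := ℝ) j
      have h3 : iteratedDeriv j a = fun t => iteratedFDeriv ℝ j a t (fun _ => 1) := by
        ext t; rw [iteratedDeriv_eq_iteratedFDeriv]
      rw [h3]
      exact h2.comp_left (g := fun m => m (fun _ => (1 : ℝ))) (by simp)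
    obtain ⟨x, hx⟩ := hc.norm.exists_forall_ge_of_hasCompactSupport hs.norm
    exact ⟨_, hx⟩
  choose B hB using h1
  have hB0 : ∀ j, 0 ≤ B j := fun j => (norm_nonneg _).trans (hB j 0)
  refine ⟨fun j => 2 * B j, fun R hR' L ρ hL hLρ => ?_⟩
  have hL0 : 0 < L := by linarith
  have hbd : ∀ j t, ‖iteratedDeriv j (GWin.sc a L) t‖ ≤ 2 * B j := by
    intro j t
    have e1 : GWin.sc a L = fun t => ((2 / L : ℝ) : ℂ) * (fun s => a (L⁻¹ * s)) t := by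
      ext t
      unfold GWin.sc
      rw [div_eq_inv_mul t L]
    have e2 : iteratedDeriv j (GWin.sc a L) t = ((2 / L : ℝ) : ℂ) * ((L⁻¹ ^ j : ℝ) •
        iteratedDeriv j a (L⁻¹ * t)) := by
      have hcd : ContDiff ℝ j a := ha.smooth.of_le (by exact_mod_cast le_top)
      rw [e1, iteratedDeriv_const_mul]
      · congr 1
        have := congrFun (iteratedDeriv_comp_const_smul hcd L⁻¹) t
        simpa only [smul_eq_mul] using this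
      · exact (hcd.comp (contDiff_const.mul contDiff_id)).contDiffAt
    rw [e2, norm_mul, norm_smul, Complex.norm_real, Real.norm_of_nonneg (by positivity),
      Real.norm_of_nonneg (by positivity)]
    have h2 : 2 / L ≤ 2 := by rw [div_le_iff₀ hL0]; linarith
    have h3 : L⁻¹ ^ j ≤ 1 := pow_le_one₀ (by positivity) (inv_le_one_of_one_le₀ hL)
    have h4 := hB j (L⁻¹ * t)
    calc 2 / L * (L⁻¹ ^ j * ‖iteratedDeriv j a (L⁻¹ * t)‖) ≤ 2 * (1 * B j) := by gcongr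
      _ = _ := by ring
  have hsm : ContDiff ℝ ∞ (GWin.sc a L) := by
    unfold GWin.sc
    exact contDiff_const.mul (ha.smooth.comp (contDiff_id.div_const L))
  have hconj : ∀ t, GWin.sc a L (-t) = (starRingEnd ℂ) (GWin.sc a L t) := by
    intro t
    unfold GWin.sc
    rw [map_mul, Complex.conj_ofReal, ← ha.herm, neg_div]
  have hsupp : ∀ t, ρ < |t| → GWin.sc a L t = 0 := by
    intro t ht
    unfold GWin.sc
    rw [hR', mul_zero]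
    rw [abs_div, abs_of_pos hL0, lt_div_iff₀ hL0]
    exact hLρ.trans_lt ht
  exact ⟨hsm, hconj, hsupp, hbd⟩

open Classical in
private theorem GL4_one {p : Pr} {κ1 : ℝ} {a : ℝ → ℂ} {u v : ℝ} (huv : u < v) (k : ℕ)
    {ξ : Dir → I} (h : ∀ z, curv (Y P p Γ D k ξ) z < 0) :
    Mom P p Γ D κ1 a 0 u v k ξ = 1 := by
  unfold Mom
  rw [if_pos h]
  simp only [pow_zero]
  rw [intervalIntegral.integral_const, smul_eq_mul, mul_one]
  have h1 : (0 : ℝ) < 2 ^ k := by positivity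
  have h2 : 0 < v - u := sub_pos.2 huv
  field_simp

theorem exists_Pr {δ0 : ℝ} (h : 0 < δ0) : ∃ p : Pr, p.Ok ∧ p.δ ≤ δ0 := by
  have h1 : 0 < min δ0 (1 / 40) := lt_min h (by norm_num)
  refine ⟨⟨min δ0 (1 / 40), ⌈50 / min δ0 (1 / 40)⌉₊⟩, ⟨h1, min_le_right _ _, ?_⟩,
    min_le_left _ _⟩
  show 50 ≤ (⌈50 / min δ0 (1 / 40)⌉₊ : ℝ) * min δ0 (1 / 40)
  rw [← div_le_iff₀ h1]
  exact Nat.le_ceil _

theorem sc_Am {a : ℝ → ℂ} (ha : FG33.IsAmp a) : ∃ (M : ℕ → ℝ) (R : ℝ), 1 ≤ R ∧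
    (∀ s, R < |s| → a s = 0) ∧ ∀ L ρ : ℝ, 1 ≤ L → R * L ≤ ρ → Am M ρ (GWin.sc a L) := by
  obtain ⟨M, hM⟩ := GL4_Am ha
  obtain ⟨R, hR1, hR⟩ := GL4_supp ha
  exact ⟨M, R, hR1, hR, hM R hR⟩

theorem mean_block (hP : Ok Γ D P) (hν : Law ν) (hκ : 0 < κ) {u v : ℝ} (hu : 0 < u)
    (huv : u < v) (r : ℕ) : ∃ δ0 : ℝ, 0 < δ0 ∧ ∀ p : Pr, p.Ok → p.δ ≤ δ0 →
    ∃ κ0 : ℝ, 0 < κ0 ∧ ∀ κ1 : ℝ, 0 < κ1 → κ1 ≤ κ0 → ∀ a : ℝ → ℂ, FG33.IsAmp a →
    ∀ R : ℝ, 1 ≤ R → (∀ s, R < |s| → a s = 0) → ∀ (ξ : Dir → I) (m' : Mt Γ D),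
      m'.1.1 = P.X Γ D ξ → ∀ ε : ℝ, 0 < ε → ∃ (Λ : ℝ) (k0 : ℕ), ∀ k ≥ k0, ξ ∈ Bs P p Γ D κ k →
      ∀ L : ℝ, Λ ≤ L → R * L ≤ Lm κ1 k →
        |(∫ η, Mom P p Γ D κ1 (GWin.sc a L) r u v k (mix (bk k) ξ η) ∂Pm ν) -
          gaussMom (GWin.vg a) r| ≤ ε := by
  have hX := hP.cx.hX
  have hO := hP.ori
  obtain ⟨δ0, hδ0, hblock⟩ := block (Γ := Γ) (D := D) (P := P) hP hν hκ hu huv r 0
  refine ⟨δ0, hδ0, fun p hp hpδ => ?_⟩
  obtain ⟨κ0, c1, hκ0, hc1, hblock⟩ := hblock p hp hpδ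
  refine ⟨κ0, hκ0, fun κ1 hκ1 hκ10 a ha R hR hR' ξ m' hm' ε hε => ?_⟩
  obtain ⟨M, hM⟩ := GL4_Am ha
  have hneg : ∀ z, curv (P.X Γ D ξ) z < 0 := by
    rw [← hm']
    exact (hm_of_Mt m').neg
  have hR0 : 0 ≤ R := by linarith
  obtain ⟨k2, hB⟩ := hblock κ1 hκ1 hκ10 M
  obtain ⟨k3, hC⟩ := DD_close hP hκ hp hneg hκ1 M r
  obtain ⟨Λ, hΛ⟩ := DD_lim hX hO m' ha hR0 hR' r (ε := ε / 3) (by positivity)
  have t1 : Tendsto (fun k : ℕ => Lm (-c1) k) atTop (𝓝 0) := (sum_bk hc1).tendsto_atTop_zero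
  obtain ⟨k4, hk4⟩ := eventually_atTop.1 (t1.eventually (gt_mem_nhds (show 0 < ε / 3 by positivity)))
  obtain ⟨k5, hk5⟩ := eventually_atTop.1 ((GL4_two (show (0 : ℝ) < 1 / 20 by norm_num)).eventually
    (gt_mem_nhds (show 0 < ε / 3 by positivity)))
  obtain ⟨k6, hk6⟩ := block_neg hP hκ
  obtain ⟨k7, hk7⟩ := cmp_X hP hp hneg hκ1
  obtain ⟨k8, hk8⟩ := eventually_atTop.1 (Lm_lt (show κ1 < 2 * κ1 by linarith) 2)
  refine ⟨max Λ 1, k2 + k3 + k4 + k5 + k6 + k7 + k8, fun k hk hξB L hL hLk => ?_⟩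
  have hL1 : 1 ≤ L := (le_max_right _ _).trans hL
  have hAm : Am M (Lm κ1 k) (GWin.sc a L) := hM R hR' L (Lm κ1 k) hL1 hLk
  have e1 := hB k (by omega) ξ hξB (GWin.sc a L) hAm
  have e2 := hC k (by omega) hξB (GWin.sc a L) hAm
  have hY0 : HM Γ (Y0 P p Γ D k ξ) := Y0_hm hP hκ hξB
  have e3 := hΛ L ((le_max_left _ _).trans hL) (Cs (Γ := Γ) (Y0 P p Γ D k ξ) (Lm (2 * κ1) k))
    (fun q hq => by
      rw [Cs_mem hX hO hY0]
      have h1 := (hk7 k (by omega) q).1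
      rw [hm'] at hq
      have h2 := hk8 k (by omega)
      linarith)
  rw [hm'] at e3
  have e4 : (∫ η, Mom P p Γ D κ1 (GWin.sc a L) r u v k (mix (bk k) ξ η) *
      Mom P p Γ D κ1 (GWin.sc a L) 0 u v k (mix (bk k) ξ η) ∂Pm ν) =
      ∫ η, Mom P p Γ D κ1 (GWin.sc a L) r u v k (mix (bk k) ξ η) ∂Pm ν := by
    refine integral_congr_ae (Filter.Eventually.of_forall fun η => ?_)
    show Mom P p Γ D κ1 (GWin.sc a L) r u v k (mix (bk k) ξ η) *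
      Mom P p Γ D κ1 (GWin.sc a L) 0 u v k (mix (bk k) ξ η) = _
    rw [GL4_one huv k fun z => ?_, mul_one]
    have h1 := hk6 p hp k (by omega) ξ hξB η z
    have h2 : 0 < (κ / 2) ^ 2 := by positivity
    linarith
  rw [e4, DD_zero, mul_one] at e1
  have e5 := (hk4 k (by omega)).le
  have e6 := (hk5 k (by omega)).le
  have e9 : ((2 : ℝ) ^ k) ^ (-(1 / 20) : ℝ) = (2 : ℝ) ^ (-(1 / 20 * (k : ℝ))) := by
    rw [← Real.rpow_natCast, ← Real.rpow_mul two_pos.le]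
    congr 1
    ring
  rw [e9] at e2
  obtain ⟨x, hx⟩ : ∃ x : ℝ, x = ∫ η, Mom P p Γ D κ1 (GWin.sc a L) r u v k (mix (bk k) ξ η) ∂Pm ν :=
    ⟨_, rfl⟩
  obtain ⟨d1, hd1⟩ : ∃ d : ℂ, d = DD (Cs (Γ := Γ) (Y0 P p Γ D k ξ) (Lm (2 * κ1) k))
    (mt (Y0 P p Γ D k ξ) (Ra p k (GWin.sc a L))) r := ⟨_, rfl⟩
  obtain ⟨d2, hd2⟩ : ∃ d : ℂ, d = DD (Cs (Γ := Γ) (Y0 P p Γ D k ξ) (Lm (2 * κ1) k))
    (mt (P.X Γ D ξ) (GWin.sc a L)) r := ⟨_, rfl⟩
  rw [← hx, ← hd1] at e1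
  rw [← hd1, ← hd2] at e2
  rw [← hd2] at e3
  rw [← hx]
  have e7 : ((x - gaussMom (GWin.vg a) r : ℝ) : ℂ) = ((x : ℂ) - d1) + (d1 - d2) +
      (d2 - (gaussMom (GWin.vg a) r : ℂ)) := by
    push_cast
    ring
  have e8 := (norm_add_le ((x : ℂ) - d1 + (d1 - d2)) (d2 - (gaussMom (GWin.vg a) r : ℂ))).trans
    (add_le_add (norm_add_le _ _) le_rfl)
  rw [← e7, Complex.norm_real, Real.norm_eq_abs] at e8
  linarith

end F37
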