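import Pool.Agent.LibBE37F.QX
import Pool.Agent.LibBE37F.GL4
import Pool.Agent.LibBF73.F6

/-! ROW BF6 : from the geometric side to the levels. SHORT/MEDIUM. MODEL: LibBF73/F6.lean (`st_blocks`). PLAN. `st_Qs` and `Qs_X` (with the amplitudes `sc a L`, `sc_Am`): `|st - Sb| ≤ ε'` for `L = 2^i ≥ Λ`, `k ≥ k0`; `Mom` is the average of `Sb^r` (the curvature of `Y ξ` is negative by
`block_neg`, `mix_self`); `F6_avg` (general) with `g τ = Sb τ ξ` (measurable in `τ`: `meas_Sb` at a fixed `ξ`), which bounds the difference of the averages of the `r`-th powers by `ε' (r 2^(2r)) (1 + Mom (2r))`; the hypothesis for `2r` bounds `Mom (2r)` by `|gaussMom| + 1`. -/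

open MeasureTheory Set Filter Topology Mes
open scoped ContDiff unitInterval

namespace F37

variable [Sq]

open BGS BR BE B35

variable {Γ : Type} [Group Γ] [MulAction Γ Pl] {D : Set Pl} {P : Dt} {κ : ℝ}
  {ν : ℕ → Measure I}

private theorem BF6_mix (n : ℕ) (ξ : Dir → I) : mix n ξ ξ = ξ := by
  funext d
  unfold mix
  split_ifs <;> rfl

private theorem BF6_meas (hP : Ok Γ D P) {p : Pr} (hp : p.Ok) {κ1 : ℝ} (hκ1 : 0 ≤ κ1)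
    {M : ℕ → ℝ} (k : ℕ) {a : ℝ → ℂ} (ha : Am M (Lm κ1 k) a) {ξ : Dir → I}
    (hξ : ∀ z, curv (Y P p Γ D k ξ) z < 0) :
    Measurable fun τ : ℝ => Sb P p Γ D κ1 k a τ ξ := by
  have h0 := meas_Sb hP hp hκ1 k ha
  have h00 : Measurable fun τ : ℝ =>
      ((⟨ξ, hξ⟩, τ) : {ξ : Dir → I // ∀ z, curv (Y P p Γ D k ξ) z < 0} × ℝ) :=
    measurable_const.prodMk measurable_id
  have h1 := h0.comp h00
  simp only [Function.comp_def] at h1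
  exact h1

private theorem BF6_two (C : ℝ) {ε : ℝ} (hε : 0 < ε) : ∃ k0 : ℕ, ∀ k ≥ k0, C / 2 ^ k ≤ ε := by
  obtain ⟨n, hn⟩ := pow_unbounded_of_one_lt (|C| / ε) (one_lt_two (α := ℝ))
  refine ⟨n, fun k hk => ?_⟩
  have h1 : (2 : ℝ) ^ n ≤ 2 ^ k := pow_le_pow_right₀ one_le_two hk
  have h2 : |C| < 2 ^ n * ε := (div_lt_iff₀ hε).1 hn
  have h3 : (0 : ℝ) < 2 ^ k := by positivity
  rw [div_le_iff₀ h3]
  have h4 := le_abs_self C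
  nlinarith

theorem st_of_Mom (hP : Ok Γ D P) (hκ : 0 < κ) {u v : ℝ} (hu : 0 < u) (huv : u < v) (r : ℕ) :
    ∃ δ0 : ℝ, 0 < δ0 ∧ ∀ p : Pr, p.Ok → p.δ ≤ δ0 → ∀ κ1 : ℝ, 0 < κ1 →
    ∀ a : ℝ → ℂ, FG33.IsAmp a → ∀ R : ℝ, 1 ≤ R → (∀ s, R < |s| → a s = 0) →
    ∀ (ξ : Dir → I) (m' : Mt Γ D), m'.1.1 = P.X Γ D ξ →
    (∃ k1 : ℕ, ∀ k ≥ k1, ξ ∈ Bs P p Γ D κ k) →
    (∀ r' ∈ ({r, 2 * r} : Set ℕ), ∀ ε : ℝ, 0 < ε → ∃ (Λ : ℝ) (k0 : ℕ), ∀ k ≥ k0, ∀ i : ℕ,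
      Λ ≤ 2 ^ i → R * 2 ^ i ≤ Lm κ1 k →
        |Mom P p Γ D κ1 (GWin.sc a (2 ^ i)) r' u v k ξ - gaussMom (GWin.vg a) r'| ≤ ε) →
    ∀ ε : ℝ, 0 < ε → ∃ (Λ : ℝ) (k0 : ℕ), ∀ k ≥ k0, ∀ i : ℕ, Λ ≤ 2 ^ i → R * 2 ^ i ≤ Lm κ1 k →
      |1 / ((v - u) * 2 ^ k) * (∫ τ in (u * 2 ^ k)..(v * 2 ^ k),
        GWin.st (FG33.lam m') a (2 ^ i) τ ^ r) - gaussMom (GWin.vg a) r| ≤ ε := by
  obtain ⟨δ0, hδ0, hQ⟩ := Qs_X (Γ := Γ) (D := D) (P := P) hP hκ hu huv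
  refine ⟨δ0, hδ0, fun p hp hpδ κ1 hκ1 a ha R hR hR' ξ m' hm' hBs hMom ε hε => ?_⟩
  obtain ⟨k1, hk1⟩ := hBs
  obtain ⟨M, R1, hR1, -, hM⟩ := sc_Am ha
  obtain ⟨C1, k2, hQ⟩ := hQ p hp hpδ κ1 hκ1 M
  obtain ⟨C2, hC2, hst⟩ := st_Qs hP.cx.hX m' ha
  obtain ⟨k3, hk3⟩ := block_neg hP hκ
  obtain ⟨k4, hk4⟩ := BF6_two 1 hu
  set g := gaussMom (GWin.vg a) (2 * r) with hg
  set W : ℝ := (r : ℝ) * 2 ^ (2 * r) * (2 + |g|) with hW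
  have hW0 : 0 ≤ W := by positivity
  set ε1 : ℝ := min 1 (ε / (2 * (W + 1))) with hε1
  have hε1p : 0 < ε1 := lt_min one_pos (by positivity)
  have hε1W : ε1 * W ≤ ε / 2 := by
    have h0 : ε1 ≤ ε / (2 * (W + 1)) := min_le_right _ _
    calc ε1 * W ≤ ε / (2 * (W + 1)) * (W + 1) := by
          gcongr
          linarith
      _ = ε / 2 := by field_simp
  obtain ⟨k5, hk5⟩ := BF6_two C1 (half_pos hε1p)
  obtain ⟨Λ2, k6, h2⟩ := hMom r (by simp) (ε / 2) (by positivity)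
  obtain ⟨Λ3, k7, h3⟩ := hMom (2 * r) (by simp) 1 one_pos
  refine ⟨max (2 * C2 / ε1) (max Λ2 Λ3), k1 + k2 + k3 + k4 + k5 + k6 + k7,
    fun k hk i hi hiK => ?_⟩
  have hi1 : 2 * C2 / ε1 ≤ 2 ^ i := (le_max_left _ _).trans hi
  have hi2 : Λ2 ≤ 2 ^ i := ((le_max_left _ _).trans (le_max_right _ _)).trans hi
  have hi3 : Λ3 ≤ 2 ^ i := ((le_max_right _ _).trans (le_max_right _ _)).trans hi
  have hL1 : (1 : ℝ) ≤ 2 ^ i := one_le_pow₀ one_le_two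
  have hL0 : (0 : ℝ) < 2 ^ i := by positivity
  have h2k : (0 : ℝ) < 2 ^ k := by positivity
  have hAB : u * 2 ^ k < v * 2 ^ k := mul_lt_mul_of_pos_right huv h2k
  have hξ := hk1 k (by omega)
  have hneg : ∀ z, curv (Y P p Γ D k ξ) z < 0 := by
    intro z
    have h1 := hk3 p hp k (by omega) ξ hξ ξ z
    rw [BF6_mix] at h1
    have h4 : 0 < (κ / 2) ^ 2 := by positivity
    linarith
  have hAm : Am M (Lm κ1 k) (GWin.sc a (2 ^ i)) := by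
    have h1 := hM (2 ^ i) (R1 * 2 ^ i) hL1 le_rfl
    refine ⟨h1.smooth, h1.conj, fun t ht => ?_, h1.bound⟩
    unfold GWin.sc
    rw [hR', mul_zero]
    rw [abs_div, abs_of_pos hL0, lt_div_iff₀ hL0]
    exact hiK.trans_lt ht
  have hstc : Continuous (GWin.st (FG33.lam m') a (2 ^ i)) :=
    GWin.st_cont ha (GD.lev hP.cx.hX m') hL0
  have hmg := BF6_meas hP hp hκ1.le k hAm hneg
  have hcl : ∀ τ ∈ Icc (u * 2 ^ k) (v * 2 ^ k),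
      |GWin.st (FG33.lam m') a (2 ^ i) τ - Sb P p Γ D κ1 k (GWin.sc a (2 ^ i)) τ ξ| ≤ ε1 := by
    intro τ hτ
    have hτ1 : 1 ≤ τ := by
      have h1 := hk4 k (by omega)
      rw [div_le_iff₀ h2k] at h1
      exact h1.trans hτ.1
    have h1 := hst (2 ^ i) τ hL1 hτ1
    have h4 := hQ k (by omega) ξ hξ m' hm' (GWin.sc a (2 ^ i)) hAm τ hτ.1 hτ.2
    have h5 := hk5 k (by omega)
    have h6 : C2 / 2 ^ i ≤ ε1 / 2 := by
      rw [div_le_iff₀ hε1p] at hi1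
      rw [div_le_iff₀ hL0]
      linarith
    have h7 := abs_sub_le (GWin.st (FG33.lam m') a (2 ^ i) τ) (B36.Qs m' (GWin.sc a (2 ^ i)) τ)
      (Sb P p Γ D κ1 k (GWin.sc a (2 ^ i)) τ ξ)
    linarith
  have hd := F6_avg hAB hstc hmg (min_le_left _ _) hcl r
  have e2 := h2 k (by omega) i hi2 hiK
  have e3 := h3 k (by omega) i hi3 hiK
  simp only [Mom, if_pos hneg] at e2 e3
  rw [show v * 2 ^ k - u * 2 ^ k = (v - u) * 2 ^ k by ring] at hd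
  set I0 := 1 / ((v - u) * 2 ^ k) * ∫ τ in (u * 2 ^ k)..(v * 2 ^ k),
    GWin.st (FG33.lam m') a (2 ^ i) τ ^ r
  set I1 := 1 / ((v - u) * 2 ^ k) * ∫ τ in (u * 2 ^ k)..(v * 2 ^ k),
    Sb P p Γ D κ1 k (GWin.sc a (2 ^ i)) τ ξ ^ r
  set I2 := 1 / ((v - u) * 2 ^ k) * ∫ τ in (u * 2 ^ k)..(v * 2 ^ k),
    Sb P p Γ D κ1 k (GWin.sc a (2 ^ i)) τ ξ ^ (2 * r)
  have e4 : 1 + I2 ≤ 2 + |g| := by
    have h5 := (abs_le.mp e3).2
    have h6 := le_abs_self g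
    linarith
  have e5 : ε1 * (r * 2 ^ (2 * r)) * (1 + I2) ≤ ε / 2 := by
    calc ε1 * (r * 2 ^ (2 * r)) * (1 + I2) ≤ ε1 * (r * 2 ^ (2 * r)) * (2 + |g|) := by gcongr
      _ = ε1 * W := by rw [hW]; ring
      _ ≤ ε / 2 := hε1W
  calc |I0 - gaussMom (GWin.vg a) r|
      = |(I0 - I1) + (I1 - gaussMom (GWin.vg a) r)| := by ring_nf
    _ ≤ |I0 - I1| + |I1 - gaussMom (GWin.vg a) r| := abs_add_le _ _
    _ ≤ ε / 2 + ε / 2 := add_le_add (hd.trans e5) e2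
    _ = ε := by ring

end F37
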