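import Pool.Agent.LibBE37F.FA1

/-! ROW FA2 : the dependence on one coefficient is a family of class `CF`. MEDIUM. MODEL: LibB35/FA2.lean (adapt it). PLAN. `B = Mo n e (ex (upI (mix n ξ η) (n, c) 0))`, `δ = Mo n e (w • per bump_c)`
(`Mo_add` with `Sg0` of one cell: `FA2_single` in LibB35/FA2), `w ≤ c^(1/3)`, bounds `Mo_ex_bd`, `Mo_Sg_bd`, `c_third`. Curvature: `FA0_neg` with `f = Mo (ex (zer ξ))` (hypothesis from `Bs`) and
`g = Mo (Sg0 (c n * η') ) + thd t * Mo (w bump)`, where `η'` are the coefficients of `upI (mix ξ η) (n, c) 0` (`ex_agree`). -/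

open MeasureTheory Set Filter Topology
open scoped ContDiff unitInterval

namespace F37

variable [Sq]

open BGS BR BE B35
open Pool.BGR (upI)

variable {Γ : Type} [Group Γ] [MulAction Γ Pl] {D : Set Pl} {P : Dt} {κ : ℝ}

/-- The exponent of the family. -/
theorem sC_form (hP : Ok Γ D P) (p : Pr) (k : ℕ) (ξ η : Dir → I) (c : ℤ × ℤ) (w : ℝ) :
    sC P p Γ D k ξ η c w = fun e => nx D P.m (fun z =>
      B36.Mo p.n (p.e k) (BGM.ex Γ P.ψ P.L P.c (upI (mix (bk k) ξ η) (bk k, c) 0)) z + thd e.1 *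
        (w * B36.Mo p.n (p.e k) (per Γ (BGM.bmq (bk k + 1) c)) z)) e.2 := by
  funext e
  unfold sC
  congr 1
  funext z
  rw [Mo_add hP.cx.hX hP.hyp p.n (e_pos p k) (ex_test hP _) (BGM.QH1_per hP.cx.hX (bk k) c)
    (thd e.1 * w) z, mul_assoc]

private theorem FA2_coef (n : ℕ) (p₀ : ℤ × ℤ) (ξ η : Dir → I) (p : ℤ × ℤ) :
    ((upI (mix n ξ η) (n, p₀) 0 (n, p) : I) : ℝ) = if p = p₀ then 0 else ((η (n, p) : I) : ℝ) := by
  unfold upI
  by_cases h : p = p₀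
  · subst h
    rw [Function.update_self, if_pos rfl]
    rfl
  · rw [Function.update_of_ne (fun h1 => h (Prod.mk.injEq _ _ _ _ ▸ h1).2), if_neg h]
    simp [mix]

private theorem FA2_agr (n : ℕ) (p₀ : ℤ × ℤ) (ξ η : Dir → I) (d : Dir) (hd : d.1 ≠ n) :
    zer n ξ d = upI (mix n ξ η) (n, p₀) 0 d := by
  unfold upI
  rw [Function.update_of_ne (fun h => hd (by rw [h]))]
  simp [zer, mix, hd]

/-- The exponent with one coefficient removed, compared with the exponent of the base metric. -/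
private theorem FA2_form (hP : Ok Γ D P) (n : ℕ) (p₀ : ℤ × ℤ) (ξ η : Dir → I) (z : Pl) :
    BGM.ex Γ P.ψ P.L P.c (upI (mix n ξ η) (n, p₀) 0) z =
      BGM.ex Γ P.ψ P.L P.c (zer n ξ) z + 1 *
        Sg0 Γ P.L n (fun p => P.c n * (if p = p₀ then 0 else ((η (n, p) : I) : ℝ))) z := by
  rw [ex_agree hP (FA2_agr n p₀ ξ η) z, one_mul]
  congr 1
  unfold Sg0
  refine Finset.sum_congr rfl fun p _ => ?_
  beta_reduce
  rw [FA2_coef]
  have hz : ((zer n ξ (n, p) : I) : ℝ) = 0 := by simp [zer]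
  rw [hz, sub_zero]

private theorem FA2_single {L n : ℕ} {p₀ : ℤ × ℤ} (hp : p₀ ∈ grid L (n + 1)) :
    Sg0 Γ L n (fun p => if p = p₀ then 1 else 0) = per Γ (BGM.bmq (n + 1) p₀) := by
  funext z
  unfold Sg0
  rw [Finset.sum_eq_single p₀]
  · beta_reduce
    rw [if_pos rfl, one_mul]
  · intro p _ hne
    beta_reduce
    rw [if_neg hne, zero_mul]
  · intro h
    exact absurd hp h

/-- A factor in front of a function: the derivatives. -/
private theorem FA2_smul (x : ℝ) {f : Pl → ℝ} (hf : ContDiff ℝ ∞ f) (j : ℕ) (z : Pl) :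
    ‖iteratedFDeriv ℝ j (fun w => x * f w) z‖ = |x| * ‖iteratedFDeriv ℝ j f z‖ := by
  have h0 : (fun w => x * f w) = x • f := rfl
  rw [h0]
  have h2 : ContDiffAt ℝ j f z := (hf.of_le (by exact_mod_cast le_top)).contDiffAt
  have h1 : iteratedFDeriv ℝ j (x • f) z = x • iteratedFDeriv ℝ j f z :=
    iteratedFDeriv_const_smul_apply h2
  rw [h1, norm_smul, Real.norm_eq_abs]

private theorem FA2_add {f g : Pl → ℝ} (hf : ContDiff ℝ ∞ f) (hg : ContDiff ℝ ∞ g) (j : ℕ)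
    (z : Pl) : ‖iteratedFDeriv ℝ j (fun w => f w + g w) z‖ ≤
      ‖iteratedFDeriv ℝ j f z‖ + ‖iteratedFDeriv ℝ j g z‖ := by
  have e : iteratedFDeriv ℝ j (fun w => f w + g w) z =
      iteratedFDeriv ℝ j f z + iteratedFDeriv ℝ j g z :=
    fun_iteratedFDeriv_add_apply ((hf.of_le (by exact_mod_cast le_top)).contDiffAt)
      ((hg.of_le (by exact_mod_cast le_top)).contDiffAt)
  rw [e]
  exact norm_add_le _ _

private theorem FA2_test (x : ℝ) {f : Pl → ℝ} (hf : f ∈ Test Γ) : (fun w => x * f w) ∈ Test Γ :=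
  ⟨contDiff_const.mul hf.1, fun γ z => by
    show x * f (γ • z) = x * f z
    rw [hf.2 γ z]⟩

private theorem FA2_tadd {f g : Pl → ℝ} (hf : f ∈ Test Γ) (hg : g ∈ Test Γ) :
    (fun w => f w + g w) ∈ Test Γ :=
  ⟨hf.1.add hg.1, fun γ z => by
    show f (γ • z) + g (γ • z) = f z + g z
    rw [hf.2 γ z, hg.2 γ z]⟩

theorem CF_cell (hP : Ok Γ D P) (hκ : 0 < κ) : ∃ (k0 : ℕ) (b : ℝ),
    CF Γ D P.m (κ / 2) b (fun q : Bc P Γ D κ k0 => sC P q.p Γ D q.k q.ξ q.η q.c q.w) := by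
  have hX := hP.cx.hX
  obtain ⟨M, hM0, hM⟩ := Mo_ex_bd hP 2
  obtain ⟨ε, b, hε, hneg⟩ := FA0_neg (Γ := Γ) (D := D) hX hP.hm hκ hM0
  obtain ⟨C, hC, hsum⟩ := Mo_Sg_bd hP 2
  have hcp : ∀ k : ℕ, 0 < P.c k := hP.cx.cs.pos
  have hc1 : ∀ k : ℕ, P.c k ≤ P.c k ^ (1 / 3 : ℝ) := by
    intro k
    obtain ⟨s, hs0, hs1, hc⟩ := hP.c
    have h1 : P.c k ≤ 1 := by
      rw [hc]
      exact mul_le_one₀ hs1 (cn_pos _).le (cn_le _)
    have h2 := Real.rpow_le_rpow_of_exponent_ge (hcp k) h1 (show (1 / 3 : ℝ) ≤ 1 by norm_num)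
    rwa [Real.rpow_one] at h2
  have hten : Tendsto (fun k : ℕ => 9 * (C * ((bk k : ℝ) + 1) ^ 4 * P.c (bk k) ^ (1 / 3 : ℝ)))
      atTop (𝓝 0) := by
    have h1 := (c_third hP 4).const_mul (9 * C)
    rw [mul_zero] at h1
    refine h1.congr fun k => ?_
    ring
  obtain ⟨k0, hk0⟩ := eventually_atTop.1 (hten.eventually (Iio_mem_nhds hε))
  refine ⟨k0, b, ?_⟩
  have e : (fun q : Bc P Γ D κ k0 => sC P q.p Γ D q.k q.ξ q.η q.c q.w) =
      fun (q : Bc P Γ D κ k0) (e : ℝ × Pl) => nx D P.m (fun z =>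
        B36.Mo q.p.n (q.p.e q.k) (BGM.ex Γ P.ψ P.L P.c
          (upI (mix (bk q.k) q.ξ q.η) (bk q.k, q.c) 0)) z + thd e.1 *
            (q.w * B36.Mo q.p.n (q.p.e q.k) (Sg0 Γ P.L (bk q.k)
              fun p => if p = q.c then 1 else 0) z)) e.2 := by
    funext q
    rw [FA2_single q.hc]
    exact sC_form hP _ _ _ _ _ _
  rw [e]
  have hBt : ∀ q : Bc P Γ D κ k0, B36.Mo q.p.n (q.p.e q.k) (BGM.ex Γ P.ψ P.L P.c
      (upI (mix (bk q.k) q.ξ q.η) (bk q.k, q.c) 0)) ∈ Test Γ := fun q =>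
    Mo_test hX hP.hyp _ (e_pos _ _) (ex_test hP _)
  have hB0t : ∀ q : Bc P Γ D κ k0,
      B36.Mo q.p.n (q.p.e q.k) (BGM.ex Γ P.ψ P.L P.c (zer (bk q.k) q.ξ)) ∈ Test Γ := fun q =>
    Mo_test hX hP.hyp _ (e_pos _ _) (ex_test hP _)
  have hSt : ∀ (q : Bc P Γ D κ k0) (t : ℤ × ℤ → ℝ),
      B36.Mo q.p.n (q.p.e q.k) (Sg0 Γ P.L (bk q.k) t) ∈ Test Γ := fun q t =>
    Mo_test hX hP.hyp _ (e_pos _ _) (Sg0_test hX _ _ _)
  have hone : ∀ (q : Bc P Γ D κ k0) (p : ℤ × ℤ), |(if p = q.c then (1 : ℝ) else 0)| ≤ 1 := by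
    intro q p
    split_ifs <;> simp
  have hw : ∀ q : Bc P Γ D κ k0, |q.w| ≤ P.c (bk q.k) ^ (1 / 3 : ℝ) := fun q => by
    rw [abs_of_nonneg q.w0]
    exact q.hw
  have hco : ∀ (q : Bc P Γ D κ k0) (p : ℤ × ℤ),
      |P.c (bk q.k) * (if p = q.c then 0 else ((q.η (bk q.k, p) : I) : ℝ))| ≤
        P.c (bk q.k) ^ (1 / 3 : ℝ) := by
    intro q p
    refine le_trans ?_ (hc1 _)
    rw [abs_mul, abs_of_pos (hcp _)]
    refine mul_le_of_le_one_right (hcp _).le ?_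
    split_ifs
    · simp
    · have h3 := (q.η (bk q.k, p)).2
      rw [abs_of_nonneg h3.1]
      exact h3.2
  refine CF_gen4 (Γ := Γ) (D := D) hX hP.ori hP.hm (by positivity) hBt
    (fun q => FA2_test _ (hSt q _)) (fun k => ?_) (fun k => ?_) fun q t z => ?_
  · obtain ⟨C, -, hC⟩ := Mo_ex_bd hP k
    exact ⟨C, fun q z hz => hC _ _ (e_pos _ _) q.hξ.1 _ k le_rfl z hz⟩
  · obtain ⟨C, hC, h1⟩ := Mo_Sg_bd hP k
    obtain ⟨T, hT⟩ := (c_third hP (k + 2)).bddAbove_range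
    refine ⟨C * T, fun q z hz => ?_⟩
    rw [FA2_smul _ (hSt q _).1]
    have h2 := h1 _ _ (e_pos _ _) q.hξ.1 (bk q.k) _ 1 (hone q) k le_rfl z hz
    have h3 : |q.w| * ‖iteratedFDeriv ℝ k (B36.Mo q.p.n (q.p.e q.k) (Sg0 Γ P.L (bk q.k)
        fun p => if p = q.c then 1 else 0)) z‖ ≤
        P.c (bk q.k) ^ (1 / 3 : ℝ) * (C * ((bk q.k : ℝ) + 1) ^ (k + 2) * 1) :=
      mul_le_mul (hw q) h2 (norm_nonneg _) (Real.rpow_nonneg (hcp _).le _)
    refine h3.trans ?_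
    have h4 : ((bk q.k : ℝ) + 1) ^ (k + 2) * P.c (bk q.k) ^ (1 / 3 : ℝ) ≤ T := hT ⟨q.k, rfl⟩
    calc P.c (bk q.k) ^ (1 / 3 : ℝ) * (C * ((bk q.k : ℝ) + 1) ^ (k + 2) * 1)
        = C * (((bk q.k : ℝ) + 1) ^ (k + 2) * P.c (bk q.k) ^ (1 / 3 : ℝ)) := by ring
      _ ≤ C * T := mul_le_mul_of_nonneg_left h4 hC.le
  · have e3 : (fun w => B36.Mo q.p.n (q.p.e q.k) (BGM.ex Γ P.ψ P.L P.c
          (upI (mix (bk q.k) q.ξ q.η) (bk q.k, q.c) 0)) w + thd t *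
            (q.w * B36.Mo q.p.n (q.p.e q.k) (Sg0 Γ P.L (bk q.k)
              fun p => if p = q.c then 1 else 0) w)) = fun w =>
        B36.Mo q.p.n (q.p.e q.k) (BGM.ex Γ P.ψ P.L P.c (zer (bk q.k) q.ξ)) w +
          (B36.Mo q.p.n (q.p.e q.k) (Sg0 Γ P.L (bk q.k)
            fun p => P.c (bk q.k) * (if p = q.c then 0 else ((q.η (bk q.k, p) : I) : ℝ))) w +
          thd t * (q.w * B36.Mo q.p.n (q.p.e q.k) (Sg0 Γ P.L (bk q.k)
              fun p => if p = q.c then 1 else 0) w)) := by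
      funext w
      have h5 : (BGM.ex Γ P.ψ P.L P.c (upI (mix (bk q.k) q.ξ q.η) (bk q.k, q.c) 0)) =
          fun z => BGM.ex Γ P.ψ P.L P.c (zer (bk q.k) q.ξ) z + 1 * Sg0 Γ P.L (bk q.k)
            (fun p => P.c (bk q.k) * (if p = q.c then 0 else ((q.η (bk q.k, p) : I) : ℝ))) z :=
        funext fun z => FA2_form hP _ _ _ _ z
      rw [h5, Mo_add hX hP.hyp _ (e_pos _ _) (ex_test hP _) (Sg0_test hX _ _ _), one_mul,
        add_assoc]
    rw [e3]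
    refine hneg _ (fun w => B36.Mo q.p.n (q.p.e q.k) (Sg0 Γ P.L (bk q.k)
            fun p => P.c (bk q.k) * (if p = q.c then 0 else ((q.η (bk q.k, p) : I) : ℝ))) w +
          thd t * (q.w * B36.Mo q.p.n (q.p.e q.k) (Sg0 Γ P.L (bk q.k)
              fun p => if p = q.c then 1 else 0) w)) (hB0t q)
      (FA2_tadd (hSt q _) (FA2_test _ (FA2_test _ (hSt q _))))
      (fun j hj z hz => hM _ _ (e_pos _ _) q.hξ.1 _ j hj z hz) (fun j hj z hz => ?_) q.hξ.2 z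
    refine (FA2_add (hSt q _).1 (FA2_test (Γ := Γ) _ (FA2_test _ (hSt q _))).1 j z).trans ?_
    rw [FA2_smul _ (FA2_test (Γ := Γ) _ (hSt q _)).1, FA2_smul _ (hSt q _).1]
    refine le_trans ?_ (hk0 _ q.hk).le
    have h6 := hsum _ _ (e_pos _ _) q.hξ.1 (bk q.k) _ _ (hco q) j hj z hz
    have h7 := hsum _ _ (e_pos _ _) q.hξ.1 (bk q.k) _ 1 (hone q) j hj z hz
    have h8 := mul_le_mul (thd_le t) (mul_le_mul (hw q) h7 (norm_nonneg _)
      (Real.rpow_nonneg (hcp _).le _)) (by positivity) (by norm_num)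
    refine (add_le_add h6 h8).trans (le_of_eq ?_)
    ring

end F37
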