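import Pool.Agent.LibBE36D.Defs
import Pool.Agent.LibBE37F.FA2
import Pool.Agent.LibBE37F.FA3

/-! BE36, part D': the blocks as an instance of the structure `BD36.DG` (architect helper66): the
indices, restriction of the indices. -/

open MeasureTheory Set Filter Topology Metric
open scoped ContDiff unitInterval

namespace F37

variable [Sq]

open BGS BR BE B35
open Pool.BGR (upI)

variable {Γ : Type} [Group Γ] [MulAction Γ Pl] {D : Set Pl}

/-- The indices of the cells: the factor is `c ^ (1 / 3)`, the mollified bump function is close to the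
bump function. -/
def Bw (P : Dt) (Γ : Type) [Group Γ] [MulAction Γ Pl] (D : Set Pl) (κ : ℝ) (k0 : ℕ) : Type :=
  {q : Bc P Γ D κ k0 // q.w = P.c (bk q.k) ^ (1 / 3 : ℝ) ∧
    ∀ z, |B36.Mo q.p.n (q.p.e q.k) (per Γ (BGM.bmq (bk q.k + 1) q.c)) z -
      per Γ (BGM.bmq (bk q.k + 1) q.c) z| ≤ 1 / ((bk q.k : ℝ) + 1) ^ 2}

/-- Fewer indices. -/
def Bc.lift {P : Dt} {κ : ℝ} {k0 k1 : ℕ} (h : k0 ≤ k1) (q : Bc P Γ D κ k1) : Bc P Γ D κ k0 where
  p := q.p
  k := q.k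
  ξ := q.ξ
  η := q.η
  ok := q.ok
  hk := h.trans q.hk
  hξ := q.hξ
  c := q.c
  w := q.w
  hc := q.hc
  w0 := q.w0
  hw := q.hw

def Bi.lift {P : Dt} {κ : ℝ} {k0 k1 : ℕ} (h : k0 ≤ k1) (q : Bi P Γ D κ k1) : Bi P Γ D κ k0 where
  p := q.p
  k := q.k
  ξ := q.ξ
  η := q.η
  ok := q.ok
  hk := h.trans q.hk
  hξ := q.hξ

variable {ι ι' : Type} {m : Pl → Co}

theorem CF_pull {a b : ℝ} {s : ι → ℝ × Pl → ℝ} (h : CF Γ D m a b s) (f : ι' → ι) :
    CF Γ D m a b (fun q => s (f q)) where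
  hX := h.hX
  hO := h.hO
  hm := h.hm
  a_pos := h.a_pos
  smooth := fun i => h.smooth (f i)
  inv := fun i => h.inv (f i)
  bd := fun k => by
    obtain ⟨C, hC⟩ := h.bd k
    exact ⟨C, fun i => hC (f i)⟩
  neg := fun i => h.neg (f i)

theorem PX_pull {s : ι → ℝ × Pl → ℝ} {Q : ι → ℝ} (h : BD36.PX Γ m s Q) (f : ι' → ι) :
    BD36.PX Γ m (fun q => s (f q)) (fun q => Q (f q)) := by
  obtain ⟨A, hA, H⟩ := h
  exact ⟨A, hA, fun i => H (f i)⟩

theorem EA_mono {a : ℂ → ℂ} {ρ ρ' M H h : ℝ} (ha : B36.EA a ρ M H h) (hM : 0 ≤ M) (hh : 0 ≤ h)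
    (hρ : ρ ≤ ρ') : B36.EA a ρ' M H h := by
  refine ⟨ha.diff, ha.conj, fun z => (ha.bound z).trans ?_⟩
  refine mul_le_mul_of_nonneg_left (Real.exp_le_exp.2 ?_) hM
  have h1 : max 0 (|z.re| - ρ') ≤ max 0 (|z.re| - ρ) := max_le_max le_rfl (by linarith)
  have h2 : 0 ≤ max 0 (|z.re| - ρ') := le_max_left _ _
  have h4 := pow_le_pow_left₀ (mul_nonneg hh h2) (mul_le_mul_of_nonneg_left h1 hh) 2
  linarith

theorem thd_id' {t : ℝ} (ht : |t| ≤ 4) : thd t = t := by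
  have h1 : (cut : ℝ → ℝ) (t / 4) = 1 := by
    refine cut.one_of_mem_closedBall ?_
    rw [Metric.mem_closedBall, dist_zero_right, Real.norm_eq_abs, abs_div]
    have h4 : |(4 : ℝ)| = 4 := abs_of_pos (by norm_num)
    rw [h4]
    change |t| / 4 ≤ 1
    linarith
  unfold thd
  rw [h1, mul_one]

theorem thd_der {t : ℝ} (ht : |t| < 4) : HasDerivAt thd 1 t := by
  have h1 : thd =ᶠ[𝓝 t] fun s => s := by
    have h2 : ∀ᶠ s in 𝓝 t, |s| < 4 := continuous_abs.continuousAt.eventually (gt_mem_nhds ht)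
    exact h2.mono fun s hs => thd_id' hs.le
  exact (hasDerivAt_id t).congr_of_eventuallyEq h1

end F37
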