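import Pool.Agent.LibBE37F.DB1
import Pool.Agent.LibBE37F.DB2

/-! ROW DB3 : the blocks are an instance of the structure `BD36.DG`. SHORT. Template: LibBE66/P6.lean (`block_DF`). Cites DB1 `near_cell`, DB2 `der_cell`,
LibBE36F/FA1 `CF_path`, `c_third`, FA2 `CF_cell`, FA3 `c_pos`, DB0 `CF_pull`, `Bc.lift`, `Bi.lift`.
PLAN. `k1` = the maximum of the `k0` of `CF_cell`, of `CF_path` and of one beyond which `C (bk k + 1)^2 P.c (bk k) ≤ 1` (`c_third` with `r = 2` and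
`P.c ≤ P.c ^ (1/3)` because `0 < P.c ≤ 1`); `C = ⌈C (near_cell)⌉₊`. For `k0 ≥ k1`: `cf`, `cf0` by `CF_pull` along `fun q => q.1.lift h`, `fun q => q.1.toBi.lift h`
(the values agree by `rfl`). `near`: `x = v t`, `|x| ≤ 1`, `x * w = P.c t` with `q.2.1`. `der`: `q.2.1` rewrites `q.1.w`, hypothesis `q.2.2`. -/

open MeasureTheory Set Filter Topology
open scoped ContDiff unitInterval

namespace F37

variable [Sq]

open BGS BR BE B35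
open Pool.BGR (upI)

variable {Γ : Type} [Group Γ] [MulAction Γ Pl] {D : Set Pl} {P : Dt} {κ : ℝ}

private theorem DB3_small (hP : Ok Γ D P) (C : ℝ) (hC : 0 ≤ C) : ∃ k0 : ℕ, ∀ k ≥ k0,
    C * ((bk k : ℝ) + 1) ^ 2 * P.c (bk k) ≤ 1 := by
  have h1 := c_third hP 2
  have h2 : (0 : ℝ) < 1 / (C + 1) := by positivity
  obtain ⟨k0, hk0⟩ := eventually_atTop.1 (h1.eventually (gt_mem_nhds h2))
  refine ⟨k0, fun k hk => ?_⟩
  have h3 : ((bk k : ℝ) + 1) ^ 2 * P.c (bk k) ^ (1 / 3 : ℝ) < 1 / (C + 1) := hk0 k hk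
  obtain ⟨c0, c1⟩ := c_pos hP (bk k)
  have h4 : P.c (bk k) ≤ P.c (bk k) ^ (1 / 3 : ℝ) := by
    have h5 := Real.rpow_le_rpow_of_exponent_ge c0 c1 (show (1 / 3 : ℝ) ≤ 1 by norm_num)
    rwa [Real.rpow_one] at h5
  have h6 : (0 : ℝ) ≤ ((bk k : ℝ) + 1) ^ 2 := sq_nonneg _
  calc C * ((bk k : ℝ) + 1) ^ 2 * P.c (bk k)
      = C * (((bk k : ℝ) + 1) ^ 2 * P.c (bk k)) := by ring
    _ ≤ C * (1 / (C + 1)) := by
        refine mul_le_mul_of_nonneg_left ?_ hC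
        exact (mul_le_mul_of_nonneg_left h4 h6).trans h3.le
    _ ≤ 1 := by
        rw [mul_one_div, div_le_one (by positivity)]
        linarith

private theorem DB3_v {c : ℝ} (c0 : 0 < c) (c1 : c ≤ 1) : 0 < c ^ (2 / 3 : ℝ) ∧
    c ^ (2 / 3 : ℝ) ≤ 1 ∧ c ^ (2 / 3 : ℝ) * c ^ (1 / 3 : ℝ) = c := by
  refine ⟨Real.rpow_pos_of_pos c0 _, Real.rpow_le_one c0.le c1 (by norm_num), ?_⟩
  rw [← Real.rpow_add c0]
  norm_num

theorem blk_DG (hP : Ok Γ D P) (hκ : 0 < κ) : ∃ (k1 C : ℕ), ∀ k0 ≥ k1, ∃ b b0 : ℝ,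
    BD36.DG Γ D P.m (κ / 2) b b0 P.L
      (fun q : Bw P Γ D κ k0 => sC P q.1.p Γ D q.1.k q.1.ξ q.1.η q.1.c q.1.w)
      (fun q => sP P q.1.p Γ D q.1.k q.1.ξ q.1.η) (fun q => bk q.1.k) (fun q => q.1.c)
      (fun q => P.c (bk q.1.k)) (fun q => P.c (bk q.1.k) ^ (2 / 3 : ℝ))
      (fun q => C * ((bk q.1.k : ℝ) + 1) ^ 2 * P.c (bk q.1.k)) := by
  obtain ⟨k1, b, h1⟩ := CF_cell hP hκ
  obtain ⟨k2, b0, h2⟩ := CF_path hP hκ
  obtain ⟨C, hC0, hC⟩ := near_cell hP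
  obtain ⟨C', hC0', hC'⟩ := der_cell hP
  obtain ⟨k3, h3⟩ := DB3_small hP (⌈C⌉₊ : ℝ) (Nat.cast_nonneg _)
  refine ⟨max (max k1 k2) k3, ⌈C⌉₊, fun k0 hk0 => ⟨b, b0, ?_⟩⟩
  have g1 : k1 ≤ k0 := (le_max_left _ _).trans ((le_max_left _ _).trans hk0)
  have g2 : k2 ≤ k0 := (le_max_right _ _).trans ((le_max_left _ _).trans hk0)
  have g3 : k3 ≤ k0 := (le_max_right _ _).trans hk0
  refine ⟨?_, ?_, ?_, ?_, ?_, ?_, ?_, ?_⟩
  · exact CF_pull h1 (fun q : Bw P Γ D κ k0 => q.1.lift g1)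
  · exact CF_pull h2 (fun q : Bw P Γ D κ k0 => q.1.toBi.lift g2)
  · intro q
    obtain ⟨c0, c1⟩ := c_pos hP (bk q.1.k)
    obtain ⟨a1, a2, -⟩ := DB3_v c0 c1
    exact ⟨a1, a2⟩
  · intro q t ht z
    obtain ⟨c0, c1⟩ := c_pos hP (bk q.1.k)
    obtain ⟨a1, a2, a3⟩ := DB3_v c0 c1
    have b1 : 0 ≤ P.c (bk q.1.k) ^ (2 / 3 : ℝ) * t := mul_nonneg a1.le ht.1
    have b2 : P.c (bk q.1.k) ^ (2 / 3 : ℝ) * t ≤ 1 := mul_le_one₀ a2 ht.1 ht.2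
    have b3 : P.c (bk q.1.k) ^ (2 / 3 : ℝ) * t * q.1.w = P.c (bk q.1.k) * t := by
      rw [q.2.1, mul_right_comm, a3]
    have b4 : |P.c (bk q.1.k) ^ (2 / 3 : ℝ) * t * q.1.w| ≤ P.c (bk q.1.k) := by
      rw [b3, abs_of_nonneg (mul_nonneg c0.le ht.1)]
      exact mul_le_of_le_one_right c0.le ht.2
    refine (hC q.1.p q.1.k q.1.ξ q.1.η q.1.c q.1.w _ q.1.hc ?_ b4 z).trans ?_
    · rw [abs_of_nonneg b1]
      linarith
    · refine mul_le_mul_of_nonneg_right ?_ c0.le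
      exact mul_le_mul_of_nonneg_right (Nat.le_ceil C) (sq_nonneg _)
  · intro q
    refine ⟨?_, h3 _ (g3.trans q.1.hk)⟩
    exact mul_nonneg (mul_nonneg (Nat.cast_nonneg _) (sq_nonneg _)) (c_pos hP _).1.le
  · exact fun q => c_pos hP _
  · exact fun q => q.1.hc
  · refine ⟨C', fun q t ht => ?_⟩
    obtain ⟨cc, e1, e2, e3⟩ := hC' q.1.p q.1.k q.1.ξ q.1.η q.1.c q.1.hc q.2.2 t ht
    refine ⟨cc, e1, e2, fun z => ?_⟩
    have e4 := e3 z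
    rw [← q.2.1] at e4
    exact e4

end F37
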