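import Pool.Agent.LibBE36D.Defs
import Pool.Agent.LibBE37F.N1b
import Pool.Agent.LibBE37F.N1c

/-! ROW DB5b : the sizes of the numbers of a block, second part. MEDIUM, only real analysis. Cites LibBE36F/N1b `cn_bk`, `Mx_bk`, N1c (`Lm_sub`, `Lm_lt`, `Lm_pow`, `Lm_one`, `Nk_le`, `k_Lm`);
`hP.c` gives `P.c R = s * cn R`. All powers `2 ^ (..)` with a real exponent are `rpow`. `C' = (M0 + 1)^q`.
PLAN. `V^(N+2) (2^k M0) ≤ (M0 + 1) exp (k (N+2) + k) ≤ (M0 + 1) exp (4 k Lm (2 κ1) k + ..)` (`V ≤ 2^(k/10) ≤ exp k`), `4 (Mx + 1) ≤ 8 * 2^(11k/100) ≤ exp (k + 3)`, and `(q + 1) (..) ≤ 2^(k/100)` eventually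
(`k_Lm`, `Lm_pow`/`Lm_add`, `Lm_sub` with `d = 1/100`). `2^k c (bk+1)^(-3/2) / C ≥ 2^(k - 13k/25 - k/100) ≥ 2^(2k/5)` eventually (`C (bk+1)^(3/2) = C Lm (3/2) k ≤ 2^(k/100)`), `Mx ≤ 2^(11k/100)`, so
`Mx - .. ≤ -2^(k/5)` eventually. `(1/5)^Mx ≤ exp (-Mx) ≤ exp (-2^(2k/25))` (`Real.exp_one_lt_d9`: `exp 1 < 5`). Total: `exp (2^(k/100)) (exp (-2^(k/5)) + exp (-2^(2k/25))) ≤ 2 exp (2^(k/100) - 2^(2k/25)) ≤ exp (-2^(k/40))`
because `2^(k/100) + 2^(k/40) + 1 ≤ 2^(2k/25)` eventually (`2^(b k) / 2^(a k) → ∞` for `a < b`: `tendsto_rpow..` or with `y = 2^(k/200)`: `y^2 + y^5 + 1 ≤ y^16` for `y ≥ 2`). -/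

open MeasureTheory Set Filter Topology
open scoped ContDiff unitInterval

namespace F37

variable [Sq]

open BGS BR B35

variable {Γ : Type} [Group Γ] [MulAction Γ Pl] {D : Set Pl} {P : Dt}

private theorem DB5b_mono {a b : ℝ} (h : a ≤ b) : (2 : ℝ) ^ a ≤ 2 ^ b :=
  Real.rpow_le_rpow_of_exponent_le one_le_two h

private theorem DB5b_exp {a b : ℝ} (h : 0 ≤ a) (hb : a ≤ b) : (2 : ℝ) ^ a ≤ Real.exp b := by
  rw [Real.rpow_def_of_pos two_pos]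
  apply Real.exp_le_exp.2
  have := Real.log_two_lt_d9
  nlinarith

/-- the factor in front -/
private theorem DB5b_pre (q : ℕ) {κ1 : ℝ} (h0 : 0 < κ1) {M0 : ℝ} (hM : 0 ≤ M0) :
    ∀ᶠ k : ℕ in atTop, ∀ V : ℝ, 0 ≤ V → V ≤ (2 : ℝ) ^ (1 / 10 * k : ℝ) →
      4 * ((Mx (bk k) : ℝ) + 1) * (V ^ (Nk κ1 k + 2) * (2 ^ k * M0)) ^ q ≤
        (M0 + 1) ^ q * Real.exp ((2 : ℝ) ^ (1 / 100 * k : ℝ)) := by
  filter_upwards [Mx_bk, k_Lm one_pos 1,
    Lm_sub (1 + 2 * κ1) (A := 5 * ((q : ℝ) + 1)) (d := 1 / 100) (by norm_num)] with k h1 h2 h3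
  intro V hV0 hV
  obtain ⟨N, hN⟩ : ∃ N : ℕ, N = Nk κ1 k := ⟨_, rfl⟩
  rw [← hN]
  have hk0 : (0 : ℝ) ≤ k := Nat.cast_nonneg k
  have hNl : (N : ℝ) ≤ Lm (2 * κ1) k + 1 := by
    rw [hN]
    exact (Nk_le h0.le k).2.1
  have hL1 : 1 ≤ Lm (2 * κ1) k := Lm_one _ (by positivity) k
  have hN0 : (0 : ℝ) ≤ N := Nat.cast_nonneg N
  have hq0 : (0 : ℝ) ≤ q := Nat.cast_nonneg q
  have hV1 : V ^ (N + 2) ≤ Real.exp (k * (N + 2)) := by
    have h4 : V ≤ Real.exp k := hV.trans (DB5b_exp (by positivity) (by linarith))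
    calc V ^ (N + 2) ≤ Real.exp k ^ (N + 2) := pow_le_pow_left₀ hV0 h4 _
      _ = Real.exp (k * (N + 2)) := by
        rw [← Real.exp_nat_mul]
        congr 1
        push_cast
        ring
  have h2k : (2 : ℝ) ^ k ≤ Real.exp k := by
    have := DB5b_exp hk0 le_rfl
    rwa [Real.rpow_natCast] at this
  have hin : V ^ (N + 2) * (2 ^ k * M0) ≤ (M0 + 1) * Real.exp (k * (N + 3)) := by
    calc V ^ (N + 2) * (2 ^ k * M0) ≤ Real.exp (k * (N + 2)) * (Real.exp k * (M0 + 1)) := by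
          refine mul_le_mul hV1 ?_ (by positivity) (by positivity)
          exact mul_le_mul h2k (by linarith) hM (by positivity)
      _ = (M0 + 1) * Real.exp (k * (N + 3)) := by
          rw [show (k : ℝ) * (N + 3) = k * (N + 2) + k by ring, Real.exp_add]
          ring
  have hinq : (V ^ (N + 2) * (2 ^ k * M0)) ^ q ≤
      (M0 + 1) ^ q * Real.exp (q * (k * (N + 3))) := by
    calc _ ≤ ((M0 + 1) * Real.exp (k * (N + 3))) ^ q := pow_le_pow_left₀ (by positivity) hin _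
      _ = _ := by rw [mul_pow, ← Real.exp_nat_mul]
  have hX : 4 * ((Mx (bk k) : ℝ) + 1) ≤ Real.exp (k + 3) := by
    have hx1 : (1 : ℝ) ≤ 2 ^ (11 / 100 * k : ℝ) := Real.one_le_rpow one_le_two (by positivity)
    have hx2 : (2 : ℝ) ^ (11 / 100 * k : ℝ) ≤ Real.exp k :=
      DB5b_exp (by positivity) (by linarith)
    have hx3 : (8 : ℝ) ≤ Real.exp 3 := by
      have h5 := Real.add_one_le_exp (1 : ℝ)
      have h4 : Real.exp 3 = Real.exp 1 ^ 3 := by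
        rw [← Real.exp_nat_mul]
        norm_num
      rw [h4]
      calc (8 : ℝ) = 2 ^ 3 := by norm_num
        _ ≤ _ := pow_le_pow_left₀ (by norm_num) (by linarith) 3
    have hx4 : Real.exp k * 8 ≤ Real.exp k * Real.exp 3 :=
      mul_le_mul_of_nonneg_left hx3 (Real.exp_pos _).le
    rw [Real.exp_add]
    linarith [h1.2]
  calc 4 * ((Mx (bk k) : ℝ) + 1) * (V ^ (N + 2) * (2 ^ k * M0)) ^ q
      ≤ Real.exp (k + 3) * ((M0 + 1) ^ q * Real.exp (q * (k * (N + 3)))) :=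
        mul_le_mul hX hinq (by positivity) (by positivity)
    _ = (M0 + 1) ^ q * Real.exp (q * (k * (N + 3)) + (k + 3)) := by
        rw [Real.exp_add (q * (k * (N + 3)))]
        ring
    _ ≤ _ := by
      refine mul_le_mul_of_nonneg_left (Real.exp_le_exp.2 ?_) (by positivity)
      refine le_trans ?_ h3
      rw [Lm_add]
      rw [one_mul] at h2
      have e1 : (k : ℝ) * (N + 3) ≤ Lm 1 k * (5 * Lm (2 * κ1) k) :=
        mul_le_mul (by linarith) (by linarith) (by positivity) (by linarith)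
      have e2 : (k : ℝ) + 3 ≤ Lm 1 k * (5 * Lm (2 * κ1) k) := by
        nlinarith
      have e3 : (q : ℝ) * (k * (N + 3)) ≤ q * (Lm 1 k * (5 * Lm (2 * κ1) k)) :=
        mul_le_mul_of_nonneg_left e1 hq0
      linarith

/-- the exponent of the contour shift -/
private theorem DB5b_main (hP : Ok Γ D P) (C : ℕ) (hC : 1 ≤ C) : ∀ᶠ k : ℕ in atTop,
    (Mx (bk k) : ℝ) - 2 ^ k * P.c (bk k) * ((bk k : ℝ) + 1) ^ (-(3 / 2) : ℝ) / C ≤
      -(2 : ℝ) ^ (2 / 25 * k : ℝ) := by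
  obtain ⟨s, hs, hs1, hc⟩ := hP.c
  filter_upwards [cn_bk hs hs1, Mx_bk, Lm_sub (3 / 2) (A := C) (d := 1 / 100) (by norm_num),
    eventually_ge_atTop 3] with k h1 h2 h3 h4
  have hk : (3 : ℝ) ≤ k := by exact_mod_cast h4
  have hC0 : (0 : ℝ) < C := by
    have : (1 : ℝ) ≤ C := by exact_mod_cast hC
    linarith
  rw [hc]
  have hb : (0 : ℝ) < (bk k : ℝ) + 1 := by positivity
  have e1 : ((bk k : ℝ) + 1) ^ (-(3 / 2) : ℝ) = (Lm (3 / 2) k)⁻¹ := Real.rpow_neg hb.le _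
  have hL : 0 < Lm (3 / 2) k := lt_of_lt_of_le one_pos (Lm_one _ (by norm_num) k)
  have e2 : (2 : ℝ) ^ (-(1 / 100 * k) : ℝ) ≤ (Lm (3 / 2) k)⁻¹ / C := by
    rw [Real.rpow_neg two_pos.le, div_eq_mul_inv (Lm (3 / 2) k)⁻¹, ← mul_inv]
    refine inv_anti₀ (by positivity) ?_
    rw [mul_comm]
    exact h3
  have e3 : (2 : ℝ) ^ (47 / 100 * k : ℝ) ≤
      2 ^ k * (s * cn (bk k)) * ((bk k : ℝ) + 1) ^ (-(3 / 2) : ℝ) / C := by
    calc (2 : ℝ) ^ (47 / 100 * k : ℝ)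
        = 2 ^ (k : ℝ) * (2 : ℝ) ^ (-(13 / 25 * k : ℝ)) * (2 : ℝ) ^ (-(1 / 100 * k) : ℝ) := by
          rw [← Real.rpow_add two_pos, ← Real.rpow_add two_pos]
          congr 1
          ring
      _ ≤ 2 ^ (k : ℝ) * (s * cn (bk k)) * ((Lm (3 / 2) k)⁻¹ / C) := by
          refine mul_le_mul ?_ e2 (by positivity) ?_
          · exact mul_le_mul_of_nonneg_left h1.1 (by positivity)
          · have := (Real.rpow_pos_of_pos two_pos (-(13 / 25 * k : ℝ))).trans_le h1.1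
            positivity
      _ = _ := by
          rw [e1, Real.rpow_natCast]
          ring
  have e4 : (2 : ℝ) ^ (2 / 25 * k : ℝ) ≤ 2 ^ (11 / 100 * k : ℝ) := DB5b_mono (by linarith)
  have e5 : 2 * (2 : ℝ) ^ (11 / 100 * k : ℝ) ≤ 2 ^ (47 / 100 * k : ℝ) := by
    calc 2 * (2 : ℝ) ^ (11 / 100 * k : ℝ) = 2 ^ (1 + 11 / 100 * k : ℝ) := by
          rw [Real.rpow_add two_pos, Real.rpow_one]
      _ ≤ _ := DB5b_mono (by linarith)
  linarith [h2.2]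

theorem sizes_b (hP : Ok Γ D P) (C q : ℕ) (hC : 1 ≤ C) {κ1 : ℝ} (h0 : 0 < κ1) {M0 : ℝ}
    (hM : 0 ≤ M0) : ∃ (C' : ℝ) (k0 : ℕ), 0 ≤ C' ∧ ∀ k ≥ k0, ∀ V : ℝ, 0 ≤ V →
      V ≤ (2 : ℝ) ^ (1 / 10 * k : ℝ) →
      4 * ((Mx (bk k) : ℝ) + 1) * ((V ^ (Nk κ1 k + 2) * (2 ^ k * M0)) ^ q *
        (Real.exp (Mx (bk k) - 2 ^ k * P.c (bk k) * ((bk k : ℝ) + 1) ^ (-(3 / 2) : ℝ) / C) +
          (1 / 5) ^ Mx (bk k))) ≤ C' * Real.exp (-(2 : ℝ) ^ (1 / 40 * k : ℝ)) := by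
  have key : ∀ᶠ k : ℕ in atTop, ∀ V : ℝ, 0 ≤ V → V ≤ (2 : ℝ) ^ (1 / 10 * k : ℝ) →
      4 * ((Mx (bk k) : ℝ) + 1) * ((V ^ (Nk κ1 k + 2) * (2 ^ k * M0)) ^ q *
        (Real.exp (Mx (bk k) - 2 ^ k * P.c (bk k) * ((bk k : ℝ) + 1) ^ (-(3 / 2) : ℝ) / C) +
          (1 / 5) ^ Mx (bk k))) ≤
        (M0 + 1) ^ q * Real.exp (-(2 : ℝ) ^ (1 / 40 * k : ℝ)) := by
    filter_upwards [DB5b_pre q h0 hM, DB5b_main hP C hC, Mx_bk, eventually_ge_atTop 37]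
      with k h1 h2 h3 h4 V hV0 hV
    have hk : (37 : ℝ) ≤ k := by exact_mod_cast h4
    have e1 := h1 V hV0 hV
    have e2 : ((1 : ℝ) / 5) ^ Mx (bk k) ≤ Real.exp (-(2 : ℝ) ^ (2 / 25 * k : ℝ)) := by
      have h5 : (1 : ℝ) / 5 ≤ Real.exp (-1) := by
        rw [Real.exp_neg, one_div]
        refine inv_anti₀ (Real.exp_pos _) ?_
        have := Real.exp_one_lt_d9
        linarith
      calc ((1 : ℝ) / 5) ^ Mx (bk k) ≤ Real.exp (-1) ^ Mx (bk k) :=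
            pow_le_pow_left₀ (by norm_num) h5 _
        _ = Real.exp (-(Mx (bk k) : ℝ)) := by
            rw [← Real.exp_nat_mul]
            congr 1
            ring
        _ ≤ _ := Real.exp_le_exp.2 (by linarith [h3.1])
    have e3 := Real.exp_le_exp.2 h2
    have e4 : (2 : ℝ) ≤ Real.exp 1 := by
      have := Real.add_one_le_exp (1 : ℝ)
      linarith
    have e5 : (2 : ℝ) ^ (1 / 100 * k : ℝ) + 1 - 2 ^ (2 / 25 * k : ℝ) ≤
        -(2 : ℝ) ^ (1 / 40 * k : ℝ) := by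
      have f1 : (2 : ℝ) ^ (1 / 100 * k : ℝ) ≤ 2 ^ (1 / 40 * k : ℝ) := DB5b_mono (by linarith)
      have f2 : (1 : ℝ) ≤ 2 ^ (1 / 40 * k : ℝ) := Real.one_le_rpow one_le_two (by positivity)
      have f3 : (2 : ℝ) ^ (2 : ℝ) * 2 ^ (1 / 40 * k : ℝ) ≤ 2 ^ (2 / 25 * k : ℝ) := by
        rw [← Real.rpow_add two_pos]
        exact DB5b_mono (by linarith)
      have f4 : (2 : ℝ) ^ (2 : ℝ) = 4 := by
        rw [show (2 : ℝ) = ((2 : ℕ) : ℝ) by norm_num, Real.rpow_natCast]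
        norm_num
      rw [f4] at f3
      linarith
    calc 4 * ((Mx (bk k) : ℝ) + 1) * ((V ^ (Nk κ1 k + 2) * (2 ^ k * M0)) ^ q *
        (Real.exp (Mx (bk k) - 2 ^ k * P.c (bk k) * ((bk k : ℝ) + 1) ^ (-(3 / 2) : ℝ) / C) +
          (1 / 5) ^ Mx (bk k)))
        = 4 * ((Mx (bk k) : ℝ) + 1) * (V ^ (Nk κ1 k + 2) * (2 ^ k * M0)) ^ q *
        (Real.exp (Mx (bk k) - 2 ^ k * P.c (bk k) * ((bk k : ℝ) + 1) ^ (-(3 / 2) : ℝ) / C) +
          (1 / 5) ^ Mx (bk k)) := by ring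
      _ ≤ (M0 + 1) ^ q * Real.exp ((2 : ℝ) ^ (1 / 100 * k : ℝ)) *
          (Real.exp 1 * Real.exp (-(2 : ℝ) ^ (2 / 25 * k : ℝ))) := by
          refine mul_le_mul e1 ?_ (by positivity) (by positivity)
          have := mul_le_mul_of_nonneg_right e4 (Real.exp_pos (-(2 : ℝ) ^ (2 / 25 * k : ℝ))).le
          linarith
      _ = (M0 + 1) ^ q * Real.exp ((2 : ℝ) ^ (1 / 100 * k : ℝ) + 1 - 2 ^ (2 / 25 * k : ℝ)) := by
          rw [sub_eq_add_neg, Real.exp_add, Real.exp_add]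
          ring
      _ ≤ _ := mul_le_mul_of_nonneg_left (Real.exp_le_exp.2 e5) (by positivity)
  obtain ⟨k0, hk0⟩ := eventually_atTop.1 key
  exact ⟨(M0 + 1) ^ q, k0, by positivity, hk0⟩

end F37
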