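import Pool.Agent.LibBE36D.Defs
import Pool.Agent.LibBE37F.N1b
import Pool.Agent.LibBE37F.N1c

/-! ROW DB5a : the sizes of the numbers of a block, first part. MEDIUM, only real analysis. Cites LibBE36F/N1b `cn_bk`, N1c (`Lm_sub`, `Lm_lt`, `Lm_pow`, `Lm_add`, `Lm_one`, `Nk_le`, `e_pos`);
`hP.c` gives `P.c R = s * cn R`. All powers `2 ^ (..)` with a real exponent are `rpow`.
PLAN. `V_bd`: `δ0 = 1 / (40 C)`. `1 / p.e k = 2^(δ k)` (`Real.rpow_neg`), `vv C N Q Q ρ = (C * ((N + 1) Q Q (1 + ρ)))^C = (C (N+1)(1+ρ))^C * 2^(2 C δ k)`, `2 C δ ≤ 1/20`; `N + 1 ≤ 3 Lm (2 κ1)`, `1 + ρ ≤ 2 Lm (2 κ1)`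
(`Nk_le`, `Lm_one`), so the first factor is `≤ (6 C)^C Lm (4 κ1 C) ≤ 2^(k/20)` eventually (`Lm_pow`, `Lm_sub` with `d = 1/20`). `sizes_a`: `c = P.c (bk k) ≤ 2^(-2/5 k)`, `0 < c` (`cn_bk`).
`V c^(2/3) ≤ 2^(k/10 - 4k/15) ≤ 1`; `V c^(4/3) (bk+1)^2 ≤ c` because `V (bk+1)^2 c^(1/3) ≤ 2^(k/10 + k/100 - 2k/15) ≤ 1` (`Lm 2 k = (bk k+1)^2`, `Lm_sub` with `d = 1/100`). `√(C1 (bk+1)^2 c) ≤ √C1 (bk+1) 2^(-k/5)`,
`dw k = 2^(-k/20)`, `C (1+ρ)^2 (bk+1)^4 ≤ 4 C Lm (4 κ1 + 4) ≤ 2^(k/100)/..` eventually. `C (1 + Lm (2κ1))^2 ≤ 4 C Lm (4 κ1) ≤ Lm (1/2) = √(bk+1)` eventually (`Lm_lt`: `4 κ1 ≤ 4/10 < 1/2`; `Real.sqrt_eq_rpow`). -/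

open MeasureTheory Set Filter Topology
open scoped ContDiff unitInterval

namespace F37

variable [Sq]

open BGS BR B35

variable {Γ : Type} [Group Γ] [MulAction Γ Pl] {D : Set Pl} {P : Dt}

private theorem DB5a_H (p : Pr) (k : ℕ) : 1 / p.e k = (2 : ℝ) ^ (p.δ * k) := by
  unfold Pr.e
  rw [Real.rpow_neg zero_le_two, one_div, inv_inv]

private theorem DB5a_B (k : ℕ) : (bk k : ℝ) + 1 = Lm 1 k := by
  unfold Lm
  rw [Real.rpow_one]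

private theorem DB5a_pow (κ : ℝ) (n k : ℕ) : Lm κ k ^ n = Lm (κ * (n : ℝ)) k := by
  rw [← Lm_pow, Real.rpow_natCast]

theorem V_bd (C : ℕ) (hC : 1 ≤ C) : ∃ δ0 : ℝ, 0 < δ0 ∧ ∀ p : Pr, p.Ok → p.δ ≤ δ0 →
    ∀ κ1 : ℝ, 0 < κ1 → ∃ k0 : ℕ, ∀ k ≥ k0,
      BD36.vv C (Nk κ1 k) (1 / p.e k) (1 / p.e k) (Lm (2 * κ1) k) ≤ (2 : ℝ) ^ (1 / 10 * k : ℝ) := by
  have hCr : (1 : ℝ) ≤ C := by exact_mod_cast hC
  refine ⟨1 / (40 * C), by positivity, fun p hp hpδ κ1 hκ1 => ?_⟩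
  obtain ⟨k0, hk0⟩ := eventually_atTop.1
    (Lm_sub (2 * κ1 * ((2 * C : ℕ) : ℝ)) (A := (6 * C) ^ C) (d := 1 / 20) (by norm_num))
  refine ⟨k0, fun k hk => ?_⟩
  have h1 := hk0 k hk
  rw [← DB5a_pow] at h1
  obtain ⟨L, hL⟩ : ∃ L, L = Lm (2 * κ1) k := ⟨_, rfl⟩
  obtain ⟨X, hX⟩ : ∃ X : ℝ, X = (2 : ℝ) ^ (p.δ * k) := ⟨_, rfl⟩
  have hkk : (0 : ℝ) ≤ k := Nat.cast_nonneg k
  have hX1 : 1 ≤ X := by
    rw [hX]
    exact Real.one_le_rpow one_le_two (mul_nonneg hp.pos.le hkk)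
  have hL1 : 1 ≤ L := by
    rw [hL]
    exact Lm_one _ (by linarith) k
  obtain ⟨-, -, n3⟩ := Nk_le hκ1.le k
  rw [← hL] at n3 h1
  unfold BD36.vv
  rw [DB5a_H, ← hX, ← hL]
  have hN0 : (0 : ℝ) ≤ (Nk κ1 k : ℝ) := Nat.cast_nonneg _
  have e1 : ((Nk κ1 k : ℝ) + 1) * X * X * (1 + L) ≤ 3 * L * X * X * (2 * L) := by
    have f1 : (Nk κ1 k : ℝ) + 1 ≤ 3 * L := by linarith
    have f2 : 1 + L ≤ 2 * L := by linarith
    gcongr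
  have e2 : (C : ℝ) * (((Nk κ1 k : ℝ) + 1) * X * X * (1 + L)) ≤ 6 * C * (L ^ 2 * X ^ 2) := by
    have f1 := mul_le_mul_of_nonneg_left e1 (by linarith : (0 : ℝ) ≤ C)
    refine f1.trans (le_of_eq ?_)
    ring
  have e3 : X ^ (2 * C) ≤ (2 : ℝ) ^ ((1 / 20 : ℝ) * k) := by
    rw [hX, ← Real.rpow_natCast, ← Real.rpow_mul zero_le_two]
    refine Real.rpow_le_rpow_of_exponent_le one_le_two ?_
    have f1 : p.δ * (40 * C) ≤ 1 := by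
      have f2 := (le_div_iff₀ (by positivity : (0 : ℝ) < 40 * C)).1 hpδ
      exact f2
    have f3 := mul_le_mul_of_nonneg_right f1 hkk
    push_cast
    linarith
  calc (C * (((Nk κ1 k : ℝ) + 1) * X * X * (1 + L))) ^ C
      ≤ (6 * C * (L ^ 2 * X ^ 2)) ^ C := pow_le_pow_left₀ (by positivity) e2 C
    _ = ((6 * C) ^ C * L ^ (2 * C)) * X ^ (2 * C) := by
        rw [mul_pow (6 * (C : ℝ)), mul_pow (L ^ 2), ← pow_mul, ← pow_mul, mul_assoc]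
    _ ≤ (2 : ℝ) ^ ((1 / 20 : ℝ) * k) * (2 : ℝ) ^ ((1 / 20 : ℝ) * k) :=
        mul_le_mul h1 e3 (by positivity) (by positivity)
    _ = (2 : ℝ) ^ (1 / 10 * k : ℝ) := by
        rw [← Real.rpow_add two_pos]
        congr 1
        ring

theorem sizes_a (hP : Ok Γ D P) (C C1 : ℕ) {u : ℝ} (hu : 0 < u) {κ1 : ℝ} (h0 : 0 < κ1)
    (h1 : κ1 ≤ 1 / 10) : ∃ k0 : ℕ, ∀ k ≥ k0, ∀ V : ℝ, 0 ≤ V → V ≤ (2 : ℝ) ^ (1 / 10 * k : ℝ) →
      1 ≤ u * 2 ^ k ∧ 0 < dw k ∧ dw k ≤ 1 ∧ V * P.c (bk k) ^ (2 / 3 : ℝ) ≤ 1 ∧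
      V * (P.c (bk k) ^ (2 / 3 : ℝ)) ^ 2 * ((bk k : ℝ) + 1) ^ 2 ≤ P.c (bk k) ∧
      C * (1 + Lm (2 * κ1) k) ^ 2 * ((bk k : ℝ) + 1) ^ 3 *
        (√(C1 * ((bk k : ℝ) + 1) ^ 2 * P.c (bk k)) + dw k) ≤ 1 ∧
      C * (1 + Lm (2 * κ1) k) ^ 2 ≤ √((bk k : ℝ) + 1) := by
  obtain ⟨s, hs, hs1, hc⟩ := hP.c
  have hu0 : Tendsto (fun k : ℕ => u * (2 : ℝ) ^ k) atTop atTop :=
    (tendsto_pow_atTop_atTop_of_one_lt one_lt_two).const_mul_atTop hu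
  obtain ⟨k0, hk0⟩ := eventually_atTop.1 ((cn_bk hs hs1).and ((hu0.eventually_ge_atTop 1).and
    ((Lm_sub 2 (A := 1) (d := 1 / 100) (by norm_num)).and
    ((Lm_sub (4 * κ1 + 4) (A := 4 * C * (√C1 + 1)) (d := 1 / 20) (by norm_num)).and
    (Lm_lt (κ := 4 * κ1) (κ' := 1 / 2) (by linarith) (4 * C))))))
  refine ⟨k0, fun k hk V hV0 hV => ?_⟩
  obtain ⟨⟨c1, c2⟩, hu1, hB2, h5, h6⟩ := hk0 k hk
  rw [← hc] at c1 c2
  obtain ⟨c, hcd⟩ : ∃ c, c = P.c (bk k) := ⟨_, rfl⟩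
  obtain ⟨B, hB⟩ : ∃ B : ℝ, B = (bk k : ℝ) + 1 := ⟨_, rfl⟩
  obtain ⟨L, hL⟩ : ∃ L, L = Lm (2 * κ1) k := ⟨_, rfl⟩
  have hkk : (0 : ℝ) ≤ k := Nat.cast_nonneg k
  have hL1 : 1 ≤ L := by
    rw [hL]
    exact Lm_one _ (by linarith) k
  have hB1 : 1 ≤ B := by
    rw [hB, DB5a_B]
    exact Lm_one 1 zero_le_one k
  have hB0 : 0 < B := by linarith
  rw [← hcd] at c1 c2
  rw [← hcd, ← hB, ← hL]
  have hc0 : 0 < c := lt_of_lt_of_le (Real.rpow_pos_of_pos two_pos _) c1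
  have q2 : Lm 2 k = B ^ 2 := by
    rw [hB, DB5a_B, DB5a_pow]
    norm_num
  have q4 : Lm (4 * κ1) k = L ^ 2 := by
    rw [hL, DB5a_pow]
    congr 1
    push_cast
    ring
  have q44 : Lm (4 * κ1 + 4) k = L ^ 2 * B ^ 4 := by
    rw [Lm_add, q4, hB, DB5a_B, DB5a_pow]
    norm_num
  have qh : Lm (1 / 2) k = √B := by
    rw [Real.sqrt_eq_rpow, hB]
    rfl
  rw [q2, one_mul] at hB2
  rw [q44] at h5
  rw [q4, qh] at h6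
  have dpos : 0 < dw k := Real.rpow_pos_of_pos two_pos _
  have dle : dw k ≤ 1 := Real.rpow_le_one_of_one_le_of_nonpos one_le_two (by linarith)
  have w23 : c ^ (2 / 3 : ℝ) ≤ (2 : ℝ) ^ (-(4 / 15 * k : ℝ)) := by
    refine (Real.rpow_le_rpow hc0.le c2 (by norm_num)).trans (le_of_eq ?_)
    rw [← Real.rpow_mul zero_le_two]
    congr 1
    ring
  have w13 : c ^ (1 / 3 : ℝ) ≤ (2 : ℝ) ^ (-(2 / 15 * k : ℝ)) := by
    refine (Real.rpow_le_rpow hc0.le c2 (by norm_num)).trans (le_of_eq ?_)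
    rw [← Real.rpow_mul zero_le_two]
    congr 1
    ring
  have w12 : √c ≤ (2 : ℝ) ^ (-(1 / 5 * k : ℝ)) := by
    rw [Real.sqrt_eq_rpow]
    refine (Real.rpow_le_rpow hc0.le c2 (by norm_num)).trans (le_of_eq ?_)
    rw [← Real.rpow_mul zero_le_two]
    congr 1
    ring
  have hLL : (1 + L) ^ 2 ≤ 4 * L ^ 2 := by
    have f1 : 1 + L ≤ 2 * L := by linarith
    calc (1 + L) ^ 2 ≤ (2 * L) ^ 2 := pow_le_pow_left₀ (by linarith) f1 2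
      _ = 4 * L ^ 2 := by ring
  have hC0 : (0 : ℝ) ≤ C := Nat.cast_nonneg C
  refine ⟨hu1, dpos, dle, ?_, ?_, ?_, ?_⟩
  · calc V * c ^ (2 / 3 : ℝ) ≤ (2 : ℝ) ^ (1 / 10 * k : ℝ) * (2 : ℝ) ^ (-(4 / 15 * k : ℝ)) :=
          mul_le_mul hV w23 (by positivity) (by positivity)
      _ = (2 : ℝ) ^ (-(1 / 6 * k : ℝ)) := by
          rw [← Real.rpow_add two_pos]
          congr 1
          ring
      _ ≤ 1 := Real.rpow_le_one_of_one_le_of_nonpos one_le_two (by linarith)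
  · have f1 : (c ^ (2 / 3 : ℝ)) ^ 2 = c * c ^ (1 / 3 : ℝ) := by
      rw [← Real.rpow_natCast, ← Real.rpow_mul hc0.le]
      nth_rewrite 2 [← Real.rpow_one c]
      rw [← Real.rpow_add hc0]
      congr 1
      norm_num
    have f2 : V * B ^ 2 * c ^ (1 / 3 : ℝ) ≤ 1 := by
      calc V * B ^ 2 * c ^ (1 / 3 : ℝ)
          ≤ (2 : ℝ) ^ (1 / 10 * k : ℝ) * (2 : ℝ) ^ (1 / 100 * k : ℝ) *
            (2 : ℝ) ^ (-(2 / 15 * k : ℝ)) :=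
            mul_le_mul (mul_le_mul hV hB2 (by positivity) (by positivity)) w13 (by positivity)
              (by positivity)
        _ = (2 : ℝ) ^ (-(7 / 300 * k : ℝ)) := by
            rw [← Real.rpow_add two_pos, ← Real.rpow_add two_pos]
            congr 1
            ring
        _ ≤ 1 := Real.rpow_le_one_of_one_le_of_nonpos one_le_two (by linarith)
    rw [f1]
    calc V * (c * c ^ (1 / 3 : ℝ)) * B ^ 2 = (V * B ^ 2 * c ^ (1 / 3 : ℝ)) * c := by ring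
      _ ≤ 1 * c := mul_le_mul_of_nonneg_right f2 hc0.le
      _ = c := one_mul c
  · have f1 : √(C1 * B ^ 2 * c) = √C1 * B * √c := by
      rw [Real.sqrt_mul (by positivity), Real.sqrt_mul (Nat.cast_nonneg C1), Real.sqrt_sq hB0.le]
    obtain ⟨Y, hY⟩ : ∃ Y : ℝ, Y = (2 : ℝ) ^ (-(1 / 20 * k : ℝ)) := ⟨_, rfl⟩
    have hY0 : 0 < Y := by
      rw [hY]
      exact Real.rpow_pos_of_pos two_pos _
    have f2 : √c ≤ Y := by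
      rw [hY]
      exact w12.trans (Real.rpow_le_rpow_of_exponent_le one_le_two (by linarith))
    have f3 : dw k = Y := by
      rw [hY]
      unfold dw
      congr 1
      ring
    have f4 : √C1 * B * √c + Y ≤ (√C1 + 1) * B * Y := by
      have g1 : √C1 * B * √c ≤ √C1 * B * Y := mul_le_mul_of_nonneg_left f2 (by positivity)
      have g2 : Y ≤ B * Y := le_mul_of_one_le_left hY0.le hB1
      linarith
    have f5 : (2 : ℝ) ^ ((1 / 20 : ℝ) * k) * Y = 1 := by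
      rw [hY, ← Real.rpow_add two_pos, add_neg_cancel, Real.rpow_zero]
    rw [f1, f3]
    calc C * (1 + L) ^ 2 * B ^ 3 * (√C1 * B * √c + Y)
        ≤ C * (4 * L ^ 2) * B ^ 3 * ((√C1 + 1) * B * Y) := by gcongr
      _ = (4 * C * (√C1 + 1) * (L ^ 2 * B ^ 4)) * Y := by ring
      _ ≤ (2 : ℝ) ^ ((1 / 20 : ℝ) * k) * Y := mul_le_mul_of_nonneg_right h5 hY0.le
      _ = 1 := f5
  · calc C * (1 + L) ^ 2 ≤ C * (4 * L ^ 2) := mul_le_mul_of_nonneg_left hLL hC0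
      _ = 4 * C * L ^ 2 := by ring
      _ ≤ √B := h6

end F37
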