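import Pool.Agent.LibBE37F.FA1
import Pool.Agent.LibBE37F.FA3
import Pool.Agent.LibBE37F.FA5
import Pool.Agent.LibBE37F.N1b
import Pool.Agent.LibBE37F.N1c
import Pool.Agent.LibB35.GQ2a

/-! ROW GQ2a : comparison of the lengths and the weights in a block. MEDIUM. MODEL: LibB35/GQ2a.lean (adapt it). PLAN. `BE.wt_close` (LibBE99/W5) for the family `CF_path`, `p0 = 0`, `p1 = √c`, `√c ≤ 2^(-k/5)` (`cn_bk`), values `path_zero`, `path_one`; classes `cls_q` for the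
metrics `Y0`, `Y (mix)` (`Y_hm`, curvature from `Bs`, `block_neg`). Numbers: `n (1 + Lm (2 κ1) k)^n 2^(-k/5) ≤ 2^(-k/8)` eventually (`Lm_pow`, `Lm_sub`). The factor 2 for all lengths: as in the model (`Q2a_lip`, `BGM.D1_tl`).
`(2^k)^(-1/8)` is `((2:ℝ)^k)^(-(1/8))`, rpow of a natural power. `k0` does not depend on `p`. -/

open MeasureTheory Set Filter Topology
open scoped ContDiff unitInterval

namespace F37

variable [Sq]

open BGS BR BE B35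

variable {Γ : Type} [Group Γ] [MulAction Γ Pl] {D : Set Pl} {P : Dt} {κ : ℝ}

private theorem G2a_lip {ι : Type} {m : Pl → Co} {a b : ℝ} {s : ι → ℝ × Pl → ℝ}
    (h : CF Γ D m a b s) : ∃ C : ℝ, 0 ≤ C ∧ ∀ (i : ι) (p : ℝ), |p| ≤ 1 → ∀ z : Pl,
      |s i (p, z) - s i (0, z)| ≤ C * |p| := by
  obtain ⟨C, hC⟩ := h.bd 1
  refine ⟨|C|, abs_nonneg _, fun i p hp z => ?_⟩
  obtain ⟨γ, hγ, -⟩ := h.hX.orbit z
  rw [← h.inv i p γ z, ← h.inv i 0 γ z]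
  generalize γ • z = w at hγ
  have hw := subset_closure hγ
  have hd : ∀ t ∈ Metric.closedBall (0 : ℝ) 1, HasDerivWithinAt (fun t => s i (t, w))
      (fderiv ℝ (s i) (t, w) (1, 0)) (Metric.closedBall 0 1) t := by
    intro t _
    have h1 : HasFDerivAt (s i) (fderiv ℝ (s i) (t, w)) (t, w) :=
      ((h.smooth i).differentiable (by simp) _).hasFDerivAt
    have h2 : HasDerivAt (fun t : ℝ => (t, w)) ((1 : ℝ), (0 : Pl)) t :=
      (hasDerivAt_id t).prodMk (hasDerivAt_const t w)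
    exact (h1.comp_hasDerivAt t h2).hasDerivWithinAt
  have hb : ∀ t ∈ Metric.closedBall (0 : ℝ) 1, ‖fderiv ℝ (s i) (t, w) (1, 0)‖ ≤ |C| := by
    intro t ht
    have ht' : ‖t‖ ≤ 1 := by simpa using ht
    have h1 := hC i t ht' w hw
    rw [norm_iteratedFDeriv_one] at h1
    calc ‖fderiv ℝ (s i) (t, w) (1, 0)‖
        ≤ ‖fderiv ℝ (s i) (t, w)‖ * ‖((1 : ℝ), (0 : Pl))‖ := ContinuousLinearMap.le_opNorm _ _
      _ = ‖fderiv ℝ (s i) (t, w)‖ := by simp [Prod.norm_def]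
      _ ≤ |C| := h1.trans (le_abs_self C)
  have h3 := (convex_closedBall (0 : ℝ) 1).norm_image_sub_le_of_norm_hasDerivWithin_le hd hb
    (x := 0) (y := p) (by simp) (by simpa using hp)
  simpa [Real.norm_eq_abs] using h3

private theorem G2a_two {x : ℝ} (hx : x ≤ 1) : Real.exp (x / 2) ≤ 2 := by
  have h1 : Real.exp (1 / 2) ^ 2 ≤ 4 := by
    rw [← Real.exp_nat_mul]
    have := Real.exp_one_lt_d9
    norm_num
    linarith
  have h2 : Real.exp (1 / 2) ≤ 2 := by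
    nlinarith [Real.exp_pos (1 / 2 : ℝ)]
  exact (Real.exp_le_exp.2 (by linarith)).trans h2

private theorem G2a_ln {m : Pl → Co} (hm : HM Γ m) {f f' : Pl → ℝ} (hf : ContDiff ℝ ∞ f)
    (hf' : ContDiff ℝ ∞ f') (h : ∀ z, f z ≤ f' z + 1) (q : Cg Γ)
    (h0 : 0 < lp (BGM.cf f' m) q.1) : ln (BGM.cf f m) q ≤ 2 * ln (BGM.cf f' m) q := by
  have h1 := BGM.D1_tl ⟨hm.smooth, hm.pos⟩ hf hf' h (GH.rep q.1)
  have h2 : lp (BGM.cf f m) q.1 ≤ 2 * lp (BGM.cf f' m) q.1 :=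
    h1.trans (mul_le_mul_of_nonneg_right (G2a_two le_rfl) h0.le)
  unfold ln
  have h3 : (0 : ℝ) ≤ (q.2.1 : ℝ) + 1 := by positivity
  nlinarith

theorem Y0_hm (hP : Ok Γ D P) (hκ : 0 < κ) {p : Pr} {k : ℕ} {ξ : Dir → I}
    (hξ : ξ ∈ Bs P p Γ D κ k) : HM Γ (Y0 P p Γ D k ξ) := by
  refine Y_hm hP p k fun z => lt_of_le_of_lt (hξ.2 z) ?_
  have : 0 < κ ^ 2 := by positivity
  linarith

theorem ln_cmp (hP : Ok Γ D P) (hκ : 0 < κ) {κ1 : ℝ} (hκ1 : 0 < κ1) : ∃ k0 : ℕ, ∀ p : Pr,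
    p.Ok → ∀ k ≥ k0, ∀ ξ ∈ Bs P p Γ D κ k, ∀ (η : Dir → I) (q : Cg Γ),
      ln (Y0 P p Γ D k ξ) q ≤ 2 * ln (Y P p Γ D k (mix (bk k) ξ η)) q ∧
      ln (Y P p Γ D k (mix (bk k) ξ η)) q ≤ 2 * ln (Y0 P p Γ D k ξ) q ∧
      (ln (Y0 P p Γ D k ξ) q ≤ Lm (2 * κ1) k →
        |ln (Y P p Γ D k (mix (bk k) ξ η)) q - ln (Y0 P p Γ D k ξ) q| ≤
          (2 ^ k : ℝ) ^ (-(1 / 8) : ℝ) ∧
        |wg (Y P p Γ D k (mix (bk k) ξ η)) q - wg (Y0 P p Γ D k ξ) q| ≤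
          (2 ^ k : ℝ) ^ (-(1 / 8) : ℝ) * wg (Y0 P p Γ D k ξ) q) := by
  obtain ⟨k1, b, h⟩ := CF_path hP hκ
  obtain ⟨n, hC⟩ := wt_close h
  obtain ⟨C', hC0', hlip⟩ := G2a_lip h
  obtain ⟨s, hs0, hs1, hcs⟩ := hP.c
  obtain ⟨k2, hk2⟩ := Filter.eventually_atTop.1 (cn_bk hs0 hs1)
  obtain ⟨k3, hk3⟩ := Filter.eventually_atTop.1
    (Lm_sub (2 * κ1 * n) (A := (n : ℝ) * 2 ^ n) (d := 3 / 40) (by norm_num))
  obtain ⟨k4, hk4⟩ := Filter.eventually_atTop.1 (Lm_sub 0 (A := C') (d := 1 / 5) (by norm_num))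
  refine ⟨max (max k1 k2) (max k3 k4), fun p hp k hk ξ hξ η q => ?_⟩
  have hkk1 : k1 ≤ k := ((le_max_left _ _).trans (le_max_left _ _)).trans hk
  have hkk2 : k2 ≤ k := ((le_max_right _ _).trans (le_max_left _ _)).trans hk
  have hkk3 : k3 ≤ k := ((le_max_left _ _).trans (le_max_right _ _)).trans hk
  have hkk4 : k4 ≤ k := ((le_max_right _ _).trans (le_max_right _ _)).trans hk
  have f3 := hk3 k hkk3
  have f4 := hk4 k hkk4
  have f2 := (hk2 k hkk2).2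
  rw [← hcs] at f2
  obtain ⟨x, hx⟩ : ∃ x : ℝ, x = √(P.c (bk k)) := ⟨_, rfl⟩
  have hc0 : 0 < P.c (bk k) := (c_pos hP (bk k)).1
  have hp0 : 0 < x := by
    rw [hx]
    exact Real.sqrt_pos.2 hc0
  have hp1 : x ≤ (2 : ℝ) ^ (-(1 / 5 * k : ℝ)) := by
    rw [hx]
    refine Real.sqrt_le_iff.2 ⟨by positivity, ?_⟩
    rw [← Real.rpow_natCast, ← Real.rpow_mul (by norm_num)]
    refine f2.trans (le_of_eq ?_)
    congr 1
    push_cast
    ring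
  have hpa : |x| = x := abs_of_pos hp0
  have hk0 : (0 : ℝ) ≤ k := Nat.cast_nonneg _
  have hple : |x| ≤ 1 := by
    rw [hpa]
    refine hp1.trans ?_
    refine Real.rpow_le_one_of_one_le_of_nonpos (by norm_num) ?_
    linarith
  let i : Bi P Γ D κ k1 := ⟨p, k, ξ, η, hp, hkk1, hξ⟩
  have e0 : mm P.m (sP P p Γ D k ξ η) 0 = Y0 P p Γ D k ξ := path_zero hP p k ξ η
  have e1 : mm P.m (sP P p Γ D k ξ η) x = Y P p Γ D k (mix (bk k) ξ η) := by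
    rw [hx]
    exact path_one hP p k ξ η
  rw [← e0, ← e1]
  have hm0 : HM Γ (mm P.m (sP P p Γ D k ξ η) 0) := hm_mm h i 0
  have hm1 : HM Γ (mm P.m (sP P p Γ D k ξ η) x) := hm_mm h i x
  have hsm : ContDiff ℝ ∞ (sP P p Γ D k ξ η) := h.smooth i
  obtain ⟨c0, t0, p0, -, -, g0⟩ := cls_q h.hX h.hO hm0 q
  obtain ⟨c1, t1, p1, -, -, g1⟩ := cls_q h.hX h.hO hm1 q
  obtain ⟨r1, r2⟩ := hC i 0 x (by simp) (by rwa [Real.norm_eq_abs]) (gel q) (gpr q) _ _ _ _ _ _ _ _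
    c0 c1
  rw [sub_zero, Real.norm_eq_abs] at r1 r2
  have hl : ∀ z, |sP P p Γ D k ξ η (x, z) - sP P p Γ D k ξ η (0, z)| ≤ 1 := by
    intro z
    refine (hlip i x hple z).trans ?_
    rw [hpa]
    have h1 : C' ≤ (2 : ℝ) ^ (1 / 5 * k : ℝ) := by
      have := Lm_one 0 le_rfl k
      have h2 : C' * 1 ≤ C' * Lm 0 k := mul_le_mul_of_nonneg_left this hC0'
      linarith
    calc C' * x ≤ (2 : ℝ) ^ (1 / 5 * k : ℝ) * (2 : ℝ) ^ (-(1 / 5 * k : ℝ)) :=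
          mul_le_mul h1 hp1 hp0.le (by positivity)
      _ = 1 := by
          rw [← Real.rpow_add (by norm_num), add_neg_cancel, Real.rpow_zero]
  have hsl : ∀ t : ℝ, ContDiff ℝ ∞ (fun z : Pl => sP P p Γ D k ξ η (t, z)) := fun t =>
    hsm.comp (contDiff_const.prodMk contDiff_id)
  refine ⟨?_, ?_, fun hK => ?_⟩
  · exact G2a_ln hP.hm (hsl 0) (hsl x) (fun z => by linarith [(abs_le.1 (hl z)).1]) q p1
  · exact G2a_ln hP.hm (hsl x) (hsl 0) (fun z => by linarith [(abs_le.1 (hl z)).2]) q p0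
  · have hln0 : 0 ≤ ln (mm P.m (sP P p Γ D k ξ η) 0) q := by
      unfold ln
      positivity
    have hL1 := Lm_one (2 * κ1) (by linarith) k
    have hpow : (n : ℝ) * (1 + ln (mm P.m (sP P p Γ D k ξ η) 0) q) ^ n ≤
        (2 : ℝ) ^ (3 / 40 * k : ℝ) := by
      have h1 : (1 + ln (mm P.m (sP P p Γ D k ξ η) 0) q) ^ n ≤ (2 * Lm (2 * κ1) k) ^ n :=
        pow_le_pow_left₀ (by linarith) (by linarith) n
      have h2 : (2 * Lm (2 * κ1) k) ^ n = 2 ^ n * Lm (2 * κ1 * n) k := by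
        rw [mul_pow, ← Real.rpow_natCast (Lm (2 * κ1) k) n, Lm_pow]
      rw [h2] at h1
      calc (n : ℝ) * (1 + ln (mm P.m (sP P p Γ D k ξ η) 0) q) ^ n
          ≤ n * (2 ^ n * Lm (2 * κ1 * n) k) := mul_le_mul_of_nonneg_left h1 (Nat.cast_nonneg n)
        _ = (n : ℝ) * 2 ^ n * Lm (2 * κ1 * n) k := by ring
        _ ≤ _ := f3
    have hT : (2 ^ k : ℝ) ^ (-(1 / 8) : ℝ) = (2 : ℝ) ^ (-(1 / 8 * k : ℝ)) := by
      rw [← Real.rpow_natCast, ← Real.rpow_mul (by norm_num)]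
      congr 1
      ring
    have key : (n : ℝ) * (1 + ln (mm P.m (sP P p Γ D k ξ η) 0) q) ^ n * |x| ≤
        (2 ^ k : ℝ) ^ (-(1 / 8) : ℝ) := by
      rw [hpa, hT]
      calc (n : ℝ) * (1 + ln (mm P.m (sP P p Γ D k ξ η) 0) q) ^ n * x
          ≤ (2 : ℝ) ^ (3 / 40 * k : ℝ) * (2 : ℝ) ^ (-(1 / 5 * k : ℝ)) :=
            mul_le_mul hpow hp1 hp0.le (by positivity)
        _ = (2 : ℝ) ^ (-(1 / 8 * k : ℝ)) := by
            rw [← Real.rpow_add (by norm_num)]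
            congr 1
            ring
    refine ⟨r1.trans key, ?_⟩
    have hle1 : (2 ^ k : ℝ) ^ (-(1 / 8) : ℝ) ≤ 1 := by
      rw [hT]
      refine Real.rpow_le_one_of_one_le_of_nonpos (by norm_num) ?_
      linarith
    have r3 := r2 (key.trans hle1)
    have w0 : lp (mm P.m (sP P p Γ D k ξ η) 0) q.1 /
        √(trM (mm P.m (sP P p Γ D k ξ η) 0) (ax (mm P.m (sP P p Γ D k ξ η) 0) (gpr q)).1
          (ax (mm P.m (sP P p Γ D k ξ η) 0) (gpr q)).2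
          (ln (mm P.m (sP P p Γ D k ξ η) 0) q) - 2) = wg (mm P.m (sP P p Γ D k ξ η) 0) q := by
      rw [t0]
      rfl
    have w1 : lp (mm P.m (sP P p Γ D k ξ η) x) q.1 /
        √(trM (mm P.m (sP P p Γ D k ξ η) x) (ax (mm P.m (sP P p Γ D k ξ η) x) (gpr q)).1
          (ax (mm P.m (sP P p Γ D k ξ η) x) (gpr q)).2
          (ln (mm P.m (sP P p Γ D k ξ η) x) q) - 2) = wg (mm P.m (sP P p Γ D k ξ η) x) q := by
      rw [t1]
      rfl
    rw [← w0, ← w1]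
    refine r3.trans ?_
    refine mul_le_mul_of_nonneg_right key ?_
    positivity

end F37
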