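import Pool.Agent.LibBE37F.DB3
import Pool.Agent.LibBE37F.DB4
import Pool.Agent.LibBE37F.DB5
import Pool.Agent.LibBE37F.DB6a
import Pool.Agent.LibBE36D.D10
import Pool.Agent.LibBE37F.A1
import Pool.Agent.LibBE37F.MY
import Pool.Agent.LibBE37F.GQ2a
import Pool.Agent.LibBE37F.GE
import Pool.Agent.LibBE37F.N2a
import Pool.Agent.LibBE66.P1

/-! ROW DB6 : part D' for the blocks: `decor` of LibBE36F/IFD.lean. MEDIUM. Template: LibBE66/P8.lean. Cites `BD36.main`, `BD36.ZT_cont` (D10), DB3 `blk_DG`, DB4 `bump_err`, DB5 `sizes`,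
LibBE36F/A1 (`Fa_EA`, `Am_nonneg`), MY `thR_cont`, DB6a `ZT_eq`, `rh_form`, `thR_le`, GQ2a `Y0_hm`, N1c (`Nk_le`, `Lm_one`, `e_pos`, `e_le`, `Lm_lt`), N2a `rh_lower`, LibBE66/P1 (`q_axis`, `pint_vis`), FA3 (`cell_val`, `path_zero`, `c_pos`).
PLAN. `PX_cell` (LibBE36F/GE, helper88, proved) gives `k2`, `blk_DG` gives `k1, C1`; `k3 = max k1 k2`, index type `Bw P Γ D κ k3`, `PX_pull` along `fun q => q.1.lift h`. `Λ1 = max v 1`; `C` from `BD36.main` with `Q q = 1 / q.1.p.e q.1.k`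
(`1 ≤ Q` by `e_le`, `q.1.ok.pos`). `δ0` from `sizes`; for `p, κ1, M`: `M0 = 5 * M 0` (`Am_nonneg`; if no amplitude exists there is nothing to prove: take `M0 = 5 * |M 0|`), `C'`, `k0` = maximum of `k3`, `bump_err`, `sizes`.
The index: `p, k, ξ, η, c`, `w = P.c (bk k) ^ (1/3)`. `ρ = Lm (2 κ1) k ≥ Lm κ1 k` (`Real.rpow_le_rpow_of_exponent_le`), `EA_mono`; `Ra p k a = B36.rst (Fa p k a)` by `rfl`; `H = 1 / p.e k`, `η = 1 / (2 ^ n e)` (`hξ.1`).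
`ZT` of F37 and of BD36 are equal (`ZT_eq`). `hν.int (bk k) f` with `f` continuous (`ZT_cont`); `rh M t = cc * (4 t (1 - t)) ^ M`, `0 ≤ cc ≤ 4 (M + 1)` (`rh_form`), pull `cc` out of the integral. `v t * w = P.c t`
(`cell_val` with `x = P.c ^ (2/3) * t`). -/

open MeasureTheory Set Filter Topology
open scoped ContDiff unitInterval

namespace F37

variable [Sq]

open BGS BR BE B35
open Pool.BGR (upI)

variable {Γ : Type} [Group Γ] [MulAction Γ Pl] {D : Set Pl} {P : Dt} {κ : ℝ}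
  {ν : ℕ → Measure I}

private theorem DB6_int {ν : Measure I} {M : ℕ}
    (hν : ∀ f : ℝ → ℂ, Continuous f →
      ∫ t : I, f t ∂ν = ∫ t in (0 : ℝ)..1, (rh M t : ℂ) * f t)
    {f : ℝ → ℂ} (hf : Continuous f) {B : ℝ}
    (hB : ‖∫ t in (0 : ℝ)..1, (((4 * t * (1 - t)) ^ M : ℝ) : ℂ) * f t‖ ≤ B) :
    ‖∫ t : I, f t ∂ν‖ ≤ 4 * ((M : ℝ) + 1) * B := by
  obtain ⟨cc, h0, h1, h2⟩ := rh_form M
  rw [hν f hf]
  have e1 : (∫ t in (0 : ℝ)..1, (rh M t : ℂ) * f t) =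
      (cc : ℂ) * ∫ t in (0 : ℝ)..1, (((4 * t * (1 - t)) ^ M : ℝ) : ℂ) * f t := by
    rw [← intervalIntegral.integral_const_mul]
    refine intervalIntegral.integral_congr fun t _ => ?_
    show (rh M t : ℂ) * f t = (cc : ℂ) * ((((4 * t * (1 - t)) ^ M : ℝ) : ℂ) * f t)
    rw [h2 t, Complex.ofReal_mul, mul_assoc]
  rw [e1, norm_mul, Complex.norm_real, Real.norm_eq_abs, abs_of_nonneg h0]
  exact mul_le_mul h1 hB (norm_nonneg _) (h0.trans h1)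

private theorem DB6_third {c : ℝ} (hc : 0 < c) (hc1 : c ≤ 1) {t : ℝ} (h0 : 0 ≤ t) (h1 : t ≤ 1) :
    |c ^ (2 / 3 : ℝ) * t| ≤ 4 ∧ c ^ (2 / 3 : ℝ) * t * c ^ (1 / 3 : ℝ) = c * t := by
  have h2 : 0 ≤ c ^ (2 / 3 : ℝ) := Real.rpow_nonneg hc.le _
  have h3 : c ^ (2 / 3 : ℝ) ≤ 1 := Real.rpow_le_one hc.le hc1 (by norm_num)
  have h4 : c ^ (2 / 3 : ℝ) * c ^ (1 / 3 : ℝ) = c := by
    rw [← Real.rpow_add hc]
    norm_num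
  refine ⟨?_, ?_⟩
  · rw [abs_of_nonneg (mul_nonneg h2 h0)]
    have h5 : c ^ (2 / 3 : ℝ) * t ≤ 1 * 1 := mul_le_mul h3 h1 h0 zero_le_one
    linarith
  · calc c ^ (2 / 3 : ℝ) * t * c ^ (1 / 3 : ℝ) = c ^ (2 / 3 : ℝ) * c ^ (1 / 3 : ℝ) * t := by ring
      _ = c * t := by rw [h4]

theorem decor (hP : Ok Γ D P) (hν : Law ν) (hκ : 0 < κ) {u v : ℝ} (hu : 0 < u) (huv : u < v)
    (J : Type) [Fintype J] :
    ∃ δ0 : ℝ, 0 < δ0 ∧ ∀ p : Pr, p.Ok → p.δ ≤ δ0 → ∀ κ1 : ℝ, 0 < κ1 → κ1 ≤ 1 / 10 → ∀ M : ℕ → ℝ,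
    ∃ (C : ℝ) (k0 : ℕ), ∀ k ≥ k0, ∀ ξ ∈ Bs P p Γ D κ k, ∀ (η : Dir → I) (a : ℝ → ℂ),
      Am M (Lm κ1 k) a → ∀ (q : J → Cg Γ) (e : J → Bool) (τ : J → ℝ),
      (∀ j, ln (Y0 P p Γ D k ξ) (q j) ≤ Lm (2 * κ1) k) →
      (∀ j, u * 2 ^ k ≤ τ j ∧ τ j ≤ v * 2 ^ k) → ∀ c ∈ grid P.L (bk k + 1),
      ((bk k : ℝ) + 1) ^ (-(3 / 2) : ℝ) ≤ |∑ j, sgn (e j) * (τ j / 2 ^ k) * ((q j).2.1 + 1) *
        vis (Y0 P p Γ D k ξ) (bk k + 1) c (q j).1| →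
      ‖∫ t : I, ∏ j, cj (e j) (zt (Y0 P p Γ D k ξ)
        (Y P p Γ D k (upI (mix (bk k) ξ η) (bk k, c) t)) k (Nk κ1 k) (Ra p k a) (τ j) (q j))
          ∂ν (bk k)‖ ≤ C * p.t k := by
  obtain ⟨k2, hPX⟩ := PX_cell (κ := κ) hP hκ
  obtain ⟨k1, C1, hDG⟩ := blk_DG (κ := κ) hP hκ
  obtain ⟨k3, hk31, hk32⟩ : ∃ k3 : ℕ, k1 ≤ k3 ∧ k2 ≤ k3 :=
    ⟨max k1 k2, le_max_left _ _, le_max_right _ _⟩
  obtain ⟨b, b0, hD⟩ := hDG k3 hk31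
  have hPX' : BD36.PX Γ P.m
      (fun q : Bw P Γ D κ k3 => sC P q.1.p Γ D q.1.k q.1.ξ q.1.η q.1.c q.1.w)
      (fun q => 1 / q.1.p.e q.1.k) :=
    PX_pull hPX (fun q : Bw P Γ D κ k3 => q.1.lift hk32)
  have hQ : ∀ q : Bw P Γ D κ k3, 1 ≤ 1 / q.1.p.e q.1.k := fun q =>
    (one_le_div (e_pos _ _)).2 (e_le _ q.1.ok.pos _)
  obtain ⟨C, hC1, hC⟩ := BD36.main hD hPX' hQ J (Λ1 := max v 1) (le_max_right _ _)
  obtain ⟨δ0, hδ0, hs⟩ := sizes hP C C1 (Fintype.card J) hC1 hu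
  have key : ∀ (i : Bw P Γ D κ k3) (κ1 : ℝ), 0 < κ1 → ∀ (M : ℕ → ℝ) (B V : ℝ),
      V = BD36.vv C (Nk κ1 i.1.k) (1 / i.1.p.e i.1.k) (1 / i.1.p.e i.1.k) (Lm (2 * κ1) i.1.k) →
      1 ≤ u * 2 ^ i.1.k → 0 < dw i.1.k → dw i.1.k ≤ 1 →
      V * P.c (bk i.1.k) ^ (2 / 3 : ℝ) ≤ 1 →
      V * (P.c (bk i.1.k) ^ (2 / 3 : ℝ)) ^ 2 * ((bk i.1.k : ℝ) + 1) ^ 2 ≤ P.c (bk i.1.k) →
      C * (1 + Lm (2 * κ1) i.1.k) ^ 2 * ((bk i.1.k : ℝ) + 1) ^ 3 *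
        (√(C1 * ((bk i.1.k : ℝ) + 1) ^ 2 * P.c (bk i.1.k)) + dw i.1.k) ≤ 1 →
      C * (1 + Lm (2 * κ1) i.1.k) ^ 2 ≤ √((bk i.1.k : ℝ) + 1) →
      4 * ((Mx (bk i.1.k) : ℝ) + 1) * ((V ^ (Nk κ1 i.1.k + 2) *
        (2 ^ i.1.k * (5 * |M 0|))) ^ Fintype.card J *
        (Real.exp (Mx (bk i.1.k) - 2 ^ i.1.k * P.c (bk i.1.k) *
          ((bk i.1.k : ℝ) + 1) ^ (-(3 / 2) : ℝ) / C) + (1 / 5) ^ Mx (bk i.1.k))) ≤ B →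
      ∀ a : ℝ → ℂ, Am M (Lm κ1 i.1.k) a → ∀ (q : J → Cg Γ) (e : J → Bool) (τ : J → ℝ),
      (∀ j, ln (Y0 P i.1.p Γ D i.1.k i.1.ξ) (q j) ≤ Lm (2 * κ1) i.1.k) →
      (∀ j, u * 2 ^ i.1.k ≤ τ j ∧ τ j ≤ v * 2 ^ i.1.k) →
      ((bk i.1.k : ℝ) + 1) ^ (-(3 / 2) : ℝ) ≤ |∑ j, sgn (e j) * (τ j / 2 ^ i.1.k) *
        ((q j).2.1 + 1) * vis (Y0 P i.1.p Γ D i.1.k i.1.ξ) (bk i.1.k + 1) i.1.c (q j).1| →
      ‖∫ t : I, ∏ j, cj (e j) (zt (Y0 P i.1.p Γ D i.1.k i.1.ξ)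
        (Y P i.1.p Γ D i.1.k (upI (mix (bk i.1.k) i.1.ξ i.1.η) (bk i.1.k, i.1.c) t)) i.1.k
          (Nk κ1 i.1.k) (Ra i.1.p i.1.k a) (τ j) (q j)) ∂ν (bk i.1.k)‖ ≤ B := by
    intro i κ1 hκ1 M B V hV hu1 hdw0 hdw1 hv1 hv2 hs1 hs2 hB a ha q e τ hln hτ hdet
    have hX := hD.cf.hX
    have hO := hP.ori
    have hHM : HM Γ (Y0 P i.1.p Γ D i.1.k i.1.ξ) := Y0_hm hP hκ i.1.hξ
    obtain ⟨hc0, hc1⟩ := c_pos hP (bk i.1.k)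
    have hm0 : mm P.m (sP P i.1.p Γ D i.1.k i.1.ξ i.1.η) 0 = Y0 P i.1.p Γ D i.1.k i.1.ξ :=
      path_zero hP _ _ _ _
    have hm1 : ∀ t : I, mm P.m (sC P i.1.p Γ D i.1.k i.1.ξ i.1.η i.1.c i.1.w)
        (P.c (bk i.1.k) ^ (2 / 3 : ℝ) * t) =
        Y P i.1.p Γ D i.1.k (upI (mix (bk i.1.k) i.1.ξ i.1.η) (bk i.1.k, i.1.c) t) := by
      intro t
      obtain ⟨h1, h2⟩ := DB6_third hc0 hc1 t.2.1 t.2.2
      refine cell_val hP i.1.p i.1.k i.1.ξ i.1.η i.1.hc t h1 ?_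
      rw [i.2.1]
      exact h2
    have hax : ∀ j, Axis (Y0 P i.1.p Γ D i.1.k i.1.ξ) (gel (q j))
        (ax (Y0 P i.1.p Γ D i.1.k i.1.ξ) (gpr (q j))).1
        (ax (Y0 P i.1.p Γ D i.1.k i.1.ξ) (gpr (q j))).2 (ln (Y0 P i.1.p Γ D i.1.k i.1.ξ) (q j)) ∧
        0 < lp (Y0 P i.1.p Γ D i.1.k i.1.ξ) (q j).1 ∧
        lp (Y0 P i.1.p Γ D i.1.k i.1.ξ) (q j).1 ≤ ln (Y0 P i.1.p Γ D i.1.k i.1.ξ) (q j) :=
      fun j => BE66.q_axis hX hO hHM (q j)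
    have hax' : ∀ j, Axis (mm P.m (sP P i.1.p Γ D i.1.k i.1.ξ i.1.η) 0) (gel (q j))
        (ax (Y0 P i.1.p Γ D i.1.k i.1.ξ) (gpr (q j))).1
        (ax (Y0 P i.1.p Γ D i.1.k i.1.ξ) (gpr (q j))).2
        (ln (Y0 P i.1.p Γ D i.1.k i.1.ξ) (q j)) := by
      intro j
      rw [hm0]
      exact (hax j).1
    have hM0 : 0 ≤ M 0 := Am_nonneg ha 0
    have hMa : |M 0| = M 0 := abs_of_nonneg hM0
    have he0 := e_pos i.1.p i.1.k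
    have hn0 : (0 : ℝ) < 2 ^ i.1.p.n * i.1.p.e i.1.k := by positivity
    have hH : 1 ≤ 1 / i.1.p.e i.1.k := hQ i
    have hη : 1 ≤ 1 / (2 ^ i.1.p.n * i.1.p.e i.1.k) := (one_le_div hn0).2 i.1.hξ.1
    have hL1 : 1 ≤ Lm (2 * κ1) i.1.k := Lm_one _ (by linarith) _
    have hLL : Lm κ1 i.1.k ≤ Lm (2 * κ1) i.1.k := by
      unfold Lm
      refine Real.rpow_le_rpow_of_exponent_le ?_ (by linarith)
      have : (0 : ℝ) ≤ (bk i.1.k : ℝ) := Nat.cast_nonneg _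
      linarith
    have hEA : B36.EA (Fa i.1.p i.1.k a) (Lm (2 * κ1) i.1.k) (5 * |M 0|) (1 / i.1.p.e i.1.k)
        (1 / (2 ^ i.1.p.n * i.1.p.e i.1.k)) := by
      rw [hMa]
      exact EA_mono (Fa_EA i.1.ok hκ1.le i.1.k ha) (by linarith) (by linarith) hLL
    have h2k0 : (0 : ℝ) < 2 ^ i.1.k := by positivity
    have h2k : (1 : ℝ) ≤ 2 ^ i.1.k := one_le_pow₀ (by norm_num)
    have hτ1 : ∀ j, 1 ≤ τ j := fun j => hu1.trans (hτ j).1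
    have hde : 0 < de i.1.k := Real.rpow_pos_of_pos two_pos _
    have hθ : Continuous (BE36C.thR (dw i.1.k) (de i.1.k)) := thR_cont hde
    have hθ1 : ∀ y, |BE36C.thR (dw i.1.k) (de i.1.k) y| ≤ 1 := thR_le hdw0.le hde
    have hcont := BD36.ZT_cont hD i (J := J) (Nk κ1 i.1.k) (dw i.1.k)
      (zero_le_one.trans hL1) (by positivity : (0 : ℝ) ≤ 5 * |M 0|) hH hη
      (β := fun _ => Fa i.1.p i.1.k a) e (fun j => lp (Y0 P i.1.p Γ D i.1.k i.1.ξ) (q j).1)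
      (fun _ => hEA) hτ1 hax' hθ
    have hmain := hC i (Nk κ1 i.1.k) (Mx (bk i.1.k)) (2 ^ i.1.k) (Lm (2 * κ1) i.1.k)
      (dw i.1.k) (5 * |M 0|) (1 / i.1.p.e i.1.k) (1 / (2 ^ i.1.p.n * i.1.p.e i.1.k)) V h2k hL1
      hdw0 hdw1 (by positivity) hH hη hV hv1 hv2 hs1 hs2 (fun _ => Fa i.1.p i.1.k a) τ e
      (fun j => gel (q j)) (fun j => (ax (Y0 P i.1.p Γ D i.1.k i.1.ξ) (gpr (q j))).1)
      (fun j => (ax (Y0 P i.1.p Γ D i.1.k i.1.ξ) (gpr (q j))).2)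
      (fun j => ln (Y0 P i.1.p Γ D i.1.k i.1.ξ) (q j))
      (fun j => lp (Y0 P i.1.p Γ D i.1.k i.1.ξ) (q j).1) (fun _ => hEA)
      (fun j => ⟨hτ1 j, (hτ j).2.trans (mul_le_mul_of_nonneg_right (le_max_left _ _) h2k0.le)⟩)
      hax' hln (fun j => ⟨(hax j).2.1.le, (hax j).2.2.trans (hln j)⟩) (by
        rw [hm0]
        refine hdet.trans (le_of_eq ?_)
        congr 1
        apply Finset.sum_congr rfl
        intro j _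
        have h1 := BE66.pint_vis hX hO hHM (R := bk i.1.k + 1) (by omega) i.1.c (q j)
        rw [h1]
        ring) _ hθ hθ1
    have hfin := DB6_int (hν.int (bk i.1.k)) hcont hmain
    refine le_trans (le_of_eq ?_) (hfin.trans hB)
    congr 2
    funext t
    apply Finset.prod_congr rfl
    intro j _
    rw [hm0, hm1 t, ← ZT_eq]
    rfl
  refine ⟨δ0, hδ0, fun p hp hpδ κ1 hκ1 hκ1' M => ?_⟩
  obtain ⟨C', k4, hs'⟩ := hs p hp hpδ κ1 hκ1 hκ1' (5 * |M 0|) (by positivity)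
  obtain ⟨k5, hbump⟩ := bump_err hP hp
  refine ⟨C', max k3 (max k4 k5), fun k hk ξ hξ η a ha q e τ hln hτ c hc hdet => ?_⟩
  have g3 : k3 ≤ k := (le_max_left _ _).trans hk
  have g4 : k4 ≤ k := ((le_max_left _ _).trans (le_max_right _ _)).trans hk
  have g5 : k5 ≤ k := ((le_max_right _ _).trans (le_max_right _ _)).trans hk
  obtain ⟨hu1, a1, a2, a3, a4, a5, a6, a7⟩ := hs' k g4 _ rfl
  exact key ⟨⟨⟨p, k, ξ, η, hp, g3, hξ⟩, c, P.c (bk k) ^ (1 / 3 : ℝ), hc,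
    Real.rpow_nonneg (c_pos hP _).1.le _, le_rfl⟩, rfl, hbump k g5 hξ.1 c hc⟩ κ1 hκ1 M _ _ rfl
    hu1 a1 a2 a3 a4 a5 a6 a7 a ha q e τ hln hτ hdet

end F37
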