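import Pool.Agent.LibBE37F.Defs
import Pool.Agent.LibB35.FA0
import Pool.Agent.LibB35.FA3

/-! ROW FA0 : the bounded function `thd t = 4 thc (t / 4)`, the criterion for families of class `CF` with `thd`. SHORT/MEDIUM. PLAN. `thc t = t * cut t`, `thd t = t * cut (t / 4)`.
`CF_scale`: the derivatives of `e ↦ s i (t e.1, e.2)`: composition with the linear map `L = (t •, id)` of norm `≤ 1` (`ContinuousLinearMap.norm_iteratedFDeriv_comp_right` or `ContinuousLinearMap.iteratedFDeriv_comp_right`,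
`‖..‖ ≤ ‖D^k s‖ ‖L‖^k`), `|t e.1| ≤ 1`. `CF_gen4`: `thd t * δ = thc (t / 4) * (4 δ)`: `B35.CF_gen` with `4 δ` (the curvature hypothesis at `4 t`), then `CF_scale` with `1/4`. -/

open MeasureTheory Set Filter Topology
open scoped ContDiff unitInterval

namespace F37

variable [Sq]

open BGS BR BE B35

variable {Γ : Type} [Group Γ] [MulAction Γ Pl] {D : Set Pl} {m : Pl → Co}

theorem thd_eq (t : ℝ) : thd t = 4 * thc (t / 4) := by
  unfold thd thc
  ring

theorem thd_id {t : ℝ} (ht : |t| ≤ 4) : thd t = t := by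
  unfold thd
  have h1 : cut (t / 4) = 1 := by
    apply cut.one_of_mem_closedBall
    rw [Metric.mem_closedBall, Real.dist_eq, sub_zero]
    have h2 : cut.rIn = 1 := rfl
    rw [h2, abs_div, abs_of_pos (by norm_num : (0 : ℝ) < 4), div_le_one (by norm_num)]
    exact ht
  rw [h1, mul_one]

theorem thd_le (t : ℝ) : |thd t| ≤ 8 := by
  rw [thd_eq, abs_mul, abs_of_pos (by norm_num : (0 : ℝ) < 4)]
  have := thc_le (t / 4)
  linarith

theorem thd_smooth : ContDiff ℝ ∞ thd := by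
  have h1 : thd = fun t => 4 * thc (t / 4) := funext thd_eq
  rw [h1]
  exact contDiff_const.mul (thc_smooth.comp (contDiff_id.div_const 4))

private noncomputable def FA0_L (t : ℝ) : ℝ × Pl →L[ℝ] ℝ × Pl :=
  (t • ContinuousLinearMap.fst ℝ ℝ Pl).prod (ContinuousLinearMap.snd ℝ ℝ Pl)

private theorem FA0_L_apply (t : ℝ) (e : ℝ × Pl) : FA0_L t e = (t * e.1, e.2) := rfl

private theorem FA0_L_norm {t : ℝ} (ht : |t| ≤ 1) : ‖FA0_L t‖ ≤ 1 := by
  refine ContinuousLinearMap.opNorm_le_bound _ zero_le_one fun e => ?_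
  rw [FA0_L_apply, one_mul, Prod.norm_def, Prod.norm_def]
  refine max_le_max ?_ le_rfl
  rw [norm_mul, Real.norm_eq_abs]
  exact mul_le_of_le_one_left (norm_nonneg _) ht

theorem CF_scale {ι : Type} {a b : ℝ} {s : ι → ℝ × Pl → ℝ} (h : CF Γ D m a b s) {t : ℝ}
    (ht : |t| ≤ 1) : CF Γ D m a b fun (i : ι) (e : ℝ × Pl) => s i (t * e.1, e.2) := by
  refine ⟨h.hX, h.hO, h.hm, h.a_pos, fun i => ?_, fun i p γ z => ?_, fun k => ?_,
    fun i p z => h.neg i (t * p) z⟩
  · exact (h.smooth i).comp (FA0_L t).contDiff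
  · exact h.inv i (t * p) γ z
  · obtain ⟨C, hC⟩ := h.bd k
    refine ⟨C, fun i p hp z hz => ?_⟩
    have e1 : iteratedFDeriv ℝ k (fun e : ℝ × Pl => s i (t * e.1, e.2)) (p, z) =
        (iteratedFDeriv ℝ k (s i) (FA0_L t (p, z))).compContinuousLinearMap fun _ => FA0_L t :=
      (FA0_L t).iteratedFDeriv_comp_right ((h.smooth i).of_le (by exact_mod_cast le_top)) (p, z)
        (i := k) (n := k) le_rfl
    rw [e1]
    have h1 : ‖iteratedFDeriv ℝ k (s i) (FA0_L t (p, z))‖ ≤ C := by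
      rw [FA0_L_apply]
      refine hC i (t * p) ?_ z hz
      rw [norm_mul, Real.norm_eq_abs]
      exact mul_le_one₀ ht (norm_nonneg _) hp
    refine (ContinuousMultilinearMap.norm_compContinuousLinearMap_le _ _).trans ?_
    refine le_trans (mul_le_of_le_one_right (norm_nonneg _) ?_) h1
    exact Finset.prod_le_one (fun _ _ => norm_nonneg _) fun _ _ => FA0_L_norm ht

theorem CF_sub {ι ι' : Type} {a b : ℝ} {s : ι → ℝ × Pl → ℝ} (h : CF Γ D m a b s) (f : ι' → ι) :
    CF Γ D m a b fun i : ι' => s (f i) := by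
  refine ⟨h.hX, h.hO, h.hm, h.a_pos, fun i => h.smooth (f i), fun i => h.inv (f i), fun k => ?_,
    fun i => h.neg (f i)⟩
  obtain ⟨C, hC⟩ := h.bd k
  exact ⟨C, fun i => hC (f i)⟩

theorem CF_gen4 (hX : Surface Γ D) (hO : Ori Γ) (hm : HM Γ m) {a b : ℝ} (ha : 0 < a) {ι : Type}
    {B δ : ι → Pl → ℝ} (hB : ∀ i, B i ∈ Test Γ) (hδ : ∀ i, δ i ∈ Test Γ)
    (bB : ∀ k : ℕ, ∃ C : ℝ, ∀ i, ∀ z ∈ closure D, ‖iteratedFDeriv ℝ k (B i) z‖ ≤ C)
    (bδ : ∀ k : ℕ, ∃ C : ℝ, ∀ i, ∀ z ∈ closure D, ‖iteratedFDeriv ℝ k (δ i) z‖ ≤ C)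
    (neg : ∀ (i : ι) (t : ℝ) (z : Pl),
      -b ^ 2 ≤ curv (fun w => Real.exp (nx D m (fun w => B i w + thd t * δ i w) w) • m w) z ∧
      curv (fun w => Real.exp (nx D m (fun w => B i w + thd t * δ i w) w) • m w) z ≤ -a ^ 2) :
    CF Γ D m a b fun (i : ι) (e : ℝ × Pl) =>
      nx D m (fun z => B i z + thd e.1 * δ i z) e.2 := by
  have hδ' : ∀ i, (fun z => 4 * δ i z) ∈ Test Γ := fun i =>
    ⟨contDiff_const.mul (hδ i).1, fun γ z => by
      show 4 * δ i (γ • z) = 4 * δ i z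
      rw [(hδ i).2 γ z]⟩
  have h1 := CF_gen (B := B) (δ := fun i z => 4 * δ i z) hX hO hm ha hB hδ' bB (fun k => by
      obtain ⟨C, hC⟩ := bδ k
      refine ⟨4 * C, fun i z hz => ?_⟩
      have e1 : iteratedFDeriv ℝ k (fun z => 4 * δ i z) z
          = (4 : ℝ) • iteratedFDeriv ℝ k (δ i) z :=
        iteratedFDeriv_const_smul_apply (a := (4 : ℝ)) (f := δ i)
          (((hδ i).1.of_le (by exact_mod_cast le_top)).contDiffAt)
      rw [e1, norm_smul, Real.norm_eq_abs, abs_of_pos (by norm_num : (0 : ℝ) < 4)]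
      have := hC i z hz
      linarith) (fun i t z => by
      have e1 : (fun w => B i w + thc t * (4 * δ i w)) = fun w => B i w + thd (4 * t) * δ i w := by
        funext w
        rw [thd_eq, mul_div_cancel_left₀ t (by norm_num : (4 : ℝ) ≠ 0)]
        ring
      rw [e1]
      exact neg i (4 * t) z)
  have h2 := CF_scale h1 (t := 1 / 4) (by rw [abs_of_pos (by norm_num)]; norm_num)
  have e2 : (fun (i : ι) (e : ℝ × Pl) => nx D m (fun z => B i z + thd e.1 * δ i z) e.2) =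
      fun (i : ι) (e : ℝ × Pl) =>
        nx D m (fun z => B i z + thc (1 / 4 * e.1) * (4 * δ i z)) e.2 := by
    funext i e
    congr 1
    funext z
    rw [thd_eq]
    have : e.1 / 4 = 1 / 4 * e.1 := by ring
    rw [this]
    ring
  rw [e2]
  exact h2

end F37
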