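import Pool.Agent.LibBE37F.Defs
import Pool.Agent.LibBE36M.M8b

/-! Interface: part M (helper73): the mollification. -/

open MeasureTheory Set Filter Topology
open scoped ContDiff unitInterval

namespace F37

variable [Sq]

open BGS BR B35 B36

variable {Γ : Type} [Group Γ] [MulAction Γ Pl] {D : Set Pl}

theorem Mo_test (hX : Surface Γ D) (hG : Hyp Γ) (n : ℕ) {e : ℝ} (he : 0 < e) {f : Pl → ℝ}
    (hf : f ∈ Test Γ) : Mo n e f ∈ Test Γ := B36.Mo_test hX hG he hf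

theorem Mo_add (hX : Surface Γ D) (hG : Hyp Γ) (n : ℕ) {e : ℝ} (he : 0 < e) {f g : Pl → ℝ}
    (hf : f ∈ Test Γ) (hg : g ∈ Test Γ) (t : ℝ) (z : Pl) :
    Mo n e (fun z => f z + t * g z) z = Mo n e f z + t * Mo n e g z := by
  rw [B36.Mo_add hX n he hf (v := fun z => t * g z)
    ⟨contDiff_const.mul hg.1, fun γ z => congrArg (fun s => t * s) (hg.2 γ z)⟩ z, B36.Mo_smul]

theorem Mo_sup (hX : Surface Γ D) (hG : Hyp Γ) (n : ℕ) {e : ℝ} (he : 0 < e) {f : Pl → ℝ}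
    (hf : f ∈ Test Γ) {B : ℝ} (hB : ∀ z, |f z| ≤ B) (z : Pl) : |Mo n e f z| ≤ 3 * B :=
  B36.Mo_le hX n he hf (fun z _ => hB z) z

/-- The derivatives, uniformly in the order and the width. -/
theorem Mo_bd (hX : Surface Γ D) (hG : Hyp Γ) (r : ℕ) : ∃ C : ℝ, 0 ≤ C ∧ ∀ (n : ℕ) (e : ℝ),
    0 < e → 2 ^ n * e ≤ 1 → ∀ f ∈ Test Γ, ∀ B : ℝ,
    (∀ j ≤ r, ∀ z ∈ closure D, ‖iteratedFDeriv ℝ j f z‖ ≤ B) →
    ∀ j ≤ r, ∀ z ∈ closure D, ‖iteratedFDeriv ℝ j (Mo n e f) z‖ ≤ C * B := by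
  obtain ⟨C, hC, h⟩ := B36.Mo_bd hX (hX.bdd.isCompact_closure) r
  exact ⟨C, by linarith, h⟩

/-- The error. -/
theorem Mo_err (hX : Surface Γ D) (hG : Hyp Γ) (n r : ℕ) : ∃ C : ℝ, 0 ≤ C ∧ ∀ e : ℝ,
    0 < e → 2 ^ n * e ≤ 1 → ∀ f ∈ Test Γ, ∀ B : ℝ,
    (∀ j ≤ r + 2 * n, ∀ z ∈ closure D, ‖iteratedFDeriv ℝ j f z‖ ≤ B) →
    ∀ j ≤ r, ∀ z ∈ closure D,
      ‖iteratedFDeriv ℝ j (fun z => Mo n e f z - f z) z‖ ≤ C * B * e ^ (2 * n) := by
  rcases Nat.eq_zero_or_pos n with rfl | hn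
  · refine ⟨1, by norm_num, fun e he _ f hf B hB j hj z hz => ?_⟩
    have h0 : (fun z => Mo 0 e f z - f z) = fun z => -(f z) := by
      funext z
      unfold Mo
      rw [Finset.range_zero, Finset.sum_empty, zero_sub]
    rw [h0, mul_zero, pow_zero, mul_one, one_mul]
    have h1 : iteratedFDeriv ℝ j (fun z => -(f z)) z = -iteratedFDeriv ℝ j f z :=
      iteratedFDeriv_neg_apply
    rw [h1, norm_neg]
    exact hB j (by omega) z hz
  · have h := fun k => B36.Mo_close hX (hX.bdd.isCompact_closure) k hn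
    choose C hC h using h
    refine ⟨∑ k ∈ Finset.range (r + 1), C k, Finset.sum_nonneg fun k _ => by linarith [hC k],
      fun e he he1 f hf B hB j hj z hz => ?_⟩
    have h1 := h j e he he1 f hf B (fun i hi z hz => hB i (by omega) z hz) z hz
    have hB0 : 0 ≤ B := (norm_nonneg _).trans (hB 0 (Nat.zero_le _) z hz)
    refine h1.trans ?_
    have h2 : C j ≤ ∑ k ∈ Finset.range (r + 1), C k :=
      Finset.single_le_sum (f := C) (fun k _ => by linarith [hC k])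
        (Finset.mem_range.2 (by omega))
    exact mul_le_mul_of_nonneg_right (mul_le_mul_of_nonneg_right h2 hB0) (by positivity)

end F37
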