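import Pool.Agent.LibBE37F.Defs

/-! The coefficients. -/

open MeasureTheory Set Filter Topology
open scoped ContDiff unitInterval

namespace F37

variable [Sq]

open BGS BR B35

theorem bk_strict : StrictMono bk := by
  intro a b h
  unfold bk
  have h1 : Real.exp (Sq.g a) ≤ Real.exp (Sq.g b) := Real.exp_le_exp.2 (Sq.mono h.le)
  have h2 := Nat.ceil_le_ceil h1
  omega

theorem bk_gt (k : ℕ) : k < bk k := by
  unfold bk
  have h := Nat.ceil_pos.2 (Real.exp_pos (Sq.g k))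
  omega

theorem Kc_spec (R : ℕ) : R < bk (Kc R) := by
  have h : ({n : ℕ | R < bk n}).Nonempty := ⟨R, bk_gt R⟩
  exact Nat.sInf_mem h

theorem Kc_min {R n : ℕ} (h : R < bk n) : Kc R ≤ n := Nat.sInf_le h

theorem Kc_bk (k : ℕ) : Kc (bk k) = k + 1 := by
  refine le_antisymm (Kc_min (bk_strict (Nat.lt_succ_self k))) ?_
  have h := Kc_spec (bk k)
  exact bk_strict.lt_iff_lt.1 h

theorem Kc_mono : Monotone Kc := fun _ _ h => Kc_min (h.trans_lt (Kc_spec _))

theorem Kc_tendsto : Tendsto Kc atTop atTop := by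
  refine tendsto_atTop.2 fun n => ?_
  filter_upwards [eventually_ge_atTop (bk n)] with R hR
  have h := Kc_mono hR
  rw [Kc_bk] at h
  omega

theorem cn_pos (R : ℕ) : 0 < cn R := Real.exp_pos _

private theorem N1a_lin (c A : ℝ) (hc : 0 < c) :
    ∀ᶠ k : ℕ in atTop, A * Real.log ((k : ℝ) + 2) ≤ c * k := by
  filter_upwards [Sq.big A, Sq.sub c hc] with k h1 h2
  exact h1.trans h2

private theorem N1a_lim (B : ℕ) {c : ℝ} (hc : 0 < c) : Tendsto (fun R : ℕ => ((R : ℝ) + 1) ^ B *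
    Real.exp (-(7 / 20 * (Kc R : ℝ)) * c)) atTop (𝓝 0) := by
  refine squeeze_zero' (Eventually.of_forall fun R => by positivity) ?_
    tendsto_one_div_add_atTop_nhds_zero_nat
  have hB : (0 : ℝ) < (B : ℝ) + 1 := by positivity
  have h1 : ∀ᶠ n : ℕ in atTop, ((B : ℝ) + 1) * (Sq.g n + Real.log ((n : ℝ) + 2)) ≤
      7 / 20 * n * c := by
    filter_upwards [Sq.sub (7 / 40 * c / ((B : ℝ) + 1)) (by positivity),
      N1a_lin (7 / 40 * c) ((B : ℝ) + 1) (by positivity)] with n h2 h3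
    have h4 : ((B : ℝ) + 1) * Sq.g n ≤ 7 / 40 * c * n := by
      have := mul_le_mul_of_nonneg_left h2 hB.le
      refine this.trans (le_of_eq ?_)
      field_simp
    linarith
  filter_upwards [Kc_tendsto.eventually h1] with R hR
  have hR0 : (0 : ℝ) ≤ R := Nat.cast_nonneg R
  have hR1 : (0 : ℝ) < (R : ℝ) + 1 := by linarith
  obtain ⟨n, hn⟩ : ∃ n : ℕ, n = Kc R := ⟨_, rfl⟩
  rw [← hn] at hR ⊢
  have h5 : (R : ℝ) + 1 ≤ ((n : ℝ) + 2) * Real.exp (Sq.g n) := by
    have h6 : R + 1 ≤ bk n := by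
      rw [hn]
      exact Kc_spec R
    have h7 : ((R + 1 : ℕ) : ℝ) ≤ (bk n : ℝ) := by exact_mod_cast h6
    have h8 : (bk n : ℝ) ≤ n + (Real.exp (Sq.g n) + 1) := by
      unfold bk
      push_cast
      have := (Nat.ceil_lt_add_one (Real.exp_pos (Sq.g n)).le).le
      linarith
    have h9 : 1 ≤ Real.exp (Sq.g n) := Real.one_le_exp (Sq.nonneg n)
    have h10 : (0 : ℝ) ≤ n := Nat.cast_nonneg n
    push_cast at h7
    nlinarith
  have h11 : Real.log ((R : ℝ) + 1) ≤ Sq.g n + Real.log ((n : ℝ) + 2) := by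
    have h12 : (0 : ℝ) < (n : ℝ) + 2 := by positivity
    have h13 := Real.log_le_log hR1 h5
    rw [Real.log_mul h12.ne' (Real.exp_pos _).ne', Real.log_exp] at h13
    linarith
  obtain ⟨x, hx⟩ : ∃ x : ℝ, x = Real.log ((R : ℝ) + 1) := ⟨_, rfl⟩
  rw [← hx] at h11
  have h6 : ((B : ℝ) + 1) * x ≤ 7 / 20 * n * c :=
    (mul_le_mul_of_nonneg_left h11 hB.le).trans hR
  have h7 : ((R : ℝ) + 1) ^ B = Real.exp (B * x) := by
    rw [Real.exp_nat_mul, hx, Real.exp_log hR1]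
  have h8 : Real.exp (-(7 / 20 * (n : ℝ)) * c) ≤ Real.exp (-(((B : ℝ) + 1) * x)) := by
    rw [Real.exp_le_exp]
    linarith
  calc ((R : ℝ) + 1) ^ B * Real.exp (-(7 / 20 * (n : ℝ)) * c)
      ≤ Real.exp (B * x) * Real.exp (-(((B : ℝ) + 1) * x)) := by
        rw [h7]
        exact mul_le_mul_of_nonneg_left h8 (Real.exp_pos _).le
    _ = Real.exp (-x) := by
        rw [← Real.exp_add]
        congr 1
        ring
    _ = 1 / ((R : ℝ) + 1) := by
        rw [Real.exp_neg, hx, Real.exp_log hR1, one_div]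

theorem cn_le (R : ℕ) : cn R ≤ 1 := by
  unfold cn
  rw [Real.exp_le_one_iff]
  have : (0 : ℝ) ≤ Kc R := Nat.cast_nonneg _
  linarith

theorem cn_anti : Antitone cn := by
  intro R R' hR
  unfold cn
  rw [Real.exp_le_exp, neg_le_neg_iff]
  have h1 : (Kc R : ℝ) ≤ Kc R' := by exact_mod_cast Kc_mono hR
  linarith

theorem cn_Cs {s : ℝ} (h0 : 0 < s) (h1 : s ≤ 1) : Cs fun R => s * cn R := by
  refine ⟨fun R => mul_pos h0 (cn_pos R), fun R => mul_le_one₀ h1 (cn_pos R).le (cn_le R),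
    fun R R' hR => mul_le_mul_of_nonneg_left (cn_anti hR) h0.le, fun B => ?_⟩
  refine squeeze_zero (fun R => mul_nonneg (by positivity) (mul_pos h0 (cn_pos R)).le) (fun R => ?_)
    (N1a_lim B one_pos)
  have hR0 : (0 : ℝ) ≤ R := Nat.cast_nonneg R
  have e1 : Real.exp (-(7 / 20 * (Kc R : ℝ)) * 1) = cn R := by
    rw [mul_one]
    rfl
  rw [e1]
  refine mul_le_mul (pow_le_pow_left₀ hR0 (by linarith) B) ?_ (mul_pos h0 (cn_pos R)).le
    (by positivity)
  exact mul_le_of_le_one_left (cn_pos R).le h1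

theorem cn_third (B : ℕ) : Tendsto (fun R : ℕ => ((R : ℝ) + 1) ^ B * cn R ^ (1 / 3 : ℝ)) atTop
    (𝓝 0) := by
  refine (N1a_lim B (c := 1 / 3) (by norm_num)).congr fun R => ?_
  unfold cn
  rw [← Real.exp_mul]

theorem cn_half (B : ℕ) : Tendsto (fun R : ℕ => ((R : ℝ) + 1) ^ B * √(cn R)) atTop (𝓝 0) := by
  refine (N1a_lim B (c := 1 / 2) (by norm_num)).congr fun R => ?_
  unfold cn
  rw [Real.sqrt_eq_rpow, ← Real.exp_mul]

end F37
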