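import Pool.Agent.LibBE37F.Sm
import Pool.Agent.LibBE37F.BF7
import Pool.Agent.LibB35.Fin1

/-! From the blocks to all windows. -/

open MeasureTheory Set Filter Topology Mes
open scoped ContDiff unitInterval

namespace F37

variable [Sq]

open BGS BR BE B35

variable {Γ : Type} [Group Γ] [MulAction Γ Pl] {D : Set Pl} {P : Dt} {κ : ℝ}
  {ν : ℕ → Measure I}

theorem goe_of_BLim : ∃ A : ℕ → ℝ → ℂ, (∀ j, FG33.IsAmp (A j)) ∧
    ∀ (Γ : Type) [Group Γ] [MulAction Γ Pl] (D : Set Pl), Surface Γ D → ∀ m' : Mt Γ D,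
      BLim (FG33.lam m') A → ∀ L : ℝ → ℝ, Tendsto L atTop atTop →
      (∀ κ1 : ℝ, 0 < κ1 → ∀ᶠ T in atTop, L T ≤ Lm κ1 (FB23.dk T)) →
        FG33.GOEWindows m' L := by
  obtain ⟨A, hA, hfb⟩ := FB23.from_blocks_f
  refine ⟨A, hA, ?_⟩
  intro Γ _ _ D hX m' hB L hL hLc
  have hlev : GWin.Lev (FG33.lam m') := GD.lev hX m'
  let S : ℕ → Set ℝ := fun k => {y | ∃ T : ℝ, 1 ≤ T ∧ FB23.dk T = k ∧ L T = y}
  let κf : ℕ → ℝ := fun k => sSup (S k)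
  have hbd : ∀ κ1 : ℝ, 0 < κ1 → ∀ᶠ k : ℕ in atTop, (∀ y ∈ S k, y ≤ Lm κ1 k) := by
    intro κ1 hκ1
    obtain ⟨T0, hT0⟩ := eventually_atTop.1 (hLc κ1 hκ1)
    have h2 : Tendsto (fun k : ℕ => (2 : ℝ) ^ k) atTop atTop :=
      tendsto_pow_atTop_atTop_of_one_lt (by norm_num)
    filter_upwards [h2.eventually_ge_atTop T0] with k hk
    rintro y ⟨T, hT1, hTk, rfl⟩
    have h3 : T0 ≤ T := by
      refine hk.trans ?_
      rw [← hTk]
      exact FB23.dk_le hT1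
    have h4 := hT0 T h3
    rwa [hTk] at h4
  have hne : ∀ k : ℕ, (S k).Nonempty := by
    intro k
    refine ⟨L (2 ^ k), 2 ^ k, one_le_pow₀ (by norm_num), ?_, rfl⟩
    unfold FB23.dk
    have h1 : ⌊((2 : ℝ) ^ k)⌋₊ = 2 ^ k := by
      have h2 : ((2 : ℝ) ^ k) = ((2 ^ k : ℕ) : ℝ) := by push_cast; rfl
      rw [h2, Nat.floor_natCast]
    rw [h1, Nat.log_pow (by norm_num)]
  have hBA : ∀ j, FB23.BA (FG33.lam m') κf (A j) := by
    intro j r u v hu huv ε hε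
    obtain ⟨κ1, hκ1, h1⟩ := hB j r u v hu huv
    obtain ⟨Λ, k0, h2⟩ := h1 ε hε
    obtain ⟨k1, hk1⟩ := eventually_atTop.1 (hbd κ1 hκ1)
    refine ⟨Λ, max k0 k1, fun k hk i hi hi' => ?_⟩
    refine h2 k ((le_max_left _ _).trans hk) i hi (hi'.trans ?_)
    exact csSup_le (hne k) (hk1 k ((le_max_right _ _).trans hk))
  have hLκ : ∀ᶠ T in atTop, L T ≤ κf (FB23.dk T) := by
    filter_upwards [FB23.dk_tendsto.eventually (hbd 1 one_pos), eventually_ge_atTop 1] with T h1 h2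
    exact le_csSup ⟨_, h1⟩ ⟨T, h2, rfl, rfl⟩
  exact goe_of_mom hlev hL (hfb _ κf hlev hBA L hL hLκ)

/-- All windows, almost surely. -/
theorem ae_all (hP : Ok Γ D P) (hν : Law ν) {L0 : ℝ → ℝ} (h0 : Sm L0) :
    ∀ᵐ ξ ∂Pm ν, ∀ m' : Mt Γ D, m'.1.1 = P.X Γ D ξ → ∀ L : ℝ → ℝ, Tendsto L atTop atTop →
      (∀ᶠ T in atTop, L T ≤ L0 T) → FG33.GOEWindows m' L := by
  obtain ⟨A, hA, hfb⟩ := goe_of_BLim
  filter_upwards [ae_blocks hP hν hA] with ξ hξ m' hm' L hL hLc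
  have hneg : ∀ z, curv (P.X Γ D ξ) z < 0 := by
    intro z
    rw [← hm']
    exact m'.2.neg z
  refine hfb Γ D hP.cx.hX m' (hξ hneg m' hm') L hL fun κ1 hκ1 => ?_
  filter_upwards [hLc, L_dk h0 hκ1] with T h1 h2
  exact h1.trans h2

end F37
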