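import Pool.Agent.LibBE37F.IC0
import Pool.Agent.LibBE37F.N1c
import Pool.Agent.LibBE36T.T11
import Pool.Agent.LibBE36T.T12

/-! ROW IC2 : the symbols of the cut amplitude. SHORT/MEDIUM. PLAN. `al j (cta χ F) = al j (rst F) + O(..)`: `al_ray` (T11) and `al_cut` (T12) with `M := 5 M 0`, `H = 1/e`, `h = 1/(2^n e) ≥ 1` (large `k`), `ρ = Lm κ1 k`, `N := Nk κ1 k + 2`, `χ = chi ..`; `4 H ≤ τ`. Main term `3 · 5M0/√r1 (2r+1)^j τ^(1/2-j)`, `2 r + 1 ≤ 2 R + 3 ≤ 5 R`, `R = Lm (3 κ1) k`.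
The two error terms are at most `exp (C Lm (3 κ1) k + C k) * exp (-2 * 2^(δ k))` times `M 0`-constant (`(8 (r + ρ + j + 2))^(2j+2)` with `j ≤ N`: `exp (C N k)`, `N ≤ 2 Lm (2 κ1) k`), and `τ^(1/2-j) ≥ (v 2^k)^(-N)`-like `≥ exp (-C k Lm (2 κ1) k)`: so they are `≤ τ^(1/2 - j) * (5 M 0)` for large `k` (`t_beats`).
`K = C Lm (3 κ1) k`. -/

open MeasureTheory Set Filter Topology
open scoped ContDiff unitInterval

namespace F37

variable [Sq]

open BGS BR B35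

private theorem IC2_e (p : Pr) (k : ℕ) : 1 / p.e k = (2 : ℝ) ^ (p.δ * k) := by
  rw [Pr.e, Real.rpow_neg two_pos.le, one_div, inv_inv]

/-- comparison of two exponentials -/
private theorem IC2_cmp {δ θ : ℝ} (h : δ < θ) (B : ℝ) {c : ℝ} (hc : 0 < c) : ∀ᶠ k : ℕ in atTop,
    B * (2 : ℝ) ^ (δ * k) ≤ c * (2 : ℝ) ^ (θ * k) := by
  have h1 : Tendsto (fun k : ℕ => (2 : ℝ) ^ ((θ - δ) * k)) atTop atTop := by
    have h2 : Tendsto (fun k : ℕ => Real.exp (Real.log 2 * ((θ - δ) * k))) atTop atTop := by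
      apply Real.tendsto_exp_atTop.comp
      apply Tendsto.const_mul_atTop (Real.log_pos one_lt_two)
      exact Tendsto.const_mul_atTop (sub_pos.2 h) tendsto_natCast_atTop_atTop
    refine h2.congr fun k => ?_
    rw [Real.rpow_def_of_pos two_pos]
  filter_upwards [h1.eventually_ge_atTop (B / c)] with k hk
  have h3 : (2 : ℝ) ^ (θ * k) = (2 : ℝ) ^ ((θ - δ) * k) * (2 : ℝ) ^ (δ * k) := by
    rw [← Real.rpow_add two_pos]
    congr 1
    ring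
  have h4 : B ≤ c * (2 : ℝ) ^ ((θ - δ) * k) := by
    rw [div_le_iff₀ hc] at hk
    linarith
  rw [h3, ← mul_assoc]
  exact mul_le_mul_of_nonneg_right h4 (Real.rpow_nonneg two_pos.le _)

/-- the numbers of the block -/
private theorem IC2_num {p : Pr} (hp : p.Ok) {κ1 : ℝ} (hκ1 : 0 < κ1) {u v r1 : ℝ}
    (hu : 0 < u) (huv : u < v) (hr1 : 0 < r1) : ∀ᶠ k : ℕ in atTop,
    2 ^ p.n * p.e k ≤ 1 ∧ ∀ τ : ℝ, u * 2 ^ k ≤ τ → τ ≤ v * 2 ^ k →
      1 ≤ τ ∧ 4 * (1 / p.e k) ≤ τ ∧ ∀ j : ℕ, j ≤ Nk κ1 k → ∀ r : ℝ, 0 < r →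
        r ≤ Lm (3 * κ1) k + 1 → 2 * r + 1 ≤ 5 * Lm (3 * κ1) k ∧
        3 * τ / √r1 * (8 * (r + Lm κ1 k + j + 2)) ^ (2 * j + 2) *
          Real.exp (-(τ / (4 * (1 / p.e k)))) ≤ τ ^ (1 / 2 - j : ℝ) ∧
        2 * (τ + 2 * (1 / p.e k) * ((Nk κ1 k + 2 : ℕ) : ℝ) + 16 * ((Nk κ1 k + 2 : ℕ) : ℝ)) / √r1 *
          (8 * (r + Lm κ1 k + j + 2)) ^ (2 * j + 2) *
          Real.exp (-((1 / (2 ^ p.n * p.e k)) ^ 2 / 2)) ≤ τ ^ (1 / 2 - j : ℝ) := by
  have hδ := hp.le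
  have hδ0 := hp.pos
  have hv : 0 < v := by linarith
  have hsr : 0 < √r1 := Real.sqrt_pos.2 hr1
  filter_upwards [e_small p hp.pos, IC2_cmp (δ := p.δ) (θ := 1) (by linarith) 4 hu,
    IC2_cmp (δ := 0) (θ := 1) one_pos 1 hu, IC2_cmp (δ := 1) (θ := 2) (by norm_num) v one_pos,
    k_Lm hκ1 1, Lm_sub (3 * κ1) (A := 56) (d := 1) one_pos, t_beats p hp.pos (3 * κ1) 12 1,
    IC2_cmp (δ := p.δ) (θ := 1 - p.δ) (by linarith) 4 hu,
    IC2_cmp (δ := p.δ) (θ := 2 * p.δ) (by linarith) (2 * 4 ^ p.n) one_pos,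
    IC2_cmp (δ := 0) (θ := 1) one_pos (38 / √r1) one_pos] with k g0 g1 g2 g3 g4 g5 g6 g7 g8 g9
  refine ⟨g0, ?_⟩
  intro τ hτu hτv
  obtain ⟨T, hT⟩ : ∃ T : ℝ, T = (2 : ℝ) ^ k := ⟨_, rfl⟩
  have hT' : T = (2 : ℝ) ^ (k : ℝ) := by rw [hT, Real.rpow_natCast]
  have hk0 : (0 : ℝ) ≤ k := Nat.cast_nonneg k
  have hT1 : 1 ≤ T := by
    rw [hT]
    exact one_le_pow₀ one_le_two
  have hTe : T = Real.exp (k * Real.log 2) := by
    rw [hT', Real.rpow_def_of_pos two_pos, mul_comm]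
  have hlog2 : Real.log 2 ≤ 1 := by
    have := Real.log_two_lt_d9
    linarith
  have hTk : T ≤ Real.exp k := by
    rw [hTe]
    apply Real.exp_le_exp.2
    have := mul_le_mul_of_nonneg_left hlog2 hk0
    linarith
  rw [← hT] at hτu hτv
  simp only [one_mul, zero_mul, Real.rpow_zero, mul_one, ← hT'] at g1 g2 g3 g5 g6 g9
  have hτ1 : 1 ≤ τ := g2.trans hτu
  have hτ0 : 0 < τ := by linarith
  have hT2 : (2 : ℝ) ^ (2 * k : ℝ) = T ^ 2 := by
    rw [hT', ← Real.rpow_natCast, ← Real.rpow_mul two_pos.le]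
    congr 1
    push_cast
    ring
  rw [hT2] at g3
  have hτT : τ ≤ T ^ 2 := hτv.trans g3
  obtain ⟨H, hH⟩ : ∃ H : ℝ, H = (2 : ℝ) ^ (p.δ * k) := ⟨_, rfl⟩
  have hH1 : 1 ≤ H := by
    rw [hH]
    exact Real.one_le_rpow one_le_two (mul_nonneg hδ0.le hk0)
  have hHT : H ≤ T := by
    rw [hH, hT']
    apply Real.rpow_le_rpow_of_exponent_le one_le_two
    have := mul_le_mul_of_nonneg_right (by linarith : p.δ ≤ 1) hk0
    linarith
  rw [IC2_e, ← hH]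
  rw [← hH] at g1 g7 g8
  refine ⟨hτ1, g1.trans hτu, ?_⟩
  intro j hj r hr0 hr
  obtain ⟨R, hR⟩ : ∃ R : ℝ, R = Lm (3 * κ1) k := ⟨_, rfl⟩
  rw [← hR] at hr g5 g6 ⊢
  have hL1 : 1 ≤ Lm κ1 k := Lm_one _ hκ1.le k
  have hL2 : 1 ≤ Lm (2 * κ1) k := Lm_one _ (by linarith) k
  have hRL : R = Lm (2 * κ1) k * Lm κ1 k := by
    rw [hR, ← Lm_add]
    congr 1
    ring
  have hLR : Lm κ1 k ≤ R := by
    rw [hRL]
    nlinarith
  have hLR2 : Lm (2 * κ1) k ≤ R := by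
    rw [hRL]
    nlinarith
  have hR1 : 1 ≤ R := by linarith
  have hN := (Nk_le hκ1.le k).2.2
  have hN1 : ((Nk κ1 k : ℝ) + 1) * k ≤ 3 * R := by
    have h5 : (k : ℝ) ≤ Lm κ1 k := by linarith
    calc ((Nk κ1 k : ℝ) + 1) * k ≤ (3 * Lm (2 * κ1) k) * Lm κ1 k :=
          mul_le_mul (by linarith) h5 hk0 (by linarith)
      _ = 3 * R := by rw [hRL]; ring
  have hjN : (j : ℝ) ≤ Nk κ1 k := by exact_mod_cast hj
  have hj0 : (0 : ℝ) ≤ j := Nat.cast_nonneg j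
  have hjk : ((j : ℝ) + 1) * k ≤ 3 * R :=
    (mul_le_mul_of_nonneg_right (by linarith) hk0).trans hN1
  refine ⟨by linarith, ?_⟩
  -- the base
  have hb : 8 * (r + Lm κ1 k + j + 2) ≤ T := by linarith
  have hb0 : 0 ≤ 8 * (r + Lm κ1 k + j + 2) := by linarith
  have hpow : (8 * (r + Lm κ1 k + j + 2)) ^ (2 * j + 2) ≤ Real.exp (2 * ((j + 1) * k)) := by
    calc (8 * (r + Lm κ1 k + j + 2)) ^ (2 * j + 2) ≤ (Real.exp k) ^ (2 * j + 2) :=
          pow_le_pow_left₀ hb0 (hb.trans hTk) _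
      _ = Real.exp (2 * ((j + 1) * k)) := by
          rw [← Real.exp_nat_mul]
          congr 1
          push_cast
          ring
  have hlow : Real.exp (-(2 * ((j + 1) * k))) ≤ τ ^ (1 / 2 - j : ℝ) := by
    have h1 : τ ^ (1 / 2 - j : ℝ) = τ ^ (1 / 2 : ℝ) / τ ^ j := by
      rw [Real.rpow_sub hτ0, Real.rpow_natCast]
    have h2 : 1 ≤ τ ^ (1 / 2 : ℝ) := Real.one_le_rpow hτ1 (by norm_num)
    have h3 : τ ^ j ≤ Real.exp (2 * ((j + 1) * k)) := by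
      calc τ ^ j ≤ τ ^ (j + 1) := pow_le_pow_right₀ hτ1 (by omega)
        _ ≤ ((Real.exp k) ^ 2) ^ (j + 1) := by
            apply pow_le_pow_left₀ hτ0.le
            exact hτT.trans (pow_le_pow_left₀ (by linarith) hTk 2)
        _ = Real.exp (2 * ((j + 1) * k)) := by
            rw [← pow_mul, ← Real.exp_nat_mul]
            congr 1
            push_cast
            ring
    rw [h1, Real.exp_neg, ← one_div]
    exact div_le_div₀ (by positivity) h2 (by positivity) h3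
  have ht0 : 0 < p.t k := Real.exp_pos _
  have hfin : 38 / √r1 * T ^ 2 * Real.exp (2 * ((j + 1) * k)) * p.t k ≤
      Real.exp (-(2 * ((j + 1) * k))) := by
    have h1 : Real.exp (4 * ((j + 1) * k)) * T ^ 2 ≤ Real.exp (12 * R + 12 * k) := by
      calc Real.exp (4 * ((j + 1) * k)) * T ^ 2 ≤ Real.exp (4 * ((j + 1) * k)) * (Real.exp k) ^ 2 :=
            mul_le_mul_of_nonneg_left (pow_le_pow_left₀ (by linarith) hTk 2) (Real.exp_pos _).le
        _ = Real.exp (4 * ((j + 1) * k) + 2 * k) := by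
            rw [← Real.exp_nat_mul, ← Real.exp_add]
            congr 1
        _ ≤ _ := by
            apply Real.exp_le_exp.2
            linarith
    have h2 : Real.exp (12 * R + 12 * k) * p.t k ≤ 1 / T := by
      refine g6.trans (le_of_eq ?_)
      rw [Real.rpow_neg two_pos.le, ← hT', one_div]
    have h3 : Real.exp (2 * ((j + 1) * k)) = Real.exp (4 * ((j + 1) * k)) *
        Real.exp (-(2 * ((j + 1) * k))) := by
      rw [← Real.exp_add]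
      congr 1
      ring
    calc 38 / √r1 * T ^ 2 * Real.exp (2 * ((j + 1) * k)) * p.t k
        = (38 / √r1) * ((Real.exp (4 * ((j + 1) * k)) * T ^ 2) * p.t k) *
          Real.exp (-(2 * ((j + 1) * k))) := by
          rw [h3]
          ring
      _ ≤ T * (1 / T) * Real.exp (-(2 * ((j + 1) * k))) := by
          apply mul_le_mul_of_nonneg_right _ (Real.exp_pos _).le
          apply mul_le_mul g9 _ (by positivity) (by linarith)
          exact (mul_le_mul_of_nonneg_right h1 ht0.le).trans h2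
      _ = Real.exp (-(2 * ((j + 1) * k))) := by
          have : T ≠ 0 := by linarith
          field_simp
  constructor
  · refine le_trans ?_ (hfin.trans hlow)
    have h1 : Real.exp (-(τ / (4 * H))) ≤ p.t k := by
      rw [Pr.t, ← hH]
      apply Real.exp_le_exp.2
      apply neg_le_neg
      rw [le_div_iff₀ (by positivity)]
      have h2 : (2 : ℝ) ^ ((1 - p.δ) * k) * H = T := by
        rw [hH, hT', ← Real.rpow_add two_pos]
        congr 1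
        ring
      calc H * (4 * H) = (4 * H) * H := by ring
        _ ≤ (u * (2 : ℝ) ^ ((1 - p.δ) * k)) * H := mul_le_mul_of_nonneg_right g7 (by linarith)
        _ = u * T := by rw [mul_assoc, h2]
        _ ≤ τ := hτu
    have h2 : 3 * τ / √r1 ≤ 38 / √r1 * T ^ 2 := by
      rw [div_mul_eq_mul_div]
      apply div_le_div_of_nonneg_right _ hsr.le
      nlinarith
    calc 3 * τ / √r1 * (8 * (r + Lm κ1 k + j + 2)) ^ (2 * j + 2) * Real.exp (-(τ / (4 * H)))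
        ≤ (38 / √r1 * T ^ 2) * Real.exp (2 * ((j + 1) * k)) * p.t k := by
          apply mul_le_mul _ h1 (Real.exp_pos _).le (by positivity)
          exact mul_le_mul h2 hpow (by positivity) (by positivity)
      _ = _ := by ring
  · refine le_trans ?_ (hfin.trans hlow)
    have h1 : Real.exp (-((1 / (2 ^ p.n * p.e k)) ^ 2 / 2)) ≤ p.t k := by
      rw [Pr.t, ← hH]
      apply Real.exp_le_exp.2
      apply neg_le_neg
      have h3 : (1 / (2 ^ p.n * p.e k)) = H / 2 ^ p.n := by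
        rw [hH, ← IC2_e]
        have := (e_pos p k).ne'
        field_simp
      have h4 : (2 : ℝ) ^ (2 * p.δ * k) = H ^ 2 := by
        rw [hH, ← Real.rpow_natCast, ← Real.rpow_mul two_pos.le]
        congr 1
        push_cast
        ring
      rw [h4, one_mul] at g8
      have h5 : ((2 : ℝ) ^ p.n) ^ 2 = 4 ^ p.n := by
        rw [← pow_mul, mul_comm, pow_mul]
        norm_num
      rw [h3, div_pow, h5, div_div, le_div_iff₀ (by positivity)]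
      calc H * (4 ^ p.n * 2) = 2 * 4 ^ p.n * H := by ring
        _ ≤ H ^ 2 := g8
    have hNT : ((Nk κ1 k + 2 : ℕ) : ℝ) ≤ T := by
      push_cast
      linarith
    have hN0 : (0 : ℝ) ≤ ((Nk κ1 k + 2 : ℕ) : ℝ) := Nat.cast_nonneg _
    have h2 : 2 * (τ + 2 * H * ((Nk κ1 k + 2 : ℕ) : ℝ) + 16 * ((Nk κ1 k + 2 : ℕ) : ℝ)) / √r1 ≤
        38 / √r1 * T ^ 2 := by
      rw [div_mul_eq_mul_div]
      apply div_le_div_of_nonneg_right _ hsr.le
      have h3 : H * ((Nk κ1 k + 2 : ℕ) : ℝ) ≤ T * T :=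
        mul_le_mul hHT hNT hN0 (by linarith)
      have h4 : T ≤ T * T := by nlinarith
      nlinarith
    calc 2 * (τ + 2 * H * ((Nk κ1 k + 2 : ℕ) : ℝ) + 16 * ((Nk κ1 k + 2 : ℕ) : ℝ)) / √r1 *
          (8 * (r + Lm κ1 k + j + 2)) ^ (2 * j + 2) *
          Real.exp (-((1 / (2 ^ p.n * p.e k)) ^ 2 / 2))
        ≤ (38 / √r1 * T ^ 2) * Real.exp (2 * ((j + 1) * k)) * p.t k := by
          apply mul_le_mul _ h1 (Real.exp_pos _).le (by positivity)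
          exact mul_le_mul h2 hpow (by positivity) (by positivity)
      _ = _ := by ring

theorem al_block {p : Pr} (hp : p.Ok) {κ1 : ℝ} (hκ1 : 0 < κ1) (M : ℕ → ℝ) {u v r1 : ℝ}
    (hu : 0 < u) (huv : u < v) (hr1 : 0 < r1) (hr1' : r1 ≤ 1) : ∃ (C : ℝ) (k0 : ℕ), 1 ≤ C ∧
    ∀ k ≥ k0, ∀ a : ℝ → ℂ, Am M (Lm κ1 k) a → ∀ τ : ℝ, u * 2 ^ k ≤ τ → τ ≤ v * 2 ^ k →
      ∀ j, j ≤ Nk κ1 k → ∀ r, r1 ≤ r → r ≤ Lm (3 * κ1) k + 1 →
        ‖al j (Ga p κ1 k a) τ r‖ ≤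
          (C * Lm (3 * κ1) k) ^ (j + 1) * (5 * M 0) * τ ^ (1 / 2 - j : ℝ) := by
  have hsr : 0 < √r1 := Real.sqrt_pos.2 hr1
  obtain ⟨k0, hk0⟩ := Filter.eventually_atTop.1 (IC2_num hp hκ1 hu huv hr1)
  refine ⟨7 + 3 / √r1, k0, by
    have : 0 ≤ 3 / √r1 := by positivity
    linarith, ?_⟩
  intro k hk a ha τ hτu hτv j hj r hr hrR
  obtain ⟨g0, g1⟩ := hk0 k hk
  obtain ⟨hτ1, hτH, g2⟩ := g1 τ hτu hτv
  obtain ⟨g3, g4, g5⟩ := g2 j hj r (by linarith) hrR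
  have he := e_pos p k
  have hH1 : 1 ≤ 1 / p.e k := by
    rw [le_div_iff₀ he, one_mul]
    exact e_le p hp.pos k
  have hh1 : 1 ≤ 1 / (2 ^ p.n * p.e k) := by
    rw [le_div_iff₀ (by positivity), one_mul]
    exact g0
  have hρ : 0 ≤ Lm κ1 k := by linarith [Lm_one κ1 hκ1.le k]
  have hEA := Fa_EA hp hκ1.le k ha
  have hχ := chi_spec (N := Nk κ1 k + 2) (by omega) (ρ := Lm κ1 k + 2) (by linarith)
  have a1 := B36.al_ray hEA hρ hH1 hh1 hr1 hr1' hτH j hr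
  have a2 := B36.al_cut hEA hρ hH1 hh1 hr1 hr1' hτ1 (N := Nk κ1 k + 2) (by omega) hχ j hr
  have hM := Am_nonneg ha 0
  have hR1 : 1 ≤ Lm (3 * κ1) k := Lm_one _ (by linarith) k
  have hτ0 : 0 < τ := by linarith
  obtain ⟨W, hW⟩ : ∃ W : ℝ, W = τ ^ (1 / 2 - j : ℝ) := ⟨_, rfl⟩
  have hW0 : 0 < W := by rw [hW]; exact Real.rpow_pos_of_pos hτ0 _
  rw [← hW] at a1 g4 g5 ⊢
  have e1 : ‖al j (Ga p κ1 k a) τ r‖ ≤ ‖al j (B36.rst (Fa p k a)) τ r‖ +
      ‖al j (B36.cta (chi (Nk κ1 k + 2) (Lm κ1 k + 2)) (Fa p k a)) τ r -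
        al j (B36.rst (Fa p k a)) τ r‖ := by
    have h1 : al j (Ga p κ1 k a) τ r = al j (B36.rst (Fa p k a)) τ r +
      (al j (B36.cta (chi (Nk κ1 k + 2) (Lm κ1 k + 2)) (Fa p k a)) τ r -
        al j (B36.rst (Fa p k a)) τ r) := by
      show al j (B36.cta (chi (Nk κ1 k + 2) (Lm κ1 k + 2)) (Fa p k a)) τ r = _
      ring
    rw [h1]
    exact norm_add_le _ _
  have b1 : 3 * (5 * M 0) / √r1 * (2 * r + 1) ^ j * W ≤
      (3 / √r1) * (5 * Lm (3 * κ1) k) ^ j * (5 * M 0) * W := by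
    have h1 : (2 * r + 1) ^ j ≤ (5 * Lm (3 * κ1) k) ^ j :=
      pow_le_pow_left₀ (by linarith) g3 j
    calc 3 * (5 * M 0) / √r1 * (2 * r + 1) ^ j * W
        = (3 / √r1) * (2 * r + 1) ^ j * (5 * M 0) * W := by ring
      _ ≤ _ := by
        apply mul_le_mul_of_nonneg_right _ hW0.le
        apply mul_le_mul_of_nonneg_right _ (by linarith)
        exact mul_le_mul_of_nonneg_left h1 (by positivity)
  have b2 : 3 * (5 * M 0) * τ / √r1 * (8 * (r + Lm κ1 k + j + 2)) ^ (2 * j + 2) *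
      Real.exp (-(τ / (4 * (1 / p.e k)))) ≤ (5 * M 0) * W := by
    calc _ = (5 * M 0) * (3 * τ / √r1 * (8 * (r + Lm κ1 k + j + 2)) ^ (2 * j + 2) *
          Real.exp (-(τ / (4 * (1 / p.e k))))) := by ring
      _ ≤ _ := mul_le_mul_of_nonneg_left g4 (by linarith)
  have b3 : 2 * (5 * M 0) * (τ + 2 * (1 / p.e k) * ((Nk κ1 k + 2 : ℕ) : ℝ) +
      16 * ((Nk κ1 k + 2 : ℕ) : ℝ)) / √r1 *
          (8 * (r + Lm κ1 k + j + 2)) ^ (2 * j + 2) *
          Real.exp (-((1 / (2 ^ p.n * p.e k)) ^ 2 / 2)) ≤ (5 * M 0) * W := by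
    calc _ = (5 * M 0) * (2 * (τ + 2 * (1 / p.e k) * ((Nk κ1 k + 2 : ℕ) : ℝ) +
          16 * ((Nk κ1 k + 2 : ℕ) : ℝ)) / √r1 *
          (8 * (r + Lm κ1 k + j + 2)) ^ (2 * j + 2) *
          Real.exp (-((1 / (2 ^ p.n * p.e k)) ^ 2 / 2))) := by ring
      _ ≤ _ := mul_le_mul_of_nonneg_left g5 (by linarith)
  have b4 : (3 / √r1) * (5 * Lm (3 * κ1) k) ^ j + 2 ≤
      ((7 + 3 / √r1) * Lm (3 * κ1) k) ^ (j + 1) := by
    have h0 : 0 ≤ 3 / √r1 := by positivity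
    have h1 : (1 : ℝ) ≤ (5 * Lm (3 * κ1) k) ^ j := one_le_pow₀ (by linarith)
    have h2 : (5 * Lm (3 * κ1) k) ^ j ≤ ((7 + 3 / √r1) * Lm (3 * κ1) k) ^ j := by
      apply pow_le_pow_left₀ (by linarith)
      exact mul_le_mul_of_nonneg_right (by linarith) (by linarith)
    have h3 : 2 + 3 / √r1 ≤ (7 + 3 / √r1) * Lm (3 * κ1) k := by nlinarith
    calc (3 / √r1) * (5 * Lm (3 * κ1) k) ^ j + 2
        ≤ (2 + 3 / √r1) * (5 * Lm (3 * κ1) k) ^ j := by nlinarith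
      _ ≤ ((7 + 3 / √r1) * Lm (3 * κ1) k) * ((7 + 3 / √r1) * Lm (3 * κ1) k) ^ j :=
          mul_le_mul h3 h2 (by linarith) (by linarith)
      _ = _ := by rw [pow_succ]; ring
  calc ‖al j (Ga p κ1 k a) τ r‖ ≤ (3 / √r1) * (5 * Lm (3 * κ1) k) ^ j * (5 * M 0) * W +
        (5 * M 0) * W + (5 * M 0) * W := by linarith
    _ = ((3 / √r1) * (5 * Lm (3 * κ1) k) ^ j + 2) * ((5 * M 0) * W) := by ring
    _ ≤ ((7 + 3 / √r1) * Lm (3 * κ1) k) ^ (j + 1) * ((5 * M 0) * W) :=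
        mul_le_mul_of_nonneg_right b4 (mul_nonneg (by linarith) hW0.le)
    _ = _ := by ring

end F37
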