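import Pool.Agent.LibBE37F.IC1
import Pool.Agent.LibBE37F.IC2
import Pool.Agent.LibBE37F.IFH
import Pool.Agent.LibBE37F.GQ2a
import Pool.Agent.LibBE37F.IFE
import Pool.Agent.LibBE36.GE2
import Pool.Agent.LibBE36C.N4
import Pool.Agent.LibB35.GQ1a

/-! ROW IFC2 : part C2 in the blocks. MEDIUM. PLAN. As IFC1 (read its header), with `lead_two` (LibBE36C/N4): constants `A`, `r1`; `δ0 = 1/(20 (A + 1))`; `R = Lm (3 κ1) k`, `N = Nk κ1 k`, `K = C Lm (3 κ1) k` from `al_block`; `l = ln Y0 q ≤ Lm (2 κ1) k ≤ R`,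
`l1 = ln (Y mix) q ≤ 2 Lm (2 κ1) k ≤ R` (`ln_cmp`, `Lm_lt`). `Cls` for `Y (mix)` from `cls_q` (`Y_hm`, `block_neg`), the same `g = gel q`, `g0 = g1 = gpr q`; `l0 = lp Y0 q.1 ≤ l`, `l01 = lp (Y mix) q.1 ≤ l1`, `l0 + l01 ≤ Lm (3κ1) k`. Conditions: `XN^A K ≤ τ/2`, `1 ≤ e^12 τ^(3/2)` (`2^(-6k/5) (u 2^k)^(3/2)`),
`dw_le`, `2 ≤ N`. Conclusion: `XN^A (M' + K^4 5M0)/√τ ≤ (2^k)^(-1/4)`: `1/15 + 1/8 - 1/2 < -1/4`, `K^4` is less than every power (`Lm_pow`, `Lm_sub`). `TN_le` with `M' := 5 M 0 + M'`. `mz m b τ q = wg m q * b (ln) * exp (..)`, `wg = lp/√(trg - 2)`, `trM = trg` (`cls_q`).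
`Ra` against `Ga` at `l1`: `Ga_Ra`; `10 M 0 exp (-(1/(2^n e))^2) wg ≤ C p.t k` (`wg (Y mix) ≤ 2 C` by `wts`, `ln_cmp`; or bound `wg ≤ l01/√(tr - 2)` by the growth; `qd_big`). -/

open MeasureTheory Set Filter Topology
open scoped ContDiff unitInterval

namespace F37

variable [Sq]

open BGS BR BE B35
open Pool.BGR (upI)

variable {Γ : Type} [Group Γ] [MulAction Γ Pl] {D : Set Pl} {P : Dt} {κ : ℝ}

theorem IFC2_pow (k : ℕ) (d : ℝ) : ((2 : ℝ) ^ k) ^ d = (2 : ℝ) ^ (d * k) := by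
  rw [← Real.rpow_natCast 2 k, ← Real.rpow_mul two_pos.le, mul_comm]

theorem IFC2_Lm (κ c : ℝ) {d : ℝ} (hd : 0 < d) : ∀ᶠ k : ℕ in atTop,
    c * Lm κ k ≤ ((2 : ℝ) ^ k) ^ d := by
  filter_upwards [Lm_sub κ (A := c) hd] with k hk
  rw [IFC2_pow]
  exact hk

theorem IFC2_Lm0 (k : ℕ) : Lm 0 k = 1 := Real.rpow_zero _

theorem IFC2_big (c : ℝ) {d : ℝ} (hd : 0 < d) : ∀ᶠ k : ℕ in atTop, c ≤ ((2 : ℝ) ^ k) ^ d := by
  filter_upwards [IFC2_Lm 0 c hd] with k hk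
  rwa [IFC2_Lm0, mul_one] at hk

theorem IFC2_T (k : ℕ) : (1 : ℝ) ≤ (2 : ℝ) ^ k := one_le_pow₀ one_le_two

/-- The numbers, for one `T`. -/
theorem IFC2_num {T u τ X K K4 M' c : ℝ} (hT : 1 ≤ T) (hu : 0 < u) (hτ : u * T ≤ τ) (hX0 : 0 ≤ X)
    (hX : X ≤ T ^ (1 / 15 : ℝ)) (hK0 : 0 ≤ K) (hK : K ≤ T ^ (1 / 15 : ℝ))
    (hK4 : K4 ≤ T ^ (1 / 8 : ℝ)) (hM : M' ≤ T ^ (1 / 8 : ℝ))
    (hc0 : 0 ≤ c) (hc : c ≤ T ^ (-(2 / 5) : ℝ))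
    (h1 : 2 / u ≤ T ^ (13 / 15 : ℝ)) (h2 : u ^ (-(3 / 2) : ℝ) ≤ T ^ (3 / 10 : ℝ))
    (h3 : 2 / √u ≤ T ^ (7 / 120 : ℝ)) (h4 : 1 / u ≤ T ^ (1 : ℝ)) :
    1 ≤ τ ∧ X * K ≤ τ / 2 ∧ 1 ≤ (T ^ (-(1 / 10) : ℝ)) ^ 12 * τ ^ (3 / 2 : ℝ) ∧
      X * √c ≤ T ^ (-(1 / 20) : ℝ) ∧ X * ((M' + K4) / √τ) ≤ T ^ (-(1 / 4) : ℝ) := by
  have hT0 : 0 < T := by linarith
  have huT : 0 < u * T := mul_pos hu hT0
  refine ⟨?_, ?_, ?_, ?_, ?_⟩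
  · rw [Real.rpow_one, div_le_iff₀ hu] at h4
    linarith
  · have e1 : X * K ≤ T ^ (1 / 15 : ℝ) * T ^ (1 / 15 : ℝ) := mul_le_mul hX hK hK0 (by positivity)
    rw [← Real.rpow_add hT0] at e1
    have e2 : T ^ (1 / 15 + 1 / 15 : ℝ) * T ^ (13 / 15 : ℝ) = T := by
      rw [← Real.rpow_add hT0]
      norm_num
    have e3 : T ^ (1 / 15 + 1 / 15 : ℝ) * (2 / u) ≤ T := by
      calc _ ≤ T ^ (1 / 15 + 1 / 15 : ℝ) * T ^ (13 / 15 : ℝ) :=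
            mul_le_mul_of_nonneg_left h1 (by positivity)
        _ = T := e2
    have e4 : T ^ (1 / 15 + 1 / 15 : ℝ) * 2 ≤ u * T := by
      rw [← mul_div_assoc, div_le_iff₀ hu] at e3
      linarith
    linarith
  · have e1 : (T ^ (-(1 / 10) : ℝ)) ^ 12 = T ^ (-(6 / 5) : ℝ) := by
      rw [← Real.rpow_natCast, ← Real.rpow_mul hT0.le]
      norm_num
    have e2 : (u * T) ^ (3 / 2 : ℝ) ≤ τ ^ (3 / 2 : ℝ) :=
      Real.rpow_le_rpow huT.le hτ (by norm_num)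
    rw [Real.mul_rpow hu.le hT0.le] at e2
    have e3 : u ^ (-(3 / 2) : ℝ) * u ^ (3 / 2 : ℝ) = 1 := by
      rw [← Real.rpow_add hu]
      norm_num
    have e4 : T ^ (-(6 / 5) : ℝ) * T ^ (3 / 2 : ℝ) = T ^ (3 / 10 : ℝ) := by
      rw [← Real.rpow_add hT0]
      norm_num
    rw [e1]
    calc (1 : ℝ) = u ^ (-(3 / 2) : ℝ) * u ^ (3 / 2 : ℝ) := e3.symm
      _ ≤ T ^ (3 / 10 : ℝ) * u ^ (3 / 2 : ℝ) := mul_le_mul_of_nonneg_right h2 (by positivity)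
      _ = T ^ (-(6 / 5) : ℝ) * (u ^ (3 / 2 : ℝ) * T ^ (3 / 2 : ℝ)) := by
          rw [← e4]
          ring
      _ ≤ _ := mul_le_mul_of_nonneg_left e2 (by positivity)
  · have e1 : √c ≤ T ^ (-(1 / 5) : ℝ) := by
      rw [Real.sqrt_le_left (by positivity), ← Real.rpow_natCast, ← Real.rpow_mul hT0.le]
      refine hc.trans_eq ?_
      norm_num
    calc X * √c ≤ T ^ (1 / 15 : ℝ) * T ^ (-(1 / 5) : ℝ) :=
          mul_le_mul hX e1 (Real.sqrt_nonneg _) (by positivity)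
      _ = T ^ (1 / 15 + -(1 / 5) : ℝ) := (Real.rpow_add hT0 _ _).symm
      _ ≤ _ := Real.rpow_le_rpow_of_exponent_le hT (by norm_num)
  · have hs : 0 < √u := Real.sqrt_pos.2 hu
    have e0 : √u * T ^ (1 / 2 : ℝ) ≤ √τ := by
      rw [← Real.sqrt_eq_rpow, ← Real.sqrt_mul hu.le]
      exact Real.sqrt_le_sqrt hτ
    have e00 : 0 < √u * T ^ (1 / 2 : ℝ) := by positivity
    have e1 : (M' + K4) / √τ ≤ 2 * T ^ (1 / 8 : ℝ) / (√u * T ^ (1 / 2 : ℝ)) := by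
      have : (M' + K4) / √τ ≤ 2 * T ^ (1 / 8 : ℝ) / √τ :=
        div_le_div_of_nonneg_right (by linarith) (Real.sqrt_nonneg _)
      exact this.trans (div_le_div_of_nonneg_left (by positivity) e00 e0)
    have e2 : X * ((M' + K4) / √τ) ≤
        T ^ (1 / 15 : ℝ) * (2 * T ^ (1 / 8 : ℝ) / (√u * T ^ (1 / 2 : ℝ))) := by
      calc X * ((M' + K4) / √τ) ≤ X * (2 * T ^ (1 / 8 : ℝ) / (√u * T ^ (1 / 2 : ℝ))) :=
            mul_le_mul_of_nonneg_left e1 hX0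
        _ ≤ _ := mul_le_mul_of_nonneg_right hX (by positivity)
    have e3 : T ^ (1 / 15 : ℝ) * (2 * T ^ (1 / 8 : ℝ) / (√u * T ^ (1 / 2 : ℝ))) =
        2 / √u * T ^ (-(37 / 120) : ℝ) := by
      have e4 : T ^ (1 / 15 : ℝ) * T ^ (1 / 8 : ℝ) = T ^ (-(37 / 120) : ℝ) * T ^ (1 / 2 : ℝ) := by
        rw [← Real.rpow_add hT0, ← Real.rpow_add hT0]
        norm_num
      have e5 : T ^ (1 / 2 : ℝ) ≠ 0 := by positivity
      field_simp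
      linear_combination e4
    have e6 : T ^ (7 / 120 : ℝ) * T ^ (-(37 / 120) : ℝ) = T ^ (-(1 / 4) : ℝ) := by
      rw [← Real.rpow_add hT0]
      norm_num
    calc X * ((M' + K4) / √τ) ≤ 2 / √u * T ^ (-(37 / 120) : ℝ) := e2.trans_eq e3
      _ ≤ T ^ (7 / 120 : ℝ) * T ^ (-(37 / 120) : ℝ) :=
          mul_le_mul_of_nonneg_right h3 (by positivity)
      _ = _ := e6

theorem IFC2_TN {A N : ℕ} {Q R M κ τ δ e q : ℝ} (hQ : 0 ≤ Q) (hR : 0 ≤ R) (hM : 0 ≤ M)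
    (hκ : 0 ≤ κ) (hτ : 0 ≤ τ) : 0 ≤ BE36C.TN A N Q R M κ τ δ e q := by
  unfold BE36C.TN BE36C.XN
  positivity

/-- Part C2: the leading term. -/
theorem C2B (hP : Ok Γ D P) (hκ : 0 < κ) {u v : ℝ} (hu : 0 < u) (huv : u < v) :
    ∃ δ0 : ℝ, 0 < δ0 ∧ ∀ p : Pr, p.Ok → p.δ ≤ δ0 → ∀ κ1 : ℝ, 0 < κ1 → ∀ M : ℕ → ℝ,
    ∃ (C : ℝ) (k0 : ℕ), ∀ k ≥ k0, ∀ ξ ∈ Bs P p Γ D κ k, ∀ (η : Dir → I) (a : ℝ → ℂ),
      Am M (Lm κ1 k) a → ∀ τ : ℝ, u * 2 ^ k ≤ τ → τ ≤ v * 2 ^ k → ∀ q : Cg Γ,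
      ln (Y0 P p Γ D k ξ) q ≤ Lm (2 * κ1) k →
      ‖zt (Y0 P p Γ D k ξ) (Y P p Γ D k (mix (bk k) ξ η)) k (Nk κ1 k) (Ra p k a) τ q -
        mz (Y P p Γ D k (mix (bk k) ξ η)) (Ra p k a) τ q‖ ≤
        (2 ^ k : ℝ) ^ (-(1 / 4) : ℝ) * wg (Y P p Γ D k (mix (bk k) ξ η)) q + C * p.t k := by
  obtain ⟨k0, b, hCH⟩ := CH_path hP hκ
  obtain ⟨A, r1, hA1, hr0, hr1, hlead⟩ := BE36C.lead_two hCH.cf hCH.gi
  obtain ⟨k1, hneg⟩ := block_neg hP hκ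
  have hA0 : (0 : ℝ) < (A : ℝ) + 1 := by positivity
  refine ⟨1 / (20 * ((A : ℝ) + 1)), by positivity, fun p hp hδ κ1 hκ1 M => ?_⟩
  have hAδ : (A : ℝ) * p.δ ≤ 1 / 20 := by
    have h1 : ((A : ℝ) + 1) * p.δ ≤ 1 / 20 := by
      calc ((A : ℝ) + 1) * p.δ ≤ ((A : ℝ) + 1) * (1 / (20 * ((A : ℝ) + 1))) :=
            mul_le_mul_of_nonneg_left hδ hA0.le
        _ = 1 / 20 := by
            field_simp
    have h2 := hp.pos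
    nlinarith
  obtain ⟨Ca, k2, hCa, hal⟩ := al_block hp hκ1 M hu huv hr0 hr1
  obtain ⟨k3, hAH⟩ := AH_block hp hκ1 M
  obtain ⟨k4, hcmp⟩ := ln_cmp hP hκ hκ1
  obtain ⟨Cw, k5, hCw, hw⟩ := wts hP hκ hp
  obtain ⟨s, hs0, hs1, hc⟩ := hP.c
  have hX := hP.cx.hX
  obtain ⟨k6, hk6⟩ := eventually_atTop.1 ((XN_le A hp hAδ hκ1).and
    ((TN_le A hA1 hp hAδ hκ1 hu huv (|5 * M 0| + 1)).and (DH_block.and ((dw_le A hκ1).and
    ((cn_bk hs0 hs1).and ((IFC2_Lm (3 * κ1) Ca (d := 1 / 15) (by norm_num)).and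
    ((IFC2_Lm (3 * κ1 * 4) (Ca ^ 4 * |5 * M 0|) (d := 1 / 8) (by norm_num)).and
    ((IFC2_big (2 / u) (d := 13 / 15) (by norm_num)).and
    ((IFC2_big (u ^ (-(3 / 2) : ℝ)) (d := 3 / 10) (by norm_num)).and
    ((IFC2_big (2 / √u) (d := 7 / 120) (by norm_num)).and
    ((IFC2_big (1 / u) (d := 1) (by norm_num)).and
    ((Lm_lt (κ := 2 * κ1) (κ' := 3 * κ1) (by linarith) 3).and
    ((Lm_lt (κ := 0) (κ' := 2 * κ1) (by linarith) 2).and (qd_big hp 1))))))))))))))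
  refine ⟨1 + 20 * Cw * |M 0|, k0 + k1 + k2 + k3 + k4 + k5 + k6,
    fun k hk ξ hξ η a ha τ hτ1 hτ2 q hq => ?_⟩
  obtain ⟨hXN, hTN, hDH, hdw, hcn, hLa, hLb, n1, n2, n3, n4, hL3, hL2, hqd⟩ :=
    hk6 k (by omega)
  obtain ⟨M', κ', hAHk, hAmp, hM'0, hM'1, hκ'⟩ := hAH k (by omega) a ha
  have halk := hal k (by omega) a ha τ hτ1 hτ2
  have hnegk : ∀ z, curv (Y P p Γ D k (mix (bk k) ξ η)) z < 0 := fun z =>
    (hneg p hp k (by omega) ξ hξ η z).trans_lt (by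
      have : 0 < (κ / 2) ^ 2 := by positivity
      linarith)
  have hm0 : HM Γ (Y0 P p Γ D k ξ) := Y0_hm hP hκ hξ
  have hm1 : HM Γ (Y P p Γ D k (mix (bk k) ξ η)) := Y_hm hP p k hnegk
  obtain ⟨hcl0, htr0, hlp0, hge0, htl0, hpos0⟩ := cls_q hX hP.ori hm0 q
  obtain ⟨hcl1, htr1, hlp1, hge1, htl1, hpos1⟩ := cls_q hX hP.ori hm1 q
  obtain ⟨hc1, hc2, hc3⟩ := hcmp p hp k (by omega) ξ hξ η q
  obtain ⟨-, hc4⟩ := hc3 hq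
  have hwg := (hw k (by omega) ξ hξ).1 q
  have hT : (1 : ℝ) ≤ (2 : ℝ) ^ k := IFC2_T k
  have hT0 : (0 : ℝ) < (2 : ℝ) ^ k := by positivity
  have hM0 : 0 ≤ M 0 := Am_nonneg ha 0
  have hM5 : |5 * M 0| = 5 * M 0 := abs_of_nonneg (by linarith)
  have he0 : 0 < p.e k := e_pos p k
  have hQ0 : (0 : ℝ) ≤ 1 / p.e k := by positivity
  have hR0 : 0 ≤ Lm (3 * κ1) k := zero_le_one.trans (Lm_one _ (by linarith) k)
  have hL20 : 1 ≤ Lm (2 * κ1) k := Lm_one _ (by linarith) k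
  have hR1 : 1 ≤ Lm (3 * κ1) k := Lm_one _ (by linarith) k
  -- the lengths
  have hlpn : ∀ μ : Pl → Co, 0 < lp μ q.1 → lp μ q.1 ≤ ln μ q := by
    intro μ hμ
    unfold ln
    have : (0 : ℝ) ≤ (q.2.1 : ℝ) := Nat.cast_nonneg _
    nlinarith
  have hl0 := hlpn _ hlp0
  have hl1 := hlpn _ hlp1
  -- the numbers
  have hKc : Ca * Lm (3 * κ1) k ≤ ((2 : ℝ) ^ k) ^ (1 / 15 : ℝ) := hLa
  have hK1 : 1 ≤ Ca * Lm (3 * κ1) k := by nlinarith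
  have hK4 : (Ca * Lm (3 * κ1) k) ^ 4 * (5 * M 0) ≤ ((2 : ℝ) ^ k) ^ (1 / 8 : ℝ) := by
    have e1 : Lm (3 * κ1) k ^ 4 = Lm (3 * κ1 * 4) k := by
      rw [← Lm_pow (3 * κ1) 4 k, ← Real.rpow_natCast]
      norm_num
    calc (Ca * Lm (3 * κ1) k) ^ 4 * (5 * M 0) = Ca ^ 4 * |5 * M 0| * Lm (3 * κ1 * 4) k := by
          rw [mul_pow, e1, hM5]
          ring
      _ ≤ _ := hLb
  have hcP : P.c (bk k) = s * cn (bk k) := hc _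
  have hc0 : 0 ≤ P.c (bk k) := (c_pos hP _).1.le
  have hcT : P.c (bk k) ≤ ((2 : ℝ) ^ k) ^ (-(2 / 5) : ℝ) := by
    rw [hcP, IFC2_pow]
    refine hcn.2.trans_eq ?_
    congr 1
    ring
  have hXN0 : 0 ≤ BE36C.XN (Nk κ1 k) (1 / p.e k) (Lm (3 * κ1) k) ^ A := by
    unfold BE36C.XN
    positivity
  obtain ⟨m1, m2, m3, m4, m5⟩ := IFC2_num hT hu hτ1 hXN0 hXN (by linarith) hKc hK4 hM'1 hc0 hcT
    n1 n2 n3 n4
  have hde : de k = ((2 : ℝ) ^ k) ^ (-(1 / 10) : ℝ) := by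
    rw [IFC2_pow]
    unfold de
    congr 1
    ring
  have hdw' : dw k = ((2 : ℝ) ^ k) ^ (-(1 / 20) : ℝ) := by
    rw [IFC2_pow]
    unfold dw
    congr 1
    ring
  have hN2 : 2 ≤ Nk κ1 k := by
    have e1 := (Nk_le hκ1.le k).1
    rw [IFC2_Lm0, mul_one] at hL2
    have e2 : (2 : ℝ) ≤ Nk κ1 k := hL2.trans e1
    exact_mod_cast e2
  have hQs : Real.exp (Real.log (1 / p.e k)) = 1 / p.e k := Real.exp_log (by positivity)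
  -- the index
  have hik : k0 ≤ k := by omega
  have key := hlead (Nk κ1 k) (⟨p, k, ξ, η, hp, hik, hξ⟩ : Bi P Γ D κ k0) 0 (√(P.c (bk k)))
    (by simp) (by
      rw [Real.norm_of_nonneg (Real.sqrt_nonneg _)]
      exact Real.sqrt_le_one.2 (c_pos hP _).2) (gel q) (gpr q) (gpr q)
    (ax (Y0 P p Γ D k ξ) (gpr q)).1 (ax (Y0 P p Γ D k ξ) (gpr q)).2
    (ax (Y P p Γ D k (mix (bk k) ξ η)) (gpr q)).1 (ax (Y P p Γ D k (mix (bk k) ξ η)) (gpr q)).2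
    (ln (Y0 P p Γ D k ξ) q) (lp (Y0 P p Γ D k ξ) q.1)
    (ln (Y P p Γ D k (mix (bk k) ξ η)) q) (lp (Y P p Γ D k (mix (bk k) ξ η)) q.1)
  dsimp only at key
  rw [path_zero hP, path_one hP, hQs] at key
  rw [IFC2_Lm0] at hL2
  have hlR : ln (Y0 P p Γ D k ξ) q ≤ Lm (3 * κ1) k := by linarith
  have hl1R : ln (Y P p Γ D k (mix (bk k) ξ η)) q ≤ Lm (3 * κ1) k := by linarith
  have hnorm : ‖√(P.c (bk k)) - 0‖ = √(P.c (bk k)) := by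
    rw [sub_zero, Real.norm_of_nonneg (Real.sqrt_nonneg _)]
  have key2 := key hcl0 hcl1 (Fa p k a) (Ga p κ1 k a) (qd p k) (Lm κ1 k) (Lm (3 * κ1) k)
    (5 * M 0) M' κ' (Ca * Lm (3 * κ1) k) τ (dw k) (de k) hN2 hlR hl1R hAHk hAmp hDH hdw m1 hK1 m2
    (by rw [hde]; exact m3) (by rw [hnorm, hdw']; exact m4)
    (fun j _ hj r hr hr' => halk j hj r hr hr')
  have hκ0 : 0 ≤ κ' := hAHk.cut.nonneg
  have hM'T : 5 * M 0 + M' ≤ (|5 * M 0| + 1) * 2 ^ k := by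
    have e1 : ((2 : ℝ) ^ k) ^ (1 / 8 : ℝ) ≤ (2 : ℝ) ^ k := by
      calc ((2 : ℝ) ^ k) ^ (1 / 8 : ℝ) ≤ ((2 : ℝ) ^ k) ^ (1 : ℝ) :=
            Real.rpow_le_rpow_of_exponent_le hT (by norm_num)
        _ = _ := Real.rpow_one _
    rw [hM5, add_mul, one_mul]
    have e2 : 5 * M 0 ≤ 5 * M 0 * 2 ^ k := le_mul_of_one_le_right (by linarith) hT
    linarith
  have hTNk := hTN (5 * M 0 + M') κ' τ (by linarith) hM'T hκ0 hκ' hτ1 hτ2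
  have hTN0 : 0 ≤ BE36C.TN A (Nk κ1 k) (1 / p.e k) (Lm (3 * κ1) k) (5 * M 0 + M') κ' τ (dw k)
      (de k) (qd p k) := IFC2_TN hQ0 hR0 (by linarith) hκ0 (by linarith)
  have hsum : lp (Y0 P p Γ D k ξ) q.1 + lp (Y P p Γ D k (mix (bk k) ξ η)) q.1 ≤
      Lm (3 * κ1) k := by linarith
  have ht0 : 0 < p.t k := Real.exp_pos _
  have hZT : zt (Y0 P p Γ D k ξ) (Y P p Γ D k (mix (bk k) ξ η)) k (Nk κ1 k) (Ra p k a) τ q =
      BE36C.ZT (Y0 P p Γ D k ξ) (Y P p Γ D k (mix (bk k) ξ η)) (dw k) (de k) (Nk κ1 k)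
        (BE36C.rs (Fa p k a)) τ (gel q) (ax (Y0 P p Γ D k ξ) (gpr q)).1
        (ax (Y0 P p Γ D k ξ) (gpr q)).2 (lp (Y0 P p Γ D k ξ) q.1) := rfl
  rw [htr1] at key2
  -- abbreviations
  have hW : wg (Y P p Γ D k (mix (bk k) ξ η)) q = lp (Y P p Γ D k (mix (bk k) ξ η)) q.1 /
      √(GD.trg (Y P p Γ D k (mix (bk k) ξ η)) (gel q) - 2) := rfl
  have hW0 : 0 ≤ wg (Y P p Γ D k (mix (bk k) ξ η)) q := by
    rw [hW]
    exact div_nonneg hlp1.le (Real.sqrt_nonneg _)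
  have hW2 : wg (Y P p Γ D k (mix (bk k) ξ η)) q ≤ 2 * Cw := by
    have e1 : ((2 : ℝ) ^ k) ^ (-(1 / 8) : ℝ) ≤ 1 :=
      Real.rpow_le_one_of_one_le_of_nonpos hT (by norm_num)
    have e2 := (abs_le.1 hc4).2
    have e3 : ((2 : ℝ) ^ k) ^ (-(1 / 8) : ℝ) * wg (Y0 P p Γ D k ξ) q ≤
        wg (Y0 P p Γ D k ξ) q := mul_le_of_le_one_left hwg.1 e1
    linarith [hwg.2]
  have hGR := Ga_Ra hp hκ1.le k ha (ln (Y P p Γ D k (mix (bk k) ξ η)) q)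
  have hGt : ‖Ga p κ1 k a (ln (Y P p Γ D k (mix (bk k) ξ η)) q) -
      Ra p k a (ln (Y P p Γ D k (mix (bk k) ξ η)) q)‖ ≤ 10 * M 0 * p.t k := by
    refine hGR.trans (mul_le_mul_of_nonneg_left ?_ (by linarith))
    unfold Pr.t
    refine Real.exp_le_exp.2 (neg_le_neg ?_)
    rw [one_mul] at hqd
    refine hqd.trans (pow_le_pow_left₀ (by unfold qd; positivity) ?_ 2)
    unfold qd
    refine one_div_le_one_div_of_le (by positivity) (mul_le_mul_of_nonneg_right ?_ he0.le)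
    exact pow_le_pow_right₀ one_le_two (Nat.le_succ _)
  have hdiff : ‖(lp (Y P p Γ D k (mix (bk k) ξ η)) q.1 : ℂ) *
      (Ga p κ1 k a (ln (Y P p Γ D k (mix (bk k) ξ η)) q) *
        Complex.exp (-(Complex.I * τ * ln (Y P p Γ D k (mix (bk k) ξ η)) q)) /
        ((√(GD.trg (Y P p Γ D k (mix (bk k) ξ η)) (gel q) - 2) : ℝ) : ℂ)) -
      mz (Y P p Γ D k (mix (bk k) ξ η)) (Ra p k a) τ q‖ ≤ 2 * Cw * (10 * M 0 * p.t k) := by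
    have e1 : (lp (Y P p Γ D k (mix (bk k) ξ η)) q.1 : ℂ) *
        (Ga p κ1 k a (ln (Y P p Γ D k (mix (bk k) ξ η)) q) *
          Complex.exp (-(Complex.I * τ * ln (Y P p Γ D k (mix (bk k) ξ η)) q)) /
          ((√(GD.trg (Y P p Γ D k (mix (bk k) ξ η)) (gel q) - 2) : ℝ) : ℂ)) -
        mz (Y P p Γ D k (mix (bk k) ξ η)) (Ra p k a) τ q =
        ((wg (Y P p Γ D k (mix (bk k) ξ η)) q : ℝ) : ℂ) *
          (Ga p κ1 k a (ln (Y P p Γ D k (mix (bk k) ξ η)) q) -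
            Ra p k a (ln (Y P p Γ D k (mix (bk k) ξ η)) q)) *
          Complex.exp ((((-(τ * ln (Y P p Γ D k (mix (bk k) ξ η)) q) : ℝ)) : ℂ) * Complex.I) := by
      have e2 : (-(Complex.I * τ * ln (Y P p Γ D k (mix (bk k) ξ η)) q) : ℂ) =
          (((-(τ * ln (Y P p Γ D k (mix (bk k) ξ η)) q) : ℝ)) : ℂ) * Complex.I := by
        push_cast
        ring
      unfold mz B35.mt
      rw [e2, hW]
      push_cast
      ring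
    rw [e1, norm_mul, norm_mul, Complex.norm_exp_ofReal_mul_I, mul_one, Complex.norm_real,
      Real.norm_of_nonneg hW0]
    exact mul_le_mul hW2 hGt (norm_nonneg _) (by linarith)
  have hfin1 : BE36C.XN (Nk κ1 k) (1 / p.e k) (Lm (3 * κ1) k) ^ A *
      ((M' + (Ca * Lm (3 * κ1) k) ^ 4 * (5 * M 0)) / √τ) *
        (lp (Y P p Γ D k (mix (bk k) ξ η)) q.1 /
          √(GD.trg (Y P p Γ D k (mix (bk k) ξ η)) (gel q) - 2)) ≤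
      ((2 : ℝ) ^ k) ^ (-(1 / 4) : ℝ) * wg (Y P p Γ D k (mix (bk k) ξ η)) q :=
    mul_le_mul_of_nonneg_right m5 hW0
  have hfin2 : (lp (Y0 P p Γ D k ξ) q.1 + lp (Y P p Γ D k (mix (bk k) ξ η)) q.1) *
      BE36C.TN A (Nk κ1 k) (1 / p.e k) (Lm (3 * κ1) k) (5 * M 0 + M') κ' τ (dw k)
        (de k) (qd p k) ≤ p.t k :=
    (mul_le_mul_of_nonneg_right hsum hTN0).trans hTNk
  have htri := norm_sub_le_norm_sub_add_norm_sub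
    (BE36C.ZT (Y0 P p Γ D k ξ) (Y P p Γ D k (mix (bk k) ξ η)) (dw k) (de k) (Nk κ1 k)
        (BE36C.rs (Fa p k a)) τ (gel q) (ax (Y0 P p Γ D k ξ) (gpr q)).1
        (ax (Y0 P p Γ D k ξ) (gpr q)).2 (lp (Y0 P p Γ D k ξ) q.1))
    ((lp (Y P p Γ D k (mix (bk k) ξ η)) q.1 : ℂ) *
        (Ga p κ1 k a (ln (Y P p Γ D k (mix (bk k) ξ η)) q) *
          Complex.exp (-(Complex.I * τ * ln (Y P p Γ D k (mix (bk k) ξ η)) q)) /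
          ((√(GD.trg (Y P p Γ D k (mix (bk k) ξ η)) (gel q) - 2) : ℝ) : ℂ)))
    (mz (Y P p Γ D k (mix (bk k) ξ η)) (Ra p k a) τ q)
  rw [hZT, abs_of_nonneg hM0]
  have hend : (1 + 20 * Cw * M 0) * p.t k = p.t k + 2 * Cw * (10 * M 0 * p.t k) := by ring
  rw [hend]
  linarith [key2, htri, hdiff, hfin1, hfin2]

end F37
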