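import Pool.Agent.LibBE37F.GQ2a
import Pool.Agent.LibBE37F.A1
import Pool.Agent.LibBE37F.IFC
import Pool.Agent.LibBE37F.IFE

/-! ROW GQ2d : the leading terms. SHORT. MODEL: LibB35/GQ2d.lean. PLAN. `fact2`: `C2B`, `wg (Y mix) ≤ 2 wg (Y0)` (`ln_cmp`: `(2^k)^(-1/8) ≤ 1`). `fact3`: `mt m b q = wg m q * b (ln m q)`; `‖w1 b1 - w0 b0‖ ≤ |w1 - w0| ‖b1‖ + w0 ‖b1 - b0‖`, `Ra_bd`, `Ra_lip`,
`1/p.e k = 2^(δ k) ≤ (2^k)^(1/40)`, `1/8 - 1/40 = 1/10`, the constant `20 M 0` is absorbed by `1/10 - 1/12 > 0` for large `k`. `wts` gives `0 ≤ wg`. -/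

open MeasureTheory Set Filter Topology
open scoped ContDiff unitInterval

namespace F37

variable [Sq]

open BGS BR BE B35

variable {Γ : Type} [Group Γ] [MulAction Γ Pl] {D : Set Pl} {P : Dt} {κ : ℝ}

private theorem GQ2d_one (k : ℕ) : (1 : ℝ) ≤ (2 : ℝ) ^ k := one_le_pow₀ one_le_two

private theorem GQ2d_le1 (k : ℕ) : (2 ^ k : ℝ) ^ (-(1 / 8) : ℝ) ≤ 1 :=
  Real.rpow_le_one_of_one_le_of_nonpos (GQ2d_one k) (by norm_num)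

private theorem GQ2d_w {x y e : ℝ} (hy : 0 ≤ y) (he : e ≤ 1) (h : |x - y| ≤ e * y) :
    |x| ≤ 2 * y := by
  have h1 : |x| ≤ |x - y| + |y| := by
    have h2 := abs_add_le (x - y) y
    rwa [sub_add_cancel] at h2
  rw [abs_of_nonneg hy] at h1
  have h3 : e * y ≤ 1 * y := mul_le_mul_of_nonneg_right he hy
  linarith

private theorem GQ2d_inv {p : Pr} (hp : p.Ok) (k : ℕ) : 1 / p.e k ≤ ((2 : ℝ) ^ k) ^ (1 / 40 : ℝ) := by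
  have e1 : 1 / p.e k = (2 : ℝ) ^ (p.δ * k) := by
    unfold Pr.e
    rw [Real.rpow_neg zero_le_two, one_div, inv_inv]
  have e2 : ((2 : ℝ) ^ k) ^ (1 / 40 : ℝ) = (2 : ℝ) ^ ((k : ℝ) * (1 / 40)) := by
    rw [← Real.rpow_natCast 2 k, ← Real.rpow_mul zero_le_two]
  rw [e1, e2]
  refine Real.rpow_le_rpow_of_exponent_le one_le_two ?_
  rw [mul_comm]
  exact mul_le_mul_of_nonneg_left hp.le (Nat.cast_nonneg k)

private theorem GQ2d_ev (A : ℝ) : ∃ k0 : ℕ, ∀ k ≥ k0, A ≤ ((2 : ℝ) ^ k) ^ (1 / 60 : ℝ) := by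
  have h1 : Tendsto (fun k : ℕ => ((2 : ℝ) ^ k) ^ (1 / 60 : ℝ)) atTop atTop :=
    (tendsto_rpow_atTop (by norm_num)).comp (tendsto_pow_atTop_atTop_of_one_lt one_lt_two)
  exact eventually_atTop.1 (h1.eventually_ge_atTop A)

theorem fact2 (hP : Ok Γ D P) (hκ : 0 < κ) {u v : ℝ} (hu : 0 < u) (huv : u < v) :
    ∃ δ0 : ℝ, 0 < δ0 ∧ ∀ p : Pr, p.Ok → p.δ ≤ δ0 → ∀ κ1 : ℝ, 0 < κ1 → ∀ M : ℕ → ℝ,
    ∃ (C : ℝ) (k0 : ℕ), ∀ k ≥ k0, ∀ ξ ∈ Bs P p Γ D κ k, ∀ (η : Dir → I) (a : ℝ → ℂ),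
      Am M (Lm κ1 k) a → ∀ τ : ℝ, u * 2 ^ k ≤ τ → τ ≤ v * 2 ^ k → ∀ q : Cg Γ,
      ln (Y0 P p Γ D k ξ) q ≤ Lm (2 * κ1) k →
      ‖zt (Y0 P p Γ D k ξ) (Y P p Γ D k (mix (bk k) ξ η)) k (Nk κ1 k) (Ra p k a) τ q -
        mz (Y P p Γ D k (mix (bk k) ξ η)) (Ra p k a) τ q‖ ≤
        2 * (2 ^ k : ℝ) ^ (-(1 / 4) : ℝ) * wg (Y0 P p Γ D k ξ) q + C * p.t k := by
  obtain ⟨δ0, hδ0, H⟩ := C2B hP hκ hu huv
  refine ⟨δ0, hδ0, fun p hp hpδ κ1 hκ1 M => ?_⟩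
  obtain ⟨C, k1, H1⟩ := H p hp hpδ κ1 hκ1 M
  obtain ⟨k2, H2⟩ := ln_cmp hP hκ hκ1
  obtain ⟨C', k3, -, H3⟩ := wts hP hκ hp
  refine ⟨C, max k1 (max k2 k3), fun k hk ξ hξ η a ha τ h1 h2 q hq => ?_⟩
  have hk1 : k1 ≤ k := (le_max_left _ _).trans hk
  have hk2 : k2 ≤ k := ((le_max_left _ _).trans (le_max_right _ _)).trans hk
  have hk3 : k3 ≤ k := ((le_max_right _ _).trans (le_max_right _ _)).trans hk
  have h3 := H1 k hk1 ξ hξ η a ha τ h1 h2 q hq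
  have hw0 : 0 ≤ wg (Y0 P p Γ D k ξ) q := ((H3 k hk3 ξ hξ).1 q).1
  have h4 := ((H2 p hp k hk2 ξ hξ η q).2.2 hq).2
  have h5 : wg (Y P p Γ D k (mix (bk k) ξ η)) q ≤ 2 * wg (Y0 P p Γ D k ξ) q :=
    (le_abs_self _).trans (GQ2d_w hw0 (GQ2d_le1 k) h4)
  have h6 : 0 ≤ (2 ^ k : ℝ) ^ (-(1 / 4) : ℝ) := Real.rpow_nonneg (by positivity) _
  have h7 := mul_le_mul_of_nonneg_left h5 h6
  refine h3.trans ?_
  have h8 : (2 ^ k : ℝ) ^ (-(1 / 4) : ℝ) * (2 * wg (Y0 P p Γ D k ξ) q) =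
      2 * (2 ^ k : ℝ) ^ (-(1 / 4) : ℝ) * wg (Y0 P p Γ D k ξ) q := by ring
  linarith

theorem fact3 (hP : Ok Γ D P) (hκ : 0 < κ) {p : Pr} (hp : p.Ok) {κ1 : ℝ} (hκ1 : 0 < κ1)
    (M : ℕ → ℝ) : ∃ k0 : ℕ, ∀ k ≥ k0, ∀ ξ ∈ Bs P p Γ D κ k, ∀ (η : Dir → I) (a : ℝ → ℂ),
      Am M (Lm κ1 k) a → ∀ q : Cg Γ, ln (Y0 P p Γ D k ξ) q ≤ Lm (2 * κ1) k →
      ‖mt (Y P p Γ D k (mix (bk k) ξ η)) (Ra p k a) q - mt (Y0 P p Γ D k ξ) (Ra p k a) q‖ ≤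
        (2 ^ k : ℝ) ^ (-(1 / 12) : ℝ) * wg (Y0 P p Γ D k ξ) q ∧
      ‖mt (Y0 P p Γ D k ξ) (Ra p k a) q‖ ≤ 5 * M 0 * wg (Y0 P p Γ D k ξ) q := by
  obtain ⟨k2, H2⟩ := ln_cmp hP hκ hκ1
  obtain ⟨C', k3, -, H3⟩ := wts hP hκ hp
  obtain ⟨k4, H4⟩ := GQ2d_ev (45 * M 0)
  refine ⟨max k4 (max k2 k3), fun k hk ξ hξ η a ha q hq => ?_⟩
  have hk4 : k4 ≤ k := (le_max_left _ _).trans hk
  have hk2 : k2 ≤ k := ((le_max_left _ _).trans (le_max_right _ _)).trans hk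
  have hk3 : k3 ≤ k := ((le_max_right _ _).trans (le_max_right _ _)).trans hk
  obtain ⟨w0, hw0d⟩ : ∃ w0, w0 = wg (Y0 P p Γ D k ξ) q := ⟨_, rfl⟩
  have hw0 : 0 ≤ w0 := by
    rw [hw0d]
    exact ((H3 k hk3 ξ hξ).1 q).1
  obtain ⟨h1, h2⟩ := (H2 p hp k hk2 ξ hξ η q).2.2 hq
  have hM := Am_nonneg ha 0
  have hbd := Ra_bd hp hκ1.le k ha
  have hlip := Ra_lip hp hκ1.le k ha
  obtain ⟨X, hX⟩ : ∃ X : ℝ, X = (2 : ℝ) ^ k := ⟨_, rfl⟩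
  have hX1 : 1 ≤ X := by
    rw [hX]
    exact GQ2d_one k
  have hX0 : 0 < X := by linarith
  refine ⟨?_, ?_⟩
  · obtain ⟨w, hwd⟩ : ∃ w, w = wg (Y P p Γ D k (mix (bk k) ξ η)) q := ⟨_, rfl⟩
    obtain ⟨l, hl⟩ : ∃ l, l = ln (Y P p Γ D k (mix (bk k) ξ η)) q := ⟨_, rfl⟩
    obtain ⟨l0, hl0⟩ : ∃ l0, l0 = ln (Y0 P p Γ D k ξ) q := ⟨_, rfl⟩
    obtain ⟨e, he⟩ : ∃ e : ℝ, e = X ^ (-(1 / 8) : ℝ) := ⟨_, rfl⟩
    have he0 : 0 ≤ e := by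
      rw [he]
      exact Real.rpow_nonneg hX0.le _
    have he1 : e ≤ 1 := by
      rw [he, hX]
      exact GQ2d_le1 k
    rw [← hl, ← hl0, ← hX, ← he] at h1
    rw [← hwd, ← hw0d, ← hX, ← he] at h2
    have h4 : mt (Y P p Γ D k (mix (bk k) ξ η)) (Ra p k a) q - mt (Y0 P p Γ D k ξ) (Ra p k a) q =
        (w : ℂ) * (Ra p k a l - Ra p k a l0) + ((w - w0 : ℝ) : ℂ) * Ra p k a l0 := by
      unfold B35.mt
      rw [← hwd, ← hw0d, ← hl, ← hl0]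
      push_cast
      ring
    have h5 : |w| ≤ 2 * w0 := GQ2d_w hw0 he1 h2
    rw [h4, ← hw0d, ← hX]
    refine (norm_add_le _ _).trans ?_
    rw [norm_mul, norm_mul, Complex.norm_real, Complex.norm_real, Real.norm_eq_abs,
      Real.norm_eq_abs]
    obtain ⟨J, hI⟩ : ∃ J : ℝ, J = X ^ (1 / 40 : ℝ) := ⟨_, rfl⟩
    have hI1 : 1 ≤ J := by
      rw [hI]
      exact Real.one_le_rpow hX1 (by norm_num)
    have hinv : 1 / p.e k ≤ J := by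
      rw [hI, hX]
      exact GQ2d_inv hp k
    have hpe : 0 ≤ 1 / p.e k := by
      unfold Pr.e
      positivity
    have h6 : ‖Ra p k a l - Ra p k a l0‖ ≤ 20 * M 0 * J * e := by
      refine (hlip l l0).trans ?_
      refine mul_le_mul ?_ h1 (abs_nonneg _) (by positivity)
      exact mul_le_mul_of_nonneg_left hinv (by linarith)
    have h7 : |w| * ‖Ra p k a l - Ra p k a l0‖ ≤ 2 * w0 * (20 * M 0 * J * e) :=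
      mul_le_mul h5 h6 (norm_nonneg _) (mul_nonneg zero_le_two hw0)
    have h8 : |w - w0| * ‖Ra p k a l0‖ ≤ e * w0 * (5 * M 0) :=
      mul_le_mul h2 (hbd l0) (norm_nonneg _) (mul_nonneg he0 hw0)
    have h9 : e * w0 * (5 * M 0) ≤ e * w0 * (5 * M 0) * J :=
      le_mul_of_one_le_right (mul_nonneg (mul_nonneg he0 hw0) (by linarith)) hI1
    have h10 : J * e = X ^ (-(1 / 10) : ℝ) := by
      rw [hI, he, ← Real.rpow_add hX0]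
      congr 1
      norm_num
    have h11 : X ^ (1 / 60 : ℝ) * X ^ (-(1 / 10) : ℝ) = X ^ (-(1 / 12) : ℝ) := by
      rw [← Real.rpow_add hX0]
      congr 1
      norm_num
    have h12 : 45 * M 0 ≤ X ^ (1 / 60 : ℝ) := by
      rw [hX]
      exact H4 k hk4
    have h13 : 0 ≤ X ^ (-(1 / 10) : ℝ) := Real.rpow_nonneg hX0.le _
    calc |w| * ‖Ra p k a l - Ra p k a l0‖ + |w - w0| * ‖Ra p k a l0‖
        ≤ 2 * w0 * (20 * M 0 * J * e) + e * w0 * (5 * M 0) * J := add_le_add h7 (h8.trans h9)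
      _ = 45 * M 0 * (J * e) * w0 := by ring
      _ = 45 * M 0 * X ^ (-(1 / 10) : ℝ) * w0 := by rw [h10]
      _ ≤ X ^ (1 / 60 : ℝ) * X ^ (-(1 / 10) : ℝ) * w0 :=
          mul_le_mul_of_nonneg_right (mul_le_mul_of_nonneg_right h12 h13) hw0
      _ = X ^ (-(1 / 12) : ℝ) * w0 := by rw [h11]
  · unfold B35.mt
    rw [norm_mul, Complex.norm_real, Real.norm_eq_abs, ← hw0d, abs_of_nonneg hw0, mul_comm]
    exact mul_le_mul_of_nonneg_right (hbd _) hw0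

end F37
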