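import Pool.Agent.LibBE37F.Defs
import Pool.Agent.LibB35.GS1

/-! Row N3: slices of the product measure, replacement of the coordinates of one scale, for laws which depend on the scale
(copy of LibB35/GS1.lean). -/

open MeasureTheory Set Filter Topology
open scoped ContDiff unitInterval

namespace F37

variable [Sq]

open BGS BR B35
open Pool.BGR (upI)

theorem Pm_prob {ν : ℕ → Measure I} (hν : ∀ R, IsProbabilityMeasure (ν R)) :
    IsProbabilityMeasure (F37.Pm ν) := by
  unfold F37.Pm
  infer_instance

private theorem S1_upI {ν : ℕ → Measure I} (hν : ∀ R, IsProbabilityMeasure (ν R)) (i : Dir) :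
    ((F37.Pm ν).prod (ν i.1)).map (fun p : (Dir → I) × I => upI p.1 i p.2) = F37.Pm ν := by
  unfold F37.Pm
  refine Measure.eq_infinitePi _ fun s t ht => ?_
  rw [Measure.map_apply (Pool.BGR.measurable_upI i)
    (MeasurableSet.pi s.countable_toSet fun j _ => ht j)]
  by_cases hi : i ∈ s
  · have h1 : (fun p : (Dir → I) × I => upI p.1 i p.2) ⁻¹' (Set.pi s t) =
        (Set.pi (s.erase i) t) ×ˢ (t i) := by
      ext ⟨ξ, u⟩
      simp only [mem_preimage, Set.mem_pi, Finset.mem_coe, mem_prod, Finset.mem_erase]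
      constructor
      · intro h
        constructor
        · rintro j ⟨hj, hjs⟩
          have h2 := h j hjs
          rw [upI, Function.update_of_ne hj] at h2
          exact h2
        · have h2 := h i hi
          rw [upI, Function.update_self] at h2
          exact h2
      · rintro ⟨h2, h3⟩ j hj
        by_cases hji : j = i
        · subst hji
          rw [upI, Function.update_self]
          exact h3
        · rw [upI, Function.update_of_ne hji]
          exact h2 j ⟨hji, hj⟩
    rw [h1, Measure.prod_prod, Measure.infinitePi_pi _ (fun j _ => ht j),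
      Finset.prod_erase_mul _ _ hi]
  · have h1 : (fun p : (Dir → I) × I => upI p.1 i p.2) ⁻¹' (Set.pi s t) =
        (Set.pi s t) ×ˢ univ := by
      ext ⟨ξ, u⟩
      simp only [mem_preimage, Set.mem_pi, Finset.mem_coe, mem_prod, mem_univ, and_true]
      refine forall_congr' fun j => forall_congr' fun hj => ?_
      have hji : j ≠ i := fun h => hi (h ▸ hj)
      rw [upI, Function.update_of_ne hji]
    rw [h1, Measure.prod_prod, Measure.infinitePi_pi _ (fun j _ => ht j), measure_univ, mul_one]

private theorem S1_comm (n : ℕ) (c : ℤ × ℤ) (ξ η : Dir → I) (t : I) :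
    mix n ξ (upI η (n, c) t) = upI (mix n ξ η) (n, c) t := by
  funext d
  by_cases hd : d = (n, c)
  · subst hd
    rw [upI, mix, if_pos rfl, Function.update_self, upI, Function.update_self]
  · rw [upI, upI, Function.update_of_ne hd, mix, Function.update_of_ne hd, mix]

/-- Row S1: slices of the product measure. -/
theorem slice {ν : ℕ → Measure I} (hν : ∀ R, IsProbabilityMeasure (ν R)) (n : ℕ) (c : ℤ × ℤ) (ξ : Dir → I)
    {f : (Dir → I) → ℂ} (hf : Measurable fun η => f (mix n ξ η))
    (hb : ∃ B : ℝ, ∀ η, ‖f (mix n ξ η)‖ ≤ B) :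
    ∫ η, f (mix n ξ η) ∂F37.Pm ν =
      ∫ η, (∫ t : I, f (upI (mix n ξ η) (n, c) t) ∂ν n) ∂F37.Pm ν := by
  have hP := Pm_prob hν
  obtain ⟨B, hB⟩ := hb
  have h0 : ∀ (η : Dir → I) (t : I), f (upI (mix n ξ η) (n, c) t) =
      (fun η => f (mix n ξ η)) (upI η (n, c) t) := by
    intro η t
    simp only
    rw [S1_comm]
  simp only [h0]
  obtain ⟨g, hg⟩ : ∃ g : (Dir → I) → ℂ, g = fun η => f (mix n ξ η) := ⟨_, rfl⟩
  rw [← hg] at hf ⊢
  have hgB : ∀ η, ‖g η‖ ≤ B := by
    intro η
    rw [hg]
    exact hB η
  have hfg : ∀ η, f (mix n ξ η) = g η := by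
    intro η
    rw [hg]
  have hfu : ∀ (η : Dir → I) (t : I), f (mix n ξ (upI η (n, c) t)) = g (upI η (n, c) t) :=
    fun η t => hfg _
  simp only [hfg]
  conv_lhs => rw [← S1_upI hν ((n, c) : Dir)]
  rw [integral_map (Pool.BGR.measurable_upI _).aemeasurable hf.aestronglyMeasurable]
  have h1 : Integrable (fun p : (Dir → I) × I => g (upI p.1 (n, c) p.2)) ((F37.Pm ν).prod (ν n)) :=
    Integrable.of_bound (hf.comp (Pool.BGR.measurable_upI _)).aestronglyMeasurable B
      (Eventually.of_forall fun p => hgB _)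
  exact integral_prod _ h1

theorem map_mix {ν : ℕ → Measure I} (hν : ∀ R, IsProbabilityMeasure (ν R)) (n : ℕ) :
    ((F37.Pm ν).prod (F37.Pm ν)).map (fun p : (Dir → I) × (Dir → I) => mix n p.1 p.2) =
      F37.Pm ν := by
  unfold F37.Pm
  refine Measure.eq_infinitePi _ fun s t ht => ?_
  rw [Measure.map_apply (meas_mix n) (MeasurableSet.pi s.countable_toSet fun j _ => ht j)]
  have h1 : (fun p : (Dir → I) × (Dir → I) => mix n p.1 p.2) ⁻¹' (Set.pi s t) =
      (Set.pi (s.filter fun d => ¬ d.1 = n) t) ×ˢ (Set.pi (s.filter fun d => d.1 = n) t) := by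
    ext ⟨ξ, η⟩
    simp only [mem_preimage, Set.mem_pi, Finset.mem_coe, mem_prod, Finset.mem_filter]
    constructor
    · intro h
      constructor
      · rintro d ⟨hd, hdn⟩
        have h2 := h d hd
        rw [mix, if_neg hdn] at h2
        exact h2
      · rintro d ⟨hd, hdn⟩
        have h2 := h d hd
        rw [mix, if_pos hdn] at h2
        exact h2
    · rintro ⟨h2, h3⟩ d hd
      by_cases hdn : d.1 = n
      · rw [mix, if_pos hdn]
        exact h3 d ⟨hd, hdn⟩
      · rw [mix, if_neg hdn]
        exact h2 d ⟨hd, hdn⟩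
  rw [h1, Measure.prod_prod, Measure.infinitePi_pi _ (fun j _ => ht j),
    Measure.infinitePi_pi _ (fun j _ => ht j), mul_comm, Finset.prod_filter_mul_prod_filter_not]

end F37
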