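import Pool.Agent.LibBE37F.GQ2b
import Pool.Agent.LibBE37F.GQ2d
import Pool.Agent.LibBE37F.MY
import Pool.Agent.LibBE37F.N3
import Pool.Agent.LibBE37F.IFD
import Pool.Agent.LibB35.GA

/-! ROW GB1 : the geometric input of the combinatorial theorem. MEDIUM/STRONG. MODEL: LibB35/GB1.lean (adapt it). PLAN. `δ0` = minimum of those of `fact2`, `decor`; `κ0 = min (κ0 (undet)) 1 / 2`, `c` = minimum of `c (undet)/2` and what the powers of `2^k` give:
`2 (2^k)^(-1/4)`, `(2^k)^(-1/12) ≤ Lm (-c) k` eventually (`Lm_sub` with negative exponents: `Lm (-c) k ≥ 2^(-d k)`). `Wt`: `wts` with `t = Lm (2 κ1) k`: `V = C * Lm (C1 κ1) k`, `C1 = 2 C(wts) + 2`, `C` so large that `5 M 0 ≤ C` etc. `app` = `fact2`, `par`, `m0` = `fact3`.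
`meas` = `meas_zt` composed with `(τ, η) ↦ (mix ξ η, τ)` (curvature from `block_neg`). `und`: if some cell detects then `decor` and `slice` (N3; the tuple term `tm` is a constant times the product of `cj (zt ..)`, `upI (mix ξ η) (n, c) t`); otherwise `undet` with
`lam j = sgn (e j) τ j / 2^k`, `Λ = max v (1/u)` and lengths `≤ Lm (2 κ1) k ≤ Lm κ0' k`, `Bd` the set of `undet`. The bound `C * p.t k` for `ε'`, `εD`. -/

open MeasureTheory Set Filter Topology
open scoped ContDiff unitInterval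

namespace F37

variable [Sq]

open BGS BR BE B35
open Pool.BGR (upI)

variable {Γ : Type} [Group Γ] [MulAction Γ Pl] {D : Set Pl} {P : Dt} {κ : ℝ}
  {ν : ℕ → Measure I}

private theorem GB1_pos (κ : ℝ) (k : ℕ) : 0 < Lm κ k := by
  unfold Lm
  positivity

private theorem GB1_mono {κ κ' : ℝ} (h : κ ≤ κ') (k : ℕ) : Lm κ k ≤ Lm κ' k := by
  unfold Lm
  refine Real.rpow_le_rpow_of_exponent_le ?_ h
  have : (0 : ℝ) ≤ bk k := Nat.cast_nonneg _
  linarith

private theorem GB1_zero (k : ℕ) : Lm 0 k = 1 := by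
  unfold Lm
  exact Real.rpow_zero _

private theorem GB1_neg_one {c : ℝ} (hc : 0 ≤ c) (k : ℕ) : Lm (-c) k ≤ 1 := by
  rw [← GB1_zero k]
  exact GB1_mono (by linarith) k

/-- powers of `2 ^ k` -/
private theorem GB1_two (A c : ℝ) {d : ℝ} (hd : 0 < d) :
    ∀ᶠ k : ℕ in atTop, A * (2 ^ k : ℝ) ^ (-d : ℝ) ≤ Lm (-c) k := by
  filter_upwards [Lm_sub c (A := A) hd] with k hk
  have h1 : Lm c k * Lm (-c) k = 1 := by
    rw [← Lm_add, add_neg_cancel, GB1_zero]
  have h2 : (2 ^ k : ℝ) ^ (-d : ℝ) * (2 : ℝ) ^ (d * k) = 1 := by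
    rw [← Real.rpow_natCast, ← Real.rpow_mul (by norm_num), ← Real.rpow_add (by norm_num)]
    have : (k : ℝ) * -d + d * k = 0 := by ring
    rw [this, Real.rpow_zero]
  have h3 := GB1_pos (-c) k
  have h4 : 0 < (2 ^ k : ℝ) ^ (-d : ℝ) := by positivity
  calc A * (2 ^ k : ℝ) ^ (-d : ℝ) = A * (Lm c k * Lm (-c) k) * (2 ^ k : ℝ) ^ (-d : ℝ) := by
        rw [h1, mul_one]
    _ = (A * Lm c k) * ((2 ^ k : ℝ) ^ (-d : ℝ) * Lm (-c) k) := by ring
    _ ≤ (2 : ℝ) ^ (d * k) * ((2 ^ k : ℝ) ^ (-d : ℝ) * Lm (-c) k) :=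
        mul_le_mul_of_nonneg_right hk (by positivity)
    _ = ((2 ^ k : ℝ) ^ (-d : ℝ) * (2 : ℝ) ^ (d * k)) * Lm (-c) k := by ring
    _ = Lm (-c) k := by rw [h2, one_mul]

private theorem GB1_t_pos (p : Pr) (k : ℕ) : 0 < p.t k := Real.exp_pos _

private theorem GB1_t (p : Pr) (hp : 0 < p.δ) (C : ℝ) : ∀ᶠ k : ℕ in atTop, C * p.t k ≤ 1 := by
  filter_upwards [t_beats p hp 0 |C| 0] with k hk
  rw [zero_mul, neg_zero, Real.rpow_zero] at hk
  refine le_trans ?_ hk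
  refine mul_le_mul_of_nonneg_right ?_ (GB1_t_pos p k).le
  rw [GB1_zero, mul_one]
  have h1 := Real.add_one_le_exp (|C| + |C| * k)
  have h2 := le_abs_self C
  have h3 : 0 ≤ |C| * (k : ℝ) := by positivity
  linarith

private theorem GB1_mem_Tu {P0 J : Type} [Fintype J] {Q : Finset (Ag P0)} {F : J → Ag P0 × Bool}
    (hF : F ∈ Tu J Q) (j : J) : (F j).1 ∈ Q := by
  classical
  unfold Tu at hF
  have h := Fintype.mem_piFinset.mp hF j
  exact (Finset.mem_product.mp h).1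

theorem hb_block (hP : Ok Γ D P) (hν : Law ν) (hκ : 0 < κ) {u v : ℝ} (hu : 0 < u) (huv : u < v)
    (r r' : ℕ) : ∃ δ0 : ℝ, 0 < δ0 ∧ ∀ p : Pr, p.Ok → p.δ ≤ δ0 →
    ∃ κ0 c C1 : ℝ, 0 < κ0 ∧ 0 < c ∧ 1 ≤ C1 ∧ ∀ κ1 : ℝ, 0 < κ1 → κ1 ≤ κ0 → ∀ M : ℕ → ℝ,
    ∃ (C : ℝ) (k0 : ℕ), 1 ≤ C ∧ ∀ k ≥ k0, ∀ ξ ∈ Bs P p Γ D κ k, ∀ a : ℝ → ℂ,
      Am M (Lm κ1 k) a →
      ∃ Bd : (Fin r ⊕ Fin r' → Bool) → Finset (Fin r ⊕ Fin r' → Ag (GH.PG Γ)),
        HB (Pm ν) u v (2 ^ k) r r' (Cs (Γ := Γ) (Y0 P p Γ D k ξ) (Lm (2 * κ1) k))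
          (wg (Y0 P p Γ D k ξ)) (C * Lm (C1 * κ1) k) (Lm (-c) k) (C * p.t k) (C * p.t k)
          (Lm (-c) k)
          (fun τ η q => zt (Y0 P p Γ D k ξ) (Y P p Γ D k (mix (bk k) ξ η)) k (Nk κ1 k)
            (Ra p k a) τ q)
          (fun η q => mt (Y P p Γ D k (mix (bk k) ξ η)) (Ra p k a) q)
          (fun η g => lp (Y P p Γ D k (mix (bk k) ξ η)) g)
          (fun q => mt (Y0 P p Γ D k ξ) (Ra p k a) q) Bd ∧
        ∑ e : Fin r ⊕ Fin r' → Bool, ∑ q ∈ Bd e, ∏ i, wg (Y0 P p Γ D k ξ) (q i) ≤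
          Lm (-c) k := by
  have hpr := hν.prob
  have hv : 0 < v := hu.trans huv
  obtain ⟨δa, hδa, h2⟩ := fact2 hP hκ hu huv
  obtain ⟨δb, hδb, hd⟩ := decor hP hν hκ hu huv (Fin r ⊕ Fin r')
  refine ⟨min δa δb, lt_min hδa hδb, fun p hp hpδ => ?_⟩
  have hpa : p.δ ≤ δa := hpδ.trans (min_le_left _ _)
  have hpb : p.δ ≤ δb := hpδ.trans (min_le_right _ _)
  obtain ⟨κu, cu, ku, hκu, hcu, hun⟩ := undet hP hκ hp (Fin r ⊕ Fin r') (max v (1 / u))
  obtain ⟨Cw, kw, hCw, hw⟩ := wts hP hκ hp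
  obtain ⟨kn, hneg'⟩ := block_neg hP hκ
  obtain ⟨c, hc⟩ : ∃ c : ℝ, c = cu / 2 := ⟨_, rfl⟩
  have hc0 : 0 < c := by rw [hc]; positivity
  have hccu : c ≤ cu := by rw [hc]; linarith
  refine ⟨min (κu / 2) (1 / 10), c, 2 * Cw + 2, lt_min (half_pos hκu) (by norm_num), hc0,
    by linarith, fun κ1 hκ1 hκ1' M => ?_⟩
  have hκ1u : κ1 ≤ κu / 2 := hκ1'.trans (min_le_left _ _)
  have hκ1t : κ1 ≤ 1 / 10 := hκ1'.trans (min_le_right _ _)
  obtain ⟨C2, k2, h2⟩ := h2 p hp hpa κ1 hκ1 M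
  obtain ⟨Cd, kd, hd⟩ := hd p hp hpb κ1 hκ1 hκ1t M
  obtain ⟨k3, h3⟩ := fact3 hP hκ hp hκ1 M
  obtain ⟨C, hC⟩ : ∃ C : ℝ, C = 1 + |C2| + |Cd| + 5 * |M 0| + Cw := ⟨_, rfl⟩
  have habs2 := le_abs_self C2
  have habsd := le_abs_self Cd
  have habsM := le_abs_self (M 0)
  have han2 := abs_nonneg C2
  have hand := abs_nonneg Cd
  have hanM := abs_nonneg (M 0)
  have hC1 : 1 ≤ C := by rw [hC]; linarith
  have hCwC : Cw ≤ C := by rw [hC]; linarith
  have hC2C : C2 ≤ C := by rw [hC]; linarith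
  have hCdC : Cd ≤ C := by rw [hC]; linarith
  have hMC : 5 * M 0 ≤ C := by rw [hC]; linarith
  have hev : ∀ᶠ k : ℕ in atTop, (k2 ≤ k ∧ k3 ≤ k ∧ kw ≤ k ∧ kd ≤ k ∧ ku ≤ k ∧ kn ≤ k) ∧
      2 * (2 ^ k : ℝ) ^ (-(1 / 4) : ℝ) ≤ Lm (-c) k ∧
      1 * (2 ^ k : ℝ) ^ (-(1 / 12) : ℝ) ≤ Lm (-c) k ∧
      C * p.t k ≤ 1 ∧
      ((Fintype.card (Fin r ⊕ Fin r' → Bool) : ℕ) : ℝ) * Lm (-cu) k ≤ Lm (-c) k ∧
      2 / u * Lm (-c) k ≤ Lm 0 k := by
    filter_upwards [eventually_ge_atTop k2, eventually_ge_atTop k3, eventually_ge_atTop kw,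
      eventually_ge_atTop kd, eventually_ge_atTop ku, eventually_ge_atTop kn,
      GB1_two 2 c (d := 1 / 4) (by norm_num), GB1_two 1 c (d := 1 / 12) (by norm_num),
      GB1_t p hp.pos C,
      Lm_lt (show -cu < -c by rw [hc]; linarith)
        ((Fintype.card (Fin r ⊕ Fin r' → Bool) : ℕ) : ℝ),
      Lm_lt (show -c < 0 by linarith) (2 / u)] with k a1 a2 a3 a4 a5 a6 a7 a8 a9 a10 a11
    exact ⟨⟨a1, a2, a3, a4, a5, a6⟩, a7, a8, a9, a10, a11⟩
  obtain ⟨k0, hk0⟩ := eventually_atTop.mp hev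
  refine ⟨C, k0, hC1, fun k hk ξ hξ a ha => ?_⟩
  obtain ⟨⟨hk2, hk3, hkw, hkd, hku, hkn⟩, e2, e3, e4, e5, e6⟩ := hk0 k hk
  rw [one_mul] at e3
  rw [GB1_zero] at e6
  -- the base metric
  have hX := hP.cx.hX
  have hm0 : HM Γ (Y0 P p Γ D k ξ) := Y0_hm hP hκ hξ
  have hnegη : ∀ (η : Dir → I) (z : Pl), curv (Y P p Γ D k (mix (bk k) ξ η)) z < 0 := fun η z => by
    have h := hneg' p hp k hkn ξ hξ η z
    have : (0 : ℝ) < (κ / 2) ^ 2 := by positivity
    linarith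
  have hCs : ∀ q : Cg Γ, q ∈ Cs (Γ := Γ) (Y0 P p Γ D k ξ) (Lm (2 * κ1) k) ↔
      ln (Y0 P p Γ D k ξ) q ≤ Lm (2 * κ1) k := fun q => Cs_mem hX hP.ori hm0
  obtain ⟨hw1, hw2, hw3⟩ := hw k hkw ξ hξ
  have hL1 : 1 ≤ Lm (2 * κ1) k := Lm_one _ (by linarith) k
  obtain ⟨-, -, hw6⟩ := hw3 (Lm (2 * κ1) k) hL1
  rw [Lm_pow] at hw6
  have hV1 : 1 ≤ Lm ((2 * Cw + 2) * κ1) k := Lm_one _ (by positivity) k
  have hVC : C ≤ C * Lm ((2 * Cw + 2) * κ1) k := by
    have := mul_le_mul_of_nonneg_left hV1 (show 0 ≤ C by linarith)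
    linarith
  have htwo : (0 : ℝ) < 2 ^ k := by positivity
  have hexpc : (0 : ℝ) < Lm (-c) k := GB1_pos _ _
  have hexp1 : Lm (-c) k ≤ 1 := GB1_neg_one hc0.le k
  have htk := GB1_t_pos p k
  -- the approximation by the leading term
  have happ : ∀ (η : Dir → I) (τ : ℝ), u * 2 ^ k ≤ τ → τ ≤ v * 2 ^ k →
      ∀ q ∈ Cs (Γ := Γ) (Y0 P p Γ D k ξ) (Lm (2 * κ1) k),
      ‖zt (Y0 P p Γ D k ξ) (Y P p Γ D k (mix (bk k) ξ η)) k (Nk κ1 k) (Ra p k a) τ q -
        mz (Y P p Γ D k (mix (bk k) ξ η)) (Ra p k a) τ q‖ ≤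
        Lm (-c) k * wg (Y0 P p Γ D k ξ) q + C * p.t k := by
    intro η τ hτ1 hτ2 q hq
    have h := h2 k hk2 ξ hξ η a ha τ hτ1 hτ2 q ((hCs q).1 hq)
    refine h.trans ?_
    exact add_le_add (mul_le_mul_of_nonneg_right e2 (hw1 q).1)
      (mul_le_mul_of_nonneg_right hC2C htk.le)
  -- measurability
  have hmeas : ∀ q : Cg Γ, Measurable fun x : ℝ × (Dir → I) =>
      zt (Y0 P p Γ D k ξ) (Y P p Γ D k (mix (bk k) ξ x.2)) k (Nk κ1 k) (Ra p k a) x.1 q := by
    intro q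
    have h1 := meas_zt hP hp hκ1.le k (Nk κ1 k) ha hm0 q
    have h2' : Measurable fun x : ℝ × (Dir → I) =>
        ((⟨mix (bk k) ξ x.2, hnegη x.2⟩ :
          {ξ : Dir → I // ∀ z, curv (Y P p Γ D k ξ) z < 0}), x.1) := by
      refine Measurable.prodMk ?_ measurable_fst
      refine Measurable.subtype_mk ?_
      exact (meas_mix (bk k)).comp (measurable_const.prodMk measurable_snd)
    have h3' := Measurable.comp h1 h2'
    exact h3'
  have hcj : ∀ e : Bool, Measurable (cj e) := by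
    intro e
    unfold cj
    cases e
    · simpa using Complex.continuous_conj.measurable
    · simpa using measurable_id'
  have hcjn : ∀ (e : Bool) (z : ℂ), ‖cj e z‖ = ‖z‖ := by
    intro e z
    unfold cj
    cases e <;> simp
  have hPm : IsProbabilityMeasure (Pm ν) := Pm_prob hpr
  choose Bd hBd1 hBd2 using fun e => hun k hku ξ hξ e
  refine ⟨Bd, ?_, ?_⟩
  · refine ⟨hPm, hu, huv, ?_, ?_, ⟨hexpc.le, hexp1⟩, ⟨by positivity, e4⟩, by positivity,
      ⟨hexpc.le, ?_⟩, hmeas, ?_, ?_, ?_, ?_⟩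
    · exact one_le_pow₀ (by norm_num)
    · -- weights
      refine ⟨by linarith, fun q => (hw1 q).1, fun q => ((hw1 q).2.trans hCwC).trans hVC, ?_, ?_⟩
      · refine hw6.trans ?_
        refine mul_le_mul hCwC (GB1_mono ?_ k) (GB1_pos _ _).le (by linarith)
        have : 0 ≤ κ1 := hκ1.le
        nlinarith
      · intro q hq
        have hl := (hCs q).mp hq
        have hlp := hw2 q.1
        have hCwp : 0 < Cw := by linarith
        have h1 : ((q.2.1 : ℝ) + 1) * Cw⁻¹ ≤ Lm (2 * κ1) k := by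
          refine le_trans ?_ hl
          rw [ln]
          gcongr
        have h2'' : (q.2.1 : ℝ) + 1 ≤ Cw * Lm (2 * κ1) k := by
          have := mul_le_mul_of_nonneg_left h1 hCwp.le
          calc (q.2.1 : ℝ) + 1 = Cw * (((q.2.1 : ℝ) + 1) * Cw⁻¹) := by field_simp
            _ ≤ Cw * Lm (2 * κ1) k := this
        refine h2''.trans ?_
        refine mul_le_mul hCwC (GB1_mono ?_ k) (GB1_pos _ _).le (by linarith)
        have : 0 ≤ κ1 := hκ1.le
        nlinarith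
    · -- θ < u
      have h1 : 2 * Lm (-c) k ≤ u := by
        have h2' := mul_le_mul_of_nonneg_left e6 hu.le
        have h3' : u * (2 / u * Lm (-c) k) = 2 * Lm (-c) k := by field_simp
        linarith
      linarith
    · intro τ hτ1 hτ2 η q hq
      exact happ η τ hτ1 hτ2 q hq
    · intro η q hq
      have h := (h3 k hk3 ξ hξ η a ha q ((hCs q).1 hq)).1
      exact h.trans (mul_le_mul_of_nonneg_right e3 (hw1 q).1)
    · intro q hq
      have h := (h3 k hk3 ξ hξ (fun _ => 0) a ha q ((hCs q).1 hq)).2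
      exact h.trans (mul_le_mul_of_nonneg_right (hMC.trans hVC) (hw1 q).1)
    · -- undetected tuples
      intro F hF τ τ' hτ1 hτ2 hτ1' hτ2'
      have hFq : ∀ j, (F j).1 ∈ Cs (Γ := Γ) (Y0 P p Γ D k ξ) (Lm (2 * κ1) k) := by
        exact fun j => GB1_mem_Tu hF j
      have hFl : ∀ j, ln (Y0 P p Γ D k ξ) (F j).1 ≤ Lm (2 * κ1) k := fun j => (hCs _).mp (hFq j)
      have hFu : ∀ j, ln (Y0 P p Γ D k ξ) (F j).1 ≤ Lm κu k := fun j =>
        (hFl j).trans (GB1_mono (by linarith) k)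
      set tt : Fin r ⊕ Fin r' → ℝ := Sum.elim (fun _ => τ) (fun _ => τ') with htt
      have htt1 : ∀ j, u * 2 ^ k ≤ tt j ∧ tt j ≤ v * 2 ^ k := by
        intro j
        cases j with
        | inl j => exact ⟨hτ1, hτ2⟩
        | inr j => exact ⟨hτ1', hτ2'⟩
      by_cases hdet : ∃ cc ∈ grid P.L (bk k + 1), ((bk k : ℝ) + 1) ^ (-(3 / 2) : ℝ) ≤
          |∑ j, sgn (F j).2 * (tt j / 2 ^ k) * ((F j).1.2.1 + 1) *
            vis (Y0 P p Γ D k ξ) (bk k + 1) cc (F j).1.1|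
      · left
        obtain ⟨cc, hcc, hdc⟩ := hdet
        have hdec := fun η => hd k hkd ξ hξ η a ha (fun j => (F j).1) (fun j => (F j).2) tt
          hFl htt1 cc hcc hdc
        -- the function
        set f : (Dir → I) → ℂ := fun ζ => ∏ j, cj (F j).2 (zt (Y0 P p Γ D k ξ) (Y P p Γ D k ζ) k
          (Nk κ1 k) (Ra p k a) (tt j) (F j).1) with hf
        have hfm : Measurable fun η => f (mix (bk k) ξ η) := by
          refine Finset.measurable_prod _ fun j _ => ?_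
          have s1 : Measurable fun η : Dir → I => (tt j, η) := measurable_const.prodMk measurable_id
          have s2 := Measurable.comp (hmeas (F j).1) s1
          have s3 := Measurable.comp (hcj (F j).2) s2
          exact s3
        have hfb : ∃ B : ℝ, ∀ η, ‖f (mix (bk k) ξ η)‖ ≤ B := by
          refine ⟨∏ j, (1 * wg (Y0 P p Γ D k ξ) (F j).1 + 1 + 1 * wg (Y0 P p Γ D k ξ) (F j).1 +
            5 * M 0 * wg (Y0 P p Γ D k ξ) (F j).1), fun η => ?_⟩
          rw [hf]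
          simp only [norm_prod, hcjn]
          refine Finset.prod_le_prod (fun _ _ => norm_nonneg _) fun j _ => ?_
          have b1 := happ η (tt j) (htt1 j).1 (htt1 j).2 (F j).1 (hFq j)
          have b2 := h3 k hk3 ξ hξ η a ha (F j).1 (hFl j)
          have hwq := (hw1 (F j).1).1
          have b3 : ‖mz (Y P p Γ D k (mix (bk k) ξ η)) (Ra p k a) (tt j) (F j).1‖ =
              ‖mt (Y P p Γ D k (mix (bk k) ξ η)) (Ra p k a) (F j).1‖ := by
            rw [mz, norm_mul]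
            have : -(Complex.I * (tt j : ℂ) *
                ((ln (Y P p Γ D k (mix (bk k) ξ η)) (F j).1 : ℝ) : ℂ)) =
                ((-(tt j * ln (Y P p Γ D k (mix (bk k) ξ η)) (F j).1) : ℝ) : ℂ) * Complex.I := by
              push_cast; ring
            rw [this, Complex.norm_exp_ofReal_mul_I, mul_one]
          have b4 : ‖zt (Y0 P p Γ D k ξ) (Y P p Γ D k (mix (bk k) ξ η)) k (Nk κ1 k) (Ra p k a)
              (tt j) (F j).1‖ ≤ ‖zt (Y0 P p Γ D k ξ) (Y P p Γ D k (mix (bk k) ξ η)) k (Nk κ1 k)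
              (Ra p k a) (tt j) (F j).1 - mz (Y P p Γ D k (mix (bk k) ξ η)) (Ra p k a) (tt j)
              (F j).1‖ + ‖mz (Y P p Γ D k (mix (bk k) ξ η)) (Ra p k a) (tt j) (F j).1‖ := by
            have := norm_add_le (zt (Y0 P p Γ D k ξ) (Y P p Γ D k (mix (bk k) ξ η)) k (Nk κ1 k)
              (Ra p k a) (tt j) (F j).1 - mz (Y P p Γ D k (mix (bk k) ξ η)) (Ra p k a) (tt j)
              (F j).1) (mz (Y P p Γ D k (mix (bk k) ξ η)) (Ra p k a) (tt j) (F j).1)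
            rwa [sub_add_cancel] at this
          have b5 : ‖mt (Y P p Γ D k (mix (bk k) ξ η)) (Ra p k a) (F j).1‖ ≤
              ‖mt (Y P p Γ D k (mix (bk k) ξ η)) (Ra p k a) (F j).1 -
                mt (Y0 P p Γ D k ξ) (Ra p k a) (F j).1‖ +
              ‖mt (Y0 P p Γ D k ξ) (Ra p k a) (F j).1‖ := by
            have := norm_add_le (mt (Y P p Γ D k (mix (bk k) ξ η)) (Ra p k a) (F j).1 -
                mt (Y0 P p Γ D k ξ) (Ra p k a) (F j).1) (mt (Y0 P p Γ D k ξ) (Ra p k a) (F j).1)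
            rwa [sub_add_cancel] at this
          have b6 : Lm (-c) k * wg (Y0 P p Γ D k ξ) (F j).1 ≤
              1 * wg (Y0 P p Γ D k ξ) (F j).1 := mul_le_mul_of_nonneg_right hexp1 hwq
          have b7 := b2.1.trans (mul_le_mul_of_nonneg_right e3 hwq)
          linarith [b2.2]
        have hsl := slice hpr (bk k) cc ξ (f := f) hfm hfb
        have htm : ∀ η, tm (fun i => (fun q => zt (Y0 P p Γ D k ξ) (Y P p Γ D k (mix (bk k) ξ η)) k
            (Nk κ1 k) (Ra p k a) (tt i) q)) F = (1 / 2 : ℂ) ^ (Fintype.card (Fin r ⊕ Fin r')) *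
              f (mix (bk k) ξ η) := by
          intro η
          rw [tm, Finset.prod_mul_distrib, Finset.prod_const, Finset.card_univ]
        have hint : ∫ η, tm (fun i => (fun q => zt (Y0 P p Γ D k ξ)
            (Y P p Γ D k (mix (bk k) ξ η)) k (Nk κ1 k) (Ra p k a) (tt i) q)) F ∂Pm ν =
            (1 / 2 : ℂ) ^ (Fintype.card (Fin r ⊕ Fin r')) *
              ∫ η, (∫ t : I, f (upI (mix (bk k) ξ η) (bk k, cc) t) ∂ν (bk k)) ∂Pm ν := by
          rw [← hsl, ← integral_const_mul]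
          exact integral_congr_ae (Eventually.of_forall htm)
        have hbd : ‖∫ η, (∫ t : I, f (upI (mix (bk k) ξ η) (bk k, cc) t) ∂ν (bk k)) ∂Pm ν‖ ≤
            Cd * p.t k := by
          have := norm_integral_le_of_norm_le_const (μ := Pm ν)
            (f := fun η => ∫ t : I, f (upI (mix (bk k) ξ η) (bk k, cc) t) ∂ν (bk k))
            (C := Cd * p.t k) (Eventually.of_forall hdec)
          simpa using this
        change ‖∫ η, tm (fun i => (fun q => zt (Y0 P p Γ D k ξ) (Y P p Γ D k (mix (bk k) ξ η)) k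
            (Nk κ1 k) (Ra p k a) (tt i) q)) F ∂Pm ν‖ ≤ C * p.t k
        rw [hint, norm_mul, norm_pow]
        have hhalf : ‖(1 / 2 : ℂ)‖ ^ (Fintype.card (Fin r ⊕ Fin r')) ≤ 1 := by
          refine pow_le_one₀ (norm_nonneg _) ?_
          norm_num
        calc ‖(1 / 2 : ℂ)‖ ^ (Fintype.card (Fin r ⊕ Fin r')) *
              ‖∫ η, (∫ t : I, f (upI (mix (bk k) ξ η) (bk k, cc) t) ∂ν (bk k)) ∂Pm ν‖
            ≤ 1 * ‖∫ η, (∫ t : I, f (upI (mix (bk k) ξ η) (bk k, cc) t) ∂ν (bk k)) ∂Pm ν‖ := by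
              gcongr
          _ ≤ Cd * p.t k := by rw [one_mul]; exact hbd
          _ ≤ C * p.t k := by gcongr
      · right
        by_cases hB : (fun i => (F i).1) ∈ Bd (fun i => (F i).2)
        · left; exact hB
        · right
          intro g
          push Not at hdet
          have hun' := hBd2 (fun i => (F i).2) (fun i => (F i).1) hB hFu
            (fun j => sgn (F j).2 * (tt j / 2 ^ k)) (by
              intro j
              have h1 : u ≤ tt j / 2 ^ k := by rw [le_div_iff₀ htwo]; exact (htt1 j).1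
              have h2' : tt j / 2 ^ k ≤ v := by rw [div_le_iff₀ htwo]; exact (htt1 j).2
              have hs : sgn (F j).2 * sgn (F j).2 = 1 := by
                unfold sgn; cases (F j).2 <;> norm_num
              have hsa : |sgn (F j).2| = 1 := by
                unfold sgn; cases (F j).2 <;> norm_num
              have hpos : 0 < tt j / 2 ^ k := hu.trans_le h1
              refine ⟨?_, ?_, ?_⟩
              · rw [← mul_assoc, hs, one_mul]; exact hpos
              · rw [abs_mul, hsa, one_mul, abs_of_pos hpos]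
                refine le_trans ?_ h1
                have : 1 / u ≤ max v (1 / u) := le_max_right _ _
                calc (max v (1 / u))⁻¹ ≤ (1 / u)⁻¹ := by gcongr
                  _ = u := by simp
              · rw [abs_mul, hsa, one_mul, abs_of_pos hpos]
                exact h2'.trans (le_max_left _ _))
            (by
              intro cc hcc
              exact (hdet cc hcc).le) g
          have hfin : ((bk k : ℝ) + 1) ^ (-cu) ≤ Lm (-c) k := GB1_mono (by linarith) k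
          exact hun'.trans hfin
  · calc ∑ e : Fin r ⊕ Fin r' → Bool, ∑ q ∈ Bd e, ∏ i, wg (Y0 P p Γ D k ξ) (q i)
        ≤ ∑ _e : Fin r ⊕ Fin r' → Bool, Lm (-cu) k :=
          Finset.sum_le_sum fun e _ => hBd1 e
      _ = (Fintype.card (Fin r ⊕ Fin r' → Bool) : ℝ) * Lm (-cu) k := by
          rw [Finset.sum_const, Finset.card_univ, nsmul_eq_mul]
      _ ≤ Lm (-c) k := e5

end F37
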