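import Pool.Agent.LibBE37F.GB1
import Pool.Agent.LibBE37F.GR11
import Pool.Agent.LibB35.GB2

/-! ROW GB2 : the block theorem. MEDIUM. MODEL: LibB35/GB2.lean (adapt it). PLAN. `hb_block` and `comb` (LibB35/GR10c): the right side is `C' V^C' ((card + 1)^(r+r') 2 C p.t k + 3 Lm (-c) k)` with `V^C' = C^C' Lm (C1 κ1 C') k` (`Lm_pow`); `card ≤ exp (C Lm (2 κ1) k)` (`wts`) and `t_beats`;
choose `κ0 = min (κ0 (hb_block)) (c / (4 C1 C'))`: the total is `≤ Lm (-c/2) k` eventually (`Lm_lt`, `Lm_add`). Replace `Sb` by the sum of the real parts (`fact1`): `|x^r y^r' - x'^r y'^r'|` with `|x - x'| ≤ exp (C Lm) p.t k` and sizes `≤ exp (C Lm (2 κ1) k)` (`fact2`, `fact3`, `wts`), `t_beats`.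
Fubini between `η` and `τ, τ'` (`meas_Sb`, bounded), the `if` in `Mom` is true by `block_neg`. `block1` (one fixed time): the same with `comb1` (GR11) and `hb_block` with `r' = 0`. -/

open MeasureTheory Set Filter Topology
open scoped ContDiff unitInterval

namespace F37

variable [Sq]

open BGS BR BE B35

variable {Γ : Type} [Group Γ] [MulAction Γ Pl] {D : Set Pl} {P : Dt} {κ : ℝ}
  {ν : ℕ → Measure I}

private theorem B2_mono {κ κ' : ℝ} (h : κ ≤ κ') (k : ℕ) : Lm κ k ≤ Lm κ' k := by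
  unfold Lm
  refine Real.rpow_le_rpow_of_exponent_le ?_ h
  have : (0 : ℝ) ≤ (bk k : ℝ) := Nat.cast_nonneg _
  linarith

private theorem B2_pos (κ : ℝ) (k : ℕ) : 0 < Lm κ k := by
  unfold Lm
  positivity

private theorem B2_inv (κ : ℝ) (k : ℕ) : Lm κ k * Lm (-κ) k = 1 := by
  rw [← Lm_add, add_neg_cancel]
  unfold Lm
  exact Real.rpow_zero _

private theorem B2_t0 (p : Pr) (k : ℕ) : 0 < p.t k := Real.exp_pos _

private theorem B2_num (p : Pr) (hp : 0 < p.δ) (n : ℕ) {Cw C Cf Cc C1 κ1 c : ℝ} (hCw : 1 ≤ Cw)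
    (hC : 1 ≤ C) (hCc : 1 ≤ Cc) (hκ1 : 0 < κ1) (hc : 0 < c)
    (hcc : C1 * κ1 * Cc ≤ c / 4) :
    ∃ k0 : ℕ, ∀ k ≥ k0, Real.exp (Cf * Lm (2 * κ1) k) * p.t k ≤ 1 ∧ ∀ q : ℝ, 0 ≤ q →
      q ≤ Real.exp (Cw * Lm (2 * κ1) k) →
      n * (q * (4 * (C * Lm (C1 * κ1) k) ^ 2) + 1) ^ n *
          (Real.exp (Cf * Lm (2 * κ1) k) * p.t k) +
        Cc * (C * Lm (C1 * κ1) k) ^ Cc * ((q + 1) ^ n * (C * p.t k + C * p.t k) +
          3 * Lm (-c) k) ≤ Lm (-(c / 2)) k := by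
  set κ' : ℝ := max (2 * κ1) (C1 * κ1) with hκ'
  set K : ℝ := n * (5 * C ^ 2) ^ n + 2 * C * Cc * C ^ Cc * 2 ^ n with hK
  have hC0 : 0 < C := by linarith
  have hK0 : 0 ≤ K := by positivity
  set E : ℝ := n * (Cw + 2) + |Cf| + Cc with hE
  have hE0 : 0 ≤ E := by positivity
  obtain ⟨k1, hk1⟩ := eventually_atTop.1 (t_beats p hp κ' (E + K) 1)
  obtain ⟨k2, hk2⟩ := eventually_atTop.1 (Lm_lt (show -(3 * c / 4) < -(c / 2) by linarith)
    (6 * Cc * C ^ Cc))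
  obtain ⟨k3, hk3⟩ := eventually_atTop.1 (Lm_sub (c / 2) (A := 2) one_pos)
  refine ⟨max (max k1 k2) (max k3 1), fun k hk => ?_⟩
  simp only [ge_iff_le, max_le_iff] at hk
  obtain ⟨⟨hk1', hk2'⟩, hk3', hk4'⟩ := hk
  have e1 := hk1 k hk1'
  have e2 := hk2 k hk2'
  have e3 := hk3 k hk3'
  have hkR : (1 : ℝ) ≤ k := by exact_mod_cast hk4'
  set L' : ℝ := Lm κ' k with hL'
  have hκ'0 : 0 ≤ κ' := le_trans (by positivity) (le_max_left _ _)
  have hL1 : 1 ≤ L' := Lm_one κ' hκ'0 k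
  have hL2 : Lm (2 * κ1) k ≤ L' := B2_mono (le_max_left _ _) k
  have hL3 : Lm (C1 * κ1) k ≤ L' := B2_mono (le_max_right _ _) k
  have hp2 := B2_pos (2 * κ1) k
  have hp3 := B2_pos (C1 * κ1) k
  have ht0 : 0 < p.t k := B2_t0 p k
  have hk2k : (2 : ℝ) ^ (-(1 * (k : ℝ))) ≤ 1 / 2 * Lm (-(c / 2)) k := by
    have h1 := B2_inv (c / 2) k
    have h2 := B2_pos (c / 2) k
    have h3 := B2_pos (-(c / 2)) k
    have h4 : (2 : ℝ) ^ (1 * (k : ℝ)) * (2 : ℝ) ^ (-(1 * (k : ℝ))) = 1 := by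
      rw [← Real.rpow_add two_pos, add_neg_cancel, Real.rpow_zero]
    have h5 : (0 : ℝ) < (2 : ℝ) ^ (-(1 * (k : ℝ))) := Real.rpow_pos_of_pos two_pos _
    have h6 := mul_le_mul_of_nonneg_right (mul_le_mul_of_nonneg_right e3 h5.le) h3.le
    have h7 : 2 * Lm (c / 2) k * (2 : ℝ) ^ (-(1 * (k : ℝ))) * Lm (-(c / 2)) k =
        2 * (2 : ℝ) ^ (-(1 * (k : ℝ))) * (Lm (c / 2) k * Lm (-(c / 2)) k) := by ring
    rw [h7, h1, h4] at h6
    linarith
  have hEL : Real.exp (E * L') * K * p.t k ≤ 1 / 2 * Lm (-(c / 2)) k := by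
    refine le_trans ?_ (e1.trans hk2k)
    refine mul_le_mul_of_nonneg_right ?_ ht0.le
    have h1 : K ≤ Real.exp (K * k) := by
      have h2 := Real.add_one_le_exp (K * k)
      nlinarith
    have h3 : Real.exp (E * L') * K ≤ Real.exp (E * L') * Real.exp (K * k) :=
      mul_le_mul_of_nonneg_left h1 (Real.exp_pos _).le
    refine h3.trans ?_
    rw [← Real.exp_add]
    refine Real.exp_le_exp.2 ?_
    have h4 : 0 ≤ K * L' := by positivity
    have h5 : 0 ≤ E * (k : ℝ) := by positivity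
    linarith
  have hfE : Real.exp (Cf * Lm (2 * κ1) k) ≤ Real.exp (|Cf| * L') := by
    refine Real.exp_le_exp.2 ?_
    calc Cf * Lm (2 * κ1) k ≤ |Cf| * Lm (2 * κ1) k :=
          mul_le_mul_of_nonneg_right (le_abs_self _) hp2.le
      _ ≤ |Cf| * L' := mul_le_mul_of_nonneg_left hL2 (abs_nonneg _)
  constructor
  · have h1 : Real.exp (Cf * Lm (2 * κ1) k) * p.t k ≤
        Real.exp ((E + K) * Lm κ' k + (E + K) * k) * p.t k := by
      refine mul_le_mul_of_nonneg_right (hfE.trans (Real.exp_le_exp.2 ?_)) ht0.le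
      have h2 : |Cf| ≤ E + K := by
        rw [hE]
        have : 0 ≤ (n : ℝ) * (Cw + 2) := by positivity
        linarith
      have h3 : |Cf| * L' ≤ (E + K) * L' := mul_le_mul_of_nonneg_right h2 (by linarith)
      have h4 : 0 ≤ (E + K) * (k : ℝ) := by positivity
      linarith
    refine h1.trans (e1.trans (Real.rpow_le_one_of_one_le_of_nonpos one_le_two ?_))
    have : (0 : ℝ) ≤ k := Nat.cast_nonneg k
    linarith
  intro q hq0 hq
  set V : ℝ := C * Lm (C1 * κ1) k with hV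
  have hVpos : 0 < V := by positivity
  have hVE : V ≤ C * Real.exp L' := by
    refine mul_le_mul_of_nonneg_left (hL3.trans ?_) hC0.le
    have := Real.add_one_le_exp L'
    linarith
  have hqE : q ≤ Real.exp (Cw * L') :=
    hq.trans (Real.exp_le_exp.2 (mul_le_mul_of_nonneg_left hL2 (by linarith)))
  have hVC : V ^ Cc ≤ C ^ Cc * Real.exp (Cc * L') := by
    calc V ^ Cc ≤ (C * Real.exp L') ^ Cc := Real.rpow_le_rpow hVpos.le hVE (by linarith)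
      _ = C ^ Cc * Real.exp (Cc * L') := by
          rw [Real.mul_rpow hC0.le (Real.exp_pos _).le, ← Real.exp_mul, mul_comm L' Cc]
  have hVC' : V ^ Cc * Lm (-c) k ≤ C ^ Cc * Lm (-(3 * c / 4)) k := by
    have h1 : V ^ Cc = C ^ Cc * Lm (C1 * κ1 * Cc) k := by
      rw [hV, Real.mul_rpow hC0.le hp3.le, Lm_pow]
    rw [h1, mul_assoc, ← Lm_add]
    exact mul_le_mul_of_nonneg_left (B2_mono (by linarith) k) (by positivity)
  have hX3 : Cc * V ^ Cc * (3 * Lm (-c) k) ≤ 1 / 2 * Lm (-(c / 2)) k := by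
    have h1 : Cc * V ^ Cc * (3 * Lm (-c) k) = 3 * Cc * (V ^ Cc * Lm (-c) k) := by ring
    rw [h1]
    have h2 := mul_le_mul_of_nonneg_left hVC' (by positivity : (0 : ℝ) ≤ 3 * Cc)
    have h3 : 3 * Cc * (C ^ Cc * Lm (-(3 * c / 4)) k) =
        1 / 2 * (6 * Cc * C ^ Cc * Lm (-(3 * c / 4)) k) := by ring
    linarith
  have hexp1 : 1 ≤ Real.exp ((Cw + 2) * L') := Real.one_le_exp (by positivity)
  have hbase : q * (4 * V ^ 2) + 1 ≤ 5 * C ^ 2 * Real.exp ((Cw + 2) * L') := by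
    have h1 : V ^ 2 ≤ C ^ 2 * Real.exp (2 * L') := by
      calc V ^ 2 ≤ (C * Real.exp L') ^ 2 := pow_le_pow_left₀ hVpos.le hVE 2
        _ = C ^ 2 * Real.exp (2 * L') := by
            rw [mul_pow, ← Real.exp_nat_mul]
            norm_num
    have h2 : q * (4 * V ^ 2) ≤ Real.exp (Cw * L') * (4 * (C ^ 2 * Real.exp (2 * L'))) := by
      gcongr
    have h3 : Real.exp (Cw * L') * (4 * (C ^ 2 * Real.exp (2 * L'))) =
        4 * C ^ 2 * Real.exp ((Cw + 2) * L') := by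
      rw [add_mul, Real.exp_add]
      ring
    have h4 : 1 ≤ C ^ 2 := one_le_pow₀ hC
    nlinarith
  have hX1 : n * (q * (4 * V ^ 2) + 1) ^ n * (Real.exp (Cf * Lm (2 * κ1) k) * p.t k) ≤
      n * (5 * C ^ 2) ^ n * Real.exp (E * L') * p.t k := by
    have h1 : (q * (4 * V ^ 2) + 1) ^ n ≤ (5 * C ^ 2) ^ n * Real.exp (n * ((Cw + 2) * L')) := by
      rw [Real.exp_nat_mul, ← mul_pow]
      exact pow_le_pow_left₀ (by positivity) hbase n
    calc n * (q * (4 * V ^ 2) + 1) ^ n * (Real.exp (Cf * Lm (2 * κ1) k) * p.t k)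
        ≤ n * ((5 * C ^ 2) ^ n * Real.exp (n * ((Cw + 2) * L'))) *
          (Real.exp (|Cf| * L') * p.t k) := by gcongr
      _ = n * (5 * C ^ 2) ^ n * Real.exp (n * ((Cw + 2) * L') + |Cf| * L') * p.t k := by
          rw [Real.exp_add]
          ring
      _ ≤ n * (5 * C ^ 2) ^ n * Real.exp (E * L') * p.t k := by
          refine mul_le_mul_of_nonneg_right (mul_le_mul_of_nonneg_left (Real.exp_le_exp.2 ?_)
            (by positivity)) ht0.le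
          have h2 : 0 ≤ Cc * L' := by positivity
          rw [hE]
          linarith
  have hX2 : Cc * V ^ Cc * ((q + 1) ^ n * (C * p.t k + C * p.t k)) ≤
      2 * C * Cc * C ^ Cc * 2 ^ n * Real.exp (E * L') * p.t k := by
    have h1 : (q + 1) ^ n ≤ 2 ^ n * Real.exp (n * (Cw * L')) := by
      rw [Real.exp_nat_mul, ← mul_pow]
      refine pow_le_pow_left₀ (by positivity) ?_ n
      have h2 : 1 ≤ Real.exp (Cw * L') := Real.one_le_exp (by positivity)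
      linarith
    calc Cc * V ^ Cc * ((q + 1) ^ n * (C * p.t k + C * p.t k))
        ≤ Cc * (C ^ Cc * Real.exp (Cc * L')) *
          ((2 ^ n * Real.exp (n * (Cw * L'))) * (C * p.t k + C * p.t k)) := by gcongr
      _ = 2 * C * Cc * C ^ Cc * 2 ^ n * Real.exp (Cc * L' + n * (Cw * L')) * p.t k := by
          rw [Real.exp_add]
          ring
      _ ≤ 2 * C * Cc * C ^ Cc * 2 ^ n * Real.exp (E * L') * p.t k := by
          refine mul_le_mul_of_nonneg_right (mul_le_mul_of_nonneg_left (Real.exp_le_exp.2 ?_)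
            (by positivity)) ht0.le
          have h2 : 0 ≤ |Cf| * L' := by positivity
          have h3 : 0 ≤ (n : ℝ) * (2 * L') := by positivity
          rw [hE]
          linarith
  have hsum : n * (5 * C ^ 2) ^ n * Real.exp (E * L') * p.t k +
      2 * C * Cc * C ^ Cc * 2 ^ n * Real.exp (E * L') * p.t k =
      Real.exp (E * L') * K * p.t k := by
    rw [hK]
    ring
  have hsplit : Cc * V ^ Cc * ((q + 1) ^ n * (C * p.t k + C * p.t k) + 3 * Lm (-c) k) =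
      Cc * V ^ Cc * ((q + 1) ^ n * (C * p.t k + C * p.t k)) +
        Cc * V ^ Cc * (3 * Lm (-c) k) := by ring
  rw [hsplit]
  linarith

private theorem B2_ii {f : ℝ → ℝ} (hf : Measurable f) {B a b : ℝ} (hab : a ≤ b)
    (hB : ∀ τ, |f τ| ≤ B) : IntervalIntegrable f volume a b := by
  rw [intervalIntegrable_iff_integrableOn_Ioc_of_le hab]
  exact Integrable.of_bound hf.aestronglyMeasurable B (Eventually.of_forall hB)

private theorem B2_swap {Ω : Type} [MeasurableSpace Ω] {μ : Measure Ω} [IsProbabilityMeasure μ]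
    {g h : Ω → ℝ → ℝ} (hg : Measurable fun x : Ω × ℝ => g x.1 x.2)
    (hh : Measurable fun x : Ω × ℝ => h x.1 x.2) {a b Bg Bh : ℝ} (hab : a ≤ b)
    (hgB : ∀ z τ, |g z τ| ≤ Bg) (hhB : ∀ z τ, |h z τ| ≤ Bh) :
    ∫ z, (∫ τ in a..b, g z τ) * (∫ τ in a..b, h z τ) ∂μ =
      ∫ τ in a..b, ∫ τ' in a..b, ∫ z, g z τ * h z τ' ∂μ := by
  simp only [intervalIntegral.integral_of_le hab]
  set l : Measure ℝ := volume.restrict (Ioc a b) with hl
  have hH : StronglyMeasurable fun z => ∫ τ', h z τ' ∂l :=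
    hh.stronglyMeasurable.integral_prod_right'
  have hHB : ∀ z, |∫ τ', h z τ' ∂l| ≤ Bh * l.real univ := by
    intro z
    have h1 := norm_integral_le_of_norm_le_const (μ := l) (f := fun τ' => h z τ') (C := Bh)
      (Eventually.of_forall (hhB z))
    rwa [Real.norm_eq_abs] at h1
  have i1 : Integrable (Function.uncurry fun z τ => g z τ * ∫ τ', h z τ' ∂l) (μ.prod l) := by
    refine Integrable.of_bound (hg.mul (hH.measurable.comp measurable_fst)).aestronglyMeasurable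
      (Bg * (Bh * l.real univ)) (Eventually.of_forall fun x => ?_)
    have h1 := hgB x.1 x.2
    have h2 := hHB x.1
    simp only [Function.uncurry]
    rw [Real.norm_eq_abs, abs_mul]
    exact mul_le_mul h1 h2 (abs_nonneg _) ((abs_nonneg _).trans h1)
  have i2 : ∀ τ, Integrable (Function.uncurry fun z τ' => g z τ * h z τ') (μ.prod l) := by
    intro τ
    have m1 : Measurable fun x : Ω × ℝ => g x.1 τ :=
      hg.comp (measurable_fst.prodMk measurable_const)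
    refine Integrable.of_bound (m1.mul hh).aestronglyMeasurable
      (Bg * Bh) (Eventually.of_forall fun x => ?_)
    have h1 := hgB x.1 τ
    have h2 := hhB x.1 x.2
    simp only [Function.uncurry]
    rw [Real.norm_eq_abs, abs_mul]
    exact mul_le_mul h1 h2 (abs_nonneg _) ((abs_nonneg _).trans h1)
  calc ∫ z, (∫ τ, g z τ ∂l) * (∫ τ, h z τ ∂l) ∂μ
      = ∫ z, ∫ τ, g z τ * (∫ τ', h z τ' ∂l) ∂l ∂μ := by
        refine integral_congr_ae (Eventually.of_forall fun z => ?_)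
        try dsimp only
        rw [integral_mul_const]
    _ = ∫ τ, ∫ z, g z τ * (∫ τ', h z τ' ∂l) ∂μ ∂l := integral_integral_swap i1
    _ = ∫ τ, ∫ τ', ∫ z, g z τ * h z τ' ∂μ ∂l ∂l := by
        refine integral_congr_ae (Eventually.of_forall fun τ => ?_)
        try dsimp only
        rw [← integral_integral_swap (i2 τ)]
        refine integral_congr_ae (Eventually.of_forall fun z => ?_)
        try dsimp only
        rw [integral_const_mul]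

private theorem B2_pow {x y B δ : ℝ} (hB : 0 ≤ B) (hδ : δ ≤ 1) (hy : |y| ≤ B)
    (hxy : |x - y| ≤ δ) (n : ℕ) : |x ^ n - y ^ n| ≤ n * (B + 1) ^ n * δ ∧ |x ^ n| ≤ (B + 1) ^ n ∧
      |y ^ n| ≤ (B + 1) ^ n := by
  have hx : |x| ≤ B + 1 := by
    have h1 : |x| ≤ |x - y| + |y| := by
      have := abs_add_le (x - y) y
      rwa [sub_add_cancel] at this
    linarith
  have hy' : |y| ≤ B + 1 := by linarith
  have hδ0 : 0 ≤ δ := (abs_nonneg _).trans hxy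
  refine ⟨?_, ?_, ?_⟩
  · refine (abs_pow_sub_pow_le x y n).trans ?_
    have h1 : (max |x| |y|) ^ (n - 1) ≤ (B + 1) ^ n := by
      calc (max |x| |y|) ^ (n - 1) ≤ (B + 1) ^ (n - 1) := by
            gcongr
            exact max_le hx hy'
        _ ≤ (B + 1) ^ n := pow_le_pow_right₀ (by linarith) (Nat.sub_le _ _)
    calc |x - y| * n * (max |x| |y|) ^ (n - 1) ≤ δ * n * (B + 1) ^ n := by
          gcongr
      _ = n * (B + 1) ^ n * δ := by ring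
  · rw [abs_pow]
    gcongr
  · rw [abs_pow]
    gcongr

private theorem B2_glob {Ω : Type} [MeasurableSpace Ω] {μ : Measure Ω} [IsProbabilityMeasure μ]
    {F G : Ω → ℝ → ℝ} (hF : Measurable fun x : Ω × ℝ => F x.1 x.2)
    (hG : Measurable fun x : Ω × ℝ => G x.1 x.2) {a b B δ : ℝ} (hab : a < b) (hB : 0 ≤ B)
    (hδ : δ ≤ 1) (hFG : ∀ z τ, |F z τ - G z τ| ≤ δ) (hGB : ∀ z τ, |G z τ| ≤ B) (r r' : ℕ) :
    |∫ z, (1 / (b - a) * ∫ τ in a..b, F z τ ^ r) * (1 / (b - a) * ∫ τ in a..b, F z τ ^ r') ∂μ -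
      1 / (b - a) * ∫ τ in a..b, 1 / (b - a) * ∫ τ' in a..b,
        ∫ z, G z τ ^ r * G z τ' ^ r' ∂μ| ≤ (((r + r' : ℕ) : ℝ)) * (B + 1) ^ (r + r') * δ := by
  have hl : 0 < b - a := by linarith
  -- measurability
  have mF : ∀ n : ℕ, Measurable fun x : Ω × ℝ => F x.1 x.2 ^ n := fun n => hF.pow_const n
  have mG : ∀ n : ℕ, Measurable fun x : Ω × ℝ => G x.1 x.2 ^ n := fun n => hG.pow_const n
  have bF : ∀ (n : ℕ) (z : Ω) (τ : ℝ), |F z τ ^ n| ≤ (B + 1) ^ n := fun n z τ =>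
    (B2_pow hB hδ (hGB z τ) (hFG z τ) n).2.1
  have bG : ∀ (n : ℕ) (z : Ω) (τ : ℝ), |G z τ ^ n| ≤ (B + 1) ^ n := fun n z τ =>
    (B2_pow hB hδ (hGB z τ) (hFG z τ) n).2.2
  have bFG : ∀ (n : ℕ) (z : Ω) (τ : ℝ), |F z τ ^ n - G z τ ^ n| ≤ n * (B + 1) ^ n * δ :=
    fun n z τ => (B2_pow hB hδ (hGB z τ) (hFG z τ) n).1
  have iF : ∀ (n : ℕ) (z : Ω), IntervalIntegrable (fun τ => F z τ ^ n) volume a b := fun n z =>
    B2_ii ((mF n).comp measurable_prodMk_left) hab.le (bF n z)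
  have iG : ∀ (n : ℕ) (z : Ω), IntervalIntegrable (fun τ => G z τ ^ n) volume a b := fun n z =>
    B2_ii ((mG n).comp measurable_prodMk_left) hab.le (bG n z)
  have SF : ∀ n : ℕ, Measurable fun z => 1 / (b - a) * ∫ τ in a..b, F z τ ^ n := by
    intro n
    simp only [intervalIntegral.integral_of_le hab.le]
    exact ((mF n).stronglyMeasurable.integral_prod_right' (ν := volume.restrict
      (Ioc a b))).measurable.const_mul _
  have SG : ∀ n : ℕ, Measurable fun z => 1 / (b - a) * ∫ τ in a..b, G z τ ^ n := by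
    intro n
    simp only [intervalIntegral.integral_of_le hab.le]
    exact ((mG n).stronglyMeasurable.integral_prod_right' (ν := volume.restrict
      (Ioc a b))).measurable.const_mul _
  have av : ∀ (f : ℝ → ℝ) (C : ℝ), (∀ τ, |f τ| ≤ C) →
      |1 / (b - a) * ∫ τ in a..b, f τ| ≤ C := by
    intro f C hf
    have h1 : ‖∫ τ in a..b, f τ‖ ≤ C * |b - a| :=
      intervalIntegral.norm_integral_le_of_norm_le_const fun τ _ => hf τ
    rw [abs_of_pos hl] at h1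
    rw [abs_mul, abs_of_pos (by positivity : 0 < 1 / (b - a)), one_div, ← div_eq_inv_mul,
      div_le_iff₀ hl]
    exact h1
  have AF : ∀ (n : ℕ) (z : Ω), |1 / (b - a) * ∫ τ in a..b, F z τ ^ n| ≤ (B + 1) ^ n :=
    fun n z => av _ _ (bF n z)
  have AG : ∀ (n : ℕ) (z : Ω), |1 / (b - a) * ∫ τ in a..b, G z τ ^ n| ≤ (B + 1) ^ n :=
    fun n z => av _ _ (bG n z)
  have AFG : ∀ (n : ℕ) (z : Ω), |1 / (b - a) * (∫ τ in a..b, F z τ ^ n) -
      1 / (b - a) * ∫ τ in a..b, G z τ ^ n| ≤ n * (B + 1) ^ n * δ := by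
    intro n z
    rw [← mul_sub, ← intervalIntegral.integral_sub (iF n z) (iG n z)]
    exact av _ _ (bFG n z)
  -- the swap
  have e1 : 1 / (b - a) * ∫ τ in a..b, 1 / (b - a) * ∫ τ' in a..b,
        ∫ z, G z τ ^ r * G z τ' ^ r' ∂μ =
      ∫ z, (1 / (b - a) * ∫ τ in a..b, G z τ ^ r) *
        (1 / (b - a) * ∫ τ in a..b, G z τ ^ r') ∂μ := by
    rw [intervalIntegral.integral_const_mul, ← B2_swap (mG r) (mG r') hab.le (bG r) (bG r'),
      ← integral_const_mul, ← integral_const_mul]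
    refine integral_congr_ae (Eventually.of_forall fun z => ?_)
    try dsimp only
    ring
  have J : ∀ {f g : Ω → ℝ} (n n' : ℕ), Measurable f → Measurable g →
      (∀ z, |f z| ≤ (B + 1) ^ n) → (∀ z, |g z| ≤ (B + 1) ^ n') →
      Integrable (fun z => f z * g z) μ := by
    intro f g n n' hf hg h1 h2
    refine Integrable.of_bound (hf.mul hg).aestronglyMeasurable ((B + 1) ^ n * (B + 1) ^ n')
      (Eventually.of_forall fun z => ?_)
    rw [Real.norm_eq_abs, abs_mul]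
    exact mul_le_mul (h1 z) (h2 z) (abs_nonneg _) (by positivity)
  rw [e1, ← integral_sub (J r r' (SF r) (SF r') (AF r) (AF r'))
    (J r r' (SG r) (SG r') (AG r) (AG r'))]
  have h2 : ∀ z, ‖(1 / (b - a) * ∫ τ in a..b, F z τ ^ r) *
        (1 / (b - a) * ∫ τ in a..b, F z τ ^ r') -
      (1 / (b - a) * ∫ τ in a..b, G z τ ^ r) * (1 / (b - a) * ∫ τ in a..b, G z τ ^ r')‖ ≤
      (((r + r' : ℕ) : ℝ)) * (B + 1) ^ (r + r') * δ := by
    intro z
    have q1 := AFG r z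
    have q2 := AFG r' z
    have q3 := AF r' z
    have q4 := AG r z
    rw [Real.norm_eq_abs]
    generalize (1 / (b - a) * ∫ τ in a..b, F z τ ^ r) = x at *
    generalize (1 / (b - a) * ∫ τ in a..b, F z τ ^ r') = x' at *
    generalize (1 / (b - a) * ∫ τ in a..b, G z τ ^ r) = y at *
    generalize (1 / (b - a) * ∫ τ in a..b, G z τ ^ r') = y' at *
    have hδ0 : 0 ≤ δ := (abs_nonneg _).trans (hFG z 0)
    calc |x * x' - y * y'| = |(x - y) * x' + y * (x' - y')| := by ring_nf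
      _ ≤ |(x - y) * x'| + |y * (x' - y')| := abs_add_le _ _
      _ ≤ (r * (B + 1) ^ r * δ) * (B + 1) ^ r' + (B + 1) ^ r * (r' * (B + 1) ^ r' * δ) := by
          rw [abs_mul, abs_mul]
          gcongr
      _ = (((r + r' : ℕ) : ℝ)) * (B + 1) ^ (r + r') * δ := by
          push_cast
          ring
  have h3 := norm_integral_le_of_norm_le_const (μ := μ) (Eventually.of_forall h2)
  rw [probReal_univ, mul_one] at h3
  exact h3

private theorem B2_abs {Ω : Type} [MeasurableSpace Ω] {μ : Measure Ω} [IsProbabilityMeasure μ]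
    {F G : Ω → ℝ → ℝ} (hF : Measurable fun x : Ω × ℝ => F x.1 x.2)
    (hG : Measurable fun x : Ω × ℝ => G x.1 x.2) {u v T B δ : ℝ} (huv : u < v) (hT : 0 < T)
    (hB : 0 ≤ B) (hδ0 : 0 ≤ δ) (hδ : δ ≤ 1)
    (hFG : ∀ z τ, u * T ≤ τ → τ ≤ v * T → |F z τ - G z τ| ≤ δ)
    (hGB : ∀ z τ, u * T ≤ τ → τ ≤ v * T → |G z τ| ≤ B) (r r' : ℕ) :
    |∫ z, (1 / ((v - u) * T) * ∫ τ in (u * T)..(v * T), F z τ ^ r) *
        (1 / ((v - u) * T) * ∫ τ in (u * T)..(v * T), F z τ ^ r') ∂μ -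
      1 / ((v - u) * T) * ∫ τ in (u * T)..(v * T), 1 / ((v - u) * T) *
        ∫ τ' in (u * T)..(v * T), ∫ z, G z τ ^ r * G z τ' ^ r' ∂μ| ≤
      (((r + r' : ℕ) : ℝ)) * (B + 1) ^ (r + r') * δ := by
  have hab : u * T < v * T := mul_lt_mul_of_pos_right huv hT
  classical
  have hS : MeasurableSet (Icc (u * T) (v * T)) := measurableSet_Icc
  let F' : Ω → ℝ → ℝ := fun z τ => if τ ∈ Icc (u * T) (v * T) then F z τ else 0
  let G' : Ω → ℝ → ℝ := fun z τ => if τ ∈ Icc (u * T) (v * T) then G z τ else 0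
  have hSS : MeasurableSet {x : Ω × ℝ | x.2 ∈ Icc (u * T) (v * T)} := measurable_snd hS
  have h := B2_glob (μ := μ) (F := F') (G := G') (hF.ite hSS measurable_const)
    (hG.ite hSS measurable_const) hab hB hδ (fun z τ => by
      by_cases ht : τ ∈ Icc (u * T) (v * T)
      · simp only [F', G', if_pos ht]
        exact hFG z τ ht.1 ht.2
      · simp only [F', G', if_neg ht]
        simpa using hδ0) (fun z τ => by
      by_cases ht : τ ∈ Icc (u * T) (v * T)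
      · simp only [G', if_pos ht]
        exact hGB z τ ht.1 ht.2
      · simp only [G', if_neg ht]
        simpa using hB) r r'
  have cF : ∀ (n : ℕ) (z : Ω), ∫ τ in (u * T)..(v * T), F' z τ ^ n =
      ∫ τ in (u * T)..(v * T), F z τ ^ n := by
    intro n z
    refine intervalIntegral.integral_congr fun τ ht => ?_
    rw [uIcc_of_le hab.le] at ht
    simp only [F', if_pos ht]
  have cG : (∫ τ in (u * T)..(v * T), 1 / (v * T - u * T) *
        ∫ τ' in (u * T)..(v * T), ∫ z, G' z τ ^ r * G' z τ' ^ r' ∂μ) =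
      ∫ τ in (u * T)..(v * T), 1 / (v * T - u * T) *
        ∫ τ' in (u * T)..(v * T), ∫ z, G z τ ^ r * G z τ' ^ r' ∂μ := by
    refine intervalIntegral.integral_congr fun τ ht => ?_
    rw [uIcc_of_le hab.le] at ht
    try dsimp only
    congr 1
    refine intervalIntegral.integral_congr fun τ' ht' => ?_
    rw [uIcc_of_le hab.le] at ht'
    simp only [G', if_pos ht, if_pos ht']
  simp only [cF, cG] at h
  rw [← sub_mul] at h
  exact h

private theorem B2_mix (n : ℕ) (ξ : Dir → I) :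
    Measurable fun x : (Dir → I) × ℝ => mix n ξ x.1 := by
  have h1 : Measurable fun x : (Dir → I) × ℝ => ((ξ, x.1) : (Dir → I) × (Dir → I)) :=
    measurable_const.prodMk measurable_fst
  exact (meas_mix n).comp h1

private theorem B2_tri {z w : ℂ} {x τ s : ℝ}
    (h : ‖z - w * Complex.exp (-(Complex.I * τ * (s : ℂ)))‖ ≤ x) : ‖z‖ ≤ ‖w‖ + x := by
  have h1 : ‖w * Complex.exp (-(Complex.I * τ * (s : ℂ)))‖ = ‖w‖ := by
    rw [norm_mul, show -(Complex.I * τ * (s : ℂ)) = ((-(τ * s) : ℝ) : ℂ) * Complex.I by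
      push_cast; ring, Complex.norm_exp_ofReal_mul_I, mul_one]
  calc ‖z‖ = ‖w * Complex.exp (-(Complex.I * τ * (s : ℂ))) +
        (z - w * Complex.exp (-(Complex.I * τ * (s : ℂ))))‖ := by
        rw [add_sub_cancel]
    _ ≤ ‖w‖ + x := by
        refine (norm_add_le _ _).trans ?_
        rw [h1]
        linarith

private theorem B2_size {z m m0 : ℂ} {V w ε ε' : ℝ} (hV : 1 ≤ V) (hw0 : 0 ≤ w) (hw : w ≤ V)
    (hε : ε ≤ 1) (hε' : ε' ≤ 1) (h1 : ‖z‖ ≤ ‖m‖ + (ε * w + ε'))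
    (h2 : ‖m - m0‖ ≤ ε * w) (h3 : ‖m0‖ ≤ V * w) : ‖z‖ ≤ 4 * V ^ 2 := by
  have h4 : ‖m‖ ≤ ‖m0‖ + ‖m - m0‖ := by
    have := norm_add_le m0 (m - m0)
    rwa [add_sub_cancel] at this
  have h5 : ε * w ≤ V := by nlinarith
  have h6 : V * w ≤ V ^ 2 := by nlinarith
  nlinarith

private theorem B2_fin {x y B E : ℝ} {z : ℂ} (h1 : |x - y| ≤ B)
    (h2 : ‖((y : ℝ) : ℂ) - z‖ ≤ E) : ‖((x : ℝ) : ℂ) - z‖ ≤ B + E := by
  have h3 : ((x : ℝ) : ℂ) - z = ((x - y : ℝ) : ℂ) + (((y : ℝ) : ℂ) - z) := by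
    push_cast
    ring
  rw [h3]
  refine (norm_add_le _ _).trans (add_le_add ?_ h2)
  rw [Complex.norm_real]
  exact h1

private theorem B2_core {P0 Ω : Type} [MeasurableSpace Ω] {μ : Measure Ω} {u v T : ℝ} {r r' : ℕ}
    {Q : Finset (Ag P0)} {w : Ag P0 → ℝ} {V ε ε' εD θ : ℝ} {Z : ℝ → Ω → Ag P0 → ℂ}
    {Mw : Ω → Ag P0 → ℂ} {l : Ω → P0 → ℝ} {m0 : Ag P0 → ℂ}
    {Bd : (Fin r ⊕ Fin r' → Bool) → Finset (Fin r ⊕ Fin r' → Ag P0)}
    (h : HB μ u v T r r' Q w V ε ε' εD θ Z Mw l m0 Bd) {F : Ω → ℝ → ℝ}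
    (mF : Measurable fun x : Ω × ℝ => F x.1 x.2) {δ E : ℝ} (hδ : δ ≤ 1)
    (hFG : ∀ z τ, u * T ≤ τ → τ ≤ v * T → |F z τ - ∑ q ∈ Q, (Z τ z q).re| ≤ δ)
    (hcm : ‖(((1 / ((v - u) * T)) * ∫ τ in (u * T)..(v * T), (1 / ((v - u) * T)) *
      ∫ τ' in (u * T)..(v * T), ∫ z, (∑ q ∈ Q, (Z τ z q).re) ^ r *
        (∑ q ∈ Q, (Z τ' z q).re) ^ r' ∂μ : ℝ) : ℂ) - DD Q m0 r * DD Q m0 r'‖ ≤ E) :
    ‖((∫ z, (1 / ((v - u) * T) * ∫ τ in (u * T)..(v * T), F z τ ^ r) *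
        (1 / ((v - u) * T) * ∫ τ in (u * T)..(v * T), F z τ ^ r') ∂μ : ℝ) : ℂ) -
      DD Q m0 r * DD Q m0 r'‖ ≤
      ((r + r' : ℕ) : ℝ) * ((Q.card : ℝ) * (4 * V ^ 2) + 1) ^ (r + r') * δ + E := by
  have hμ : IsProbabilityMeasure μ := h.prob
  have hT : 0 < T := by
    have := h.T_pos
    linarith
  have hV1 : 1 ≤ V := h.wt.one
  have mG : Measurable fun x : Ω × ℝ => ∑ q ∈ Q, (Z x.2 x.1 q).re := by
    refine Finset.measurable_sum _ fun q _ => ?_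
    exact Complex.measurable_re.comp ((h.meas q).comp measurable_swap)
  have bG : ∀ (z : Ω) (τ : ℝ), u * T ≤ τ → τ ≤ v * T →
      |∑ q ∈ Q, (Z τ z q).re| ≤ (Q.card : ℝ) * (4 * V ^ 2) := by
    intro z τ h1 h2
    refine (Finset.abs_sum_le_sum_abs _ _).trans ?_
    rw [← nsmul_eq_mul]
    refine Finset.sum_le_card_nsmul _ _ _ fun q hq => ?_
    refine (Complex.abs_re_le_norm _).trans ?_
    have e1 := h.app τ h1 h2 z q hq
    exact B2_size hV1 (h.wt.nonneg q) (h.wt.le q) h.ε0.2 h.ε1.2 (B2_tri e1) (h.par z q hq)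
      (h.m0 q hq)
  have huT : u * T ≤ v * T := (mul_lt_mul_of_pos_right h.uv hT).le
  have hne : Nonempty Ω := nonempty_of_isProbabilityMeasure μ
  have hδ0 : 0 ≤ δ := by
    obtain ⟨z⟩ := hne
    exact (abs_nonneg _).trans (hFG z (u * T) le_rfl huT)
  exact B2_fin (B2_abs (μ := μ) mF mG h.uv hT (by positivity) hδ0 hδ hFG bG r r') hcm

private theorem B2_meas (hP : Ok Γ D P) {p : Pr} (hp : p.Ok) {κ1 : ℝ} (hκ1 : 0 ≤ κ1)
    {M : ℕ → ℝ} (k : ℕ) {a : ℝ → ℂ} (ha : Am M (Lm κ1 k) a) (n : ℕ) (ξ : Dir → I)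
    (hcv : ∀ (η : Dir → I) (z : Pl), curv (Y P p Γ D k (mix n ξ η)) z < 0) :
    Measurable fun x : (Dir → I) × ℝ => Sb P p Γ D κ1 k a x.2 (mix n ξ x.1) := by
  have h1 := meas_Sb hP hp hκ1 k ha
  have h2 : Measurable fun x : (Dir → I) × ℝ =>
      ((⟨mix n ξ x.1, hcv x.1⟩, x.2) :
        {ξ : Dir → I // ∀ z, curv (Y P p Γ D k ξ) z < 0} × ℝ) :=
    Measurable.prodMk (Measurable.subtype_mk (B2_mix n ξ)) measurable_snd
  generalize hF : (fun t ζ => Sb P p Γ D κ1 k a t ζ : ℝ → (Dir → I) → ℝ) = F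
  have e1 : (fun x : (Dir → I) × ℝ => Sb P p Γ D κ1 k a x.2 (mix n ξ x.1)) =
      fun x : (Dir → I) × ℝ => F x.2 (mix n ξ x.1) := by
    rw [← hF]
  have e2 : (fun q : {ξ : Dir → I // ∀ z, curv (Y P p Γ D k ξ) z < 0} × ℝ =>
      Sb P p Γ D κ1 k a q.2 q.1.1) = fun q => F q.2 q.1.1 := by
    rw [← hF]
  rw [e2] at h1
  rw [e1]
  have h3 := h1.comp h2
  exact h3

private theorem B2_core1 {P0 Ω : Type} [MeasurableSpace Ω] {μ : Measure Ω} {u v T : ℝ} {r : ℕ}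
    {Q : Finset (Ag P0)} {w : Ag P0 → ℝ} {V ε ε' εD θ : ℝ} {Z : ℝ → Ω → Ag P0 → ℂ}
    {Mw : Ω → Ag P0 → ℂ} {l : Ω → P0 → ℝ} {m0 : Ag P0 → ℂ}
    {Bd : (Fin r ⊕ Fin 0 → Bool) → Finset (Fin r ⊕ Fin 0 → Ag P0)}
    (h : HB μ u v T r 0 Q w V ε ε' εD θ Z Mw l m0 Bd) {F : Ω → ℝ}
    (mF : Measurable F) {δ E τ : ℝ} (hδ : δ ≤ 1) (h1 : u * T ≤ τ) (h2 : τ ≤ v * T)
    (hFG : ∀ z, |F z - ∑ q ∈ Q, (Z τ z q).re| ≤ δ)
    (hcm : ‖((∫ z, (∑ q ∈ Q, (Z τ z q).re) ^ r ∂μ : ℝ) : ℂ) - DD Q m0 r‖ ≤ E) :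
    ‖((∫ z, F z ^ r ∂μ : ℝ) : ℂ) - DD Q m0 r‖ ≤
      ((r + 0 : ℕ) : ℝ) * ((Q.card : ℝ) * (4 * V ^ 2) + 1) ^ (r + 0) * δ + E := by
  have hμ : IsProbabilityMeasure μ := h.prob
  have hV1 : 1 ≤ V := h.wt.one
  obtain ⟨G, hG⟩ : ∃ G : Ω → ℝ, G = fun z => ∑ q ∈ Q, (Z τ z q).re := ⟨_, rfl⟩
  have hGe : ∀ z, ∑ q ∈ Q, (Z τ z q).re = G z := fun z => by rw [hG]
  simp only [hGe] at hFG hcm
  have mG : Measurable G := by
    rw [hG]
    refine Finset.measurable_sum _ fun q _ => ?_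
    exact Complex.measurable_re.comp ((h.meas q).comp measurable_prodMk_left)
  have bG : ∀ z : Ω, |G z| ≤ (Q.card : ℝ) * (4 * V ^ 2) := by
    intro z
    rw [hG]
    refine (Finset.abs_sum_le_sum_abs _ _).trans ?_
    rw [← nsmul_eq_mul]
    refine Finset.sum_le_card_nsmul _ _ _ fun q hq => ?_
    refine (Complex.abs_re_le_norm _).trans ?_
    have e1 := h.app τ h1 h2 z q hq
    exact B2_size hV1 (h.wt.nonneg q) (h.wt.le q) h.ε0.2 h.ε1.2 (B2_tri e1) (h.par z q hq)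
      (h.m0 q hq)
  have hB : 0 ≤ (Q.card : ℝ) * (4 * V ^ 2) := by positivity
  refine B2_fin (y := ∫ z, G z ^ r ∂μ) ?_ hcm
  have iF : Integrable (fun z => F z ^ r) μ :=
    Integrable.of_bound (mF.pow_const r).aestronglyMeasurable _ (Eventually.of_forall fun z => by
      rw [Real.norm_eq_abs]
      exact (B2_pow hB hδ (bG z) (hFG z) r).2.1)
  have iG : Integrable (fun z => G z ^ r) μ :=
    Integrable.of_bound (mG.pow_const r).aestronglyMeasurable _ (Eventually.of_forall fun z => by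
      rw [Real.norm_eq_abs]
      exact (B2_pow hB hδ (bG z) (hFG z) r).2.2)
  rw [← integral_sub iF iG]
  have h3 := norm_integral_le_of_norm_le_const (μ := μ) (f := fun z => F z ^ r - G z ^ r)
    (Eventually.of_forall fun z => by
      rw [Real.norm_eq_abs]
      exact (B2_pow hB hδ (bG z) (hFG z) r).1)
  rw [probReal_univ, mul_one, Real.norm_eq_abs] at h3
  exact h3

theorem block (hP : Ok Γ D P) (hν : Law ν) (hκ : 0 < κ) {u v : ℝ} (hu : 0 < u) (huv : u < v)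
    (r r' : ℕ) : ∃ δ0 : ℝ, 0 < δ0 ∧ ∀ p : Pr, p.Ok → p.δ ≤ δ0 →
    ∃ κ0 c : ℝ, 0 < κ0 ∧ 0 < c ∧ ∀ κ1 : ℝ, 0 < κ1 → κ1 ≤ κ0 → ∀ M : ℕ → ℝ,
    ∃ k0 : ℕ, ∀ k ≥ k0, ∀ ξ ∈ Bs P p Γ D κ k, ∀ a : ℝ → ℂ, Am M (Lm κ1 k) a →
      ‖((∫ η, Mom P p Γ D κ1 a r u v k (mix (bk k) ξ η) *
          Mom P p Γ D κ1 a r' u v k (mix (bk k) ξ η) ∂Pm ν : ℝ) : ℂ) -
        DD (Cs (Γ := Γ) (Y0 P p Γ D k ξ) (Lm (2 * κ1) k)) (mt (Y0 P p Γ D k ξ) (Ra p k a)) r *
          DD (Cs (Γ := Γ) (Y0 P p Γ D k ξ) (Lm (2 * κ1) k))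
            (mt (Y0 P p Γ D k ξ) (Ra p k a)) r'‖ ≤ Lm (-c) k := by
  obtain ⟨δ1, hδ1, hhb⟩ := hb_block (κ := κ) hP hν hκ hu huv r r'
  obtain ⟨δ2, hδ2, hf⟩ := fact1 (κ := κ) hP hκ hu huv
  obtain ⟨Cc, hCc, hcomb⟩ := comb r r' hu huv
  refine ⟨min δ1 δ2, lt_min hδ1 hδ2, fun p hp hpδ => ?_⟩
  obtain ⟨κ0, c, C1, hκ0, hc, hC1, hhb⟩ := hhb p hp (hpδ.trans (min_le_left _ _))
  have hf := hf p hp (hpδ.trans (min_le_right _ _))
  obtain ⟨Cw, kw, hCw, hw⟩ := wts (Γ := Γ) (κ := κ) hP hκ hp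
  obtain ⟨kn, hneg⟩ := block_neg (κ := κ) hP hκ
  have hCC : 0 < 4 * (C1 * Cc) := by
    have h1 : 0 < C1 := by linarith
    have h2 : 0 < Cc := by linarith
    positivity
  refine ⟨min κ0 (c / (4 * (C1 * Cc))), c / 2, lt_min hκ0 (div_pos hc hCC), by linarith,
    fun κ1 hκ1 hκ1' M => ?_⟩
  have hcc : C1 * κ1 * Cc ≤ c / 4 := by
    have h1 := (le_div_iff₀ hCC).1 (hκ1'.trans (min_le_right _ _))
    linarith
  obtain ⟨C, kh, hC, hhb⟩ := hhb κ1 hκ1 (hκ1'.trans (min_le_left _ _)) M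
  obtain ⟨Cf, kf, hf⟩ := hf κ1 hκ1 M
  obtain ⟨k1, hk1⟩ := B2_num p hp.pos (r + r') (Cf := Cf) hCw hC hCc hκ1 hc hcc
  refine ⟨max (max kw kh) (max (max kf kn) k1), fun k hk ξ hξ a ha => ?_⟩
  simp only [ge_iff_le, max_le_iff] at hk
  obtain ⟨⟨hkw, hkh⟩, ⟨hkf, hkn⟩, hkk1⟩ := hk
  obtain ⟨Bd, hHB, hBd⟩ := hhb k hkh ξ hξ a ha
  have hcm := hcomb _ _ _ _ _ _ _ _ _ _ _ _ _ _ _ _ _ hHB
  have hL1 : 1 ≤ Lm (2 * κ1) k := Lm_one _ (by linarith) k
  have hcard := ((hw k hkw ξ hξ).2.2 (Lm (2 * κ1) k) hL1).2.1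
  obtain ⟨hδ, hnum⟩ := hk1 k hkk1
  have hcv : ∀ (η : Dir → I) (z : Pl), curv (Y P p Γ D k (mix (bk k) ξ η)) z < 0 := by
    intro η z
    have h1 := hneg p hp k hkn ξ hξ η z
    have h2 : 0 < (κ / 2) ^ 2 := by positivity
    linarith
  obtain ⟨F, hF⟩ : ∃ F : (Dir → I) → ℝ → ℝ, ∀ η τ,
      Sb P p Γ D κ1 k a τ (mix (bk k) ξ η) = F η τ := ⟨_, fun _ _ => rfl⟩
  have mF : Measurable fun x : (Dir → I) × ℝ => F x.1 x.2 := by
    have h1 := B2_meas hP hp hκ1.le k ha (bk k) ξ hcv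
    simpa only [hF] using h1
  have bFG := fun (η : Dir → I) (τ : ℝ) (h1 : u * 2 ^ k ≤ τ) (h2 : τ ≤ v * 2 ^ k) =>
    hf k hkf ξ hξ η a ha τ h1 h2
  simp only [hF] at bFG
  have hM : ∀ (n : ℕ) (η : Dir → I), Mom P p Γ D κ1 a n u v k (mix (bk k) ξ η) =
      1 / ((v - u) * 2 ^ k) * ∫ τ in (u * 2 ^ k)..(v * 2 ^ k), F η τ ^ n := by
    intro n η
    rw [Mom, if_pos (hcv η)]
    simp only [hF]
  simp only [hM]
  have hfin := B2_core hHB mF (δ := Real.exp (Cf * Lm (2 * κ1) k) * p.t k) hδ bFG hcm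
  refine hfin.trans ((le_trans ?_ (hnum _ (Nat.cast_nonneg _) hcard)))
  refine add_le_add le_rfl (mul_le_mul_of_nonneg_left ?_ ?_)
  · linarith only [hBd]
  · have h1 : 0 < Lm (C1 * κ1) k := B2_pos _ k
    positivity

/-- One fixed time. -/
theorem block1 (hP : Ok Γ D P) (hν : Law ν) (hκ : 0 < κ) {u v : ℝ} (hu : 0 < u) (huv : u < v)
    (r : ℕ) : ∃ δ0 : ℝ, 0 < δ0 ∧ ∀ p : Pr, p.Ok → p.δ ≤ δ0 →
    ∃ κ0 c : ℝ, 0 < κ0 ∧ 0 < c ∧ ∀ κ1 : ℝ, 0 < κ1 → κ1 ≤ κ0 → ∀ M : ℕ → ℝ,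
    ∃ k0 : ℕ, ∀ k ≥ k0, ∀ ξ ∈ Bs P p Γ D κ k, ∀ a : ℝ → ℂ, Am M (Lm κ1 k) a →
      ∀ τ : ℝ, u * 2 ^ k ≤ τ → τ ≤ v * 2 ^ k →
      ‖((∫ η, Sb P p Γ D κ1 k a τ (mix (bk k) ξ η) ^ r ∂Pm ν : ℝ) : ℂ) -
        DD (Cs (Γ := Γ) (Y0 P p Γ D k ξ) (Lm (2 * κ1) k)) (mt (Y0 P p Γ D k ξ) (Ra p k a)) r‖ ≤
        Lm (-c) k := by
  obtain ⟨δ1, hδ1, hhb⟩ := hb_block (κ := κ) hP hν hκ hu huv r 0
  obtain ⟨δ2, hδ2, hf⟩ := fact1 (κ := κ) hP hκ hu huv
  obtain ⟨Cc, hCc, hcomb⟩ := comb1 r hu huv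
  refine ⟨min δ1 δ2, lt_min hδ1 hδ2, fun p hp hpδ => ?_⟩
  obtain ⟨κ0, c, C1, hκ0, hc, hC1, hhb⟩ := hhb p hp (hpδ.trans (min_le_left _ _))
  have hf := hf p hp (hpδ.trans (min_le_right _ _))
  obtain ⟨Cw, kw, hCw, hw⟩ := wts (Γ := Γ) (κ := κ) hP hκ hp
  obtain ⟨kn, hneg⟩ := block_neg (κ := κ) hP hκ
  have hCC : 0 < 4 * (C1 * Cc) := by
    have h1 : 0 < C1 := by linarith
    have h2 : 0 < Cc := by linarith
    positivity
  refine ⟨min κ0 (c / (4 * (C1 * Cc))), c / 2, lt_min hκ0 (div_pos hc hCC), by linarith,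
    fun κ1 hκ1 hκ1' M => ?_⟩
  have hcc : C1 * κ1 * Cc ≤ c / 4 := by
    have h1 := (le_div_iff₀ hCC).1 (hκ1'.trans (min_le_right _ _))
    linarith
  obtain ⟨C, kh, hC, hhb⟩ := hhb κ1 hκ1 (hκ1'.trans (min_le_left _ _)) M
  obtain ⟨Cf, kf, hf⟩ := hf κ1 hκ1 M
  obtain ⟨k1, hk1⟩ := B2_num p hp.pos (r + 0) (Cf := Cf) hCw hC hCc hκ1 hc hcc
  refine ⟨max (max kw kh) (max (max kf kn) k1), fun k hk ξ hξ a ha τ hτ1 hτ2 => ?_⟩
  simp only [ge_iff_le, max_le_iff] at hk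
  obtain ⟨⟨hkw, hkh⟩, ⟨hkf, hkn⟩, hkk1⟩ := hk
  obtain ⟨Bd, hHB, hBd⟩ := hhb k hkh ξ hξ a ha
  have hcm := hcomb _ _ _ _ _ _ _ _ _ _ _ _ _ _ _ _ _ hHB τ hτ1 hτ2
  have hL1 : 1 ≤ Lm (2 * κ1) k := Lm_one _ (by linarith) k
  have hcard := ((hw k hkw ξ hξ).2.2 (Lm (2 * κ1) k) hL1).2.1
  obtain ⟨hδ, hnum⟩ := hk1 k hkk1
  have hcv : ∀ (η : Dir → I) (z : Pl), curv (Y P p Γ D k (mix (bk k) ξ η)) z < 0 := by
    intro η z
    have h1 := hneg p hp k hkn ξ hξ η z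
    have h2 : 0 < (κ / 2) ^ 2 := by positivity
    linarith
  obtain ⟨F, hF⟩ : ∃ F : (Dir → I) → ℝ, ∀ η,
      Sb P p Γ D κ1 k a τ (mix (bk k) ξ η) = F η := ⟨_, fun _ => rfl⟩
  have mF : Measurable F := by
    have h1 := (B2_meas hP hp hκ1.le k ha (bk k) ξ hcv).comp
      (measurable_id.prodMk (measurable_const (a := τ)))
    have h2 : F = (fun x : (Dir → I) × ℝ => Sb P p Γ D κ1 k a x.2 (mix (bk k) ξ x.1)) ∘
        fun η => (id η, τ) := by
      funext η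
      exact (hF η).symm
    rw [h2]
    exact h1
  have bFG := fun (η : Dir → I) => hf k hkf ξ hξ η a ha τ hτ1 hτ2
  simp only [hF] at bFG
  simp only [hF]
  have hfin := B2_core1 hHB mF (δ := Real.exp (Cf * Lm (2 * κ1) k) * p.t k) hδ hτ1 hτ2 bFG hcm
  refine hfin.trans ((le_trans ?_ (hnum _ (Nat.cast_nonneg _) hcard)))
  refine add_le_add le_rfl (mul_le_mul_of_nonneg_left ?_ ?_)
  · have h1 : 0 < Lm (-c) k := B2_pos _ k
    simp only [Nat.add_zero]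
    linarith only [hBd, h1]
  · have h1 : 0 < Lm (C1 * κ1) k := B2_pos _ k
    positivity

end F37
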