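import Pool.Agent.LibBE37F.IC1
import Pool.Agent.LibBE37F.IFH
import Pool.Agent.LibBE37F.GQ2a
import Pool.Agent.LibBE36.GE2
import Pool.Agent.LibBE36C.F4
import Pool.Agent.LibB35.GQ1a

/-! ROW IFC1 : part C1 in the blocks. MEDIUM. PLAN. `CH_path` gives `k0, b` and the class `CH` for `sP` on `Bi κ k0` with `lQ = log (1/e)`; `CH.cf`, `CH.gi` (GE2: `GI` with `Qs q = exp (log (1/e)) = 1/e`); `class_ZT` (LibBE36C/F4) gives `A`: put `δ0 = 1/(20 (A+1))`. For `k ≥ k0`, `ξ ∈ Bs`, `η` the index is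
`i = ⟨p, k, ξ, η, ..⟩ : Bi`; `p0 = 0`, `p1 = √c` (`path_zero`, `path_one`, `c_pos`, `√c ≤ 2^(-k/5)` from `cn_bk`), `Cls` from `cls_q` for the metric `Y0` (`Y0_hm`), `AH_block` (all with `R = Lm (3 κ1) k ≥ l = ln Y0 q`), `DH_block`, `XN_le` (`XN^A √c ≤ 2^(k/15) 2^(-k/5) ≤ 2^(-k/20) = dw k`), `TN_le`; `l0 = lp Y0 q.1 ≤ ln Y0 q ≤ Lm (2 κ1) k ≤ Lm (3 κ1) k`.
`F37.zt` is `BE36C.ZT` with `δ = dw k`, `e = de k`, `rs F = rst F` (unfold; `rfl`). The constant `C` can be taken 1. (A variant with the hypotheses on `IKN`: `B35.IKN = BE.IKN` by `IKN_eq` in LibB35/IFC.) -/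

open MeasureTheory Set Filter Topology
open scoped ContDiff unitInterval

namespace F37

variable [Sq]

open BGS BR BE B35
open Pool.BGR (upI)

variable {Γ : Type} [Group Γ] [MulAction Γ Pl] {D : Set Pl} {P : Dt} {κ : ℝ}

private theorem IFC1_e (p : Pr) (k : ℕ) : 0 < p.e k := Real.rpow_pos_of_pos two_pos _

private theorem IFC1_two (k : ℕ) (c : ℝ) : ((2 : ℝ) ^ k) ^ c = (2 : ℝ) ^ ((k : ℝ) * c) := by
  rw [← Real.rpow_natCast, ← Real.rpow_mul (by norm_num)]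

/-- the change of the parameter is small -/
private theorem IFC1_sm {X c : ℝ} {k : ℕ} (hX : X ≤ ((2 : ℝ) ^ k) ^ (1 / 15 : ℝ))
    (hc : c ≤ (2 : ℝ) ^ (-(2 / 5 * k : ℝ))) : X * √c ≤ dw k := by
  have h1 : √c ≤ (2 : ℝ) ^ (-(1 / 5 * k : ℝ)) := by
    rw [show (2 : ℝ) ^ (-(1 / 5 * k : ℝ)) = √((2 : ℝ) ^ (-(2 / 5 * k : ℝ))) by
      rw [Real.sqrt_eq_rpow, ← Real.rpow_mul (by norm_num)]
      congr 1
      ring]
    exact Real.sqrt_le_sqrt hc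
  have h2 : (0 : ℝ) ≤ ((2 : ℝ) ^ k) ^ (1 / 15 : ℝ) := by positivity
  calc X * √c ≤ ((2 : ℝ) ^ k) ^ (1 / 15 : ℝ) * √c :=
        mul_le_mul_of_nonneg_right hX (Real.sqrt_nonneg _)
    _ ≤ ((2 : ℝ) ^ k) ^ (1 / 15 : ℝ) * (2 : ℝ) ^ (-(1 / 5 * k : ℝ)) :=
        mul_le_mul_of_nonneg_left h1 h2
    _ = (2 : ℝ) ^ ((k : ℝ) * (1 / 15) + -(1 / 5 * k : ℝ)) := by
        rw [IFC1_two, Real.rpow_add two_pos]
    _ ≤ dw k := by
        unfold dw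
        refine Real.rpow_le_rpow_of_exponent_le one_le_two ?_
        have : (0 : ℝ) ≤ k := Nat.cast_nonneg k
        linarith

/-- Part C1: localisation at the axis of the base metric. -/
theorem C1B (hP : Ok Γ D P) (hκ : 0 < κ) {u v : ℝ} (hu : 0 < u) (huv : u < v) :
    ∃ δ0 : ℝ, 0 < δ0 ∧ ∀ p : Pr, p.Ok → p.δ ≤ δ0 → ∀ κ1 : ℝ, 0 < κ1 → ∀ M : ℕ → ℝ,
    ∃ (C : ℝ) (k0 : ℕ), ∀ k ≥ k0, ∀ ξ ∈ Bs P p Γ D κ k, ∀ (η : Dir → I) (a : ℝ → ℂ),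
      Am M (Lm κ1 k) a → ∀ τ : ℝ, u * 2 ^ k ≤ τ → τ ≤ v * 2 ^ k → ∀ q : Cg Γ,
      ln (Y0 P p Γ D k ξ) q ≤ Lm (2 * κ1) k → ∀ S : Finset Γ,
      (∀ γ : Γ, γ ≠ 1 → (∃ x ∈ closure D, BR.ds (Y P p Γ D k (mix (bk k) ξ η)) x (γ • x) ≤
        Lm κ1 k + 3) → γ ∈ S) →
      open Classical in
      |(∑ γ ∈ S with IsConj (gel q) γ, B35.IKN D (Y P p Γ D k (mix (bk k) ξ η)) (Nk κ1 k)
          (osc (Ga p κ1 k a) τ) γ) -
        (zt (Y0 P p Γ D k ξ) (Y P p Γ D k (mix (bk k) ξ η)) k (Nk κ1 k) (Ra p k a) τ q).re| ≤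
        C * p.t k := by
  obtain ⟨k1, b, hCH⟩ := CH_path hP hκ
  have hG : BE36C.GI Γ D P.m (fun q : Bi P Γ D κ k1 => sP P q.p Γ D q.k q.ξ q.η)
      (fun q => 1 / q.p.e q.k) := by
    have h1 := hCH.gi
    have h2 : (fun q : Bi P Γ D κ k1 => Real.exp (Real.log (1 / q.p.e q.k))) =
        fun q => 1 / q.p.e q.k := by
      funext q
      exact Real.exp_log (one_div_pos.2 (IFC1_e _ _))
    rw [h2] at h1
    exact h1
  obtain ⟨A, hA1, hA⟩ := BE36C.class_ZT hCH.cf hG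
  obtain ⟨s, hs0, hs1, hs⟩ := hP.c
  have hA0 : (0 : ℝ) ≤ (A : ℝ) := Nat.cast_nonneg A
  refine ⟨1 / (20 * ((A : ℝ) + 1)), by positivity, fun p hp hpδ κ1 hκ1 M => ?_⟩
  have hAδ : (A : ℝ) * p.δ ≤ 1 / 20 := by
    have h1 : (A : ℝ) * p.δ ≤ A * (1 / (20 * ((A : ℝ) + 1))) :=
      mul_le_mul_of_nonneg_left hpδ hA0
    have h2 : (A : ℝ) * (1 / (20 * ((A : ℝ) + 1))) ≤ 1 / 20 := by
      rw [mul_one_div, div_le_div_iff₀ (by positivity) (by norm_num)]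
      linarith
    exact h1.trans h2
  obtain ⟨k2, hk2⟩ := AH_block hp hκ1 M
  have hτ : ∀ᶠ k : ℕ in atTop, 1 ≤ u * (2 : ℝ) ^ k := by
    have h1 : Tendsto (fun k : ℕ => (2 : ℝ) ^ k) atTop atTop :=
      tendsto_pow_atTop_atTop_of_one_lt one_lt_two
    filter_upwards [h1.eventually_ge_atTop (1 / u)] with k hk
    rw [div_le_iff₀ hu] at hk
    linarith
  obtain ⟨k3, hk3⟩ := eventually_atTop.1 ((XN_le A hp hAδ hκ1).and
    ((TN_le A hA1 hp hAδ hκ1 hu huv (5 * |M 0|)).and (DH_block.and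
      ((Lm_lt (show 2 * κ1 < 3 * κ1 by linarith) 1).and ((cn_bk hs0 hs1).and hτ)))))
  refine ⟨1, max (max k1 k2) k3, fun k hk ξ hξ η a ha τ hτ1 hτ2 q hq S hS => ?_⟩
  have hk1' : k1 ≤ k := (le_max_left _ _).trans ((le_max_left _ _).trans hk)
  have hk2' : k2 ≤ k := (le_max_right _ _).trans ((le_max_left _ _).trans hk)
  obtain ⟨hXN, hTN, hDH, hLm, ⟨-, hcn⟩, hτk⟩ := hk3 k ((le_max_right _ _).trans hk)
  obtain ⟨M', κ', hAH, -, -, -, hκ'⟩ := hk2 k hk2' a ha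
  have hM0 : 0 ≤ M 0 := Am_nonneg ha 0
  obtain ⟨hc0, hc1⟩ := c_pos hP (bk k)
  obtain ⟨hcls, -, hlp, -⟩ := cls_q hP.cx.hX hP.ori (Y0_hm hP hκ hξ) q
  have hln : lp (Y0 P p Γ D k ξ) q.1 ≤ ln (Y0 P p Γ D k ξ) q := by
    unfold ln
    have h1 : (0 : ℝ) ≤ (q.2.1 : ℝ) := Nat.cast_nonneg _
    nlinarith
  have hlR : ln (Y0 P p Γ D k ξ) q ≤ Lm (3 * κ1) k := by
    rw [one_mul] at hLm
    exact hq.trans hLm
  have hpar : BE36C.XN (Nk κ1 k) (1 / p.e k) (Lm (3 * κ1) k) ^ A * ‖√(P.c (bk k)) - 0‖ ≤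
      dw k := by
    rw [sub_zero, Real.norm_eq_abs, abs_of_nonneg (Real.sqrt_nonneg _)]
    refine IFC1_sm hXN ?_
    rw [hs]
    exact hcn
  have h0 := hA (Nk κ1 k) ⟨p, k, ξ, η, hp, hk1', hξ⟩ 0 (√(P.c (bk k))) (by simp)
    (by
      rw [Real.norm_eq_abs, abs_of_nonneg (Real.sqrt_nonneg _)]
      exact Real.sqrt_le_one.2 hc1)
    (gel q) (gpr q) (ax (Y0 P p Γ D k ξ) (gpr q)).1 (ax (Y0 P p Γ D k ξ) (gpr q)).2
    (ln (Y0 P p Γ D k ξ) q) (lp (Y0 P p Γ D k ξ) q.1)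
    (by
      show Cls (mm P.m (sP P p Γ D k ξ η) 0) _ _ _ _ _ _
      rw [path_zero hP]
      exact hcls)
    (Fa p k a) (Ga p κ1 k a) (qd p k) (Lm κ1 k) (Lm (3 * κ1) k) (5 * M 0) M' κ' τ (dw k) (de k)
    hlR hAH hDH (hτk.trans hτ1) hpar S
    (fun γ hγ hx => hS γ hγ (by
      obtain ⟨x, hx1, hx2⟩ := hx
      refine ⟨x, hx1, ?_⟩
      rw [← path_one hP p k ξ η]
      exact hx2))
  have h1 : Lm (3 * κ1) k * BE36C.TN A (Nk κ1 k) (1 / p.e k) (Lm (3 * κ1) k) (5 * M 0) κ' τ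
      (dw k) (de k) (qd p k) ≤ p.t k := by
    refine hTN (5 * M 0) κ' τ (by positivity) ?_ hAH.cut.nonneg hκ' hτ1 hτ2
    have h2 : (1 : ℝ) ≤ (2 : ℝ) ^ k := one_le_pow₀ one_le_two
    rw [abs_of_nonneg hM0]
    exact le_mul_of_one_le_right (by positivity) h2
  have h2 : 0 ≤ BE36C.TN A (Nk κ1 k) (1 / p.e k) (Lm (3 * κ1) k) (5 * M 0) κ' τ
      (dw k) (de k) (qd p k) := by
    have h3 := (abs_nonneg _).trans h0
    exact (mul_nonneg_iff_of_pos_left hlp).1 h3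
  have h3 : lp (Y0 P p Γ D k ξ) q.1 * BE36C.TN A (Nk κ1 k) (1 / p.e k) (Lm (3 * κ1) k) (5 * M 0)
      κ' τ (dw k) (de k) (qd p k) ≤ 1 * p.t k := by
    rw [one_mul]
    exact (mul_le_mul_of_nonneg_right (hln.trans hlR) h2).trans h1
  refine le_trans (le_of_eq ?_) (h0.trans h3)
  have e0 : mm P.m (sP P p Γ D k ξ η) 0 = Y0 P p Γ D k ξ := path_zero hP p k ξ η
  have e1 : mm P.m (sP P p Γ D k ξ η) (√(P.c (bk k))) = Y P p Γ D k (mix (bk k) ξ η) :=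
    path_one hP p k ξ η
  rw [← e0, ← e1]
  rfl

end F37
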