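import Pool.Agent.LibBE37F.IFE2
import Pool.Agent.LibBE37F.N1c
import Pool.Agent.LibBE36E.F6

/-! Interface: part E, the tuples that no cell detects (from `E36.partE`). -/

open MeasureTheory Set Filter Topology
open scoped ContDiff unitInterval

namespace F37

variable [Sq]

open BGS BR HG20 B35
open UC88 (Dic cl_of wt_wg rel_iff xi_vis)
open E35 (Cl)

variable {Γ : Type} [Group Γ] [MulAction Γ Pl] {D : Set Pl} {P : Dt} {κ : ℝ}

private theorem IFE1_sgn (e : Bool) : sgn e ≠ 0 := by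
  unfold sgn
  split_ifs <;> norm_num

open Classical in
/-- The tuples that no cell detects, `J = Fin n`. -/
private theorem IFE1_fin (hP : Ok Γ D P) (hκ : 0 < κ) {p : Pr} (hp : p.Ok) (n : ℕ) (Λ1 : ℝ) :
    ∃ (κ0 c : ℝ) (k0 : ℕ), 0 < κ0 ∧ 0 < c ∧ ∀ k ≥ k0, ∀ ξ ∈ Bs P p Γ D κ k, ∀ e : Fin n → Bool,
      ∃ Bd : Finset (Fin n → Cg Γ), ∑ q ∈ Bd, ∏ j, wg (Y0 P p Γ D k ξ) (q j) ≤
          ((bk k : ℝ) + 1) ^ (-c) ∧
        ∀ q : Fin n → Cg Γ, q ∉ Bd → (∀ j, ln (Y0 P p Γ D k ξ) (q j) ≤ Lm κ0 k) →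
          ∀ lam : Fin n → ℝ, (∀ j, 0 < sgn (e j) * lam j ∧ Λ1⁻¹ ≤ |lam j| ∧ |lam j| ≤ Λ1) →
          (∀ c ∈ grid P.L (bk k + 1), |∑ j, lam j * ((q j).2.1 + 1) *
            vis (Y0 P p Γ D k ξ) (bk k + 1) c (q j).1| ≤ ((bk k : ℝ) + 1) ^ (-(3 / 2) : ℝ)) →
          ∀ g : GH.PG Γ, |∑ j with (q j).1 = g, lam j * ((q j).2.1 + 1)| ≤
            ((bk k : ℝ) + 1) ^ (-c) := by
  obtain ⟨a, b, r, Λ, k1, hUC⟩ := block_UC hP hκ
  set Λ' : ℝ := max Λ1 1 with hΛ'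
  obtain ⟨κ1, κ0, R0, hκ1, hκ0, hR0, hE⟩ := E36.partE (Γ := Γ) D a b r Λ n P.L hP.cx.dom
    (le_max_right Λ1 1 : 1 ≤ Λ')
  -- the scale is large
  obtain ⟨k2, hk2⟩ : ∃ k2 : ℕ, ∀ k ≥ k2, R0 ≤ ((bk k + 1 : ℕ) : ℝ) ∧
      (Λ : ℝ) ^ 4 ≤ ((bk k + 1 : ℕ) : ℝ) := by
    have h1 : Tendsto (fun k : ℕ => ((bk k : ℕ) : ℝ)) atTop atTop :=
      tendsto_natCast_atTop_atTop.comp bk_tendsto
    obtain ⟨k2, hk2⟩ := eventually_atTop.1 ((h1.eventually_ge_atTop R0).and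
      (h1.eventually_ge_atTop ((Λ : ℝ) ^ 4)))
    refine ⟨k2, fun k hk => ?_⟩
    obtain ⟨h2, h3⟩ := hk2 k hk
    push_cast
    exact ⟨by linarith, by linarith⟩
  have hc1 : min κ1 (1 / 4) ≤ κ1 := min_le_left _ _
  have hc2 : min κ1 (1 / 4) ≤ 1 / 4 := min_le_right _ _
  refine ⟨κ0, min κ1 (1 / 4), max k1 k2, hκ0, lt_min hκ1 (by norm_num), fun k hk ξ hξ e => ?_⟩
  have hkk1 : k1 ≤ k := (le_max_left _ _).trans hk
  have hkk2 : k2 ≤ k := (le_max_right _ _).trans hk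
  obtain ⟨hR1, hR2⟩ := hk2 k hkk2
  have hRc : ((bk k + 1 : ℕ) : ℝ) = (bk k : ℝ) + 1 := by push_cast; rfl
  have hbk : (0 : ℝ) ≤ bk k := Nat.cast_nonneg _
  have hR1' : (1 : ℝ) ≤ (bk k : ℝ) + 1 := by linarith
  obtain ⟨LK, hc, hU⟩ := hUC p hp k hkk1 ξ hξ
  obtain ⟨M, Φ, hD⟩ := cl_of hc
  obtain ⟨B, hBf, hBs, hBne, hB⟩ := hE _ hU M (bk k + 1) hR1 (Lm κ0 k) (Lm_one κ0 hκ0.le k)
    (by rw [hRc]; exact le_rfl) (fun j => sgn (e j)) (fun j => IFE1_sgn _)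
  have hinj : Function.Injective (fun (q : Fin n → Cg Γ) (j : Fin n) => Φ (q j)) := by
    intro q1 q2 h
    funext j
    exact hD.inj (congrFun h j)
  have hfin : {q : Fin n → Cg Γ | (fun j => Φ (q j)) ∈ B}.Finite := hBf.preimage hinj.injOn
  refine ⟨hfin.toFinset, ?_, ?_⟩
  · -- the sum
    have h1 : ∑ q ∈ hfin.toFinset, ∏ j, wg (Y0 P p Γ D k ξ) (q j) =
        ∑ᶠ c ∈ B, ∏ i, E35.wt M (c i) := by
      rw [finsum_mem_eq_finite_toFinset_sum _ hBf]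
      refine Finset.sum_bij (fun q _ j => Φ (q j)) ?_ ?_ ?_ ?_
      · intro q hq
        rw [Set.Finite.mem_toFinset] at hq ⊢
        exact hq
      · intro q1 _ q2 _ h
        exact hinj h
      · intro c hcB
        rw [Set.Finite.mem_toFinset] at hcB
        choose q' hq' using fun i => hD.surj (c i) (hBne c hcB i)
        refine ⟨q', ?_, funext hq'⟩
        rw [Set.Finite.mem_toFinset]
        show (fun j => Φ (q' j)) ∈ B
        rw [show (fun j => Φ (q' j)) = c from funext hq']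
        exact hcB
      · intro q _
        exact Finset.prod_congr rfl fun j _ => (wt_wg hc hD (q j)).symm
    rw [h1]
    refine hBs.trans ?_
    rw [hRc]
    exact Real.rpow_le_rpow_of_exponent_le hR1' (by linarith)
  · intro q hq hln lam hlam hcell g
    have hqB : (fun j => Φ (q j)) ∉ B := by
      intro h
      exact hq (hfin.mem_toFinset.2 h)
    have hell : ∀ j, Φ (q j) ≠ 1 ∧ M.l (Φ (q j)) ≤ Lm κ0 k := by
      intro j
      refine ⟨hD.ne _, ?_⟩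
      rw [hD.l]
      exact hln j
    have hlam' : ∀ j, 0 < sgn (e j) * lam j ∧ 1 / Λ' ≤ |lam j| ∧ |lam j| ≤ Λ' := by
      intro j
      obtain ⟨h1, h2, h3⟩ := hlam j
      have h4 : lam j ≠ 0 := by
        intro h
        rw [h, mul_zero] at h1
        exact lt_irrefl _ h1
      have h5 : 0 < Λ1 := lt_of_lt_of_le (abs_pos.2 h4) h3
      refine ⟨h1, le_trans ?_ h2, h3.trans (le_max_left _ _)⟩
      rw [one_div]
      exact inv_anti₀ h5 (le_max_left _ _)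
    have hRn : 1 ≤ bk k + 1 := by omega
    have hcell' : ∀ p ∈ grid P.L (bk k + 1), |∑ j, lam j * E35.xi M (bk k + 1) p (Φ (q j))| ≤
        ((bk k + 1 : ℕ) : ℝ) ^ (-(3 / 2) : ℝ) := by
      intro p' hp'
      have h1 := hcell p' hp'
      have h2 : ∑ j, lam j * E35.xi M (bk k + 1) p' (Φ (q j)) =
          ∑ j, lam j * ((q j).2.1 + 1) * vis (Y0 P p Γ D k ξ) (bk k + 1) p' (q j).1 := by
        refine Finset.sum_congr rfl fun j _ => ?_
        rw [xi_vis hc hU hD hRn]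
        ring
      rw [h2, hRc]
      exact h1
    have hfinal := hB (fun j => Φ (q j)) hqB hell lam hlam' hcell'
    -- the last constant
    have hΛR : (Λ : ℝ) * ((bk k : ℝ) + 1) ^ (-(1 / 2) : ℝ) ≤
        ((bk k : ℝ) + 1) ^ (-min κ1 (1 / 4)) := by
      have hR0' : (0 : ℝ) < (bk k : ℝ) + 1 := by linarith
      have h1 : (Λ : ℝ) ≤ ((bk k : ℝ) + 1) ^ (1 / 4 : ℝ) := by
        rw [hRc] at hR2
        have h2 := Real.rpow_le_rpow (by positivity) hR2 (by norm_num : (0 : ℝ) ≤ 1 / 4)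
        rwa [← Real.rpow_natCast, ← Real.rpow_mul (Nat.cast_nonneg _),
          show ((4 : ℕ) : ℝ) * (1 / 4) = 1 by norm_num, Real.rpow_one] at h2
      calc (Λ : ℝ) * ((bk k : ℝ) + 1) ^ (-(1 / 2) : ℝ)
          ≤ ((bk k : ℝ) + 1) ^ (1 / 4 : ℝ) * ((bk k : ℝ) + 1) ^ (-(1 / 2) : ℝ) :=
            mul_le_mul_of_nonneg_right h1 (by positivity)
        _ = ((bk k : ℝ) + 1) ^ (-(1 / 4) : ℝ) := by
            rw [← Real.rpow_add hR0']
            norm_num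
        _ ≤ ((bk k : ℝ) + 1) ^ (-min κ1 (1 / 4)) :=
            Real.rpow_le_rpow_of_exponent_le hR1' (by linarith)
    by_cases hg : ∃ i, (q i).1 = g
    · obtain ⟨i, hi⟩ := hg
      have h1 := hfinal i
      have h2 : ∑ j, (if E35.Rel M (Φ (q i)) (Φ (q j)) then lam j * (M.n (Φ (q j)) : ℝ) else 0) =
          ∑ j with (q j).1 = g, lam j * (((q j).2.1 : ℝ) + 1) := by
        rw [Finset.sum_filter]
        refine Finset.sum_congr rfl fun j _ => ?_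
        have h3 : E35.Rel M (Φ (q i)) (Φ (q j)) ↔ (q j).1 = g := by
          rw [rel_iff hc hD, hi]
          exact eq_comm
        by_cases h4 : (q j).1 = g
        · rw [if_pos (h3.2 h4), if_pos h4, hD.n]
          push_cast
          ring
        · rw [if_neg (fun h => h4 (h3.1 h)), if_neg h4]
      rw [h2, hRc] at h1
      exact h1.trans hΛR
    · have h1 : ∑ j with (q j).1 = g, lam j * (((q j).2.1 : ℝ) + 1) = 0 := by
        rw [Finset.filter_false_of_mem (fun j _ h => hg ⟨j, h⟩), Finset.sum_empty]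
      rw [h1, abs_zero]
      positivity

/-- Part E: the tuples that no cell detects. -/
theorem undet (hP : Ok Γ D P) (hκ : 0 < κ) {p : Pr} (hp : p.Ok) (J : Type) [Fintype J] (Λ : ℝ) :
    ∃ (κ0 c : ℝ) (k0 : ℕ), 0 < κ0 ∧ 0 < c ∧ ∀ k ≥ k0, ∀ ξ ∈ Bs P p Γ D κ k, ∀ e : J → Bool,
      ∃ Bd : Finset (J → Cg Γ), ∑ q ∈ Bd, ∏ j, wg (Y0 P p Γ D k ξ) (q j) ≤
          ((bk k : ℝ) + 1) ^ (-c) ∧
        ∀ q : J → Cg Γ, q ∉ Bd → (∀ j, ln (Y0 P p Γ D k ξ) (q j) ≤ Lm κ0 k) →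
          ∀ lam : J → ℝ, (∀ j, 0 < sgn (e j) * lam j ∧ Λ⁻¹ ≤ |lam j| ∧ |lam j| ≤ Λ) →
          (∀ c ∈ grid P.L (bk k + 1), |∑ j, lam j * ((q j).2.1 + 1) *
            vis (Y0 P p Γ D k ξ) (bk k + 1) c (q j).1| ≤ ((bk k : ℝ) + 1) ^ (-(3 / 2) : ℝ)) →
          open Classical in
          ∀ g : GH.PG Γ, |∑ j with (q j).1 = g, lam j * ((q j).2.1 + 1)| ≤
            ((bk k : ℝ) + 1) ^ (-c) := by
  classical
  set n : ℕ := Fintype.card J with hn
  set φ : J ≃ Fin n := Fintype.equivFin J with hφ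
  obtain ⟨κ0, c, k0, hκ0, hc, h⟩ := IFE1_fin hP hκ hp n Λ
  refine ⟨κ0, c, k0, hκ0, hc, fun k hk ξ hξ e => ?_⟩
  obtain ⟨Bd, h1, h2⟩ := h k hk ξ hξ (fun i => e (φ.symm i))
  have hinj : Function.Injective (fun (q : Fin n → Cg Γ) (j : J) => q (φ j)) := by
    intro q1 q2 hq
    funext i
    have := congrFun hq (φ.symm i)
    simpa using this
  refine ⟨Bd.image (fun (q : Fin n → Cg Γ) (j : J) => q (φ j)), ?_, ?_⟩
  · rw [Finset.sum_image (fun q1 _ q2 _ h => hinj h)]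
    refine le_trans (le_of_eq ?_) h1
    refine Finset.sum_congr rfl fun q _ => ?_
    exact Equiv.prod_comp φ (fun i => wg (Y0 P p Γ D k ξ) (q i))
  · intro q hq hln lam hlam hcell g
    have hq' : (fun i => q (φ.symm i)) ∉ Bd := by
      intro h3
      apply hq
      rw [Finset.mem_image]
      exact ⟨_, h3, by funext j; simp⟩
    have e1 : ∀ f : J → ℝ, ∑ i, f (φ.symm i) = ∑ j, f j := fun f => Equiv.sum_comp φ.symm f
    have h3 := h2 (fun i => q (φ.symm i)) hq' (fun i => hln _) (fun i => lam (φ.symm i))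
      (fun i => hlam _) (fun c' hc' => by
        have h4 := hcell c' hc'
        have h5 := e1 (fun j => lam j * ((q j).2.1 + 1) *
          vis (Y0 P p Γ D k ξ) (bk k + 1) c' (q j).1)
        rw [← h5] at h4
        exact h4) g
    have h6 := e1 (fun j => if (q j).1 = g then lam j * (((q j).2.1 : ℝ) + 1) else 0)
    rw [Finset.sum_filter] at h3 ⊢
    rw [← h6]
    exact h3

end F37
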