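import Pool.Agent.LibBE37F.IC0
import Pool.Agent.LibBE37F.IFH
import Pool.Agent.LibBE37F.FA3
import Pool.Agent.LibBE37F.FA5
import Pool.Agent.LibBE37F.N1b
import Pool.Agent.LibBE36.GE5
import Pool.Agent.LibBE36T.T4b
import Pool.Agent.LibBE36T.T8
import Pool.Agent.LibBE36T.T14

/-! ROW IFT : the trace formula in the blocks. MEDIUM. PLAN. `traceH` (T8) for `m' : Mt` with `m'.1.1 = Y (mix) = mm P.m (sP ..) √c` (`path_one`), `a := Ga p κ1 k a` (`Ga_ampH`: `AmpH (N + 2)`, `ρ := Lm κ1 k + 3`, `M := 10 M 0`, `H := 2 Q (N+2) + 16 (N+2) ≥ 1`), `N = Nk κ1 k ≥ 6`; `C` = the constant of `UC_family` (T4b)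
with `m0 = P.m` and a common bound of the exponents of the `Y`s (`Cnf`; `Mo_ex_bd` of order 0 and the area, `F0_all`; see `Y_bd` below); `hgk` = `CH.gk`, `hU` = `CH.u0` (LibBE36/GE5) for the class `CH_path` with `exp (lQ i) = 1/e`, at `p = √c ≤ 1`: `B = ((N+1) (Q (2 + ρ)))^(A (N+1))`, `B1 = ((N+1) 4 Q)^A`.
`δ0 = 1/(40 (A + 4))`. Numbers: `hsm`: `B1 (H + 2N) (ρ+1)^2/τ ≤ 1/2`: `Q^(A+1) 2^(o(k)) / 2^k`. The error: the second part `2 M (H + 2N)^2/τ^2 ≤ 2^(-k)/2`. The first: `B H (H + 4N^2)^(N-1) (ρ+1)^(2N+1) e^(Cρ) / τ^(N-5)`: every basis (`(N+1) Q (2+ρ)`, `H + 4N^2`, `ρ + 1`) is at most `2^(2 δ k)` for large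
`k` (`Lm_sub`), so the product is at most `2^(2 δ k (A (N+1) + 3 N + 3)) e^(Cρ) ≤ 2^(k (N + 3)/4)` ..., and `τ^(N-5) ≥ (u 2^k)^(N-5)`; the quotient is `≤ 2^(-k)` for large `k` because `N → ∞` and `C ρ ≤ C Lm κ1 k ≤ N k/8 log 2` (`Nk κ1 k ≥ Lm (2 κ1) k`, `Lm_lt`). `B36.Qs` and `Sb`, `Sg`: unfold. -/

open MeasureTheory Set Filter Topology
open scoped ContDiff unitInterval

namespace F37

variable [Sq]

open BGS BR BE B35

variable {Γ : Type} [Group Γ] [MulAction Γ Pl] {D : Set Pl} {P : Dt} {κ : ℝ}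

/-- The exponents of all block metrics are bounded. -/
theorem Y_bd (hP : Ok Γ D P) : ∃ C : ℝ, 0 ≤ C ∧ ∀ (p : Pr) (k : ℕ), 2 ^ p.n * p.e k ≤ 1 →
    ∀ (ξ : Dir → I) (z : Pl), |hY P p Γ D k ξ z| ≤ C := by
  obtain ⟨C, hC0, hC⟩ := Mo_ex_bd hP 0
  have hX := hP.cx.hX
  have hrp : BGM.Rp P.m := hP.cx.rp
  have hA0 := AR_zero_pos hX hrp
  refine ⟨2 * C + |Real.log (AR D P.m fun _ => 0)|, by positivity, fun p k hk ξ z => ?_⟩
  have he := e_pos p k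
  have ht := Mo_test hX hP.hyp p.n he (ex_test hP ξ)
  have hall : ∀ z, |B36.Mo p.n (p.e k) (BGM.ex Γ P.ψ P.L P.c ξ) z| ≤ C := by
    intro z
    obtain ⟨γ, hγ, _⟩ := hX.orbit z
    have h1 := hC p.n (p.e k) he hk ξ 0 le_rfl (γ • z) (subset_closure hγ)
    rw [norm_iteratedFDeriv_zero, Real.norm_eq_abs, ht.2 γ z] at h1
    exact h1
  have hlo : AR D P.m (fun _ => 0) ≤ Real.exp C *
      AR D P.m (B36.Mo p.n (p.e k) (BGM.ex Γ P.ψ P.L P.c ξ)) := by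
    refine AR_mono hX hrp ht.1.continuous continuous_const fun z _ => ?_
    have := (abs_le.1 (hall z)).1
    show (0 : ℝ) ≤ _
    linarith
  have hhi : AR D P.m (B36.Mo p.n (p.e k) (BGM.ex Γ P.ψ P.L P.c ξ)) ≤ Real.exp C *
      AR D P.m (fun _ => 0) := by
    refine AR_mono hX hrp continuous_const ht.1.continuous fun z _ => ?_
    have := (abs_le.1 (hall z)).2
    show _ ≤ (0 : ℝ) + C
    linarith
  have hAp := AR_pos hX hrp ht.1.continuous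
  have hlog : |Real.log (AR D P.m (B36.Mo p.n (p.e k) (BGM.ex Γ P.ψ P.L P.c ξ)))| ≤
      C + |Real.log (AR D P.m fun _ => 0)| := by
    have h1 := Real.log_le_log hA0 hlo
    have h2 := Real.log_le_log hAp hhi
    rw [Real.log_mul (Real.exp_pos _).ne' hAp.ne', Real.log_exp] at h1
    rw [Real.log_mul (Real.exp_pos _).ne' hA0.ne', Real.log_exp] at h2
    have h3 := neg_abs_le (Real.log (AR D P.m fun _ => 0))
    have h4 := le_abs_self (Real.log (AR D P.m fun _ => 0))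
    rw [abs_le]
    constructor <;> linarith
  unfold hY
  rw [nx_eq]
  have h5 := abs_sub (B36.Mo p.n (p.e k) (BGM.ex Γ P.ψ P.L P.c ξ) z)
    (Real.log (AR D P.m (B36.Mo p.n (p.e k) (BGM.ex Γ P.ψ P.L P.c ξ))))
  have h6 := hall z
  linarith

/-- The final estimate. -/
private theorem tr_fin {Q w τ Cu M0 ρ : ℝ} {N A1 A2 A : ℕ} (hQ1 : 1 ≤ Q) (hw : 2 ≤ w)
    (hQw : Q ^ (2 * A + 4) ≤ w ^ 2) (hτ : w ^ 7 ≤ τ) (hN : 12 ≤ N)
    (h40 : 40 * ((N : ℝ) + 2) ^ 2 ≤ Q) (h4 : ((N : ℝ) + 1) * 4 * (ρ + 2) ≤ Q) (hρ : 0 ≤ ρ)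
    (he : Real.exp (Cu * ρ) ≤ w ^ N) (h1 : A1 ≤ A) (h2 : A2 ≤ A) (hM : 0 ≤ M0) {H : ℝ}
    (hH : H = 2 * Q * ((N + 2 : ℕ) : ℝ) + 16 * ((N + 2 : ℕ) : ℝ)) :
    1 ≤ H ∧ (((N : ℝ) + 1) * (4 * Q)) ^ A2 * (H + 2 * N) * (ρ + 1) ^ 2 / τ ≤ 1 / 2 ∧
    30 * ((((N : ℝ) + 1) * (Q * (2 + ρ))) ^ (A1 * (N + 1))) * (10 * M0) * H *
      (H + 4 * N ^ 2) ^ (N - 1) * (ρ + 1) ^ (2 * N + 1) * Cu ^ 2 * Real.exp (Cu * ρ) /
        τ ^ (N - 5) + 2 * (10 * M0) * (H + 2 * N) ^ 2 / τ ^ 2 ≤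
      (300 * M0 * Cu ^ 2 + 20 * M0) / w ^ 8 := by
  have hN0 : (12 : ℝ) ≤ N := by exact_mod_cast hN
  have hw1 : 1 ≤ w := by linarith
  have hw0 : 0 < w := by linarith
  have hQ0 : 0 < Q := by linarith
  have hH' : H = (2 * Q + 16) * ((N : ℝ) + 2) := by
    rw [hH]
    push_cast
    ring
  have hH1 : 1 ≤ H := by
    rw [hH']
    nlinarith
  have hH0 : 0 < H := by linarith
  have hHN : H + 4 * (N : ℝ) ^ 2 ≤ Q ^ 2 := by
    rw [hH']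
    have h3 : (2 * Q + 16) * ((N : ℝ) + 2) ≤ 18 * Q * ((N : ℝ) + 2) := by
      refine mul_le_mul_of_nonneg_right ?_ (by linarith)
      linarith
    have h5 : 18 * Q * ((N : ℝ) + 2) ≤ Q * (Q / 2) := by
      have h6 : 36 * ((N : ℝ) + 2) ≤ Q := by nlinarith
      nlinarith
    have h7 : 4 * (N : ℝ) ^ 2 ≤ Q * (1 / 2) := by nlinarith
    nlinarith
  have hHN2 : H + 2 * (N : ℝ) ≤ Q ^ 2 := by
    have : 2 * (N : ℝ) ≤ 4 * (N : ℝ) ^ 2 := by nlinarith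
    linarith
  have hHQ : H ≤ Q ^ 2 := by
    have : 0 ≤ 4 * (N : ℝ) ^ 2 := by positivity
    linarith
  have hρQ : ρ + 1 ≤ Q := by nlinarith
  have hNQ : (N : ℝ) + 1 ≤ Q := by nlinarith
  have hb1 : ((N : ℝ) + 1) * (4 * Q) ≤ Q ^ 2 := by
    have : ((N : ℝ) + 1) * 4 ≤ Q := by nlinarith
    nlinarith
  have hb : ((N : ℝ) + 1) * (Q * (2 + ρ)) ≤ Q ^ 2 := by
    have : ((N : ℝ) + 1) * (ρ + 2) ≤ Q := by nlinarith
    nlinarith
  have hQ2 : 1 ≤ Q ^ 2 := one_le_pow₀ hQ1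
  have hb0 : 0 ≤ ((N : ℝ) + 1) * (Q * (2 + ρ)) := by positivity
  have hb10 : 0 ≤ ((N : ℝ) + 1) * (4 * Q) := by positivity
  have hτ0 : 0 < τ := lt_of_lt_of_le (by positivity) hτ
  have hB1 : (((N : ℝ) + 1) * (4 * Q)) ^ A2 ≤ Q ^ (2 * A) := by
    calc (((N : ℝ) + 1) * (4 * Q)) ^ A2 ≤ (Q ^ 2) ^ A2 := pow_le_pow_left₀ hb10 hb1 _
      _ ≤ (Q ^ 2) ^ A := pow_le_pow_right₀ hQ2 h2
      _ = Q ^ (2 * A) := by rw [← pow_mul]
  have hB : (((N : ℝ) + 1) * (Q * (2 + ρ))) ^ (A1 * (N + 1)) ≤ Q ^ (2 * A * (N + 1)) := by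
    calc (((N : ℝ) + 1) * (Q * (2 + ρ))) ^ (A1 * (N + 1)) ≤ (Q ^ 2) ^ (A1 * (N + 1)) :=
          pow_le_pow_left₀ hb0 hb _
      _ ≤ (Q ^ 2) ^ (A * (N + 1)) :=
          pow_le_pow_right₀ hQ2 (Nat.mul_le_mul_right _ h1)
      _ = Q ^ (2 * A * (N + 1)) := by rw [← pow_mul, mul_assoc]
  refine ⟨hH1, ?_, ?_⟩
  · rw [div_le_iff₀ hτ0]
    have h5 : (((N : ℝ) + 1) * (4 * Q)) ^ A2 * (H + 2 * N) * (ρ + 1) ^ 2 ≤
        Q ^ (2 * A) * Q ^ 2 * Q ^ 2 := by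
      refine mul_le_mul (mul_le_mul hB1 hHN2 (by positivity) (by positivity))
        (pow_le_pow_left₀ (by positivity) hρQ 2) (by positivity) (by positivity)
    have h6 : Q ^ (2 * A) * Q ^ 2 * Q ^ 2 = Q ^ (2 * A + 4) := by ring
    have h7 : w ^ 2 * 2 ≤ w ^ 7 := by
      have : w ^ 7 = w ^ 2 * w ^ 5 := by ring
      rw [this]
      refine mul_le_mul_of_nonneg_left ?_ (by positivity)
      calc (2 : ℝ) ≤ w := hw
        _ = w ^ 1 := (pow_one w).symm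
        _ ≤ w ^ 5 := pow_le_pow_right₀ hw1 (by norm_num)
    linarith
  · rw [add_div]
    refine add_le_add ?_ ?_
    · have h5 : w ^ (7 * (N - 5)) ≤ τ ^ (N - 5) := by
        rw [pow_mul]
        exact pow_le_pow_left₀ (by positivity) hτ _
      rw [div_le_div_iff₀ (by positivity) (by positivity)]
      have h6 : (((N : ℝ) + 1) * (Q * (2 + ρ))) ^ (A1 * (N + 1)) * H *
          (H + 4 * N ^ 2) ^ (N - 1) * (ρ + 1) ^ (2 * N + 1) ≤ (w ^ 2) ^ (N + 1) := by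
        calc (((N : ℝ) + 1) * (Q * (2 + ρ))) ^ (A1 * (N + 1)) * H *
              (H + 4 * N ^ 2) ^ (N - 1) * (ρ + 1) ^ (2 * N + 1) ≤
              Q ^ (2 * A * (N + 1)) * Q ^ 2 * (Q ^ 2) ^ (N - 1) * Q ^ (2 * N + 1) := by
              refine mul_le_mul (mul_le_mul (mul_le_mul hB hHQ (by positivity) (by positivity))
                (pow_le_pow_left₀ (by positivity) hHN _) (by positivity) (by positivity))
                (pow_le_pow_left₀ (by positivity) hρQ _) (by positivity) (by positivity)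
          _ = Q ^ (2 * A * (N + 1) + 2 + 2 * (N - 1) + (2 * N + 1)) := by
              rw [← pow_mul, ← pow_add, ← pow_add, ← pow_add]
          _ ≤ Q ^ ((2 * A + 4) * (N + 1)) := by
              refine pow_le_pow_right₀ hQ1 ?_
              have : (2 * A + 4) * (N + 1) = 2 * A * (N + 1) + 4 * (N + 1) := by ring
              omega
          _ = (Q ^ (2 * A + 4)) ^ (N + 1) := by rw [pow_mul]
          _ ≤ (w ^ 2) ^ (N + 1) := pow_le_pow_left₀ (by positivity) hQw _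
      have h7 : (w ^ 2) ^ (N + 1) * w ^ N * w ^ 8 ≤ w ^ (7 * (N - 5)) := by
        rw [← pow_mul, ← pow_add, ← pow_add]
        refine pow_le_pow_right₀ hw1 ?_
        omega
      calc 30 * ((((N : ℝ) + 1) * (Q * (2 + ρ))) ^ (A1 * (N + 1))) * (10 * M0) * H *
            (H + 4 * N ^ 2) ^ (N - 1) * (ρ + 1) ^ (2 * N + 1) * Cu ^ 2 * Real.exp (Cu * ρ) *
              w ^ 8
          = 300 * M0 * Cu ^ 2 * (((((N : ℝ) + 1) * (Q * (2 + ρ))) ^ (A1 * (N + 1)) * H *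
            (H + 4 * N ^ 2) ^ (N - 1) * (ρ + 1) ^ (2 * N + 1)) * Real.exp (Cu * ρ) *
              w ^ 8) := by ring
        _ ≤ 300 * M0 * Cu ^ 2 * ((w ^ 2) ^ (N + 1) * w ^ N * w ^ 8) := by
            refine mul_le_mul_of_nonneg_left ?_ (by positivity)
            refine mul_le_mul_of_nonneg_right ?_ (by positivity)
            exact mul_le_mul h6 he (Real.exp_pos _).le (by positivity)
        _ ≤ 300 * M0 * Cu ^ 2 * w ^ (7 * (N - 5)) :=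
            mul_le_mul_of_nonneg_left h7 (by positivity)
        _ ≤ 300 * M0 * Cu ^ 2 * τ ^ (N - 5) := mul_le_mul_of_nonneg_left h5 (by positivity)
    · rw [div_le_div_iff₀ (by positivity) (by positivity)]
      have h5 : (w ^ 7) ^ 2 ≤ τ ^ 2 := pow_le_pow_left₀ (by positivity) hτ 2
      have h6 : (H + 2 * N) ^ 2 ≤ w ^ 2 := by
        calc (H + 2 * (N : ℝ)) ^ 2 ≤ (Q ^ 2) ^ 2 := pow_le_pow_left₀ (by positivity) hHN2 2
          _ = Q ^ 4 := by ring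
          _ ≤ Q ^ (2 * A + 4) := pow_le_pow_right₀ hQ1 (by omega)
          _ ≤ w ^ 2 := hQw
      have h7 : w ^ 2 * w ^ 8 ≤ (w ^ 7) ^ 2 := by
        rw [← pow_add, ← pow_mul]
        exact pow_le_pow_right₀ hw1 (by norm_num)
      calc 2 * (10 * M0) * (H + 2 * N) ^ 2 * w ^ 8 = 20 * M0 * ((H + 2 * N) ^ 2 * w ^ 8) := by
            ring
        _ ≤ 20 * M0 * (w ^ 2 * w ^ 8) := by
            refine mul_le_mul_of_nonneg_left ?_ (by positivity)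
            exact mul_le_mul_of_nonneg_right h6 (by positivity)
        _ ≤ 20 * M0 * τ ^ 2 := mul_le_mul_of_nonneg_left (h7.trans h5) (by positivity)

/-- The scales for large `k`. -/
private theorem tr_num (p : Pr) (hp : 0 < p.δ) (A : ℕ) (hA : p.δ * (2 * A + 4) ≤ 1 / 4)
    {κ1 : ℝ} (hκ1 : 0 < κ1) (Cu : ℝ) {u : ℝ} (hu : 0 < u) : ∀ᶠ k : ℕ in atTop,
    ∃ w : ℝ, 1 ≤ 1 / p.e k ∧ 2 ≤ w ∧ (2 : ℝ) ^ k = w ^ 8 ∧ (1 / p.e k) ^ (2 * A + 4) ≤ w ^ 2 ∧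
      w ^ 7 ≤ u * 2 ^ k ∧ 12 ≤ Nk κ1 k ∧ 40 * ((Nk κ1 k : ℝ) + 2) ^ 2 ≤ 1 / p.e k ∧
      ((Nk κ1 k : ℝ) + 1) * 4 * (Lm κ1 k + 3 + 2) ≤ 1 / p.e k ∧
      Real.exp (Cu * (Lm κ1 k + 3)) ≤ w ^ Nk κ1 k := by
  have hlog : 0 < Real.log 2 := Real.log_pos one_lt_two
  filter_upwards [Lm_sub (4 * κ1) (A := 1000) hp, k_Lm (κ := 2 * κ1) (by linarith) 12,
    Lm_lt (κ := κ1) (κ' := 2 * κ1) (by linarith) (4 * |Cu| / (Real.log 2 / 8)),
    tendsto_natCast_atTop_atTop.eventually_ge_atTop (8 : ℝ),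
    tendsto_natCast_atTop_atTop.eventually_ge_atTop (-(8 * Real.log u / Real.log 2))]
    with k h1 h2 h3 h4 h5
  obtain ⟨n1, n2, n3⟩ := Nk_le hκ1.le k
  have hL1 := Lm_one κ1 hκ1.le k
  have hL2 := Lm_one (2 * κ1) (by linarith) k
  have hLL : Lm (2 * κ1) k = Lm κ1 k * Lm κ1 k := by
    rw [← Lm_add]
    congr 1
    ring
  have hL4 : Lm (4 * κ1) k = Lm (2 * κ1) k * Lm (2 * κ1) k := by
    rw [← Lm_add]
    congr 1
    ring
  have hk0 : (0 : ℝ) ≤ k := Nat.cast_nonneg k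
  have hQ : 1 / p.e k = (2 : ℝ) ^ (p.δ * k) := by
    unfold Pr.e
    rw [Real.rpow_neg two_pos.le, one_div, inv_inv]
  have hw : (1 : ℝ) ≤ 2 ^ ((k : ℝ) / 8) := Real.one_le_rpow one_le_two (by positivity)
  have hw8 : (2 : ℝ) ^ k = ((2 : ℝ) ^ ((k : ℝ) / 8)) ^ 8 := by
    rw [← Real.rpow_natCast, ← Real.rpow_natCast, ← Real.rpow_mul two_pos.le]
    congr 1
    push_cast
    ring
  refine ⟨(2 : ℝ) ^ ((k : ℝ) / 8), ?_, ?_, hw8, ?_, ?_, ?_, ?_, ?_, ?_⟩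
  · rw [hQ]
    exact Real.one_le_rpow one_le_two (by positivity)
  · calc (2 : ℝ) = 2 ^ (1 : ℝ) := (Real.rpow_one 2).symm
      _ ≤ 2 ^ ((k : ℝ) / 8) := Real.rpow_le_rpow_of_exponent_le one_le_two (by linarith)
  · rw [hQ, ← Real.rpow_natCast, ← Real.rpow_natCast, ← Real.rpow_mul two_pos.le,
      ← Real.rpow_mul two_pos.le]
    refine Real.rpow_le_rpow_of_exponent_le one_le_two ?_
    push_cast
    have h6 := mul_le_mul_of_nonneg_right hA hk0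
    calc p.δ * k * (2 * A + 4) = p.δ * (2 * A + 4) * k := by ring
      _ ≤ 1 / 4 * k := h6
      _ = k / 8 * 2 := by ring
  · rw [hw8]
    have h6 : 1 ≤ u * (2 : ℝ) ^ ((k : ℝ) / 8) := by
      have h7 : u = Real.exp (Real.log u) := (Real.exp_log hu).symm
      rw [Real.rpow_def_of_pos two_pos, h7, ← Real.exp_add]
      refine Real.one_le_exp ?_
      have h8 : -(8 * Real.log u) ≤ k * Real.log 2 := by
        rw [← neg_div, div_le_iff₀ hlog] at h5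
        exact h5
      linarith
    calc ((2 : ℝ) ^ ((k : ℝ) / 8)) ^ 7 = 1 * ((2 : ℝ) ^ ((k : ℝ) / 8)) ^ 7 := (one_mul _).symm
      _ ≤ u * (2 : ℝ) ^ ((k : ℝ) / 8) * ((2 : ℝ) ^ ((k : ℝ) / 8)) ^ 7 :=
          mul_le_mul_of_nonneg_right h6 (by positivity)
      _ = u * ((2 : ℝ) ^ ((k : ℝ) / 8)) ^ 8 := by ring
  · have : (12 : ℝ) ≤ Nk κ1 k := by linarith
    exact_mod_cast this
  · rw [hQ]
    refine le_trans ?_ h1
    rw [hL4]
    have h6 : (Nk κ1 k : ℝ) + 2 ≤ 4 * Lm (2 * κ1) k := by linarith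
    have h7 : ((Nk κ1 k : ℝ) + 2) ^ 2 ≤ (4 * Lm (2 * κ1) k) ^ 2 :=
      pow_le_pow_left₀ (by positivity) h6 2
    have h8 : 0 ≤ Lm (2 * κ1) k * Lm (2 * κ1) k := by positivity
    nlinarith
  · rw [hQ]
    refine le_trans ?_ h1
    rw [hL4]
    have h6 : (Nk κ1 k : ℝ) + 1 ≤ 3 * Lm (2 * κ1) k := by linarith
    have h7 : Lm κ1 k + 3 + 2 ≤ 6 * Lm (2 * κ1) k := by
      have : Lm κ1 k ≤ Lm (2 * κ1) k := by
        rw [hLL]
        nlinarith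
      linarith
    have h8 : ((Nk κ1 k : ℝ) + 1) * (Lm κ1 k + 3 + 2) ≤ 3 * Lm (2 * κ1) k * (6 * Lm (2 * κ1) k) :=
      mul_le_mul h6 h7 (by linarith) (by linarith)
    have h9 : 0 ≤ Lm (2 * κ1) k * Lm (2 * κ1) k := by positivity
    nlinarith
  · rw [Real.rpow_def_of_pos two_pos, ← Real.exp_nat_mul]
    refine Real.exp_le_exp.2 ?_
    have h6 : Cu * (Lm κ1 k + 3) ≤ |Cu| * (4 * Lm κ1 k) := by
      refine (mul_le_mul_of_nonneg_right (le_abs_self Cu) (by linarith)).trans ?_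
      exact mul_le_mul_of_nonneg_left (by linarith) (abs_nonneg _)
    have h7 : 4 * |Cu| * Lm κ1 k ≤ Lm (2 * κ1) k * (Real.log 2 / 8) := by
      rw [div_mul_eq_mul_div, div_le_iff₀ (by positivity)] at h3
      exact h3
    have h8 : Lm (2 * κ1) k * (Real.log 2 / 8) ≤ Nk κ1 k * (Real.log 2 / 8) :=
      mul_le_mul_of_nonneg_right n1 (by positivity)
    have h9 : (Nk κ1 k : ℝ) * (Real.log 2 / 8) ≤ Nk κ1 k * (Real.log 2 * (k / 8)) := by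
      refine mul_le_mul_of_nonneg_left ?_ (Nat.cast_nonneg _)
      have : Real.log 2 * 1 ≤ Real.log 2 * k :=
        mul_le_mul_of_nonneg_left (by linarith) hlog.le
      linarith
    linarith

/-- The trace formula for the metric of the block, with the cut amplitude. -/
theorem tr_block (hP : Ok Γ D P) (hκ : 0 < κ) {u : ℝ} (hu : 0 < u) :
    ∃ δ0 : ℝ, 0 < δ0 ∧ ∀ p : Pr, p.Ok → p.δ ≤ δ0 → ∀ κ1 : ℝ, 0 < κ1 → ∀ M : ℕ → ℝ,
    ∃ (C : ℝ) (k0 : ℕ), ∀ k ≥ k0, ∀ ξ ∈ Bs P p Γ D κ k, ∀ (η : Dir → I) (a : ℝ → ℂ),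
      Am M (Lm κ1 k) a → ∀ τ : ℝ, u * 2 ^ k ≤ τ →
      ∀ m' : Mt Γ D, m'.1.1 = Y P p Γ D k (mix (bk k) ξ η) →
        |B36.Qs m' (Ga p κ1 k a) τ - Sb P p Γ D κ1 k a τ (mix (bk k) ξ η)| ≤
          C / 2 ^ k := by
  have hX := hP.cx.hX
  obtain ⟨k0, b, hCH⟩ := CH_path hP hκ
  obtain ⟨A1, hA1⟩ := hCH.gk
  obtain ⟨A2, hA2⟩ := hCH.u0
  obtain ⟨CY, hCY0, hCY⟩ := Y_bd hP
  obtain ⟨Cu, hCu⟩ := B36.UC_family hX hP.ori hP.hm CY
  obtain ⟨A, hA⟩ : ∃ A : ℕ, A = max A1 A2 := ⟨_, rfl⟩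
  have hAA1 : A1 ≤ A := hA ▸ le_max_left _ _
  have hAA2 : A2 ≤ A := hA ▸ le_max_right _ _
  refine ⟨1 / (4 * (2 * A + 4)), by positivity, fun p hp hδ κ1 hκ1 M => ?_⟩
  have hδA : p.δ * (2 * A + 4) ≤ 1 / 4 := by
    have h0 : (0 : ℝ) < 2 * A + 4 := by positivity
    calc p.δ * (2 * A + 4) ≤ 1 / (4 * (2 * A + 4)) * (2 * A + 4) :=
          mul_le_mul_of_nonneg_right hδ h0.le
      _ = 1 / 4 := by field_simp
  obtain ⟨k1, hk1⟩ := eventually_atTop.1 (tr_num p hp.pos A hδA hκ1 Cu hu)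
  refine ⟨300 * M 0 * Cu ^ 2 + 20 * M 0, max k0 k1, fun k hk ξ hξ η a ha τ hτ m' hm' => ?_⟩
  obtain ⟨w, hQ1, hw, hw8, hQw, hwu, hN, h40, h4, he⟩ := hk1 k ((le_max_right _ _).trans hk)
  have hM0 : 0 ≤ M 0 := Am_nonneg ha 0
  have hL1 := Lm_one κ1 hκ1.le k
  have hτw : w ^ 7 ≤ τ := hwu.trans hτ
  have hτ1 : 1 ≤ τ := (one_le_pow₀ (by linarith)).trans hτw
  obtain ⟨H, hH⟩ : ∃ H : ℝ, H = 2 * (1 / p.e k) * ((Nk κ1 k + 2 : ℕ) : ℝ) +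
      16 * ((Nk κ1 k + 2 : ℕ) : ℝ) := ⟨_, rfl⟩
  obtain ⟨hH1, hsm, hfin⟩ := tr_fin hQ1 hw hQw hτw hN h40 h4 (by linarith) he hAA1 hAA2 hM0 hH
  have hc := c_pos hP (bk k)
  have hc1 : ‖√(P.c (bk k))‖ ≤ 1 := by
    rw [Real.norm_of_nonneg (Real.sqrt_nonneg _)]
    exact Real.sqrt_le_one.2 hc.2
  have hQe : Real.exp (Real.log (1 / p.e k)) = 1 / p.e k :=
    Real.exp_log (lt_of_lt_of_le one_pos hQ1)
  obtain ⟨i, hi⟩ : ∃ i : Bi P Γ D κ k0, i = ⟨p, k, ξ, η, hp, (le_max_left _ _).trans hk, hξ⟩ :=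
    ⟨_, rfl⟩
  have hgk := hA1 (Nk κ1 k) i (√(P.c (bk k))) hc1 (Lm κ1 k + 3) (by linarith)
  have hu0 := hA2 (Nk κ1 k) i (√(P.c (bk k))) hc1
  rw [hi] at hgk hu0
  simp only at hgk hu0
  rw [path_one hP p k ξ η, ← hm', hQe] at hgk
  rw [path_one hP p k ξ η, ← hm', hQe] at hu0
  have huc : B36.UC hX m' Cu := by
    refine hCu m' ⟨hY P p Γ D k (mix (bk k) ξ η), fun z => hCY p k hξ.1 _ z, fun z => ?_⟩
    rw [hm']
    rfl
  have hGa := Ga_ampH hp hκ1.le k ha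
  rw [← hH] at hGa
  have key := B36.traceH hX hP.ori m' huc (by omega : 6 ≤ Nk κ1 k) (by linarith)
    (by positivity) (by positivity) hgk hu0 hH1 hGa hτ1 hsm
  unfold B36.Qs Sb Sg
  rw [← hm', hw8]
  exact key.trans hfin

end F37
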