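import Pool.Agent.LibBE37F.Defs

/-! ROW N2b : the image of the uniform law. SHORT (copy of `B35.meas_um`, `B35.Pm_map` in LibB35/Fin1.lean; `Measure.infinitePi_map_pi` with `f := fun d => u d.1`). -/

open MeasureTheory Set Filter Topology
open scoped ContDiff unitInterval

namespace F37

variable [Sq]

open BGS BR B35
open Pool.BGR (PM)

theorem meas_um {M : ℕ → ℕ} {u : ℕ → I → I} (hu : ∀ R, Qt (M R) (u R)) : Measurable (um u) :=
  measurable_pi_lambda _ fun d => (hu d.1).cont.measurable.comp (measurable_pi_apply d)

theorem Pm_map {M : ℕ → ℕ} {u : ℕ → I → I} (hu : ∀ R, Qt (M R) (u R)) :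
    (PM Dir).map (um u) = Pm fun R => (volume : Measure I).map (u R) := by
  unfold Pool.BGR.PM Pm
  exact Measure.infinitePi_map_pi (μ := fun _ : Dir => (volume : Measure I))
    (f := fun d => u d.1) fun d => (hu d.1).cont.measurable

end F37
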