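import Pool.Agent.LibBE37F.A1
import Pool.Agent.LibBE37F.FA5
import Pool.Agent.LibBE37F.FA6
import Pool.Agent.LibBE37F.IFT
import Pool.Agent.LibBE36T.T4b
import Pool.Agent.LibBE36T.T15
import Pool.Agent.LibBF73.F1

/-! ROW QX : the spectral side of the metric `X ξ` is the geometric side of the block metric. MEDIUM. PLAN. `UC_unif`: `UC_family` (T4b) with `m0 = P.m`, `M` a common bound of `|P.h|`, `|hY|` (FA0_ex / Mo_ex_bd order 0 and the area: `AR_mono`; `F0_all` from `closure D` to the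
plane), for `m'.1.1 = X ξ` and `m'.1.1 = Y ξ`. `Qs_X`: `mix n ξ ξ = ξ`; `block_neg`, `Y_mt` give `m : Mt` with `m.1.1 = Y ξ`; `spec_close` (T15) with `v = hY - h`, `Y_near`, `η = C 2^(-100k)` (`Am_ampH` order 8); `spec_cut` (T14) with
`P := p.n`, `e := p.e k`, `N := Nk κ1 k + 2`, `χ = chi ..` (`chi_spec`), `Am_ampH` of order `2 p.n + 8`; `tr_block`. Numbers: `τ ≤ v 2^k`, `(Lm κ1 k + 1)^2 ≤ 2^k`, `e_err`, and `(N/e)^8 exp (-(1/(2^(2n+1) e^2))) ≤ 2^(-10 k)` eventually (`1/e^2 = 2^(2 δ k)`; for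
`k` large `2^(2δk)/2^(2n+1) ≥ 2^(δk)`, `t_beats`). `st_Qs`: the proof of `main` in LibBF73/F1.lean (`red_Sg`) without the trace formula: `GWin.hh_sum`, `GWin.weyl_term`, `GWin.refl_sum`, `GD.hh_osc`. -/

open MeasureTheory Set Filter Topology
open scoped ContDiff unitInterval

namespace F37

variable [Sq]

open BGS BR BE B35

variable {Γ : Type} [Group Γ] [MulAction Γ Pl] {D : Set Pl} {P : Dt} {κ : ℝ}

/-- Normalised exponents are bounded. -/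
private theorem qx_nx {m : Pl → Co} (hX : Surface Γ D) (hm : BGM.Rp m) {B : ℝ} {f : Pl → ℝ}
    (hf : f ∈ Test Γ) (h : ∀ z ∈ closure D, |f z| ≤ B) (z : Pl) :
    |nx D m f z| ≤ 2 * B + |Real.log (AR D m fun _ => 0)| := by
  have hall : ∀ z, |f z| ≤ B := F0_all hX h fun γ z h1 => by
    rw [← hf.2 γ z]
    exact h1
  have hfc : Continuous f := hf.1.continuous
  have p0 := AR_zero_pos hX hm
  have pf := AR_pos hX hm hfc
  have h1 := AR_mono (D := D) hX hm continuous_const hfc (f := fun _ => 0) (g := f) (ε := B)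
    (fun z _ => by have := (abs_le.1 (hall z)).2; linarith)
  have h2 := AR_mono (D := D) hX hm hfc continuous_const (f := f) (g := fun _ => 0) (ε := B)
    (fun z _ => by have := (abs_le.1 (hall z)).1; linarith)
  have h3 : Real.log (AR D m f) ≤ B + Real.log (AR D m fun _ => 0) := by
    have := Real.log_le_log pf h1
    rwa [Real.log_mul (Real.exp_pos _).ne' p0.ne', Real.log_exp] at this
  have h4 : Real.log (AR D m fun _ => 0) ≤ B + Real.log (AR D m f) := by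
    have := Real.log_le_log p0 h2
    rwa [Real.log_mul (Real.exp_pos _).ne' pf.ne', Real.log_exp] at this
  rw [nx_eq]
  have h5 := abs_le.1 (hall z)
  have h6 := neg_abs_le (Real.log (AR D m fun _ => 0))
  have h7 := le_abs_self (Real.log (AR D m fun _ => 0))
  rw [abs_le]
  constructor <;> linarith [h5.1, h5.2]

private theorem qx_rp (hP : Ok Γ D P) : BGM.Rp P.m := ⟨hP.hm.smooth, hP.hm.pos⟩

private theorem qx_Mo (hP : Ok Γ D P) (p : Pr) (k : ℕ) (ξ : Dir → I) :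
    B36.Mo p.n (p.e k) (BGM.ex Γ P.ψ P.L P.c ξ) ∈ Test Γ :=
  Mo_test hP.cx.hX hP.hyp p.n (e_pos p k) (ex_test hP ξ)

private theorem qx_hY (hP : Ok Γ D P) (p : Pr) (k : ℕ) (ξ : Dir → I) :
    ContDiff ℝ ∞ (hY P p Γ D k ξ) := (qx_Mo hP p k ξ).1.sub contDiff_const

private theorem qx_h (hP : Ok Γ D P) (ξ : Dir → I) : ContDiff ℝ ∞ (P.h Γ D ξ) :=
  (ex_test hP ξ).1.sub contDiff_const


private theorem qx_rpow (A k : ℕ) : (2 : ℝ) ^ (-((A : ℝ) * k)) = 1 / ((2 : ℝ) ^ k) ^ A := by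
  rw [Real.rpow_neg two_pos.le, ← pow_mul, one_div, ← Nat.cast_mul, Real.rpow_natCast, mul_comm]

private theorem qx_num (p : Pr) (hp : 0 < p.δ) (hp1 : p.δ ≤ 1 / 40) {κ1 : ℝ} (hκ1 : 0 < κ1) :
    ∀ᶠ k : ℕ in atTop, (((Nk κ1 k + 2 : ℕ) : ℝ) / p.e k) ^ 8 *
      Real.exp (-(1 / (2 ^ (2 * p.n + 1) * p.e k ^ 2))) ≤ 1 / ((2 : ℝ) ^ k) ^ 10 := by
  filter_upwards [Lm_sub (2 * κ1) (A := 4) (d := 1) one_pos, t_beats p hp 0 0 26,
    tendsto_natCast_atTop_atTop.eventually_ge_atTop (((2 * p.n + 1 : ℕ) : ℝ) / p.δ)] with k a1 a2 a3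
  have hx0 : (0 : ℝ) < (2 : ℝ) ^ k := by positivity
  have hk0 : (0 : ℝ) ≤ k := Nat.cast_nonneg k
  rw [one_mul, Real.rpow_natCast] at a1
  have a2' : p.t k ≤ 1 / ((2 : ℝ) ^ k) ^ 26 := by
    have e1 := qx_rpow 26 k
    push_cast at e1
    rw [zero_mul, zero_mul, zero_add, Real.exp_zero, one_mul] at a2
    rwa [e1] at a2
  have hN := Nk_le hκ1.le k
  have hL1 : 1 ≤ Lm (2 * κ1) k := Lm_one _ (by positivity) k
  have hN2 : ((Nk κ1 k + 2 : ℕ) : ℝ) ≤ (2 : ℝ) ^ k := by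
    push_cast
    linarith [hN.2.2]
  have he : 0 < p.e k := e_pos p k
  have he1 : 1 / p.e k = (2 : ℝ) ^ (p.δ * k) := by
    unfold Pr.e
    rw [Real.rpow_neg two_pos.le, one_div, inv_inv]
  have he2 : (2 : ℝ) ^ (p.δ * k) ≤ (2 : ℝ) ^ k := by
    rw [← Real.rpow_natCast]
    refine Real.rpow_le_rpow_of_exponent_le one_le_two ?_
    nlinarith
  have hNe : ((Nk κ1 k + 2 : ℕ) : ℝ) / p.e k ≤ (2 : ℝ) ^ k * (2 : ℝ) ^ k := by
    rw [div_eq_mul_one_div, he1]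
    exact mul_le_mul hN2 he2 (by positivity) hx0.le
  have hNe0 : 0 ≤ ((Nk κ1 k + 2 : ℕ) : ℝ) / p.e k := by positivity
  have hpow : (((Nk κ1 k + 2 : ℕ) : ℝ) / p.e k) ^ 8 ≤ ((2 : ℝ) ^ k) ^ 16 := by
    refine (pow_le_pow_left₀ hNe0 hNe 8).trans (le_of_eq ?_)
    ring
  have hexp : Real.exp (-(1 / (2 ^ (2 * p.n + 1) * p.e k ^ 2))) ≤ p.t k := by
    unfold Pr.t
    refine Real.exp_le_exp.2 (neg_le_neg ?_)
    have e1 : 1 / (2 ^ (2 * p.n + 1) * p.e k ^ 2) =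
        (2 : ℝ) ^ (p.δ * k) * ((2 : ℝ) ^ (p.δ * k) / 2 ^ (2 * p.n + 1)) := by
      rw [← he1]
      field_simp
    rw [e1]
    have e2 : 1 ≤ (2 : ℝ) ^ (p.δ * k) / 2 ^ (2 * p.n + 1) := by
      rw [le_div_iff₀ (by positivity), one_mul, ← Real.rpow_natCast]
      refine Real.rpow_le_rpow_of_exponent_le one_le_two ?_
      have := (div_le_iff₀ hp).1 a3
      linarith
    exact le_mul_of_one_le_right (by positivity) e2
  calc (((Nk κ1 k + 2 : ℕ) : ℝ) / p.e k) ^ 8 *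
        Real.exp (-(1 / (2 ^ (2 * p.n + 1) * p.e k ^ 2)))
      ≤ ((2 : ℝ) ^ k) ^ 16 * (1 / ((2 : ℝ) ^ k) ^ 26) :=
        mul_le_mul hpow (hexp.trans a2') (Real.exp_pos _).le (by positivity)
    _ = 1 / ((2 : ℝ) ^ k) ^ 10 := by
        field_simp

private theorem qx_big (A : ℝ) : ∀ᶠ k : ℕ in atTop, A ≤ (2 : ℝ) ^ k :=
  (tendsto_pow_atTop_atTop_of_one_lt (by norm_num : (1 : ℝ) < 2)).eventually_ge_atTop A

/-- The final estimate. -/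
private theorem qx_fin {x ρ τ v K1 K2 C1 C3 E1 E2 : ℝ} (hx : 1 ≤ x) (hρ : 0 ≤ ρ)
    (hρx : (ρ + 1) ^ 2 ≤ x) (hτ : 1 ≤ τ) (hτv : τ ≤ v * x) (hK1 : 0 ≤ K1) (hK2 : 0 ≤ K2)
    (hC3 : 0 ≤ C3) (h1 : E1 ≤ 1 / x ^ 100) (h2 : E2 ≤ 1 / x ^ 10) :
    K1 * (ρ + 1) ^ 2 * τ ^ 3 * (C3 * (1 / x ^ 100)) +
      (K2 * (ρ + 1) * τ ^ 2 * (E1 + E2) + C1 / x) ≤
      (K1 * v ^ 3 * C3 + 2 * K2 * v ^ 2 + C1) / x := by
  have hx0 : 0 < x := by linarith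
  have hv : 0 ≤ v := by
    by_contra h
    push Not at h
    nlinarith
  have hρ1 : ρ + 1 ≤ x := by nlinarith
  have hτ3 : τ ^ 3 ≤ (v * x) ^ 3 := pow_le_pow_left₀ (by linarith) hτv 3
  have hτ2 : τ ^ 2 ≤ (v * x) ^ 2 := pow_le_pow_left₀ (by linarith) hτv 2
  have a1 : K1 * (ρ + 1) ^ 2 * τ ^ 3 * (C3 * (1 / x ^ 100)) ≤
      K1 * v ^ 3 * C3 * (x ^ 4 * (1 / x ^ 100)) := by
    have b1 : K1 * (ρ + 1) ^ 2 * τ ^ 3 ≤ K1 * x * (v * x) ^ 3 :=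
      mul_le_mul (mul_le_mul_of_nonneg_left hρx hK1) hτ3 (by positivity) (by positivity)
    refine (mul_le_mul_of_nonneg_right b1 (by positivity)).trans (le_of_eq ?_)
    ring
  have a2 : x ^ 4 * (1 / x ^ 100) ≤ 1 / x := by
    rw [mul_one_div, div_le_div_iff₀ (by positivity) hx0, one_mul]
    calc x ^ 4 * x = x ^ 5 := by ring
      _ ≤ x ^ 100 := pow_le_pow_right₀ hx (by norm_num)
  have b2 : E1 + E2 ≤ 2 * (1 / x ^ 10) := by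
    have : 1 / x ^ 100 ≤ 1 / x ^ 10 :=
      one_div_le_one_div_of_le (by positivity) (pow_le_pow_right₀ hx (by norm_num))
    linarith
  have a3 : K2 * (ρ + 1) * τ ^ 2 * (E1 + E2) ≤ 2 * K2 * v ^ 2 * (x ^ 3 * (1 / x ^ 10)) := by
    have b1 : K2 * (ρ + 1) * τ ^ 2 ≤ K2 * x * (v * x) ^ 2 :=
      mul_le_mul (mul_le_mul_of_nonneg_left hρ1 hK2) hτ2 (by positivity) (by positivity)
    have b3 : 0 ≤ K2 * (ρ + 1) * τ ^ 2 := by positivity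
    refine (mul_le_mul_of_nonneg_left b2 b3).trans
      ((mul_le_mul_of_nonneg_right b1 (by positivity)).trans (le_of_eq ?_))
    ring
  have a4 : x ^ 3 * (1 / x ^ 10) ≤ 1 / x := by
    rw [mul_one_div, div_le_div_iff₀ (by positivity) hx0, one_mul]
    calc x ^ 3 * x = x ^ 4 := by ring
      _ ≤ x ^ 10 := pow_le_pow_right₀ hx (by norm_num)
  have a5 := mul_le_mul_of_nonneg_left a2 (show 0 ≤ K1 * v ^ 3 * C3 by positivity)
  have a6 := mul_le_mul_of_nonneg_left a4 (show 0 ≤ 2 * K2 * v ^ 2 by positivity)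
  have a7 : (K1 * v ^ 3 * C3 + 2 * K2 * v ^ 2 + C1) / x =
      K1 * v ^ 3 * C3 * (1 / x) + (2 * K2 * v ^ 2 * (1 / x) + C1 / x) := by
    ring
  rw [a7]
  linarith

theorem UC_unif (hP : Ok Γ D P) : ∃ C : ℝ, ∀ m' : Mt Γ D, ((∃ ξ, m'.1.1 = P.X Γ D ξ) ∨
    ∃ (p : Pr) (k : ℕ) (ξ : Dir → I), 2 ^ p.n * p.e k ≤ 1 ∧ m'.1.1 = Y P p Γ D k ξ) →
      B36.UC hP.cx.hX m' C := by
  obtain ⟨C1, hC1, h1⟩ := FA0_ex hP.cx 0
  obtain ⟨C2, hC2, h2⟩ := Mo_ex_bd hP 0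
  obtain ⟨C, hC⟩ := B36.UC_family hP.cx.hX hP.ori hP.hm
    (2 * max C1 C2 + |Real.log (AR D P.m fun _ => 0)|)
  refine ⟨C, fun m' hm' => hC m' ?_⟩
  rcases hm' with ⟨ξ, hξ⟩ | ⟨p, k, ξ, hk, hξ⟩
  · refine ⟨P.h Γ D ξ, fun z => ?_, fun z => by rw [hξ]; rfl⟩
    refine qx_nx hP.cx.hX (qx_rp hP) (ex_test hP ξ) (fun w hw => ?_) z
    have := h1 0 le_rfl ξ w hw
    rw [norm_iteratedFDeriv_zero, Real.norm_eq_abs] at this
    exact this.trans (le_max_left _ _)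
  · refine ⟨hY P p Γ D k ξ, fun z => ?_, fun z => by rw [hξ]; rfl⟩
    refine qx_nx hP.cx.hX (qx_rp hP) (qx_Mo hP p k ξ) (fun w hw => ?_) z
    have := h2 p.n (p.e k) (e_pos p k) hk ξ 0 le_rfl w hw
    rw [norm_iteratedFDeriv_zero, Real.norm_eq_abs] at this
    exact this.trans (le_max_right _ _)

theorem Qs_X (hP : Ok Γ D P) (hκ : 0 < κ) {u v : ℝ} (hu : 0 < u) (huv : u < v) :
    ∃ δ0 : ℝ, 0 < δ0 ∧ ∀ p : Pr, p.Ok → p.δ ≤ δ0 → ∀ κ1 : ℝ, 0 < κ1 → ∀ M : ℕ → ℝ,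
    ∃ (C : ℝ) (k0 : ℕ), ∀ k ≥ k0, ∀ ξ ∈ Bs P p Γ D κ k, ∀ m' : Mt Γ D, m'.1.1 = P.X Γ D ξ →
      ∀ a : ℝ → ℂ, Am M (Lm κ1 k) a → ∀ τ : ℝ, u * 2 ^ k ≤ τ → τ ≤ v * 2 ^ k →
        |B36.Qs m' a τ - Sb P p Γ D κ1 k a τ ξ| ≤ C / 2 ^ k := by
  obtain ⟨δ0, hδ0, htr⟩ := tr_block hP hκ hu
  refine ⟨δ0, hδ0, fun p hp hpδ κ1 hκ1 M => ?_⟩
  have hn1 : 1 ≤ p.n := by
    rw [Nat.one_le_iff_ne_zero]
    intro h0
    have := hp.big
    rw [h0, Nat.cast_zero, zero_mul] at this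
    norm_num at this
  obtain ⟨C1, k1, h1⟩ := htr p hp hpδ κ1 hκ1 M
  obtain ⟨k2, h2⟩ := block_neg hP hκ
  obtain ⟨C2, hC2⟩ := UC_unif hP
  obtain ⟨C3, hC3, h3⟩ := Y_near hP hp
  obtain ⟨C4, hC4, h4⟩ := Am_ampH M 8
  obtain ⟨C5, hC5, h5⟩ := Am_ampH M (2 * p.n + 8)
  obtain ⟨C6, hC6, h6⟩ := B36.spec_close (Γ := Γ) (D := D)
  obtain ⟨C7, hC7, h7⟩ := B36.spec_cut (Γ := Γ) (D := D) p.n hn1
  obtain ⟨k3, hk3⟩ := eventually_atTop.1 ((((k_Lm (κ := 2 * κ1) (by positivity) 6).and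
    (Lm_sub κ1 (A := 2) (d := 1 / 2) (by norm_num))).and ((qx_num p hp.pos hp.le hκ1).and
    (qx_big (1 / u)))).and (qx_big (C3 + 2 * C3 * v)))
  refine ⟨C6 * (C2 + 1) * C4 * v ^ 3 * C3 + 2 * (C7 * (C2 + 1) * C5) * v ^ 2 + C1,
    max (max k1 k2) k3, fun k hk ξ hξ m' hm' a ha τ hτu hτv => ?_⟩
  have hkk1 : k1 ≤ k := (le_max_left _ _).trans ((le_max_left _ _).trans hk)
  have hkk2 : k2 ≤ k := (le_max_right _ _).trans ((le_max_left _ _).trans hk)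
  obtain ⟨⟨⟨e1, e2⟩, e3, e4⟩, e5⟩ := hk3 k ((le_max_right _ _).trans hk)
  have hx1 : (1 : ℝ) ≤ (2 : ℝ) ^ k := one_le_pow₀ one_le_two
  have hx0 : (0 : ℝ) < (2 : ℝ) ^ k := by positivity
  have hk0 : (0 : ℝ) ≤ k := Nat.cast_nonneg k
  have hv0 : 0 < v := hu.trans huv
  have hmix : mix (bk k) ξ ξ = ξ := by
    funext d
    unfold mix
    split_ifs <;> rfl
  have hL1 : 1 ≤ Lm κ1 k := Lm_one _ hκ1.le k
  have hρ0 : 0 ≤ Lm κ1 k := by linarith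
  have hτ1 : 1 ≤ τ := by
    refine le_trans ?_ hτu
    rw [div_le_iff₀ hu] at e4
    linarith
  -- the metric of the block
  obtain ⟨m2, hm2⟩ := Y_mt hP p k (ξ := ξ) (fun z => by
    have := h2 p hp k hkk2 ξ hξ ξ z
    rw [hmix] at this
    have : 0 < (κ / 2) ^ 2 := by positivity
    linarith)
  have hu1 := hC2 m' (Or.inl ⟨ξ, hm'⟩)
  have hu2 := hC2 m2 (Or.inr ⟨p, k, ξ, hξ.1, hm2⟩)
  have hC20 : 0 ≤ C2 := hu1.nonneg
  -- the errors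
  have hη : C3 * (2 : ℝ) ^ (-(100 * k : ℝ)) = C3 * (1 / ((2 : ℝ) ^ k) ^ 100) := by
    have := qx_rpow 100 k
    push_cast at this
    rw [this]
  have hN8 : 8 ≤ Nk κ1 k + 2 := by
    have := (Nk_le hκ1.le k).1
    have h9 : (6 : ℝ) ≤ Nk κ1 k := by linarith
    have : 6 ≤ Nk κ1 k := by exact_mod_cast h9
    omega
  have hρx : (Lm κ1 k + 1) ^ 2 ≤ (2 : ℝ) ^ k := by
    have h9 : Lm κ1 k + 1 ≤ (2 : ℝ) ^ (1 / 2 * (k : ℝ)) := by linarith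
    have h10 : ((2 : ℝ) ^ (1 / 2 * (k : ℝ))) ^ 2 = (2 : ℝ) ^ k := by
      rw [← Real.rpow_natCast, ← Real.rpow_mul two_pos.le, ← Real.rpow_natCast]
      congr 1
      push_cast
      ring
    rw [← h10]
    exact pow_le_pow_left₀ (by linarith) h9 2
  have hη1 : C3 * (1 / ((2 : ℝ) ^ k) ^ 100) * τ ≤ 1 / 2 := by
    have h9 : C3 * (1 / ((2 : ℝ) ^ k) ^ 100) * τ ≤
        C3 * (1 / ((2 : ℝ) ^ k) ^ 100) * (v * 2 ^ k) :=
      mul_le_mul_of_nonneg_left hτv (by positivity)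
    refine h9.trans ?_
    have h10 : C3 * (1 / ((2 : ℝ) ^ k) ^ 100) * (v * 2 ^ k) =
        C3 * v * (2 ^ k / ((2 : ℝ) ^ k) ^ 100) := by ring
    have h11 : C3 * v ≤ 2 ^ k / 2 := by
      have : 0 ≤ C3 := hC3
      linarith
    have h12 : (2 : ℝ) ^ k / 2 * (2 ^ k / ((2 : ℝ) ^ k) ^ 100) ≤ 1 / 2 := by
      have h13 : (2 : ℝ) ^ k * (2 ^ k / ((2 : ℝ) ^ k) ^ 100) ≤ 1 := by
        rw [← mul_div_assoc, div_le_one (by positivity), ← sq]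
        exact pow_le_pow_right₀ hx1 (by norm_num)
      linarith
    rw [h10]
    exact (mul_le_mul_of_nonneg_right h11 (by positivity)).trans h12
  have hη2 : C3 * (1 / ((2 : ℝ) ^ k) ^ 100) ≤ 1 := by
    have h9 : C3 ≤ 2 ^ k := by
      have : 0 ≤ C3 * v := by positivity
      linarith
    rw [mul_one_div, div_le_one (by positivity)]
    exact h9.trans (le_self_pow₀ hx1 (by norm_num))
  -- the three comparisons
  have t1 := h6 hP.cx.hX m' m2 C2 hu1 hu2 (fun z => hY P p Γ D k ξ z - P.h Γ D ξ z)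
    (C3 * (1 / ((2 : ℝ) ^ k) ^ 100)) ((qx_hY hP p k ξ).sub (qx_h hP ξ)) (fun z => by
      rw [← hη]
      exact h3 k hξ.1 ξ z) (fun z => by
      rw [hm2, hm']
      unfold Y Dt.X
      rw [smul_smul, ← Real.exp_add]
      congr 2
      ring) a (Lm κ1 k) C4 hρ0 (h4 _ a ha) τ hτ1 hη1 hη2
  have t2 := h7 hP.cx.hX m2 C2 hu2 (p.e k) (e_pos p k) (e_le p hp.pos k) hξ.1 a (Lm κ1 k) C5 hρ0
    (h5 _ a ha) (Nk κ1 k + 2) hN8 (chi (Nk κ1 k + 2) (Lm κ1 k + 2))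
    (chi_spec (by omega) (by linarith)) τ hτ1
  have t3 := h1 k hkk1 ξ hξ ξ a ha τ hτu m2 (by rw [hmix]; exact hm2)
  rw [hmix] at t3
  have hGa : Ga p κ1 k a = B36.cta (chi (Nk κ1 k + 2) (Lm κ1 k + 2)) (B36.mla p.n (p.e k) a) :=
    rfl
  rw [← hGa] at t2
  have herr : p.e k ^ (2 * p.n) ≤ 1 / ((2 : ℝ) ^ k) ^ 100 := by
    have := e_err p hp k
    have h9 := qx_rpow 100 k
    push_cast at h9
    rwa [h9] at this
  have hfin := qx_fin (C1 := C1) hx1 hρ0 hρx hτ1 hτv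
    (show 0 ≤ C6 * (C2 + 1) * C4 by positivity) (show 0 ≤ C7 * (C2 + 1) * C5 by positivity)
    hC3 herr e3
  have hsum : |B36.Qs m' a τ - Sb P p Γ D κ1 k a τ ξ| ≤
      |B36.Qs m2 a τ - B36.Qs m' a τ| + (|B36.Qs m2 a τ - B36.Qs m2 (Ga p κ1 k a) τ| +
        |B36.Qs m2 (Ga p κ1 k a) τ - Sb P p Γ D κ1 k a τ ξ|) := by
    have h9 : B36.Qs m' a τ - Sb P p Γ D κ1 k a τ ξ =
        -(B36.Qs m2 a τ - B36.Qs m' a τ) + ((B36.Qs m2 a τ - B36.Qs m2 (Ga p κ1 k a) τ) +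
          (B36.Qs m2 (Ga p κ1 k a) τ - Sb P p Γ D κ1 k a τ ξ)) := by ring
    rw [h9]
    refine (abs_add_le _ _).trans (add_le_add (le_of_eq (abs_neg _)) (abs_add_le _ _))
  exact (hsum.trans (add_le_add t1 (add_le_add t2 t3))).trans hfin

theorem st_Qs (hX : Surface Γ D) (m' : Mt Γ D) {a : ℝ → ℂ} (ha : FG33.IsAmp a) :
    ∃ C : ℝ, 0 ≤ C ∧ ∀ L τ : ℝ, 1 ≤ L → 1 ≤ τ →
      |GWin.st (FG33.lam m') a L τ - B36.Qs m' (GWin.sc a L) τ| ≤ C / L := by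
  have hl := GD.lev hX m'
  obtain ⟨C2, hC2, h2⟩ := GWin.weyl_term ha
  obtain ⟨C3, hC3, h3⟩ := GWin.refl_sum ha hl
  refine ⟨C2 + C3, by positivity, fun L τ hL hτ => ?_⟩
  have hL0 : 0 < L := by linarith
  have h6 := h2 L τ hL hτ
  have h7 := (h3 L τ hL hτ).2
  have h8 := GWin.hh_sum ha hl hL hτ
  unfold B36.Qs GWin.st
  simp only [← GD.hh_osc]
  rw [h8]
  set S1 := ∑' n, FG33.tf a (L * (FG33.lam m' n - τ)) with hS1
  set S2 := ∑' n, FG33.tf a (L * (-FG33.lam m' n - τ)) with hS2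
  set W := 1 / (2 * Real.pi) * (∫ y in Ioi (0 : ℝ), GWin.hh (GWin.sc a L) τ y * y) with hW
  set V := τ / (2 * Real.pi * L) * ∫ y, FG33.tf a y with hV
  have e1 : S1 - V - (S1 + S2 - W) = (W - V) - S2 := by ring
  rw [e1]
  refine ((abs_sub _ _).trans (add_le_add h6 h7)).trans (le_of_eq ?_)
  rw [add_div]

end F37
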