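import Pool.Agent.LibBE37F.N1c
import Pool.Agent.LibFB23.R18

/-! Functions that are small at the scales of the blocks. -/

open MeasureTheory Set Filter Topology
open scoped ContDiff unitInterval

namespace F37

variable [Sq]

/-- The function `L0` is small at the scales of the blocks. -/
def Sm (L0 : ℝ → ℝ) : Prop := ∀ A : ℝ, 0 < A → ∀ᶠ k : ℕ in atTop, ∀ T : ℝ, 2 ^ k ≤ T →
  T ≤ 2 ^ (k + 4) → A * Real.log (L0 T) ≤ Sq.g k

theorem g_Lm {κ1 : ℝ} (hκ1 : 0 < κ1) (k : ℕ) : Real.exp (κ1 * Sq.g k) ≤ Lm κ1 k := by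
  unfold Lm
  rw [mul_comm, Real.exp_mul]
  refine Real.rpow_le_rpow (Real.exp_pos _).le ?_ hκ1.le
  have h : Real.exp (Sq.g k) ≤ (⌈Real.exp (Sq.g k)⌉₊ : ℝ) := Nat.le_ceil _
  have hk : (0 : ℝ) ≤ k := Nat.cast_nonneg k
  unfold bk
  push_cast
  linarith

theorem L_le {L0 : ℝ → ℝ} (h : Sm L0) {κ1 : ℝ} (hκ1 : 0 < κ1) : ∀ᶠ k : ℕ in atTop, ∀ T : ℝ,
    2 ^ k ≤ T → T ≤ 2 ^ (k + 4) → L0 T ≤ Lm κ1 k := by
  filter_upwards [h (1 / κ1) (by positivity)] with k hk T h1 h2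
  by_cases h0 : 0 < L0 T
  · have h3 := hk T h1 h2
    rw [one_div, inv_mul_le_iff₀ hκ1] at h3
    calc L0 T = Real.exp (Real.log (L0 T)) := (Real.exp_log h0).symm
      _ ≤ Real.exp (κ1 * Sq.g k) := Real.exp_le_exp.2 h3
      _ ≤ Lm κ1 k := g_Lm hκ1 k
  · have h4 : 0 < Lm κ1 k := Real.rpow_pos_of_pos (by positivity) _
    linarith

theorem L_dk {L0 : ℝ → ℝ} (h : Sm L0) {κ1 : ℝ} (hκ1 : 0 < κ1) :
    ∀ᶠ T in atTop, L0 T ≤ Lm κ1 (FB23.dk T) := by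
  filter_upwards [FB23.dk_tendsto.eventually (L_le h hκ1), eventually_ge_atTop 1] with T h1 h2
  refine h1 T (FB23.dk_le h2) ((FB23.dk_lt h2).le.trans ?_)
  rw [pow_add]
  have : (0 : ℝ) < 2 ^ FB23.dk T := by positivity
  linarith

end F37
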