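import Pool.Agent.LibBE37F.Defs

/-!
# Existence of a scale above `log L0`

`F37.exists_SqU` : if `u T ≤ c log T` eventually for every `c > 0`, there is a scale `S` with
`A * u T ≤ S.g k` on the blocks `2 ^ k ≤ T ≤ 2 ^ (k + 4)`, for every `A > 0` and `k` large.
`F37.exists_Sq` : the case `u = log L0`, `L0` positive, `L0 T ≤ T ^ c`.
-/

open Filter Topology

namespace F37

/-- the condition `P n k` used to choose the diagonal index -/
def SqP (u : ℝ → ℝ) (n k : ℕ) : Prop :=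
  (∀ T : ℝ, 2 ^ k ≤ T → u T * ((n : ℝ) + 1) ^ 2 ≤ Real.log T) ∧ (n : ℝ) + 1 ≤ Real.log (k + 2)

theorem SqP_mono {u : ℝ → ℝ} {n k k' : ℕ} (hk : k ≤ k') (h : SqP u n k) : SqP u n k' := by
  refine ⟨fun T hT => h.1 T (le_trans (pow_le_pow_right₀ (by norm_num) hk) hT), ?_⟩
  refine h.2.trans (Real.log_le_log (by positivity) ?_)
  have : (k : ℝ) ≤ k' := by exact_mod_cast hk
  linarith

theorem tendsto_two_pow : Tendsto (fun k : ℕ => (2 : ℝ) ^ k) atTop atTop :=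
  tendsto_pow_atTop_atTop_of_one_lt (by norm_num)

theorem tendsto_log_nat : Tendsto (fun k : ℕ => Real.log ((k : ℝ) + 2)) atTop atTop :=
  Real.tendsto_log_atTop.comp (tendsto_atTop_add_const_right _ _ tendsto_natCast_atTop_atTop)

theorem SqP_ev {u : ℝ → ℝ} (hu : ∀ c : ℝ, 0 < c → ∀ᶠ T : ℝ in atTop, u T ≤ c * Real.log T)
    (n : ℕ) : ∀ᶠ k : ℕ in atTop, SqP u n k := by
  have hc : (0 : ℝ) < 1 / ((n : ℝ) + 1) ^ 2 := by positivity
  obtain ⟨T0, hT0⟩ := eventually_atTop.1 (hu _ hc)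
  filter_upwards [tendsto_two_pow.eventually_ge_atTop T0,
    tendsto_log_nat.eventually_ge_atTop ((n : ℝ) + 1)] with k h1 h2
  refine ⟨fun T hT => ?_, h2⟩
  have h3 := hT0 T (h1.trans hT)
  have h4 : (0 : ℝ) < ((n : ℝ) + 1) ^ 2 := by positivity
  calc u T * ((n : ℝ) + 1) ^ 2 ≤ (1 / ((n : ℝ) + 1) ^ 2 * Real.log T) * ((n : ℝ) + 1) ^ 2 :=
        mul_le_mul_of_nonneg_right h3 h4.le
    _ = Real.log T := by field_simp

open Classical in
/-- the diagonal index -/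
noncomputable def SqB (u : ℝ → ℝ) (k : ℕ) : ℕ := Nat.findGreatest (fun n => SqP u n k) k

theorem SqB_mono (u : ℝ → ℝ) : Monotone (SqB u) := by
  classical
  intro k k' hk
  exact Nat.findGreatest_mono (fun n hn => SqP_mono hk hn) hk

theorem SqB_spec {u : ℝ → ℝ} {k : ℕ} (h : SqP u 0 k) : SqP u (SqB u k) k := by
  classical
  exact Nat.findGreatest_spec (P := fun n => SqP u n k) (Nat.zero_le k) h

theorem SqB_top {u : ℝ → ℝ} (hu : ∀ c : ℝ, 0 < c → ∀ᶠ T : ℝ in atTop, u T ≤ c * Real.log T) :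
    Tendsto (SqB u) atTop atTop := by
  classical
  refine tendsto_atTop.2 fun n => ?_
  filter_upwards [SqP_ev hu n, eventually_ge_atTop n] with k h1 h2
  exact Nat.le_findGreatest (P := fun n => SqP u n k) h2 h1

/-- the scale -/
noncomputable def SqG (u : ℝ → ℝ) (k : ℕ) : ℝ :=
  ∑ j ∈ Finset.range k, (1 : ℝ) / ((SqB u j : ℝ) + 1)

theorem SqG_mono (u : ℝ → ℝ) : Monotone (SqG u) := by
  intro k k' hk
  refine Finset.sum_le_sum_of_subset_of_nonneg (Finset.range_mono hk) fun j _ _ => ?_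
  positivity

theorem SqG_nonneg (u : ℝ → ℝ) (k : ℕ) : 0 ≤ SqG u k :=
  Finset.sum_nonneg fun j _ => by positivity

theorem SqG_ge (u : ℝ → ℝ) (k : ℕ) : (k : ℝ) / ((SqB u k : ℝ) + 1) ≤ SqG u k := by
  have h : ∀ j ∈ Finset.range k, (1 : ℝ) / ((SqB u k : ℝ) + 1) ≤ 1 / ((SqB u j : ℝ) + 1) := by
    intro j hj
    have h1 : SqB u j ≤ SqB u k := SqB_mono u (Finset.mem_range.1 hj).le
    have h2 : (SqB u j : ℝ) ≤ SqB u k := by exact_mod_cast h1
    exact one_div_le_one_div_of_le (by positivity) (by linarith)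
  have h3 := Finset.sum_le_sum h
  rw [Finset.sum_const, Finset.card_range, nsmul_eq_mul] at h3
  calc (k : ℝ) / ((SqB u k : ℝ) + 1) = (k : ℝ) * (1 / ((SqB u k : ℝ) + 1)) := by ring
    _ ≤ SqG u k := h3

theorem SqG_sub {u : ℝ → ℝ} (hu : ∀ c : ℝ, 0 < c → ∀ᶠ T : ℝ in atTop, u T ≤ c * Real.log T)
    (c : ℝ) (hc : 0 < c) : ∀ᶠ k : ℕ in atTop, SqG u k ≤ c * k := by
  have h1 : Tendsto (fun j : ℕ => (1 : ℝ) / ((SqB u j : ℝ) + 1)) atTop (𝓝 0) := by
    have h2 : Tendsto (fun j : ℕ => ((SqB u j : ℝ) + 1)) atTop atTop :=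
      tendsto_atTop_add_const_right _ _ (tendsto_natCast_atTop_atTop.comp (SqB_top hu))
    simp only [one_div]
    exact h2.inv_tendsto_atTop
  have h3 := h1.cesaro
  filter_upwards [h3.eventually (gt_mem_nhds hc), eventually_ge_atTop 1] with k h4 h5
  have hk : (0 : ℝ) < k := by exact_mod_cast h5
  have h6 : (k : ℝ)⁻¹ * SqG u k < c := h4
  rw [inv_mul_lt_iff₀ hk] at h6
  linarith

theorem log_sq_small (A : ℝ) : ∀ᶠ k : ℕ in atTop,
    A * Real.log ((k : ℝ) + 2) * Real.log ((k : ℝ) + 2) ≤ k := by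
  have h1 : (fun x : ℝ => Real.log x ^ 2) =o[atTop] fun x => x := by
    exact Real.isLittleO_pow_log_id_atTop (n := 2)
  have hc : (0 : ℝ) < 1 / (2 * (|A| + 1)) := by positivity
  have h2 := h1.bound hc
  have h3 : Tendsto (fun k : ℕ => (k : ℝ) + 2) atTop atTop :=
    tendsto_atTop_add_const_right _ _ tendsto_natCast_atTop_atTop
  filter_upwards [h3.eventually h2, eventually_ge_atTop 2] with k h4 h5
  have hk : (2 : ℝ) ≤ k := by exact_mod_cast h5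
  have hA : 0 < |A| + 1 := by positivity
  have hl2 : (0 : ℝ) ≤ Real.log ((k : ℝ) + 2) ^ 2 := sq_nonneg _
  have hk2 : (0 : ℝ) ≤ (k : ℝ) + 2 := by linarith
  simp only [Real.norm_eq_abs] at h4
  rw [abs_of_nonneg hl2, abs_of_nonneg hk2] at h4
  have h6 : A ≤ |A| + 1 := by linarith [le_abs_self A]
  have h7 : A * Real.log ((k : ℝ) + 2) * Real.log ((k : ℝ) + 2)
      ≤ (|A| + 1) * Real.log ((k : ℝ) + 2) ^ 2 := by
    have : A * Real.log ((k : ℝ) + 2) * Real.log ((k : ℝ) + 2)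
        = A * Real.log ((k : ℝ) + 2) ^ 2 := by ring
    rw [this]
    exact mul_le_mul_of_nonneg_right h6 (by positivity)
  have h8 : (|A| + 1) * Real.log ((k : ℝ) + 2) ^ 2
      ≤ (|A| + 1) * (1 / (2 * (|A| + 1)) * ((k : ℝ) + 2)) :=
    mul_le_mul_of_nonneg_left h4 hA.le
  have h9 : (|A| + 1) * (1 / (2 * (|A| + 1)) * ((k : ℝ) + 2)) = ((k : ℝ) + 2) / 2 := by
    field_simp
  linarith

theorem SqG_big {u : ℝ → ℝ} (hu : ∀ c : ℝ, 0 < c → ∀ᶠ T : ℝ in atTop, u T ≤ c * Real.log T)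
    (A : ℝ) : ∀ᶠ k : ℕ in atTop, A * Real.log (k + 2) ≤ SqG u k := by
  filter_upwards [SqP_ev hu 0, log_sq_small A] with k h1 h2
  have h3 := (SqB_spec h1).2
  have h4 : (0 : ℝ) < (SqB u k : ℝ) + 1 := by positivity
  have h5 : 0 < Real.log ((k : ℝ) + 2) := h4.trans_le h3
  refine le_trans ?_ (SqG_ge u k)
  refine le_trans ?_ (div_le_div_of_nonneg_left (Nat.cast_nonneg k) h4 h3)
  rw [le_div_iff₀ h5]
  exact h2

/-- the scale as an instance of `Sq` -/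
@[reducible] noncomputable def SqOf {u : ℝ → ℝ}
    (hu : ∀ c : ℝ, 0 < c → ∀ᶠ T : ℝ in atTop, u T ≤ c * Real.log T) : Sq where
  g := SqG u
  mono := SqG_mono u
  nonneg := SqG_nonneg u
  sub := SqG_sub hu
  big := SqG_big hu

theorem exists_SqU {u : ℝ → ℝ}
    (hu : ∀ c : ℝ, 0 < c → ∀ᶠ T : ℝ in atTop, u T ≤ c * Real.log T) :
    ∃ S : Sq, ∀ A : ℝ, 0 < A → ∀ᶠ k : ℕ in atTop, ∀ T : ℝ, 2 ^ k ≤ T → T ≤ 2 ^ (k + 4) →
      A * u T ≤ S.g k := by
  refine ⟨SqOf hu, fun A hA => ?_⟩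
  have h0 : Tendsto (fun j : ℕ => ((SqB u j : ℝ) + 1)) atTop atTop :=
    tendsto_atTop_add_const_right _ _ (tendsto_natCast_atTop_atTop.comp (SqB_top hu))
  filter_upwards [SqP_ev hu 0, h0.eventually_ge_atTop (5 * A), eventually_ge_atTop 1]
    with k h1 h2 h3 T hT1 hT2
  have hP := SqB_spec h1
  have hk : (1 : ℝ) ≤ k := by exact_mod_cast h3
  have hb : (0 : ℝ) < (SqB u k : ℝ) + 1 := by positivity
  have hT : 0 < T := lt_of_lt_of_le (by positivity) hT1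
  refine le_trans ?_ (SqG_ge u k)
  have h4 := hP.1 T hT1
  have h5 : Real.log T ≤ (k + 4) * Real.log 2 := by
    have := Real.log_le_log hT hT2
    rw [Real.log_pow] at this
    push_cast at this
    exact this
  have h6 : Real.log 2 ≤ 1 := by
    have := Real.log_two_lt_d9
    linarith
  have h7 : Real.log T ≤ 5 * k := by
    have : ((k : ℝ) + 4) * Real.log 2 ≤ (k + 4) * 1 :=
      mul_le_mul_of_nonneg_left h6 (by positivity)
    linarith
  rw [le_div_iff₀ hb]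
  have h8 : A * (u T * ((SqB u k : ℝ) + 1) ^ 2) ≤ A * (5 * k) :=
    mul_le_mul_of_nonneg_left (h4.trans h7) hA.le
  have h9 : A * (5 * k) ≤ ((SqB u k : ℝ) + 1) * k := by
    have := mul_le_mul_of_nonneg_right h2 (by positivity : (0 : ℝ) ≤ k)
    linarith
  have h10 : (A * u T * ((SqB u k : ℝ) + 1)) * ((SqB u k : ℝ) + 1)
      ≤ (k : ℝ) * ((SqB u k : ℝ) + 1) := by
    calc (A * u T * ((SqB u k : ℝ) + 1)) * ((SqB u k : ℝ) + 1)
        = A * (u T * ((SqB u k : ℝ) + 1) ^ 2) := by ring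
      _ ≤ ((SqB u k : ℝ) + 1) * k := h8.trans h9
      _ = (k : ℝ) * ((SqB u k : ℝ) + 1) := by ring
  exact le_of_mul_le_mul_right h10 hb

/-- `L0` arbitrary (no sign), `log (max 1 L0)` -/
theorem exists_SqM {L0 : ℝ → ℝ} (h : ∀ c : ℝ, 0 < c → ∀ᶠ T : ℝ in atTop, L0 T ≤ T ^ c) :
    ∃ S : Sq, ∀ A : ℝ, 0 < A → ∀ᶠ k : ℕ in atTop, ∀ T : ℝ, 2 ^ k ≤ T → T ≤ 2 ^ (k + 4) →
      A * Real.log (max 1 (L0 T)) ≤ S.g k := by
  refine exists_SqU fun c hc => ?_
  filter_upwards [h c hc, eventually_ge_atTop 1] with T h1 h2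
  have hT : 0 < T := by linarith
  rw [← Real.log_rpow hT]
  refine Real.log_le_log (by positivity) (max_le ?_ h1)
  exact Real.one_le_rpow h2 hc.le

/-- `L0` eventually positive -/
theorem exists_Sq {L0 : ℝ → ℝ} (hpos : ∀ᶠ T : ℝ in atTop, 0 < L0 T)
    (h : ∀ c : ℝ, 0 < c → ∀ᶠ T : ℝ in atTop, L0 T ≤ T ^ c) :
    ∃ S : Sq, ∀ A : ℝ, 0 < A → ∀ᶠ k : ℕ in atTop, ∀ T : ℝ, 2 ^ k ≤ T → T ≤ 2 ^ (k + 4) →
      A * Real.log (L0 T) ≤ S.g k := by
  refine exists_SqU fun c hc => ?_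
  filter_upwards [h c hc, hpos, eventually_gt_atTop 0] with T h1 h2 h3
  rw [← Real.log_rpow h3]
  exact Real.log_le_log h2 h1

end F37
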